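import Pool.Agent.Lib.MP_dd84fd_nt.KX.Defs

/-!
# Theorem M: the sieve weights (helper63; design: helper98)

Exceptional set `X^th`, `1/7 < th < 1/3`: a majorant `B` of the primes. Window `(X^τ, X^b]`,
`b = bI th e = th - 3 e`; level of the weights `X^ℓ`, `ℓ = lK th τ = (1+th)/2 - 2 τ`. A type without
window set and with `US T ≤ X` has at most six boxes, all of them `> X^b`. `x = log X`,
`b = (th - 3e) x`, `w = ℓ x`, `l = log log X`, `v j` = logarithm of the left end point of box `j`,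
`u = vE` (KX): `u(t) = 2 (t - b + 2 l + 1) / (x - 3 b)` for `t ≤ x - w`, `0` otherwise.

Weights: `lam S = 2 - [sg S < x/2 - 3 l] - Σ_{j ∈ S} u(v j)` for `#S` even,
`lam S = Σ_{j ∈ S} u(v j) - [sg S < x/2 - 3 l]` for `#S` odd, if `#S ≤ 3` and `sg S ≤ w`; `0` otherwise.
-/

set_option autoImplicit false

namespace Pool.MP_dd84fd_nt.MX

open Finset Pool.MP_dd84fd_nt.HX Pool.MP_dd84fd_nt.IY Pool.MP_dd84fd_nt.KX

/-- admissible parameters for Theorem M -/
def AdmM (th e τ : ℝ) : Prop := 1 / 7 < th ∧ th < 1 / 3 ∧ 0 < e ∧ 1000 * e ≤ τ ∧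
  16 * τ ≤ th - 1 / 7 ∧ 16 * τ ≤ 1 / 3 - th

/-- indicator of `s < x/2 - 3 l` -/
noncomputable def ph (x l s : ℝ) : ℝ := if s < x / 2 - 3 * l then 1 else 0

/-- sum of `u = vE` over the boxes -/
noncomputable def uS (v : ℕ → ℝ) (x b w l : ℝ) (S : Finset ℕ) : ℝ := ∑ j ∈ S, vE x b w l (v j)

/-- the weights of the majorant -/
noncomputable def lamM (v : ℕ → ℝ) (x b w l : ℝ) (S : Finset ℕ) : ℝ :=
  if S.card ≤ 3 ∧ sg v S ≤ w then
    (if Even S.card then 2 - ph x l (sg v S) - uS v x b w l S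
      else uS v x b w l S - ph x l (sg v S)) else 0

/-- the type function of the majorant -/
noncomputable def bmM (α β ℓ κ : ℝ) (X : ℕ) : Finset ℕ → ℝ :=
  Wl α β κ X (lamM (vlog κ (zt X)) (Real.log X) (β * Real.log X) (ℓ * Real.log X)
    (Real.log (Real.log X)))

/-- the majorant of the primes -/
noncomputable def bmG (th e τ : ℝ) (B' X : ℕ) : ℕ → ℝ :=
  wty (kp B' X) X (bmM τ (bI th e) (lK th τ) (kp B' X) X)

end Pool.MP_dd84fd_nt.MX
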