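import Pool.Agent.Lib.MP_dd84fd_nt.MX.SvCm
import Pool.Agent.Lib.MP_dd84fd_nt.IY.CCl

/-!
# Theorem M: the majorant `B` (helper63)

`tyM` (Lemma CL), `numM` (majorant of the primes), `bdM` (bounds), `mval` (values for the
numerics), `decM` (W2).
-/

set_option autoImplicit false

namespace Pool.MP_dd84fd_nt.MX

open Finset Pool.MP_dd84fd_nt.HX Pool.MP_dd84fd_nt.IY Pool.MP_dd84fd_nt.KX Pool.MP_dd84fd_nt.LX

/-! ### Parameters -/

private theorem l_big (c : ℝ) (hc : 0 < c) : ∃ X0 : ℕ, ∀ X : ℕ, X0 ≤ X →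
    1 ≤ X ∧ 4 ≤ Real.log X ∧ 1 ≤ Real.log (Real.log X) ∧ 2 ≤ zt X ∧ (X : ℝ) < (zt X : ℝ) ^ 11 ∧
      30 * Real.log (Real.log X) + 30 < c * Real.log X ∧ (X : ℝ) ^ (1 / 10 : ℝ) ≤ zt X := by
  obtain ⟨X1, hX1⟩ := b_par (1 / 8) (3 / 8) (by norm_num) (by norm_num) (by norm_num) 0
  have ht : Filter.Tendsto (fun X : ℕ => Real.log (X : ℝ)) Filter.atTop Filter.atTop :=
    Real.tendsto_log_atTop.comp tendsto_natCast_atTop_atTop
  have h1 := (Real.isLittleO_log_id_atTop.bound (show (0 : ℝ) < c / 100 by positivity))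
  have h2 : ∀ᶠ X : ℕ in Filter.atTop, ‖Real.log (Real.log (X : ℝ))‖ ≤
      c / 100 * ‖id (Real.log (X : ℝ))‖ := ht.eventually h1
  have h3 : ∀ᶠ X : ℕ in Filter.atTop, 100 / c ≤ Real.log (X : ℝ) := ht.eventually_ge_atTop _
  obtain ⟨X2, hX2⟩ := Filter.eventually_atTop.1 (h2.and h3)
  refine ⟨max X1 X2, fun X hX => ?_⟩
  obtain ⟨g1, g2, g3, g4, g5, _, g7, _⟩ := hX1 X (le_trans (le_max_left _ _) hX)
  obtain ⟨g8, g9⟩ := hX2 X (le_trans (le_max_right _ _) hX)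
  have g2' : 4 ≤ Real.log (X : ℝ) := by
    have := g2
    push_cast at this
    linarith
  refine ⟨g1, g2', g3, g4, g7, ?_, g5⟩
  rw [Real.norm_eq_abs, Real.norm_eq_abs, id, abs_of_nonneg (by linarith : (0:ℝ) ≤ Real.log X)] at g8
  have g10 := (le_abs_self _).trans g8
  have g11 : 100 ≤ c * Real.log X := by
    rw [div_le_iff₀ hc] at g9
    linarith
  linarith

theorem AdmM.pos {th e τ : ℝ} (h : AdmM th e τ) : 0 < τ := by
  obtain ⟨h1, h2, h3, h4, h5, h6⟩ := h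
  linarith

/-- admissible parameters exist -/
theorem exM (th : ℝ) (h1 : 1 / 7 < th) (h2 : th < 1 / 3) (τ0 : ℝ) (h0 : 0 < τ0) :
    ∃ e τ : ℝ, AdmM th e τ ∧ τ ≤ τ0 := by
  obtain ⟨τ, hτ⟩ : ∃ τ : ℝ, τ = min τ0 (min ((th - 1 / 7) / 16) ((1 / 3 - th) / 16)) := ⟨_, rfl⟩
  have t1 : τ ≤ τ0 := by rw [hτ]; exact min_le_left _ _
  have t2 : τ ≤ (th - 1 / 7) / 16 := by
    rw [hτ]
    exact (min_le_right _ _).trans (min_le_left _ _)
  have t3 : τ ≤ (1 / 3 - th) / 16 := by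
    rw [hτ]
    exact (min_le_right _ _).trans (min_le_right _ _)
  have t4 : 0 < τ := by
    rw [hτ]
    refine lt_min h0 (lt_min ?_ ?_) <;> linarith
  exact ⟨τ / 1000, τ, ⟨h1, h2, by linarith, by linarith, by linarith, by linarith⟩, t1⟩

/-- the inequalities between the parameters -/
theorem par_m {th e τ κ x l : ℝ} (hA : AdmM th e τ) (hl : 1 ≤ l) (hκ : 11 * κ ≤ 1)
    (hx : 30 * l + 30 < τ * x) :
    ParM κ x (τ * x) (bI th e * x) (lK th τ * x) l ∧ τ * x < x / 10 - l := by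
  obtain ⟨h1, h2, h3, h4, h5, h6⟩ := hA
  have ht0 : 0 < τ := by linarith
  have hx0 : 0 < x := by
    by_contra hc
    push Not at hc
    have : τ * x ≤ 0 := mul_nonpos_of_nonneg_of_nonpos ht0.le hc
    linarith
  have m1 : 0 ≤ (th - 1 / 7 - 16 * τ) * x := mul_nonneg (by linarith) hx0.le
  have m2 : 0 ≤ (τ - 1000 * e) * x := mul_nonneg (by linarith) hx0.le
  have m3 : 0 ≤ (1 / 3 - th - 16 * τ) * x := mul_nonneg (by linarith) hx0.le
  have m4 : 0 < e * x := mul_pos h3 hx0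
  have m5 : 0 ≤ (1 / 168 - τ) * x := mul_nonneg (by linarith) hx0.le
  unfold bI lK
  refine ⟨⟨hl, hκ, by positivity, ?_, ?_, ?_, ?_, ?_, ?_, ?_, ?_, ?_⟩, ?_⟩
  · nlinarith
  · nlinarith
  · nlinarith
  · nlinarith
  · nlinarith
  · nlinarith
  · nlinarith
  · nlinarith
  · nlinarith
  · nlinarith

/-- the types of the numbers in `(X5 X / 2, X]` -/
theorem ty_m {th e τ : ℝ} (hA : AdmM th e τ) (B' : ℕ) (hB : 1 ≤ B') : ∃ X0 : ℕ, ∀ X : ℕ, X0 ≤ X →
    ParM (kp B' X) (Real.log X) (τ * Real.log X) (bI th e * Real.log X) (lK th τ * Real.log X)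
      (Real.log (Real.log X)) ∧
    ∀ T : Finset ℕ, X5 X / 2 ≤ US (kp B' X) (zt X) T → US (kp B' X) (zt X) T ≤ X →
    T.card ≤ 10 ∧
    (¬ gdT (vlog (kp B' X) (zt X)) (kp B' X) (τ * Real.log X) (bI th e * Real.log X) T →
      TyM (vlog (kp B' X) (zt X)) (kp B' X) (Real.log X) (τ * Real.log X)
        (bI th e * Real.log X) (lK th τ * Real.log X) (Real.log (Real.log X)) T) ∧
    (T.card = 1 →
      ¬ gdT (vlog (kp B' X) (zt X)) (kp B' X) (τ * Real.log X) (bI th e * Real.log X) T) := by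
  obtain ⟨X1, hX1⟩ := l_big τ hA.pos
  obtain ⟨X3, hX3⟩ := kp_par B' hB
  refine ⟨max X1 X3, fun X hX => ?_⟩
  simp only [max_le_iff] at hX
  obtain ⟨g1, g2, g3, g4, g5, g6, gz⟩ := hX1 X hX.1
  obtain ⟨k1, k2, k3, _⟩ := hX3 X hX.2
  obtain ⟨p1, p3⟩ := par_m (κ := kp B' X) hA g3 (by linarith) g6
  refine ⟨p1, fun T hT1 hT2 => ?_⟩
  set κ := kp B' X with hκ
  set x := Real.log (X : ℝ) with hx
  set l := Real.log x with hl
  have hz1 : 1 ≤ zt X := by omega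
  have hzr : (1 : ℝ) ≤ zt X := by exact_mod_cast hz1
  have hzj : ∀ j, x / 10 - l ≤ vlog κ (zt X) j := by
    intro j
    rw [vlog_eq κ _ j hz1]
    have h3 : Real.log ((X : ℝ) ^ (1 / 10 : ℝ)) ≤ Real.log (zt X) :=
      Real.log_le_log (Real.rpow_pos_of_pos (by exact_mod_cast g1) _) gz
    rw [Real.log_rpow (by exact_mod_cast g1)] at h3
    have h4 : 0 ≤ κ * (j : ℝ) := by positivity
    linarith
  have hlog2 : Real.log 2 < 1 := by
    have := Real.log_two_lt_d9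
    linarith
  have hlog2' : 0 < Real.log 2 := Real.log_pos (by norm_num)
  have hXp : (0 : ℝ) < X := by exact_mod_cast g1
  have hxp : 0 < x := by linarith
  have hX5 : 0 < X5 X := by
    unfold X5
    positivity
  have hUp : 0 < US κ (zt X) T := lt_of_lt_of_le (by positivity) hT1
  have hlo : x - (Real.log 2 + 5 * l) ≤ sg (vlog κ (zt X)) T := by
    rw [← log_US κ _ hz1]
    have h3 := Real.log_le_log (by positivity) hT1
    have h4 : Real.log (X5 X / 2) = x - (Real.log 2 + 5 * l) := by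
      unfold X5
      rw [Real.log_div (by positivity) (by norm_num), Real.log_div hXp.ne' (by positivity),
        Real.log_pow]
      push_cast
      ring
    rw [h4] at h3
    exact h3
  have hhi : sg (vlog κ (zt X)) T ≤ x := by
    rw [← log_US κ _ hz1]
    exact Real.log_le_log hUp hT2
  have hT8 : T.card ≤ 10 := by
    by_contra hc
    have hc9 : 11 ≤ T.card := by omega
    have h5 : (zt X : ℝ) ^ T.card ≤ US κ (zt X) T := by
      unfold US
      rw [← Finset.prod_const]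
      refine Finset.prod_le_prod (fun _ _ => by positivity) fun j _ => ?_
      unfold ub
      have h6 : (1 : ℝ) ≤ Real.exp (κ * j) := Real.one_le_exp (by positivity)
      nlinarith
    have h7 : (zt X : ℝ) ^ 11 ≤ (zt X : ℝ) ^ T.card := pow_le_pow_right₀ hzr hc9
    linarith
  refine ⟨hT8, fun hg => ⟨p1, by linarith, hhi, fun j _ => lt_of_lt_of_le p3 (hzj j), hg⟩,
    fun hc1 => ?_⟩
  obtain ⟨j, rfl⟩ := Finset.card_eq_one.1 hc1
  rintro ⟨S, hS, hS1, hS2⟩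
  obtain ⟨q1, q2, q3, q4, q5, q6, q7, q8, q9, q10, q11, q12⟩ := p1
  rcases Finset.subset_singleton_iff.1 hS with rfl | rfl
  · have hsg0 : sg (vlog κ (zt X)) (∅ : Finset ℕ) = 0 := by simp [sg]
    rw [hsg0] at hS1
    linarith
  · linarith

/-- the values in terms of the sums over subsets -/
theorem rep_m {α β ℓ κ : ℝ} {X : ℕ} {T : Finset ℕ} (hT : T.card ≤ 10) :
    (gdT (vlog κ (zt X)) κ (α * Real.log X) (β * Real.log X) T → bmM α β ℓ κ X T = 0) ∧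
    (¬ gdT (vlog κ (zt X)) κ (α * Real.log X) (β * Real.log X) T →
      bmM α β ℓ κ X T = ∑ S ∈ T.powerset, lamM (vlog κ (zt X)) (Real.log X) (β * Real.log X)
        (ℓ * Real.log X) (Real.log (Real.log X)) S) := by
  unfold bmM Wl wT
  rw [if_pos hT]
  constructor
  · intro h
    rw [if_pos h]
  · intro h
    rw [if_neg h]

/-- Lemma CL for the types -/
theorem tyM {th e τ : ℝ} (hA : AdmM th e τ) (B' : ℕ) (hB : 1 ≤ B') : ∃ X0 : ℕ, ∀ X : ℕ, X0 ≤ X →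
    ∀ T : Finset ℕ, X5 X / 2 ≤ US (kp B' X) (zt X) T → US (kp B' X) (zt X) T ≤ X →
    (T.card = 1 → bmM τ (bI th e) (lK th τ) (kp B' X) X T = 1) ∧
    (2 ≤ T.card → 0 ≤ bmM τ (bI th e) (lK th τ) (kp B' X) X T) := by
  obtain ⟨X0, h⟩ := ty_m hA B' hB
  refine ⟨X0, fun X hX T hT1 hT2 => ?_⟩
  obtain ⟨_, h⟩ := h X hX
  obtain ⟨h1, h2, h3⟩ := h T hT1 hT2
  obtain ⟨e1, e2⟩ := rep_m (α := τ) (β := bI th e) (ℓ := lK th τ) (κ := kp B' X) (X := X) h1
  by_cases hg : gdT (vlog (kp B' X) (zt X)) (kp B' X) (τ * Real.log X) (bI th e * Real.log X) T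
  · rw [e1 hg]
    exact ⟨fun hc => absurd hg (h3 hc), fun _ => le_rfl⟩
  · rw [e2 hg]
    exact (h2 hg).cl

/-- Lemma CL in the form `TyCL`, with the trivial minorant -/
theorem tyclM {th e τ : ℝ} (hA : AdmM th e τ) (B' : ℕ) (hB : 1 ≤ B') : ∃ X0 : ℕ, ∀ X : ℕ,
    X0 ≤ X → IY.TyCL (kp B' X) X (fun T => if T.card = 1 then 1 else 0)
      (fun T => bmM τ (bI th e) (lK th τ) (kp B' X) X T - if T.card = 1 then 1 else 0) := by
  obtain ⟨X0, h⟩ := tyM hA B' hB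
  refine ⟨X0, fun X hX T hT1 hT2 => ?_⟩
  obtain ⟨h1, h2⟩ := h X hX T hT1 hT2
  refine ⟨fun hc => ?_, fun hc => ?_⟩
  · simp only [h1 hc, hc, if_true, sub_self, and_self]
  · have hc' : ¬ T.card = 1 := by omega
    simp only [hc', if_false, sub_zero, zero_add]
    exact ⟨le_rfl, h2 hc, h2 hc⟩

/-- `B` is a majorant of the primes -/
theorem numM {th e τ : ℝ} (hA : AdmM th e τ) (B' : ℕ) (hB : 1 ≤ B') : ∃ X0 : ℕ, ∀ X : ℕ,
    X0 ≤ X → ∀ n : ℕ, pI X n ≤ bmG th e τ B' X n ∧ 0 ≤ bmG th e τ B' X n := by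
  obtain ⟨X0, h⟩ := tyclM hA B' hB
  obtain ⟨X1, h'⟩ := cl_num B' hB
  refine ⟨max X0 X1, fun X hX n => ?_⟩
  obtain ⟨_, h2, _⟩ := h' X ((le_max_right _ _).trans hX) _ _ (h X ((le_max_left _ _).trans hX)) n
  have h4 : wty (kp B' X) X (fun T => if T.card = 1 then (1 : ℝ) else 0) n +
      wty (kp B' X) X (fun T => bmM τ (bI th e) (lK th τ) (kp B' X) X T -
        if T.card = 1 then (1 : ℝ) else 0) n = bmG th e τ B' X n := by
    unfold bmG wty
    split_ifs <;> ring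
  rw [h4] at h2
  have hpi0 : 0 ≤ pI X n := by
    unfold pI
    split_ifs <;> norm_num
  exact ⟨h2, hpi0.trans h2⟩

/-! ### Bounds and supports -/

theorem lamM_bd {v : ℕ → ℝ} {x b w l : ℝ} (h : 3 * b < x) (h2 : 2 * b + 2 * l + 1 ≤ w)
    (S : Finset ℕ) : |lamM v x b w l S| ≤ 6 := by
  have n0 : ∀ u, 0 ≤ vE x b w l u := fun u => vE_nonneg _ _ _ h.le
  have n1 : ∀ u, vE x b w l u ≤ 2 := fun u => vE_le h h2
  have p0 := ph_nonneg x l (sg v S)
  have p1 := ph_le x l (sg v S)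
  unfold lamM
  by_cases c : S.card ≤ 3 ∧ sg v S ≤ w
  · rw [if_pos c]
    have m2 : 0 ≤ uS v x b w l S := Finset.sum_nonneg fun j _ => n0 _
    have m3 : uS v x b w l S ≤ 6 := by
      have := Finset.sum_le_card_nsmul S (fun j => vE x b w l (v j)) 2 (fun j _ => n1 _)
      rw [nsmul_eq_mul] at this
      have c3 : (S.card : ℝ) ≤ 3 := by exact_mod_cast c.1
      unfold uS
      linarith
    rw [abs_le]
    split_ifs <;> constructor <;> linarith
  · rw [if_neg c]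
    norm_num

theorem lamM_supp {v : ℕ → ℝ} {x b w l : ℝ} {S : Finset ℕ} (h : lamM v x b w l S ≠ 0) :
    sg v S ≤ w := by
  by_contra hc
  exact h (lamM_w (not_le.1 hc))

private theorem wl_bd {α β κ : ℝ} {X : ℕ} {lam : Finset ℕ → ℝ} (h : ∀ S, |lam S| ≤ 2 ^ 13)
    (T : Finset ℕ) : |Wl α β κ X lam T| ≤ 2 ^ 23 := by
  unfold Wl wT
  split_ifs with h8 hg
  · simp
  · calc |∑ S ∈ T.powerset, lam S| ≤ ∑ S ∈ T.powerset, |lam S| := Finset.abs_sum_le_sum_abs _ _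
      _ ≤ ∑ _S ∈ T.powerset, (2 : ℝ) ^ 13 := Finset.sum_le_sum fun S _ => h S
      _ = 2 ^ T.card * 2 ^ 13 := by
          rw [Finset.sum_const, Finset.card_powerset, nsmul_eq_mul]
          push_cast
          ring
      _ ≤ 2 ^ 10 * 2 ^ 13 := by
          have : (2 : ℝ) ^ T.card ≤ 2 ^ 10 := pow_le_pow_right₀ (by norm_num) h8
          linarith
      _ ≤ 2 ^ 23 := by norm_num
  · simp

/-- bounds for the values -/
theorem bdM {th e τ : ℝ} (hA : AdmM th e τ) (B' : ℕ) : ∃ X0 : ℕ, ∀ X : ℕ, X0 ≤ X →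
    ∀ T : Finset ℕ, |bmM τ (bI th e) (lK th τ) (kp B' X) X T| ≤ 2 ^ 23 := by
  obtain ⟨X1, hX1⟩ := l_big τ hA.pos
  refine ⟨X1, fun X hX T => ?_⟩
  obtain ⟨g1, g2, g3, g4, g5, g6, gz⟩ := hX1 X hX
  obtain ⟨p1, p3⟩ := par_m (κ := 0) hA g3 (by norm_num) g6
  have h3b := p1.h3b
  exact wl_bd (fun S => (lamM_bd (by linarith) p1.h2b S).trans (by norm_num)) T

/-! ### Values for the numerics -/

/-- `2 (x - b - s - 4 l - 2) / (x - 3 b)` for `s > w` -/
noncomputable def bq (x b w l s : ℝ) : ℝ :=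
  if w < s then 2 * (x - b - s - 4 * l - 2) / (x - 3 * b) else 0

/-- `2 (x - 3 b - s + 6 l + 3) / (x - 3 b)` for `s ≥ x - w - 6 l` -/
noncomputable def cq (x b w l s : ℝ) : ℝ :=
  if x - w - 6 * l ≤ s then 2 * (x - 3 * b - s + 6 * l + 3) / (x - 3 * b) else 0

section
variable {v : ℕ → ℝ} {κ x a b w l : ℝ} {T : Finset ℕ}

theorem TyM.w4 (h : TyM v κ x a b w l T) (hc : T.card = 4) :
    (∃ d ∈ T, sg v T - w ≤ v d ∧
      ∑ S ∈ T.powerset, lamM v x b w l S ≤ nr x l (v d) + 2 * ed x w l (v d)) ∨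
    ((∀ j ∈ T, v j < sg v T - w) ∧ ∑ S ∈ T.powerset, lamM v x b w l S ≤
      6 - 4 * (x - 4 * b) / (x - 3 * b) - ∑ P ∈ T.powersetCard 2, bq x b w l (sg v P) +
      ∑ P ∈ T.powersetCard 2, nr x l (sg v P)) := by
  obtain ⟨g1, g2, g3, g4, g5, g6, g7, g8, g9, g10, g11, g12⟩ := h.par
  have hx3 : 0 < x - 3 * b := by linarith
  have hcR : (T.card : ℝ) = 4 := by exact_mod_cast hc
  by_cases hv : ∀ j ∈ T, v j < sg v T - w
  · right
    obtain ⟨k1, k2⟩ := h.b4a hc hv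
    have hv' : ∀ j ∈ T, v j ≤ x - w := fun j hj => by linarith [hv j hj, h.up]
    refine ⟨hv, k2.trans ?_⟩
    have e1 : 4 * (x - 4 * b) / (x - 3 * b) ≤ 2 * uS v x b w l T := by
      rw [h.U_eq hv', hcR, ← mul_div_assoc, div_le_div_iff_of_pos_right hx3]
      linarith [h.lo]
    have e2 : ∑ P ∈ T.powersetCard 2, bq x b w l (sg v P) ≤
        ∑ P ∈ T.powersetCard 2, bg w (sg v P) (uS v x b w l P) := by
      refine Finset.sum_le_sum fun P hP => ?_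
      rw [Finset.mem_powersetCard] at hP
      unfold bq bg
      by_cases c : w < sg v P
      · rw [if_pos c, if_pos c, uS_eq h hP.1 (fun j hj => hv' j (hP.1 hj)), hP.2,
          le_sub_iff_add_le, ← add_div, div_le_iff₀ hx3]
        push_cast
        linarith
      · rw [if_neg c, if_neg c]
    linarith
  · push Not at hv
    obtain ⟨d, hd, hv⟩ := hv
    exact Or.inl ⟨d, hd, hv, (h.b4b hc hd hv).2⟩

theorem TyM.v4 (h : TyM v κ x a b w l T) (hc : T.card = 4) :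
    ∑ S ∈ T.powerset, lamM v x b w l S ≤
      max 0 (6 - 4 * (x - 4 * b) / (x - 3 * b) - ∑ P ∈ T.powersetCard 2, bq x b w l (sg v P)) +
      ∑ P ∈ T.powersetCard 2, nr x l (sg v P) + ∑ j ∈ T, (nr x l (v j) + 2 * ed x w l (v j)) := by
  have m1 : 0 ≤ ∑ P ∈ T.powersetCard 2, nr x l (sg v P) :=
    Finset.sum_nonneg fun _ _ => nr_nonneg _ _ _
  have m3 : ∀ j ∈ T, 0 ≤ nr x l (v j) + 2 * ed x w l (v j) := by
    intro j _
    have := nr_nonneg x l (v j)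
    have := ed_nonneg x w l (v j)
    linarith
  rcases h.w4 hc with ⟨d, hd, _, k2⟩ | ⟨_, k2⟩
  · refine k2.trans ?_
    have m2 := Finset.single_le_sum m3 hd
    have := le_max_left 0 (6 - 4 * (x - 4 * b) / (x - 3 * b) -
      ∑ P ∈ T.powersetCard 2, bq x b w l (sg v P))
    linarith
  · refine k2.trans ?_
    have m2 : 0 ≤ ∑ j ∈ T, (nr x l (v j) + 2 * ed x w l (v j)) := Finset.sum_nonneg m3
    have := le_max_right 0 (6 - 4 * (x - 4 * b) / (x - 3 * b) -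
      ∑ P ∈ T.powersetCard 2, bq x b w l (sg v P))
    linarith

theorem TyM.v5 (h : TyM v κ x a b w l T) (hc : T.card = 5) :
    ∑ S ∈ T.powerset, lamM v x b w l S ≤ 6 - 6 * (x - 5 * b) / (x - 3 * b) +
      ∑ P ∈ T.powersetCard 2, (cq x b w l (sg v P) + nr x l (sg v P)) := by
  obtain ⟨g1, g2, g3, g4, g5, g6, g7, g8, g9, g10, g11, g12⟩ := h.par
  have hx3 : 0 < x - 3 * b := by linarith
  have hcR : (T.card : ℝ) = 5 := by exact_mod_cast hc
  have hlo := h.lo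
  have hup := h.up
  have hv' := h.lt5 (by omega)
  refine (h.b5 hc).2.trans ?_
  have e1 : 6 * (x - 5 * b) / (x - 3 * b) ≤ 3 * uS v x b w l T := by
    rw [h.U_eq hv', hcR, ← mul_div_assoc, div_le_div_iff_of_pos_right hx3]
    linarith
  have e2 : ∑ P ∈ T.powersetCard 2,
      ((if sg v T - w ≤ sg v P then uS v x b w l (T \ P) else 0) + nr x l (sg v P)) ≤
      ∑ P ∈ T.powersetCard 2, (cq x b w l (sg v P) + nr x l (sg v P)) := by
    refine Finset.sum_le_sum fun P hP => ?_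
    rw [Finset.mem_powersetCard] at hP
    have c3 : (T \ P).card = 3 := by
      rw [Finset.card_sdiff_of_subset hP.1]
      omega
    have e3 := sg_compl' v hP.1
    have e4 := h.sub_lo (Finset.sdiff_subset (s := T) (t := P))
    rw [c3] at e4
    push_cast at e4
    have e5 : uS v x b w l (T \ P) ≤ 2 * (x - 3 * b - sg v P + 6 * l + 3) / (x - 3 * b) := by
      rw [uS_eq h Finset.sdiff_subset (fun j hj => hv' j (Finset.sdiff_subset hj)), c3,
        div_le_div_iff_of_pos_right hx3]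
      push_cast
      linarith
    have e6 := uS_nonneg v (x := x) (b := b) w l (by linarith) (T \ P)
    unfold cq
    by_cases c : sg v T - w ≤ sg v P
    · rw [if_pos c, if_pos (by linarith)]
      linarith
    · rw [if_neg c]
      split_ifs
      · linarith
      · exact le_rfl
  linarith

theorem TyM.v6 (h : TyM v κ x a b w l T) (hc : T.card = 6) :
    ∑ S ∈ T.powerset, lamM v x b w l S ≤ 12 * (x - 6 * b + 12 * l + 6) / (x - 3 * b) +
      ∑ P ∈ T.powersetCard 3, nr x l (sg v P) := by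
  obtain ⟨g1, g2, g3, g4, g5, g6, g7, g8, g9, g10, g11, g12⟩ := h.par
  have hx3 : 0 < x - 3 * b := by linarith
  have hcR : (T.card : ℝ) = 6 := by exact_mod_cast hc
  have hup := h.up
  refine (h.b6 hc).2.trans ?_
  have e1 : 6 * uS v x b w l T ≤ 12 * (x - 6 * b + 12 * l + 6) / (x - 3 * b) := by
    rw [h.U_eq (h.lt5 (by omega)), hcR, ← mul_div_assoc, div_le_div_iff_of_pos_right hx3]
    linarith
  linarith

end

/-- the values on the types of the numbers in `(X5 X / 2, X]`, for the numerics; `x = log X`,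
`l = log log X`, `b = (th - 3e) x`, `w = lK th τ x` -/
theorem mval {th e τ : ℝ} (hA : AdmM th e τ) (B' : ℕ) (hB : 1 ≤ B') : ∃ X0 : ℕ, ∀ X : ℕ, X0 ≤ X →
    ∀ x l b w : ℝ, x = Real.log X → l = Real.log (Real.log X) → b = bI th e * Real.log X →
    w = lK th τ * Real.log X → ∀ v : ℕ → ℝ, v = vlog (kp B' X) (zt X) →
    ∀ B : Finset ℕ → ℝ, B = bmM τ (bI th e) (lK th τ) (kp B' X) X →
    ∀ T : Finset ℕ, X5 X / 2 ≤ US (kp B' X) (zt X) T → US (kp B' X) (zt X) T ≤ X →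
    (T.card = 1 → B T = 1) ∧
    (T.card = 2 → B T ≤ ∑ j ∈ T, (vE x b w l (v j) + nr x l (v j))) ∧
    (T.card = 3 → B T = 0 ∨ ((∀ j ∈ T, b - 1 ≤ v j) ∧
      B T ≤ 2 * (6 * l + 3) / (x - 3 * b) + ∑ j ∈ T, (nr x l (v j) + 2 * ed x w l (v j)))) ∧
    (T.card = 4 → B T = 0 ∨ ((∀ j ∈ T, b - 1 ≤ v j) ∧ B T ≤
      max 0 (6 - 4 * (x - 4 * b) / (x - 3 * b) - ∑ P ∈ T.powersetCard 2, bq x b w l (sg v P)) +
      ∑ P ∈ T.powersetCard 2, nr x l (sg v P) +
      ∑ j ∈ T, (nr x l (v j) + 2 * ed x w l (v j)))) ∧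
    (T.card = 5 → B T = 0 ∨ ((∀ j ∈ T, b - 1 ≤ v j) ∧ B T ≤
      6 - 6 * (x - 5 * b) / (x - 3 * b) +
      ∑ P ∈ T.powersetCard 2, (cq x b w l (sg v P) + nr x l (sg v P)))) ∧
    (T.card = 6 → B T = 0 ∨ ((∀ j ∈ T, b - 1 ≤ v j) ∧ B T ≤
      12 * (x - 6 * b + 12 * l + 6) / (x - 3 * b) + ∑ P ∈ T.powersetCard 3, nr x l (sg v P))) ∧
    (7 ≤ T.card → B T = 0) := by
  obtain ⟨X0, h⟩ := ty_m hA B' hB
  refine ⟨X0, ?_⟩
  rintro X hX x l b w rfl rfl rfl rfl v rfl B rfl T hT1 hT2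
  obtain ⟨p1, h⟩ := h X hX
  obtain ⟨h1, h2, h3⟩ := h T hT1 hT2
  obtain ⟨e1, e2⟩ := rep_m (α := τ) (β := bI th e) (ℓ := lK th τ) (κ := kp B' X) (X := X) h1
  have q6 := p1.h3b
  have ql := p1.hl
  have n0 : ∀ u, 0 ≤ vE (Real.log X) (bI th e * Real.log X) (lK th τ * Real.log X)
      (Real.log (Real.log X)) u := fun u => vE_nonneg _ _ _ (by linarith)
  have n1 : ∀ u, 0 ≤ nr (Real.log X) (Real.log (Real.log X)) u := fun u => nr_nonneg _ _ _
  by_cases hg : gdT (vlog (kp B' X) (zt X)) (kp B' X) (τ * Real.log X) (bI th e * Real.log X) T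
  · rw [e1 hg]
    refine ⟨fun hc => absurd hg (h3 hc), fun _ => ?_, fun _ => Or.inl rfl, fun _ => Or.inl rfl,
      fun _ => Or.inl rfl, fun _ => Or.inl rfl, fun _ => rfl⟩
    exact Finset.sum_nonneg fun j _ => add_nonneg (n0 _) (n1 _)
  · rw [e2 hg]
    have hK := h2 hg
    have hbx : ∀ j ∈ T, bI th e * Real.log X - 1 ≤ vlog (kp B' X) (zt X) j :=
      fun j hj => (hK.box hj).le
    exact ⟨hK.b1, fun hc => (hK.b2 hc).2, fun hc => Or.inr ⟨hbx, (hK.b3 hc).2⟩,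
      fun hc => Or.inr ⟨hbx, hK.v4 hc⟩, fun hc => Or.inr ⟨hbx, hK.v5 hc⟩,
      fun hc => Or.inr ⟨hbx, hK.v6 hc⟩, fun hc => absurd hK.card_le (by omega)⟩

/-- four boxes: the value is small if some box is above `sg T - w` -/
theorem mval4 {th e τ : ℝ} (hA : AdmM th e τ) (B' : ℕ) (hB : 1 ≤ B') : ∃ X0 : ℕ, ∀ X : ℕ, X0 ≤ X →
    ∀ x l b w : ℝ, x = Real.log X → l = Real.log (Real.log X) → b = bI th e * Real.log X →
    w = lK th τ * Real.log X → ∀ v : ℕ → ℝ, v = vlog (kp B' X) (zt X) →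
    ∀ B : Finset ℕ → ℝ, B = bmM τ (bI th e) (lK th τ) (kp B' X) X →
    ∀ T : Finset ℕ, X5 X / 2 ≤ US (kp B' X) (zt X) T → US (kp B' X) (zt X) T ≤ X →
    T.card = 4 → B T = 0 ∨ ((∀ j ∈ T, b - 1 ≤ v j) ∧ x - 6 * l ≤ sg v T ∧ sg v T ≤ x ∧
      ((∃ d ∈ T, sg v T - w ≤ v d ∧ B T ≤ nr x l (v d) + 2 * ed x w l (v d)) ∨
      ((∀ j ∈ T, v j < sg v T - w) ∧ B T ≤
        6 - 4 * (x - 4 * b) / (x - 3 * b) - ∑ P ∈ T.powersetCard 2, bq x b w l (sg v P) +
        ∑ P ∈ T.powersetCard 2, nr x l (sg v P)))) := by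
  obtain ⟨X0, h⟩ := ty_m hA B' hB
  refine ⟨X0, ?_⟩
  rintro X hX x l b w rfl rfl rfl rfl v rfl B rfl T hT1 hT2 hc
  obtain ⟨p1, h⟩ := h X hX
  obtain ⟨h1, h2, h3⟩ := h T hT1 hT2
  obtain ⟨e1, e2⟩ := rep_m (α := τ) (β := bI th e) (ℓ := lK th τ) (κ := kp B' X) (X := X) h1
  by_cases hg : gdT (vlog (kp B' X) (zt X)) (kp B' X) (τ * Real.log X) (bI th e * Real.log X) T
  · exact Or.inl (e1 hg)
  · rw [e2 hg]
    have hK := h2 hg
    exact Or.inr ⟨fun j hj => (hK.box hj).le, hK.lo, hK.up, hK.w4 hc⟩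

/-! ### (W2) -/

/-- (W2) for `B` -/
theorem decM (B : ℕ) : ∃ B0 : ℕ, ∀ B' : ℕ, B0 ≤ B' → ∃ C2 : ℕ, ∀ th e τ : ℝ, AdmM th e τ →
    JX.DecJ B C2 th e τ (bmG th e τ B') := by
  obtain ⟨B0, h⟩ := decK_types B
  refine ⟨B0, fun B' hB' => ?_⟩
  obtain ⟨C2, h⟩ := h B' hB'
  refine ⟨C2, fun th e τ hA => ?_⟩
  obtain ⟨X1, hX1⟩ := l_big τ hA.pos
  have hlog : 0 < Real.log (3 / 2 : ℝ) := Real.log_pos (by norm_num)
  obtain ⟨h1, h2, h3, h4, h5, h6⟩ := id hA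
  have ht0 : 0 < τ := by linarith
  have a2 : τ + 1 / 10 < bI th e := by unfold bI; linarith
  have a3 : bI th e < 1 / 2 := by unfold bI; linarith
  have a4 : lK th τ + τ < JX.lv th e := by
    unfold lK JX.lv
    rw [lt_min_iff]
    constructor <;> linarith
  refine decJ_of_decW (h τ (bI th e) (lK th τ) (JX.lv th e) ht0 a2 a3 a4 (fun X => lamM
      (vlog (kp B' X) (zt X)) (Real.log X) (bI th e * Real.log X) (lK th τ * Real.log X)
      (Real.log (Real.log X))) ⟨X1, fun X hX => ?_⟩)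
  obtain ⟨g1, g2, g3, g4, g5, g6, gz⟩ := hX1 X hX
  obtain ⟨p1, p3⟩ := par_m (κ := 0) hA g3 (by norm_num) g6
  have h3b := p1.h3b
  refine ⟨fun S => (lamM_bd (by linarith) p1.h2b S).trans (by norm_num), fun S hS => ?_⟩
  have := lamM_supp hS
  rw [sub_sub_cancel]
  linarith

end Pool.MP_dd84fd_nt.MX
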