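import Pool.Agent.Lib.MP_dd84fd_nt.MX.MScale
import Pool.Agent.Lib.MP_dd84fd_nt.MX.SvFam

/-!
# Theorem M from the numerics at `th → 1/7`

`Num1 b`: the density of the majorant is at most `b` for `th` close to `1/7`.  `ext_th`: from the exponent
`θ0` to the exponents `θ ≥ θ0` (fewer moduli, more exceptions).
-/

set_option autoImplicit false

namespace Pool.MP_dd84fd_nt.MX

open Finset Pool.MP_67663b_nt.Odd Pool.MP_dd84fd_nt.En Pool.MP_dd84fd_nt.E2 Pool.MP_dd84fd_nt.LS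
open Pool.MP_dd84fd_nt.GX Pool.MP_dd84fd_nt.HX Pool.MP_dd84fd_nt.IX
open Pool.MP_dd84fd_nt.JX (wP gP Adm ZJ DecJ)
open Pool.MP_dd84fd_nt.KX (ScG lK)
open Pool.MP_dd84fd_nt.IY (bI)
open Pool.MP_dd84fd_nt.LX

/-- the type function of the majorant at `(th, e, τ)` -/
noncomputable def bmT (th e τ : ℝ) (B' X : ℕ) : Finset ℕ → ℝ :=
  bmM τ (bI th e) (lK th τ) (IY.kp B' X) X

/-- the numerics of Theorem M: one number at `th → 1/7` -/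
def Num1 (b : ℝ) : Prop := ∃ d0 : ℝ, 0 < d0 ∧ ∀ th : ℝ, 1 / 7 < th → th < 1 / 7 + d0 →
  ∃ τ0 : ℝ, 0 < τ0 ∧ ∀ e τ : ℝ, AdmM th e τ → τ ≤ τ0 → NumMB bmT th e τ b

/-- the exponent `θ0` and the exponents `θ ≥ θ0` -/
theorem ext_th (Bad : ℕ → Prop) (C : ℕ) (θ0 : ℝ) (h0 : 0 < θ0)
    (H : ∀ ε : ℝ, 0 < ε → ∀ K : ℕ, ∃ X0 : ℕ, ∀ X : ℕ, X0 ≤ X → ∃ D : Finset ℕ,
      (D.card : ℝ) ≤ (Real.log X) ^ C ∧
      (∀ d ∈ D, (Real.log X) ^ K ≤ (d : ℝ) ∧ (d : ℝ) ≤ (X : ℝ) ^ (1 - θ0)) ∧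
      ∀ P : ℕ → Prop, ∀ _ : DecidablePred P,
        (∀ n, P n → Even n ∧ (∀ d ∈ D, (d : ℝ) ≤ (n : ℝ) ^ (1 - θ0) → ¬ d ∣ n) ∧ Bad n) →
        (((Icc 1 X).filter P).card : ℝ) ≤ (X : ℝ) ^ (θ0 + ε)) :
    ∀ θ ε : ℝ, θ0 ≤ θ → θ ≤ 1 → 0 < ε → ∀ K : ℕ, ∃ X0 : ℕ, ∀ X : ℕ, X0 ≤ X → ∃ D : Finset ℕ,
      (D.card : ℝ) ≤ (Real.log X) ^ C ∧
      (∀ d ∈ D, (Real.log X) ^ K ≤ (d : ℝ) ∧ (d : ℝ) ≤ (X : ℝ) ^ (1 - θ)) ∧
      ∀ P : ℕ → Prop, ∀ _ : DecidablePred P,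
        (∀ n, P n → Even n ∧ (∀ d ∈ D, (d : ℝ) ≤ (n : ℝ) ^ (1 - θ) → ¬ d ∣ n) ∧ Bad n) →
        (((Icc 1 X).filter P).card : ℝ) ≤ (X : ℝ) ^ (θ + ε) := by
  classical
  intro θ ε hθ hθ1 hε K
  obtain ⟨X1, hX1⟩ := H (ε / 2) (by positivity) K
  obtain ⟨X2, hX2⟩ := MP_log_pow 2 C (ε := ε / 2) (by positivity)
  obtain ⟨X3, hX3⟩ := MP_log_large 1
  refine ⟨max X1 (max X2 (max X3 1)), fun X hX => ?_⟩
  simp only [max_le_iff] at hX
  obtain ⟨x1, x2, x3, x4⟩ := hX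
  obtain ⟨D, d1, d2, d3⟩ := hX1 X x1
  have hpow := hX2 X x2
  have hL1 := hX3 X x3
  have hXp : (0 : ℝ) < X := by exact_mod_cast (by omega : 0 < X)
  have hX1r : (1 : ℝ) ≤ X := by exact_mod_cast x4
  have hθ0 : 0 ≤ θ := h0.le.trans hθ
  refine ⟨D.filter (fun d : ℕ => (d : ℝ) ≤ (X : ℝ) ^ (1 - θ)), ?_, ?_, ?_⟩
  · refine le_trans ?_ d1
    exact_mod_cast card_filter_le _ _
  · intro d hd
    rw [mem_filter] at hd
    exact ⟨(d2 d hd.1).1, hd.2⟩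
  · intro P hPd hP
    obtain ⟨Q, hQ⟩ : ∃ Q : ℕ → Prop, Q = fun n => P n ∧
      ∀ d ∈ D, (d : ℝ) ≤ (n : ℝ) ^ (1 - θ0) → ¬ d ∣ n := ⟨_, rfl⟩
    have hQd : DecidablePred Q := Classical.decPred Q
    have hb1 := d3 Q hQd (fun n hn => by
      rw [hQ] at hn
      obtain ⟨i1, i2, i3⟩ := hP n hn.1
      exact ⟨i1, hn.2, i3⟩)
    obtain ⟨E, hE⟩ : ∃ E : Finset ℕ, E = D.biUnion (fun d =>
      (Icc 1 ⌊(X : ℝ) ^ θ⌋₊).image (fun m => m * d)) := ⟨_, rfl⟩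
    have hEc : (E.card : ℝ) ≤ (Real.log X) ^ C * (X : ℝ) ^ θ := by
      have h1 : (E.card : ℝ) ≤ ∑ _d ∈ D, (X : ℝ) ^ θ := by
        rw [hE]
        have h2 : ((D.biUnion (fun d =>
            (Icc 1 ⌊(X : ℝ) ^ θ⌋₊).image (fun m => m * d))).card : ℝ) ≤
            ∑ d ∈ D, (((Icc 1 ⌊(X : ℝ) ^ θ⌋₊).image (fun m => m * d)).card : ℝ) := by
          exact_mod_cast card_biUnion_le
        refine h2.trans (sum_le_sum fun d _ => ?_)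
        have h3 : (((Icc 1 ⌊(X : ℝ) ^ θ⌋₊).image (fun m => m * d)).card : ℝ) ≤
            (⌊(X : ℝ) ^ θ⌋₊ : ℝ) := by
          have := card_image_le (s := Icc 1 ⌊(X : ℝ) ^ θ⌋₊) (f := fun m => m * d)
          rw [Nat.card_Icc, Nat.add_sub_cancel] at this
          exact_mod_cast this
        exact h3.trans (Nat.floor_le (by positivity))
      rw [sum_const, nsmul_eq_mul] at h1
      exact h1.trans (mul_le_mul_of_nonneg_right d1 (by positivity))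
    have hsub : (Icc 1 X).filter P ⊆ (Icc 1 X).filter Q ∪ E := by
      intro n hn
      rw [mem_filter, mem_Icc] at hn
      obtain ⟨⟨n1, n2⟩, n3⟩ := hn
      rw [mem_union]
      by_cases hc : ∀ d ∈ D, (d : ℝ) ≤ (n : ℝ) ^ (1 - θ0) → ¬ d ∣ n
      · left
        rw [mem_filter, mem_Icc]
        refine ⟨⟨n1, n2⟩, ?_⟩
        rw [hQ]
        exact ⟨n3, hc⟩
      · right
        push Not at hc
        obtain ⟨d, hd, hd1, hd2⟩ := hc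
        have hn0 : (0 : ℝ) < n := by exact_mod_cast (by omega : 0 < n)
        have hnX : (n : ℝ) ≤ X := by exact_mod_cast n2
        have hlt : (n : ℝ) ^ (1 - θ) < d := by
          by_contra hcon
          rw [not_lt] at hcon
          have h4 : d ∈ D.filter (fun d : ℕ => (d : ℝ) ≤ (X : ℝ) ^ (1 - θ)) := by
            rw [mem_filter]
            exact ⟨hd, hcon.trans (Real.rpow_le_rpow hn0.le hnX (by linarith))⟩
          exact (hP n n3).2.1 d h4 hcon hd2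
        obtain ⟨m, hm⟩ := hd2
        rw [hE, mem_biUnion]
        refine ⟨d, hd, ?_⟩
        rw [mem_image]
        refine ⟨m, ?_, by rw [hm, mul_comm]⟩
        have hd0 : (0 : ℝ) < d := lt_of_le_of_lt (Real.rpow_nonneg hn0.le _) hlt
        rw [mem_Icc]
        constructor
        · rcases Nat.eq_zero_or_pos m with h5 | h5
          · rw [h5] at hm
            omega
          · exact h5
        · refine Nat.le_floor ?_
          have h5 : (n : ℝ) = d * m := by exact_mod_cast hm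
          have h6 : (n : ℝ) = (n : ℝ) ^ (1 - θ) * (n : ℝ) ^ θ := by
            rw [← Real.rpow_add hn0]
            norm_num
          have h7 : (n : ℝ) ^ (1 - θ) * (n : ℝ) ^ θ ≤ d * (n : ℝ) ^ θ :=
            mul_le_mul_of_nonneg_right hlt.le (by positivity)
          have h8 : (d : ℝ) * m ≤ d * (n : ℝ) ^ θ := by
            rw [← h5]
            rw [← h6] at h7
            exact h7
          exact (le_of_mul_le_mul_left h8 hd0).trans (Real.rpow_le_rpow hn0.le hnX hθ0)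
    have hcard : (((Icc 1 X).filter P).card : ℝ) ≤ ((Icc 1 X).filter Q).card + E.card := by
      have := (card_le_card hsub).trans (card_union_le _ _)
      exact_mod_cast this
    have e1 : (X : ℝ) ^ (θ0 + ε / 2) ≤ (X : ℝ) ^ θ * (X : ℝ) ^ (ε / 2) := by
      rw [← Real.rpow_add hXp]
      exact Real.rpow_le_rpow_of_exponent_le hX1r (by linarith)
    have e2 : (X : ℝ) ^ (θ + ε) = (X : ℝ) ^ θ * (X : ℝ) ^ (ε / 2) * (X : ℝ) ^ (ε / 2) := by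
      rw [← Real.rpow_add hXp, ← Real.rpow_add hXp]
      congr 1
      ring
    have hA : 1 ≤ (X : ℝ) ^ (ε / 2) := Real.one_le_rpow hX1r (by positivity)
    have hB : 0 < (X : ℝ) ^ θ := by positivity
    have hLC : 1 ≤ (Real.log X) ^ C := one_le_pow₀ hL1
    have e3 : (Real.log X) ^ C * (X : ℝ) ^ θ ≤ (X : ℝ) ^ (ε / 2) / 2 * (X : ℝ) ^ θ :=
      mul_le_mul_of_nonneg_right (by linarith) hB.le
    have e4 : (X : ℝ) ^ (ε / 2) / 2 * (X : ℝ) ^ θ ≤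
        (X : ℝ) ^ θ * (X : ℝ) ^ (ε / 2) * (X : ℝ) ^ (ε / 2) / 2 := by
      have h5 : (X : ℝ) ^ θ * (X : ℝ) ^ (ε / 2) ≤
          (X : ℝ) ^ θ * (X : ℝ) ^ (ε / 2) * (X : ℝ) ^ (ε / 2) :=
        le_mul_of_one_le_right (by positivity) hA
      linarith
    have e5 : (X : ℝ) ^ θ * (X : ℝ) ^ (ε / 2) ≤
        (X : ℝ) ^ θ * (X : ℝ) ^ (ε / 2) * (X : ℝ) ^ (ε / 2) / 2 := by
      have h5 : 2 ≤ (X : ℝ) ^ (ε / 2) := by linarith
      have h6 : 0 ≤ (X : ℝ) ^ θ * (X : ℝ) ^ (ε / 2) := by positivity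
      have := mul_le_mul_of_nonneg_left h5 h6
      linarith
    rw [e2]
    linarith

/-- the majorant near `1/7` -/
theorem majSet (hadm : ∀ th e τ : ℝ, AdmM th e τ → Adm th e τ) (c C b : ℝ) (hb : 1 ≤ b)
    (hbc : (b - 1) ^ 2 < 1 - c) (hbC : b < C) (hN : Num1 b) : ∃ hi : ℝ, 1 / 7 < hi ∧ hi ≤ 1 / 3 ∧
    MajSet (1 / 7) hi (fun _ => c) (fun _ => C) AdmM bmT := by
  obtain ⟨d0, hd0, hN⟩ := hN
  refine ⟨min (1 / 7 + d0) (1 / 3), lt_min (by linarith) (by norm_num), min_le_right _ _, ?_⟩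
  refine ⟨hadm, fun th h1 h2 τ0 hτ0 => ?_, fun B => ?_, fun th e τ hA B' => ?_,
    fun th e τ hA B' hB => ?_, fun th h1 h2 => ?_⟩
  · exact exM th h1 (h2.trans_le (min_le_right _ _)) τ0 hτ0
  · exact decM B
  · obtain ⟨X0, h⟩ := bdM hA B'
    exact ⟨X0, fun X hX T => (h X hX T).trans (by norm_num)⟩
  · exact tyM hA B' hB
  · obtain ⟨τ0, hτ0, h⟩ := hN th h1 (h2.trans_le (min_le_left _ _))
    exact ⟨τ0, b, hτ0, hb, hbc, hbC, h⟩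

/-- Theorem M -/
theorem fin_m1 (hadm : ∀ th e τ : ℝ, AdmM th e τ → Adm th e τ) (c C' b : ℝ) (hb : 1 ≤ b)
    (hbc : (b - 1) ^ 2 < 1 - c) (hbC : b < C') (hN : Num1 b) (hG : GenL) (hP : DecPW) :
    ∃ C : ℕ, ∀ θ ε : ℝ,
    1 / 7 ≤ θ → θ ≤ 1 → 0 < ε → ∀ K : ℕ, ∃ X0 : ℕ, ∀ X : ℕ, X0 ≤ X → ∃ D : Finset ℕ,
      (D.card : ℝ) ≤ (Real.log X) ^ C ∧
      (∀ d ∈ D, (Real.log X) ^ K ≤ (d : ℝ) ∧ (d : ℝ) ≤ (X : ℝ) ^ (1 - θ)) ∧
      ∀ P : ℕ → Prop, ∀ _ : DecidablePred P,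
        (∀ n, P n → Even n ∧ (∀ d ∈ D, (d : ℝ) ≤ (n : ℝ) ^ (1 - θ) → ¬ d ∣ n) ∧
          BadM c C' n) →
        (((Icc 1 X).filter P).card : ℝ) ≤ (X : ℝ) ^ (θ + ε) := by
  obtain ⟨hi, h1, h2, hM⟩ := majSet hadm c C' b hb hbc hbC hN
  obtain ⟨C, hC⟩ := finM (1 / 7) hi (fun _ => c) (fun _ => C') AdmM bmT hM (by norm_num)
    (by linarith) (fun _ _ _ _ _ => le_rfl) (fun _ _ _ _ _ => le_rfl) hG hP
  exact ⟨C, ext_th (BadM c C') C (1 / 7) (by norm_num)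
    fun ε hε K => hC (1 / 7) ε le_rfl h1 hε K⟩

end Pool.MP_dd84fd_nt.MX
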