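import Pool.Agent.Lib.MP_dd84fd_nt.MX.TmL

/-!
# Theorem M, numerics: the value of the cell tree for four boxes (helper98)
-/

set_option autoImplicit false

namespace Pool.MP_dd84fd_nt.MX

set_option maxRecDepth 1000000 in
theorem tk4_4 : rootV (evA (leaf4 840 360 480) 840 361 2) 128 3 ≤ 19779618 := by
  decide +kernel

set_option maxRecDepth 1000000 in
theorem tk4_5 : rootV (evA (leaf4 840 360 480) 840 361 2) 131 3 ≤ 18573848 := by
  decide +kernel

end Pool.MP_dd84fd_nt.MX
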