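import Pool.Agent.Lib.MP_dd84fd_nt.MX.TmL

/-!
# Theorem M, numerics: the value of the cell tree for five boxes (helper98)
-/

set_option autoImplicit false

namespace Pool.MP_dd84fd_nt.MX

set_option maxRecDepth 1000000 in
theorem tk5_0 : rootV (evA (leaf5 420 180 240) 420 181 3) 60 1 ≤ 6264535 := by
  decide +kernel

set_option maxRecDepth 1000000 in
theorem tk5_1 : rootV (evA (leaf5 420 180 240) 420 181 3) 61 1 ≤ 5458248 := by
  decide +kernel

end Pool.MP_dd84fd_nt.MX
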