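import Pool.Agent.Lib.MP_dd84fd_nt.MX.TmC

/-!
# Theorem M, numerics: `P6M` from the value of the cell tree (helper98)
-/

set_option autoImplicit false

namespace Pool.MP_dd84fd_nt.MX

open Finset Pool.MP_67663b_nt.Odd Pool.MP_dd84fd_nt.En Pool.MP_dd84fd_nt.E2 Pool.MP_dd84fd_nt.HX
  Pool.MP_dd84fd_nt.IY Pool.MP_dd84fd_nt.KX Pool.MP_dd84fd_nt.LX

private theorem div_up (a b : ℕ) : (a : ℝ) / b ≤ ((a / b : ℕ) : ℝ) + 1 := by
  rw [← Nat.floor_div_eq_div (K := ℝ)]
  exact (Nat.lt_floor_add_one _).le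

private theorem leaf6_bd {G : ℕ} (hG : 0 < G) {a b c d e : ℕ} {α β γ δ ζ ε ν η : ℝ}
    (ha : (a : ℝ) ≤ G * α) (ha' : (G : ℝ) * α < a + 1)
    (hb : (b : ℝ) ≤ G * β) (hb' : (G : ℝ) * β < b + 1) (hc : (c : ℝ) ≤ G * γ)
    (hc' : (G : ℝ) * γ < c + 1) (hd : (d : ℝ) ≤ G * δ) (hd' : (G : ℝ) * δ < d + 1)
    (he : (e : ℝ) ≤ G * ζ) (he' : (G : ℝ) * ζ < e + 1)
    (hζ7 : 1 / 7 ≤ ζ) (hζε : ζ ≤ ε) (hν : ν ≤ 1) (hη : 0 < η) (hη7 : η ≤ 1 / 100)
    (hν' : 1 - η ≤ ν) (hε : ε = ν - (α + β + γ + δ + ζ)) (he1 : 1 ≤ e) :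
    ν / ε ≤ (1 + 7 * η) * ((leaf6 G e (a + b + c + d + e) [e, d, c, b, a] : ℕ) / 10 ^ 9) := by
  have hG0 : (0 : ℝ) < G := by exact_mod_cast hG
  have hε0 : 0 < ε := by linarith
  have hν0 : 0 ≤ ν := by linarith
  have hcond1 : ¬ G < a + b + c + d + e + e := by
    intro h
    have h1 : (G : ℝ) < a + b + c + d + e + e := by exact_mod_cast h
    have h2 : (G : ℝ) * ζ ≤ G * ε := mul_le_mul_of_nonneg_left hζε hG0.le
    have h3 : (G : ℝ) * ε = G * ν - (G * α + G * β + G * γ + G * δ + G * ζ) := by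
      rw [hε]
      ring
    have h4 : (G : ℝ) * ν ≤ G := by nlinarith
    linarith
  have e0 : leaf6 G e (a + b + c + d + e) [e, d, c, b, a] =
      (if G < a + b + c + d + e + e then 0 else
      10 ^ 9 * G / (max e (G - (a + b + c + d + e) - 5)) + 1) := rfl
  rw [e0, if_neg hcond1]
  set m := max e (G - (a + b + c + d + e) - 5) with hm
  have hm1 : 0 < m := lt_of_lt_of_le he1 (le_max_left _ _)
  have hm0 : (0 : ℝ) < m := by exact_mod_cast hm1
  have hq : ν / ε ≤ (1 + 7 * η) * (G / m : ℝ) := by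
    refine quot_bd hη (by linarith) hm1 ?_
    have hGη0 : 0 < (G : ℝ) * η := by positivity
    rcases le_total e (G - (a + b + c + d + e) - 5) with h | h
    · have hmm : m = G - (a + b + c + d + e) - 5 := by rw [hm]; exact max_eq_right h
      have h3 : a + b + c + d + e + 5 ≤ G := by omega
      have h4 : (m : ℝ) = G - (a + b + c + d + e) - 5 := by
        rw [hmm, Nat.sub_sub, Nat.cast_sub h3]
        push_cast
        ring
      have h5 : ν * m ≤ m := by nlinarith
      have h6 : (G : ℝ) * ε = G - G * (1 - ν) - (G * α + G * β + G * γ + G * δ + G * ζ) := by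
        rw [hε]
        ring
      have h7 : (G : ℝ) * (1 - ν) ≤ G * η := mul_le_mul_of_nonneg_left (by linarith) hG0.le
      linarith
    · have hmm : m = e := by rw [hm]; exact max_eq_left h
      rw [hmm]
      have h5 : ν * e ≤ e := by
        have : (0 : ℝ) ≤ e := Nat.cast_nonneg e
        nlinarith
      have h6 : (G : ℝ) * ζ ≤ G * ε := mul_le_mul_of_nonneg_left hζε hG0.le
      linarith
  refine hq.trans ?_
  have h2 := div_up (10 ^ 9 * G) m
  refine mul_le_mul_of_nonneg_left ?_ (by positivity)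
  rw [le_div_iff₀ (by positivity)]
  push_cast at h2 ⊢
  have e : (G : ℝ) / m * 10 ^ 9 = 10 ^ 9 * G / m := by
    field_simp
  norm_num at e h2 ⊢
  linarith

theorem leaf6_zero (G : ℕ) (l : List ℕ) (h : G < l.sum + l.headD 0) :
    leaf6 G (l.headD 0) l.sum l = 0 := by
  unfold leaf6
  split
  · rename_i e d c b a
    have : (e :: d :: c :: b :: a :: ([] : List ℕ)).headD 0 = e := rfl
    rw [this] at h
    rw [if_pos h]
  · rfl

open Classical in
theorem p6_of (G A h0 v : ℕ) (hG : 20 ≤ G) (hA : 7 * A = 3 * G)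
    (hh : 7 * h0 = G)
    (hv : rootV (evA (leaf6 G) G (A + 1) 4) h0 (min (A + 1) (G / 6 + 1) - h0) ≤ v) :
    P6M (v / 10 ^ 9 * (1 + 1 / 10 ^ 6)) := by
  obtain ⟨X1, hX1⟩ := tree_val G h0 (A + 1) 4 v hG (by omega) (by omega) (by omega)
    (leaf6 G) (leaf6_zero G) hv
  have hG0 : (0 : ℝ) < G := by
    have : 0 < G := by omega
    exact_mod_cast this
  have hGR : (20 : ℝ) ≤ G := by exact_mod_cast hG
  obtain ⟨η, hη⟩ : ∃ η : ℝ, η = 1 / (7 * 10 ^ 6) := ⟨_, rfl⟩
  have hη0 : 0 < η := by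
    rw [hη]
    norm_num
  have hη7 : η ≤ 1 / 100 := by
    rw [hη]
    norm_num
  have hη2 : 7 * η = 1 / 10 ^ 6 := by
    rw [hη]
    norm_num
  obtain ⟨X2, hX2⟩ := logn_near η hη0
  refine ⟨max (max X1 X2) 2, fun X hX n hn hnX => ?_⟩
  obtain ⟨hL1, hlog⟩ := hX2 X (by omega)
  obtain ⟨hn1, hn2⟩ := hlog n hn hnX
  set L := Real.log (X : ℝ) with hL
  have hL0 : 0 < L := by linarith
  have hn0 : (0 : ℝ) < n := by
    have h1 : 0 < X5 X := by
      unfold X5
      have h2 : (0 : ℝ) < X := by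
        have : 0 < X := by omega
        exact_mod_cast this
      positivity
    exact h1.trans hn
  set ν := Real.log n / L with hν
  have hν1 : ν ≤ 1 := (div_le_one hL0).2 hn2
  have hν2 : 1 - η ≤ ν := by
    rw [hν, le_div_iff₀ hL0]
    exact hn1
  have hdata : ∀ k ∈ KQ6 X n (1 / 7), ∃ p q r t o : ℕ,
      k ∈ Icc 1 X ∧ 1 / 7 ≤ Real.log o / L ∧ 1 / 7 ≤ Real.log t / L ∧ 1 / 7 ≤ Real.log r / L ∧
      1 / 7 ≤ Real.log q / L ∧
      1 / 7 ≤ Real.log p / L ∧ Real.log p / L ≤ Real.log ((n : ℝ) / k) / L ∧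
      Real.log ((n : ℝ) / k) / L =
        ν - (Real.log o / L + Real.log t / L + Real.log r / L + Real.log q / L + Real.log p / L) ∧
      k.primeFactorsList = [o, t, r, q, p] ∧ Squarefree k ∧
      k.primeFactors.card = 5 ∧ (∀ u ∈ k.primeFactors, u = o ∨ u = t ∨ u = r ∨ u = q ∨ u = p) := by
    intro k hk
    unfold KQ6 at hk
    rw [mem_filter] at hk
    obtain ⟨hkX, p, q, r, t, o, hp, hq, hr, ht, ho, h1, h2, h2', h2'', hkk, h3, h4⟩ := hk
    have ho0 : (0 : ℝ) < o := by exact_mod_cast ho.pos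
    have ht0 : (0 : ℝ) < t := by exact_mod_cast ht.pos
    have hr0 : (0 : ℝ) < r := by exact_mod_cast hr.pos
    have hq0 : (0 : ℝ) < q := by exact_mod_cast hq.pos
    have hp0 : (0 : ℝ) < p := by exact_mod_cast hp.pos
    have hot : Real.log o ≤ Real.log t := Real.log_le_log ho0 (by exact_mod_cast h2''.le)
    have htr : Real.log t ≤ Real.log r := Real.log_le_log ht0 (by exact_mod_cast h2'.le)
    have hrq : Real.log r ≤ Real.log q := Real.log_le_log hr0 (by exact_mod_cast h2.le)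
    have hqp : Real.log q ≤ Real.log p := Real.log_le_log hq0 (by exact_mod_cast h1.le)
    have hprod : k = [o, t, r, q, p].prod := by
      rw [hkk]
      simp only [List.prod_cons, List.prod_nil, mul_one]
      ring
    have hs : [o, t, r, q, p].Pairwise (fun a b => a < b) := by
      simp only [List.pairwise_cons, List.mem_cons, List.not_mem_nil, or_false,
        forall_eq_or_imp, forall_eq, List.Pairwise.nil, and_true]
      refine ⟨⟨h2'', h2''.trans h2', (h2''.trans h2').trans h2,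
        ((h2''.trans h2').trans h2).trans h1⟩, ⟨h2', h2'.trans h2, (h2'.trans h2).trans h1⟩,
        ⟨h2, h2.trans h1⟩, h1, ?_⟩
      simp
    have hpr : ∀ u ∈ [o, t, r, q, p], u.Prime := by
      intro u hu
      simp only [List.mem_cons, List.not_mem_nil, or_false] at hu
      rcases hu with rfl | rfl | rfl | rfl | rfl
      · exact ho
      · exact ht
      · exact hr
      · exact hq
      · exact hp
    have hklog : Real.log ((n : ℝ) / k) =
        Real.log n - (Real.log o + Real.log t + Real.log r + Real.log q + Real.log p) := by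
      have hk0 : (k : ℝ) = p * q * r * t * o := by
        rw [hkk]
        push_cast
        ring
      rw [hk0, Real.log_div hn0.ne' (by positivity), Real.log_mul (by positivity) ho0.ne',
        Real.log_mul (by positivity) ht0.ne',
        Real.log_mul (by positivity) hr0.ne', Real.log_mul hp0.ne' hq0.ne']
      ring
    obtain ⟨c1, c2⟩ := card_of hs hpr
    refine ⟨p, q, r, t, o, hkX, ?_, ?_, ?_, ?_, ?_, ?_, ?_, ?_, ?_, ?_, ?_⟩
    · rw [le_div_iff₀ hL0]
      exact h3
    · rw [le_div_iff₀ hL0]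
      linarith
    · rw [le_div_iff₀ hL0]
      linarith
    · rw [le_div_iff₀ hL0]
      linarith
    · rw [le_div_iff₀ hL0]
      linarith
    · exact div_le_div_of_nonneg_right h4 hL0.le
    · rw [hklog, hν]
      ring
    · rw [hprod]
      exact pfl_of (hs.imp fun h => h.le) hpr
    · rw [hprod]
      exact sqf_of hs hpr
    · rw [hprod, c1]
      rfl
    · intro u hu
      rw [hprod] at hu
      have := (c2 u).1 hu
      simpa using this
  have hKh : ∀ k ∈ KQ6 X n (1 / 7), k ∈ Icc 1 X ∧ Squarefree k ∧ k.primeFactors.card = 4 + 1 ∧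
      ∀ p ∈ k.primeFactors, h0 ≤ cel (PG G) X p ∧ cel (PG G) X p < A + 1 := by
    intro k hk
    obtain ⟨p, q, r, t, o, hkX, a00, a0, a1, a2, a3, a4, a5, a7, a8, a9, a10⟩ := hdata k hk
    refine ⟨hkX, a8, a9, fun u hu => ?_⟩
    have hlo : 1 / 7 ≤ Real.log u / L ∧ Real.log u / L ≤ 3 / 7 := by
      rcases a10 u hu with rfl | rfl | rfl | rfl | rfl
      · exact ⟨a00, by linarith⟩
      · exact ⟨a0, by linarith⟩
      · exact ⟨a1, by linarith⟩
      · exact ⟨a2, by linarith⟩
      · exact ⟨a3, by linarith⟩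
    obtain ⟨b1, b2⟩ := cel_exp (G := G) (p := u) hL0
    rw [← hL] at b1 b2
    have hhR : 7 * (h0 : ℝ) = G := by exact_mod_cast hh
    have hAR : 7 * (A : ℝ) = 3 * G := by exact_mod_cast hA
    have c1 : (G : ℝ) * (1 / 7) ≤ G * (Real.log u / L) := mul_le_mul_of_nonneg_left hlo.1 hG0.le
    have c2 : (G : ℝ) * (Real.log u / L) ≤ G * (3 / 7) := mul_le_mul_of_nonneg_left hlo.2 hG0.le
    constructor
    · have : (h0 : ℝ) < (cel (PG G) X u : ℝ) + 1 := by linarith
      have : h0 < cel (PG G) X u + 1 := by exact_mod_cast this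
      omega
    · have : (cel (PG G) X u : ℝ) < (A : ℝ) + 1 := by linarith
      exact_mod_cast this
  have key := hX1 X (by omega) (KQ6 X n (1 / 7)) hKh
    (fun k => (Real.log n / Real.log ((n : ℝ) / k)) / (1 + 7 * η)) (by
    intro k hk
    obtain ⟨p, q, r, t, o, hkX, a00, a0, a1, a2, a3, a4, a5, a7, a8, a9, a10⟩ := hdata k hk
    obtain ⟨ha, ha'⟩ := cel_exp (G := G) (p := o) hL0
    obtain ⟨hb, hb'⟩ := cel_exp (G := G) (p := t) hL0
    obtain ⟨hc, hc'⟩ := cel_exp (G := G) (p := r) hL0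
    obtain ⟨hd, hd'⟩ := cel_exp (G := G) (p := q) hL0
    obtain ⟨he, he'⟩ := cel_exp (G := G) (p := p) hL0
    rw [← hL] at ha ha' hb hb' hc hc' hd hd' he he'
    have hlist : (cL (PG G) X k).reverse = [cel (PG G) X p, cel (PG G) X q, cel (PG G) X r,
        cel (PG G) X t, cel (PG G) X o] := by
      unfold cL
      rw [a7]
      simp
    rw [hlist]
    have hsum : [cel (PG G) X p, cel (PG G) X q, cel (PG G) X r, cel (PG G) X t,
        cel (PG G) X o].sum = cel (PG G) X o + cel (PG G) X t + cel (PG G) X r +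
          cel (PG G) X q + cel (PG G) X p := by
      simp only [List.sum_cons, List.sum_nil]
      ring
    rw [hsum]
    have hd1 : 1 ≤ cel (PG G) X p := by
      have := (hKh k hk).2.2.2 p (by
        rw [Nat.primeFactors, a7]
        simp)
      omega
    have hb5 := leaf6_bd (G := G) (by omega) ha ha' hb hb' hc hc' hd hd' he he'
      a3 a4 hν1 hη0 hη7 hν2 a5 hd1
    have hδ0 : 0 < Real.log ((n : ℝ) / k) / L := by linarith
    have e1 : ν / (Real.log ((n : ℝ) / k) / L) = Real.log n / Real.log ((n : ℝ) / k) := by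
      rw [hν]
      field_simp
    rw [e1] at hb5
    rw [div_le_iff₀ (by positivity)]
    refine hb5.trans (le_of_eq ?_)
    show _ = ((leaf6 G (cel (PG G) X p) _ _ : ℕ) : ℝ) / 10 ^ 9 * (1 + 7 * η)
    ring)
  have e : ∑ k ∈ KQ6 X n (1 / 7), (Real.log n / (k * Real.log ((n : ℝ) / k))) =
      (∑ k ∈ KQ6 X n (1 / 7),
        ((Real.log n / Real.log ((n : ℝ) / k)) / (1 + 7 * η)) / k) * (1 + 7 * η) := by
    rw [sum_mul]
    refine sum_congr rfl fun k _ => ?_
    have : (1 + 7 * η) ≠ 0 := by positivity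
    field_simp
  rw [e]
  have h5 : 0 ≤ (v : ℝ) / 10 ^ 9 := by positivity
  calc _ ≤ (v : ℝ) / 10 ^ 9 * (1 + 7 * η) := mul_le_mul_of_nonneg_right key (by positivity)
    _ ≤ _ := mul_le_mul_of_nonneg_left (by linarith) h5

end Pool.MP_dd84fd_nt.MX
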