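import Pool.Agent.Lib.MP_dd84fd_nt.MX.TmD
import Pool.Agent.Lib.MP_dd84fd_nt.MX.TmE
import Pool.Agent.Lib.MP_dd84fd_nt.MX.Tk4a
import Pool.Agent.Lib.MP_dd84fd_nt.MX.Tk4b
import Pool.Agent.Lib.MP_dd84fd_nt.MX.Tk4c
import Pool.Agent.Lib.MP_dd84fd_nt.MX.Tk4d
import Pool.Agent.Lib.MP_dd84fd_nt.MX.Tk4e
import Pool.Agent.Lib.MP_dd84fd_nt.MX.Tk4f
import Pool.Agent.Lib.MP_dd84fd_nt.MX.Tk4g
import Pool.Agent.Lib.MP_dd84fd_nt.MX.Tk5a
import Pool.Agent.Lib.MP_dd84fd_nt.MX.Tk5b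
import Pool.Agent.Lib.MP_dd84fd_nt.MX.Tk5c
import Pool.Agent.Lib.MP_dd84fd_nt.MX.Tk5d
import Pool.Agent.Lib.MP_dd84fd_nt.MX.Tk6a

/-!
# Theorem M, numerics: `P4M`, `P5M`, `P6M` (helper98)
-/

set_option autoImplicit false

namespace Pool.MP_dd84fd_nt.MX

theorem P4M.mono {C D : ℝ} (h : P4M C) (hCD : C ≤ D) : P4M D := by
  obtain ⟨X0, h⟩ := h
  exact ⟨X0, fun X hX n h1 h2 W hW => (h X hX n h1 h2 W hW).trans hCD⟩

theorem P5M.mono {C D : ℝ} (h : P5M C) (hCD : C ≤ D) : P5M D := by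
  obtain ⟨X0, h⟩ := h
  exact ⟨X0, fun X hX n h1 h2 W hW => (h X hX n h1 h2 W hW).trans hCD⟩

theorem P6M.mono {C D : ℝ} (h : P6M C) (hCD : C ≤ D) : P6M D := by
  obtain ⟨X0, h⟩ := h
  exact ⟨X0, fun X hX n h1 h2 => (h X hX n h1 h2).trans hCD⟩

theorem p4M : P4M (27997 / 10 ^ 5) := by
  have h := p4_of 840 360 480 120 (v := 279964954) (by norm_num) (by norm_num) (by norm_num) (by norm_num)
    (by
      have e : min (360 + 1) (840 / 4 + 1) - 120 = 91 := by norm_num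
      rw [e]
      have hh := (root_comb (root_comb (root_comb (root_comb (root_comb (root_comb (root_comb (root_comb (root_comb (root_comb (root_comb (root_comb (root_comb tk4_0 tk4_1) tk4_2) tk4_3) tk4_4) tk4_5) tk4_6) tk4_7) tk4_8) tk4_9) tk4_10) tk4_11) tk4_12) tk4_13)
      simpa only [Nat.reduceAdd] using hh)
  exact h.mono (by norm_num)

theorem p5M : P5M (3886 / 10 ^ 5) := by
  have h := p5_of 420 180 240 60 (v := 38853615) (by norm_num) (by norm_num) (by norm_num) (by norm_num)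
    (by
      have e : min (180 + 1) (420 / 5 + 1) - 60 = 25 := by norm_num
      rw [e]
      have hh := (root_comb (root_comb (root_comb (root_comb (root_comb (root_comb (root_comb tk5_0 tk5_1) tk5_2) tk5_3) tk5_4) tk5_5) tk5_6) tk5_7)
      simpa only [Nat.reduceAdd] using hh)
  exact h.mono (by norm_num)

theorem p6M : P6M (54 / 10 ^ 6) := by
  have h := p6_of 280 120 40 (v := 53274) (by norm_num) (by norm_num) (by norm_num)
    (by
      have e : min (120 + 1) (280 / 6 + 1) - 40 = 7 := by norm_num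
      rw [e]
      have hh := tk6_0
      simpa only [Nat.reduceAdd] using hh)
  exact h.mono (by norm_num)

end Pool.MP_dd84fd_nt.MX
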