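import Pool.Agent.Lib.MP_dd84fd_nt.MX.NMf
import Pool.Agent.Lib.MP_dd84fd_nt.MX.TmF

/-!
# Theorem M, numerics: `num1 : Num1 (1 + 9869/10000)` (helper88, helper98)
-/

set_option autoImplicit false

namespace Pool.MP_dd84fd_nt.MX

theorem num1 : Num1 (1 + 9869 / 10000) :=
  num1_of (27997 / 10 ^ 5) (3886 / 10 ^ 5) (54 / 10 ^ 6) _ p4M p5M p6M (by norm_num)

end Pool.MP_dd84fd_nt.MX
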