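import Pool.Agent.Lib.MP_dd84fd_nt.LX.Main
import Pool.Agent.Lib.MP_dd84fd_nt.MX.MFin
import Pool.Agent.Lib.MP_dd84fd_nt.MX.NMg

/-!
# Theorem M
-/

set_option autoImplicit false

namespace Pool.MP_dd84fd_nt.MX

theorem AdmM.adm {th e τ : ℝ} (h : AdmM th e τ) : JX.Adm th e τ := by
  obtain ⟨h1, h2, h3, h4, h5, h6⟩ := h
  exact ⟨by linarith, by linarith, h3, by linarith, h4⟩

theorem fin_m : ∃ C : ℕ, ∀ θ ε : ℝ,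
    1 / 7 ≤ θ → θ ≤ 1 → 0 < ε → ∀ K : ℕ, ∃ X0 : ℕ, ∀ X : ℕ, X0 ≤ X → ∃ D : Finset ℕ,
      (D.card : ℝ) ≤ (Real.log X) ^ C ∧
      (∀ d ∈ D, (Real.log X) ^ K ≤ (d : ℝ) ∧ (d : ℝ) ≤ (X : ℝ) ^ (1 - θ)) ∧
      ∀ P : ℕ → Prop, ∀ _ : DecidablePred P,
        (∀ n, P n → Even n ∧ (∀ d ∈ D, (d : ℝ) ≤ (n : ℝ) ^ (1 - θ) → ¬ d ∣ n) ∧
          BadM (1 / 40) 2 n) →
        (((Finset.Icc 1 X).filter P).card : ℝ) ≤ (X : ℝ) ^ (θ + ε) :=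
  fin_m1 (fun _ _ _ h => h.adm) (1 / 40) 2 (1 + 9869 / 10000) (by norm_num) (by norm_num)
    (by norm_num) num1 Pool.MP_dd84fd_nt.LX.genL Pool.MP_dd84fd_nt.LX.decPW

end Pool.MP_dd84fd_nt.MX
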