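import Pool.Agent.Lib.MP_dd84fd_nt.LX.LFab

/-!
# MX-MLow: bounds for `g` from a majorant

`g ≥ 2 P * B - B * B` (up to small primes), because `(B - P) * (B - P) ≥ 0`; the main term is
`p * p - (β - p) * (β - p)` for the densities `p ≤ β`.  `g ≤ P * B` as `0 ≤ P ≤ B`.
-/

set_option autoImplicit false

namespace Pool.MP_dd84fd_nt.MX

open Finset Pool.MP_67663b_nt.Odd Pool.MP_dd84fd_nt.En Pool.MP_dd84fd_nt.E2 Pool.MP_dd84fd_nt.HX
  Pool.MP_dd84fd_nt.IX Pool.MP_dd84fd_nt.IY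
open Pool.MP_dd84fd_nt.JX (wP gP wP_nonneg wP_le_one fI_gP)
open Pool.MP_dd84fd_nt.LX

/-- a majorant: `1` at the types with one box, `≥ 0` at the others -/
def TyMB (κ : ℝ) (X : ℕ) (B : Finset ℕ → ℝ) : Prop :=
  ∀ T : Finset ℕ, X5 X / 2 ≤ US κ (zt X) T → US κ (zt X) T ≤ X →
    (T.card = 1 → B T = 1) ∧ (2 ≤ T.card → 0 ≤ B T)

/-- the type function of the primes and a majorant -/
theorem TyMB.ml {κ : ℝ} {X : ℕ} {B : Finset ℕ → ℝ} (h : TyMB κ X B) : TyML κ X PT B := by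
  intro T h1 h2
  obtain ⟨a1, a2⟩ := h T h1 h2
  refine ⟨fun hc => ⟨if_pos hc, a1 hc⟩, fun hc => ⟨?_, a2 hc⟩⟩
  have hne : ¬ T.card = 1 := by omega
  have h3 : PT T = 0 := if_neg hne
  rw [h3]

/-- numbers -/
theorem vec_m (P b : ℕ → ℝ) (hP : ∀ n, 0 ≤ P n) (h : ∀ n, P n ≤ b n) (n : ℕ) :
    2 * cvv P b n - cvv b b n ≤ cvv P P n ∧ cvv P P n ≤ cvv P b n := by
  have h1 : 0 ≤ cvv (fun m => b m - P m) (fun m => b m - P m) n :=
    cvv_nonneg _ _ n (fun m => by linarith [h m]) (fun m => by linarith [h m])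
  rw [cvv_sub2] at h1
  rw [cvv_comm b P] at h1
  refine ⟨by linarith, ?_⟩
  unfold cvv
  exact sum_le_sum fun m _ => mul_le_mul_of_nonneg_left (h _) (hP _)

theorem final_mb (B' : ℕ) (hB : 1 ≤ B') (b δ : ℝ) (hδ : 0 < δ) (hb : 1 ≤ b) :
    ∃ D0 : ℕ, ∀ D' : ℕ, D0 ≤ D' → ∃ X0 : ℕ, ∀ X : ℕ, X0 ≤ X →
    ∀ B : Finset ℕ → ℝ, TyMB (kp B' X) X B → (∀ T, |B T| ≤ 2 ^ 24) →
    (∀ n : ℕ, X5 X < n → n ≤ X → Real.log n * gty (kp B' X) X B n ≤ b) →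
    ∀ n : ℕ, X < 2 * n → n ≤ X → Even n → ClP B' D' X B n → Cl2 B' D' X B B n →
      (1 - (b - 1) ^ 2 - δ) * (SS n * JJ n) ≤ g n ∧ (g n : ℝ) ≤ (b + δ) * (SS n * JJ n) := by
  classical
  obtain ⟨D1, hD1⟩ := main_lo 1 (b - 1) (δ / 4) (by linarith) zero_le_one (by linarith)
  obtain ⟨D2, hD2⟩ := main_up2 1 b (δ / 4) zero_le_one (by linarith) (by linarith)
  obtain ⟨D4, hD4⟩ := f2_diff B' hB b (δ / (4 * b)) (by linarith) (by positivity)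
  refine ⟨max D1 (max D2 D4), fun D' hD' => ?_⟩
  simp only [max_le_iff] at hD'
  obtain ⟨k1, k2, k4⟩ := hD'
  obtain ⟨X1, hX1⟩ := hD1 D' k1
  obtain ⟨X2, hX2⟩ := hD2 D' k2
  obtain ⟨X4, hX4⟩ := hD4 D' k4
  obtain ⟨Y1, hY1⟩ := gty_PT B' hB
  obtain ⟨Y2, hY2⟩ := gty_AB B' hB
  obtain ⟨Y3, hY3⟩ := wty_AB B' hB
  obtain ⟨Y4, hY4⟩ := JJ_ge
  obtain ⟨Y5, hY5⟩ := IY.X5_ge
  obtain ⟨Y6, hY6⟩ := cvv_wP_pI (2 ^ 24) (by norm_num)
  obtain ⟨c0, hc⟩ : ∃ c0 : ℝ, c0 = 2 * C2 := ⟨_, rfl⟩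
  have hc0 : 0 < c0 := by have := C2_pos; rw [hc]; positivity
  obtain ⟨Y7, hY7⟩ := MP_log_large (2 ^ 33 / (δ * c0) + 1)
  refine ⟨max (max X1 (max X2 X4)) (max (max (max Y1 Y2) (max Y3 Y4)) (max (max Y5 Y6) (max Y7 2))),
    fun X hX B hT0 hbd hden n hn hnX hne hPB hBB => ?_⟩
  simp only [max_le_iff] at hX
  obtain ⟨⟨x1, x2, x4⟩, ⟨⟨y1, y2⟩, y3, y4⟩, ⟨y5, y6⟩, y7, y8⟩ := hX
  have hT := hT0.ml
  have hX0 : (0 : ℝ) < X := by exact_mod_cast (by omega : 0 < X)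
  obtain ⟨hz, hX5X⟩ := hY5 X y5
  have hz1 : (1 : ℝ) ≤ X5 X := by
    have : (0 : ℝ) ≤ (zt X : ℝ) := Nat.cast_nonneg _
    linarith
  -- densities
  have hzero : ∀ (W : Finset ℕ → ℝ) (m : ℕ), (m : ℝ) ≤ X5 X → gty (kp B' X) X W m = 0 := by
    intro W m hm
    have hcon : ¬ (X5 X < m ∧ m ≤ X) := fun h => absurd h.1 (not_lt.2 hm)
    unfold gty
    rw [if_neg hcon]
  have hval : ∀ m : ℕ, X5 X < m → m ≤ X → 0 < Real.log (m : ℝ) ∧
      Real.log m * gty (kp B' X) X PT m = 1 ∧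
      gty (kp B' X) X PT m ≤ gty (kp B' X) X B m ∧ 0 ≤ gty (kp B' X) X PT m := by
    intro m h1 h2
    have hl : 0 < Real.log (m : ℝ) := Real.log_pos (lt_of_le_of_lt hz1 h1)
    have h3 := hY1 X y1 m h1 h2
    obtain ⟨-, h5⟩ := hY2 X y2 PT B hT m h1 h2
    refine ⟨hl, ?_, ?_, ?_⟩
    · rw [h3]
      field_simp
    · rw [h3]; exact h5
    · rw [h3]; positivity
  -- main terms
  have m1 := hX1 X x1 (gty (kp B' X) X PT)
    (fun m => gty (kp B' X) X B m - gty (kp B' X) X PT m)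
    (fun m h1 h2 => by
      obtain ⟨v0, v1, v2, v4⟩ := hval m h1 h2
      have h6 := hden m h1 h2
      refine ⟨v1.ge, by linarith, ?_⟩
      rw [mul_sub, v1]
      linarith)
    (fun m h1 => ⟨hzero _ m h1, by rw [hzero _ m h1, hzero _ m h1, sub_zero]⟩) n hn hnX hne
  have m2 := hX2 X x2 (gty (kp B' X) X PT) (gty (kp B' X) X B)
    (fun m h1 h2 => by
      obtain ⟨v0, v1, v2, v4⟩ := hval m h1 h2
      exact ⟨v4, v1.le⟩)
    (fun m h1 h2 => by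
      obtain ⟨v0, v1, v2, v4⟩ := hval m h1 h2
      exact ⟨by linarith, hden m h1 h2⟩)
    (fun m h1 => ⟨hzero _ m h1, hzero _ m h1⟩) n hn hnX hne
  have m4 := hX4 X x4 (gty (kp B' X) X B)
    (fun m h1 h2 => by
      obtain ⟨v0, v1, v2, v4⟩ := hval m h1 h2
      exact ⟨by linarith, hden m h1 h2⟩)
    (fun m h1 => hzero _ m h1) n hn hnX hne
  -- numbers
  obtain ⟨n1, n2⟩ := vec_m (pI X) (wty (kp B' X) X B)
    (fun m => by unfold pI; split_ifs <;> norm_num) (fun m => (hY3 X y3 PT B hT m).2) n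
  have hwb : ∀ m, |wty (kp B' X) X B m| ≤ 2 ^ 24 := by
    intro m
    unfold wty
    split_ifs
    · exact hbd _
    · rw [abs_zero]; norm_num
  have n3 := hY6 X y6 _ hwb n hnX
  have n5 := pI_le_g X n
  have n6 := g_le_pI X n hnX (by linarith)
  -- circle method
  unfold ClP at hPB
  unfold Cl2 at hBB
  have hfp : (fI gP X (wX D' X)) = f2 (wX D' X) := funext fun m => fI_gP X (wX D' X) m
  rw [hfp] at hPB
  obtain ⟨w, hw⟩ : ∃ w : ℕ, w = wX D' X := ⟨_, rfl⟩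
  rw [← hw] at hPB hBB m1 m2 m4
  obtain ⟨p, hp⟩ : ∃ p : ℕ → ℝ, p = fun m => gty (kp B' X) X PT m * f1 w m := ⟨_, rfl⟩
  obtain ⟨β, hβ⟩ : ∃ β : ℕ → ℝ, β = fun m => gty (kp B' X) X B m * f1 w m := ⟨_, rfl⟩
  have e1 : (fun m => (gty (kp B' X) X B m - gty (kp B' X) X PT m) * f1 w m) =
      fun m => β m - p m := by
    rw [hp, hβ]
    funext m
    ring
  rw [e1, ← hp, cvv_sub2, cvv_comm β p] at m1
  rw [← hp, ← hβ] at m2 m4
  rw [← hβ] at hPB hBB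
  -- the error term
  have hL := hY7 X y7
  have hSS : c0 ≤ SS n := by rw [hc]; exact SS_ge n
  have hJJ := hY4 X y4 n hn hnX
  have hX5e : X5 X = X / (Real.log (X : ℝ)) ^ 5 := rfl
  rw [hX5e] at n3 n6 hz1
  obtain ⟨L, hLd⟩ : ∃ L : ℝ, L = Real.log (X : ℝ) := ⟨_, rfl⟩
  rw [← hLd] at n3 n6 hz1 hL hJJ hPB hBB
  have h1600 : 0 < 2 ^ 33 / (δ * c0) := by positivity
  have hL1 : 1 ≤ L := by linarith
  have hL0 : 0 < L := by linarith
  have hnr : (X : ℝ) < 2 * n := by exact_mod_cast hn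
  have hJ2 : X / (16 * L ^ 2) ≤ JJ n := by
    refine le_trans ?_ hJJ
    rw [div_le_div_iff₀ (by positivity) (by positivity)]
    have h12 : 0 < L ^ 2 := by positivity
    nlinarith
  have hJ0 : 0 ≤ JJ n := le_trans (by positivity) hJ2
  have herr : 2 ^ 27 * (X / L ^ 5) ≤ δ / 4 * (SS n * JJ n) := by
    have e1 : c0 * (X / (16 * L ^ 2)) ≤ SS n * JJ n :=
      mul_le_mul hSS hJ2 (by positivity) (hc0.le.trans hSS)
    have e2 : 2 ^ 27 * (X / L ^ 5) ≤ δ / 4 * (c0 * (X / (16 * L ^ 2))) := by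
      have e3 : δ / 4 * (c0 * (X / (16 * L ^ 2))) =
          (δ * c0 * L ^ 3 / 2 ^ 33) * (2 ^ 27 * (X / L ^ 5)) := by
        field_simp
        norm_num
      rw [e3]
      have e4 : 1 ≤ δ * c0 * L ^ 3 / 2 ^ 33 := by
        rw [le_div_iff₀ (by norm_num), one_mul]
        have e5 : 2 ^ 33 / (δ * c0) ≤ L ^ 3 := by
          calc 2 ^ 33 / (δ * c0) ≤ L := by linarith
            _ = L ^ 1 := (pow_one L).symm
            _ ≤ L ^ 3 := pow_le_pow_right₀ hL1 (by norm_num)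
        rw [div_le_iff₀ (by positivity)] at e5
        linarith
      exact le_mul_of_one_le_left (by positivity) e4
    have e6 : δ / 4 * (c0 * (X / (16 * L ^ 2))) ≤ δ / 4 * (SS n * JJ n) :=
      mul_le_mul_of_nonneg_left e1 (by linarith)
    linarith
  obtain ⟨V, hV⟩ : ∃ V : ℝ, V = SS n * JJ n := ⟨_, rfl⟩
  obtain ⟨Q, hQ⟩ : ∃ Q : ℝ, Q = X / L ^ 5 := ⟨_, rfl⟩
  rw [← hV] at m1 m2 m4 herr ⊢
  obtain ⟨m4l, m4u⟩ := m4
  rw [← hQ] at herr n3 n6 hz1 hPB hBB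
  have b1 := abs_le.1 hPB
  have b3 := abs_le.1 hBB
  have b5 := abs_le.1 n3
  have hV0 : 0 ≤ δ / 4 * V := by
    have : (0 : ℝ) ≤ 2 ^ 27 * Q := by linarith
    linarith
  have hηV : b * (δ / (4 * b) * V) = δ / 4 * V := by
    have : b ≠ 0 := by linarith
    field_simp
  rw [hηV] at m4u
  constructor
  · have f1 : (1 - (b - 1) ^ 2 - δ) * V = (1 ^ 2 - (b - 1) ^ 2 - δ / 4) * V -
        3 * (δ / 4 * V) := by ring
    rw [f1]
    linarith [b1.1, b3.2, b5.1, b5.2, m4l]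
  · have f1 : (b + δ) * V = (1 * b + δ / 4) * V + 3 * (δ / 4 * V) := by ring
    rw [f1]
    linarith [b1.1, b1.2, b5.1, b5.2, m4u, m2]

end Pool.MP_dd84fd_nt.MX
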