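import Pool.Agent.Lib.MP_dd84fd_nt.LX.NDefs

/-!
# Theorem M, numerics: definitions (helper88)

The limiting case `th = 1/7`. Exponents `log p / log X`. `f4`, `f5` = limiting values of the majorant on the
types with four / five boxes (`d`, resp. `e`, is the exponent of `n / k`, the largest one).

* `KR` = squarefree `k ≤ X` all of whose prime factors are `≥ X^θ`;
* `KQ` (LX/NDefs), `KQ5`, `KQ6` = products of three / four / five primes `≥ X^θ` in `KR`, the largest of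
  them `≤ n / k`;
* `KEd` = the `k` in `KR` with a divisor `d > 1`, `|log d / log X - c| ≤ ε`.
-/

set_option autoImplicit false

namespace Pool.MP_dd84fd_nt.MX

open Finset Pool.MP_dd84fd_nt.IY Pool.MP_dd84fd_nt.KX Pool.MP_dd84fd_nt.LX

/-- squarefree numbers with large prime factors -/
noncomputable def KR (X : ℕ) (θ : ℝ) : Finset ℕ :=
  open Classical in (Icc 1 X).filter (fun k : ℕ => Squarefree k ∧
    ∀ p ∈ k.primeFactors, θ * Real.log X ≤ Real.log p)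

/-- numbers in `KR` with a divisor near `X^c` -/
noncomputable def KEd (X : ℕ) (θ c ε : ℝ) : Finset ℕ :=
  open Classical in (KR X θ).filter (fun k : ℕ => ∃ d : ℕ, d ∣ k ∧ 1 < d ∧
    |Real.log d - c * Real.log X| ≤ ε * Real.log X)

/-- products of four primes, with a fifth one -/
noncomputable def KQ5 (X n : ℕ) (θ : ℝ) : Finset ℕ :=
  open Classical in (Icc 1 X).filter (fun k : ℕ => ∃ p q r t : ℕ, p.Prime ∧ q.Prime ∧ r.Prime ∧
    t.Prime ∧ q < p ∧ r < q ∧ t < r ∧ k = p * q * r * t ∧ θ * Real.log X ≤ Real.log t ∧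
    Real.log p ≤ Real.log ((n : ℝ) / k))

/-- products of five primes, with a sixth one -/
noncomputable def KQ6 (X n : ℕ) (θ : ℝ) : Finset ℕ :=
  open Classical in (Icc 1 X).filter (fun k : ℕ => ∃ p q r t o : ℕ, p.Prime ∧ q.Prime ∧ r.Prime ∧
    t.Prime ∧ o.Prime ∧ q < p ∧ r < q ∧ t < r ∧ o < t ∧ k = p * q * r * t * o ∧
    θ * Real.log X ≤ Real.log o ∧ Real.log p ≤ Real.log ((n : ℝ) / k))

/-- a pair above `4/7` -/
noncomputable def h4 (s : ℝ) : ℝ := if 4 / 7 < s then 3 - 7 / 2 * s else 0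

/-- four boxes, exponents `a ≤ b ≤ c ≤ d` -/
noncomputable def f4 (a b c d : ℝ) : ℝ :=
  if 3 / 7 < d then 0 else max 0 (3 - (h4 (a + d) + h4 (b + d) + h4 (c + d)))

/-- a pair above `3/7` -/
noncomputable def h5 (s : ℝ) : ℝ := if 3 / 7 ≤ s then 2 - 7 / 2 * s else 0

/-- five boxes, exponents `a ≤ b ≤ c ≤ d ≤ e` -/
noncomputable def f5 (a b c d e : ℝ) : ℝ :=
  3 + (h5 (a + b) + h5 (a + c) + h5 (a + d) + h5 (a + e) + h5 (b + c) + h5 (b + d) + h5 (b + e) +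
    h5 (c + d) + h5 (c + e) + h5 (d + e))

/-- the sum over the types with four boxes is at most `C` -/
def P4M (C : ℝ) : Prop := ∃ X0 : ℕ, ∀ X : ℕ, X0 ≤ X → ∀ n : ℕ, X5 X < n → n ≤ X → ∀ W : ℕ → ℝ,
  (∀ p q r : ℕ, p.Prime → q.Prime → r.Prime → q < p → r < q →
    1 / 7 * Real.log X ≤ Real.log r → Real.log p ≤ Real.log ((n : ℝ) / (p * q * r : ℕ)) →
    W (p * q * r) ≤ f4 (Real.log r / Real.log X) (Real.log q / Real.log X)
      (Real.log p / Real.log X) (Real.log ((n : ℝ) / (p * q * r : ℕ)) / Real.log X)) →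
  ∑ k ∈ KQ X n (1 / 7), W k * (Real.log n / (k * Real.log ((n : ℝ) / k))) ≤ C

/-- the sum over the types with five boxes is at most `C` -/
def P5M (C : ℝ) : Prop := ∃ X0 : ℕ, ∀ X : ℕ, X0 ≤ X → ∀ n : ℕ, X5 X < n → n ≤ X → ∀ W : ℕ → ℝ,
  (∀ p q r t : ℕ, p.Prime → q.Prime → r.Prime → t.Prime → q < p → r < q → t < r →
    1 / 7 * Real.log X ≤ Real.log t → Real.log p ≤ Real.log ((n : ℝ) / (p * q * r * t : ℕ)) →
    W (p * q * r * t) ≤ f5 (Real.log t / Real.log X) (Real.log r / Real.log X)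
      (Real.log q / Real.log X) (Real.log p / Real.log X)
      (Real.log ((n : ℝ) / (p * q * r * t : ℕ)) / Real.log X)) →
  ∑ k ∈ KQ5 X n (1 / 7), W k * (Real.log n / (k * Real.log ((n : ℝ) / k))) ≤ C

/-- the sum over the types with six boxes is at most `C` -/
def P6M (C : ℝ) : Prop := ∃ X0 : ℕ, ∀ X : ℕ, X0 ≤ X → ∀ n : ℕ, X5 X < n → n ≤ X →
  ∑ k ∈ KQ6 X n (1 / 7), (Real.log n / (k * Real.log ((n : ℝ) / k))) ≤ C

/-- all numbers and the edges: absolute bounds -/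
def EdM (C : ℝ) : Prop := (∃ X0 : ℕ, ∀ X : ℕ, X0 ≤ X → ∑ k ∈ KR X (1 / 7), 1 / (k : ℝ) ≤ C) ∧
  ∀ c ε : ℝ, 1 / 7 ≤ c → c ≤ 6 / 7 → 0 < ε → ε ≤ 1 / 1000 → ∃ X0 : ℕ, ∀ X : ℕ, X0 ≤ X →
    ∑ k ∈ KEd X (1 / 7) c ε, 1 / (k : ℝ) ≤ C * ε

end Pool.MP_dd84fd_nt.MX
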