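import Pool.Agent.Lib.MP_dd84fd_nt.MX.NDefs
import Pool.Agent.Lib.MP_dd84fd_nt.LX.NLe

/-!
# Theorem M, numerics: the edges (helper63)

`Σ_{k ∈ KR} 1/k ≤ Π (1 + 1/p) ≤ exp 7`. An element of `KEd` is `p k'`, `k' ∈ KR`, `p` in a window of length
`2 ε L` given a divisor `d'` of `k'` (at most `128` of them).
-/

set_option autoImplicit false

namespace Pool.MP_dd84fd_nt.MX

open Finset Pool.MP_dd84fd_nt.IY Pool.MP_dd84fd_nt.KX Pool.MP_dd84fd_nt.LX

theorem mem_KR {X k : ℕ} {θ : ℝ} : k ∈ KR X θ ↔ (1 ≤ k ∧ k ≤ X) ∧ Squarefree k ∧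
    ∀ p ∈ k.primeFactors, θ * Real.log X ≤ Real.log p := by
  unfold KR
  rw [Finset.mem_filter, Finset.mem_Icc]

/-- the primes from `X^θ` to `X` -/
private noncomputable def PA (X : ℕ) (θ : ℝ) : Finset ℕ :=
  open Classical in (Icc 1 X).filter (fun p : ℕ => p.Prime ∧ θ * Real.log X ≤ Real.log p)

private theorem pa_sum : ∃ X0 : ℕ, ∀ X : ℕ, X0 ≤ X → 1 < X ∧
    ∑ p ∈ PA X (1 / 7), 1 / (p : ℝ) ≤ 7 := by
  classical
  obtain ⟨X1, hX1⟩ := mp (1 / 2) (by norm_num)
  refine ⟨X1 + 2, fun X hX => ⟨by omega, ?_⟩⟩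
  have hX1' : 1 < X := by omega
  have h1 := hX1 X (by omega) (1 / 7) 1 (by norm_num) le_rfl
  rw [max_eq_right (by norm_num)] at h1
  have hsub : PA X (1 / 7) ⊆ insert X (PS X (1 / 7) 1) := by
    intro p hp
    unfold PA at hp
    rw [Finset.mem_filter, Finset.mem_Icc] at hp
    obtain ⟨⟨h3, h4⟩, h5, h6⟩ := hp
    rcases Nat.lt_or_ge p X with h7 | h7
    · refine Finset.mem_insert_of_mem (mem_PS hX1' h5 h4 h6 ?_)
      rw [one_mul]
      exact Real.log_lt_log (by exact_mod_cast h3) (by exact_mod_cast h7)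
    · rw [show p = X by omega]
      exact Finset.mem_insert_self _ _
  have h2 : (1 : ℝ) / X ≤ 1 / 2 :=
    one_div_le_one_div_of_le (by norm_num) (by exact_mod_cast (by omega : 2 ≤ X))
  calc ∑ p ∈ PA X (1 / 7), 1 / (p : ℝ) ≤ ∑ p ∈ insert X (PS X (1 / 7) 1), 1 / (p : ℝ) :=
        Finset.sum_le_sum_of_subset_of_nonneg hsub fun p _ _ => by positivity
    _ ≤ 1 / (X : ℝ) + ∑ p ∈ PS X (1 / 7) 1, 1 / (p : ℝ) := by
        by_cases hm : X ∈ PS X (1 / 7) 1
        · rw [Finset.insert_eq_of_mem hm]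
          have : (0 : ℝ) ≤ 1 / (X : ℝ) := by positivity
          linarith
        · rw [Finset.sum_insert hm]
    _ ≤ 7 := by
        norm_num at h1 h2 ⊢
        linarith

/-- all numbers -/
private theorem kr_sum : ∃ X0 : ℕ, ∀ X : ℕ, X0 ≤ X → 1 < X ∧
    ∑ k ∈ KR X (1 / 7), 1 / (k : ℝ) ≤ Real.exp 7 := by
  classical
  obtain ⟨X0, h⟩ := pa_sum
  refine ⟨X0, fun X hX => ⟨(h X hX).1, ?_⟩⟩
  have h1 := (h X hX).2
  have h2 : ∏ p ∈ PA X (1 / 7), (1 + 1 / (p : ℝ)) ≤ Real.exp 7 := by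
    calc ∏ p ∈ PA X (1 / 7), (1 + 1 / (p : ℝ)) ≤ ∏ p ∈ PA X (1 / 7), Real.exp (1 / (p : ℝ)) := by
          refine Finset.prod_le_prod (fun p _ => by positivity) fun p _ => ?_
          rw [add_comm]
          exact Real.add_one_le_exp _
      _ = Real.exp (∑ p ∈ PA X (1 / 7), 1 / (p : ℝ)) := (Real.exp_sum _ _).symm
      _ ≤ Real.exp 7 := Real.exp_le_exp.2 h1
  refine le_trans ?_ h2
  rw [Finset.prod_one_add]
  have h3 : ∀ k ∈ KR X (1 / 7), 1 / (k : ℝ) = ∏ p ∈ k.primeFactors, 1 / (p : ℝ) := by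
    intro k hk
    rw [mem_KR] at hk
    have h4 := Nat.prod_primeFactors_of_squarefree hk.2.1
    conv_lhs => rw [← h4]
    push_cast
    rw [one_div, ← Finset.prod_inv_distrib]
    refine Finset.prod_congr rfl fun p _ => ?_
    rw [one_div]
  rw [Finset.sum_congr rfl h3]
  have h5 : ∑ k ∈ KR X (1 / 7), ∏ p ∈ k.primeFactors, 1 / (p : ℝ) =
      ∑ t ∈ (KR X (1 / 7)).image Nat.primeFactors, ∏ p ∈ t, 1 / (p : ℝ) := by
    rw [Finset.sum_image]
    intro a ha b hb hab
    rw [Finset.mem_coe, mem_KR] at ha hb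
    rw [← Nat.prod_primeFactors_of_squarefree ha.2.1, ← Nat.prod_primeFactors_of_squarefree hb.2.1,
      hab]
  rw [h5]
  refine Finset.sum_le_sum_of_subset_of_nonneg ?_ fun t _ _ =>
    Finset.prod_nonneg fun p _ => by positivity
  intro t ht
  obtain ⟨k, hk, rfl⟩ := Finset.mem_image.1 ht
  rw [mem_KR] at hk
  rw [Finset.mem_powerset]
  intro p hp
  unfold PA
  rw [Finset.mem_filter, Finset.mem_Icc]
  have hp1 := Nat.prime_of_mem_primeFactors hp
  exact ⟨⟨hp1.pos, (Nat.le_of_mem_primeFactors hp).trans hk.1.2⟩, hp1, hk.2.2 p hp⟩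

/-- at most seven prime factors -/
private theorem kr_card {X k : ℕ} (hX : 1 < X) (hk : k ∈ KR X (1 / 7)) :
    k.primeFactors.card ≤ 7 := by
  rw [mem_KR] at hk
  obtain ⟨⟨k1, k2⟩, k3, k4⟩ := hk
  have hL : 0 < Real.log X := Real.log_pos (by exact_mod_cast hX)
  have h1 : Real.log k = ∑ p ∈ k.primeFactors, Real.log p := by
    conv_lhs => rw [← Nat.prod_primeFactors_of_squarefree k3]
    push_cast
    rw [Real.log_prod]
    intro p hp
    have := (Nat.prime_of_mem_primeFactors hp).pos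
    positivity
  have h2 : Real.log k ≤ Real.log X :=
    Real.log_le_log (by exact_mod_cast k1) (by exact_mod_cast k2)
  have h3 := Finset.card_nsmul_le_sum k.primeFactors (fun p : ℕ => Real.log p)
    (1 / 7 * Real.log X) k4
  rw [← h1, nsmul_eq_mul] at h3
  have h4 : ((k.primeFactors.card : ℝ) * (1 / 7)) * Real.log X ≤ 1 * Real.log X := by linarith
  have h5 := le_of_mul_le_mul_right h4 hL
  have h6 : (k.primeFactors.card : ℝ) ≤ 7 := by linarith
  exact_mod_cast h6

/-- at most `128` divisors -/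
private theorem kr_div {X k : ℕ} (hX : 1 < X) (hk : k ∈ KR X (1 / 7)) :
    k.divisors.card ≤ 128 := by
  classical
  have h0 := kr_card hX hk
  rw [mem_KR] at hk
  obtain ⟨⟨k1, k2⟩, k3, k4⟩ := hk
  have h1 : k.divisors.card ≤ k.primeFactors.powerset.card := by
    refine Finset.card_le_card_of_injOn Nat.primeFactors ?_ ?_
    · intro d hd
      rw [Finset.mem_coe, Nat.mem_divisors] at hd
      rw [Finset.mem_coe, Finset.mem_powerset]
      exact Nat.primeFactors_mono hd.1 hd.2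
    · intro d hd d' hd' hdd
      rw [Finset.mem_coe, Nat.mem_divisors] at hd hd'
      rw [← Nat.prod_primeFactors_of_squarefree (k3.squarefree_of_dvd hd.1),
        ← Nat.prod_primeFactors_of_squarefree (k3.squarefree_of_dvd hd'.1), hdd]
  rw [Finset.card_powerset] at h1
  have h2 : 2 ^ k.primeFactors.card ≤ 2 ^ 7 := Nat.pow_le_pow_right (by norm_num) h0
  omega

/-- the edges -/
private theorem ed_sum (c ε : ℝ) (hc : 1 / 7 ≤ c) (hc2 : c ≤ 6 / 7) (hε : 0 < ε)
    (hε2 : ε ≤ 1 / 1000) : ∃ X0 : ℕ, ∀ X : ℕ, X0 ≤ X →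
    ∑ k ∈ KEd X (1 / 7) c ε, 1 / (k : ℝ) ≤ 128 * (22 * ε) * Real.exp 7 := by
  classical
  obtain ⟨X1, hX1⟩ := kr_sum
  obtain ⟨X2, hX2⟩ := mp ε hε
  refine ⟨X1 + X2, fun X hX => ?_⟩
  obtain ⟨hX', h1⟩ := hX1 X (by omega)
  have hXr : (1 : ℝ) < X := by exact_mod_cast hX'
  have hL : 0 < Real.log X := Real.log_pos hXr
  have hεL : 0 < ε * Real.log X := mul_pos hε hL
  obtain ⟨u, hu⟩ : ∃ u : ℕ → ℝ,
      u = fun d : ℕ => max (1 / 7) (c - ε - Real.log (d : ℝ) / Real.log X) :=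
    ⟨_, rfl⟩
  have hu7 : ∀ d, 1 / 7 ≤ u d := by
    intro d
    rw [hu]
    exact le_max_left _ _
  have hu1 : ∀ d, u d + 3 * ε ≤ 1 := by
    intro d
    rw [hu]
    have h2 : 0 ≤ Real.log d / Real.log X := div_nonneg (Real.log_natCast_nonneg _) hL.le
    have h3 : max (1 / 7) (c - ε - Real.log d / Real.log X) ≤ 1 - 3 * ε := by
      refine max_le ?_ ?_ <;> linarith
    show max (1 / 7) (c - ε - Real.log d / Real.log X) + 3 * ε ≤ 1
    linarith
  have hW : ∀ d, ∑ p ∈ PS X (u d) (u d + 3 * ε), 1 / (p : ℝ) ≤ 22 * ε := by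
    intro d
    have h2 := hX2 X (by omega) (u d) (u d + 3 * ε) (by linarith [hu7 d]) (hu1 d)
    have h3 : u d + 3 * ε - u d = 3 * ε := by ring
    rw [h3, max_eq_right (by linarith)] at h2
    have h4 : 3 * ε / u d ≤ 21 * ε := by
      rw [div_le_iff₀ (by linarith [hu7 d])]
      nlinarith [hu7 d]
    linarith
  set T : Finset (Σ _ : ℕ, Σ _ : ℕ, ℕ) := (KR X (1 / 7)).sigma fun k =>
    k.divisors.sigma fun d => PS X (u d) (u d + 3 * ε) with hT
  have h3 := inv_le (KEd X (1 / 7) c ε) T (fun t => t.1 * t.2.2) (by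
    intro k hk
    unfold KEd at hk
    rw [Finset.mem_filter, mem_KR] at hk
    obtain ⟨⟨⟨k1, k2⟩, k3, k4⟩, d, hdk, hd1, hd2⟩ := hk
    have hp : d.minFac.Prime := Nat.minFac_prime (by omega)
    obtain ⟨m, hm⟩ := Nat.minFac_dvd d
    obtain ⟨j, hj⟩ := hdk
    have hk0 : k ≠ 0 := by omega
    obtain ⟨p, hpe⟩ : ∃ p, p = d.minFac := ⟨_, rfl⟩
    rw [← hpe] at hp hm
    have hm0 : 0 < m := by
      rcases Nat.eq_zero_or_pos m with rfl | h
      · omega
      · exact h
    have hj0 : 0 < j := by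
      rcases Nat.eq_zero_or_pos j with rfl | h
      · omega
      · exact h
    have hkk : k = p * (m * j) := by rw [hj, hm, mul_assoc]
    have hdvd : m * j ∣ k := ⟨p, by rw [hkk]; ring⟩
    have hpk : p ∈ k.primeFactors := Nat.mem_primeFactors.2 ⟨hp, ⟨m * j, hkk⟩, hk0⟩
    have hpX : p ≤ X := (Nat.le_of_mem_primeFactors hpk).trans k2
    refine ⟨⟨m * j, ⟨m, p⟩⟩, ?_, ?_⟩
    · rw [hT, Finset.mem_sigma, Finset.mem_sigma, mem_KR]
      refine ⟨⟨⟨Nat.mul_pos hm0 hj0, (Nat.le_of_dvd (by omega) hdvd).trans k2⟩,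
        k3.squarefree_of_dvd hdvd, fun q hq => k4 q (Nat.primeFactors_mono hdvd hk0 hq)⟩, ?_, ?_⟩
      · exact Nat.mem_divisors.2 ⟨⟨j, rfl⟩, (Nat.mul_pos hm0 hj0).ne'⟩
      · have h5 : Real.log d = Real.log p + Real.log m := by
          rw [hm]
          push_cast
          rw [Real.log_mul (by exact_mod_cast hp.pos.ne') (by exact_mod_cast hm0.ne')]
        obtain ⟨a1, a2⟩ := abs_le.1 hd2
        have h6 : Real.log m / Real.log X * Real.log X = Real.log m := div_mul_cancel₀ _ hL.ne'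
        have h7 : (c - ε - Real.log m / Real.log X) * Real.log X =
            c * Real.log X - ε * Real.log X - Real.log m := by
          rw [sub_mul, sub_mul, h6]
        refine mem_PS hX' hp hpX ?_ ?_
        · rw [hu]
          show max (1 / 7) (c - ε - Real.log m / Real.log X) * Real.log X ≤ Real.log p
          rcases le_total (1 / 7 : ℝ) (c - ε - Real.log m / Real.log X) with h8 | h8
          · rw [max_eq_right h8, h7]
            linarith
          · rw [max_eq_left h8]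
            exact k4 p hpk
        · rw [hu]
          show Real.log p < (max (1 / 7) (c - ε - Real.log m / Real.log X) + 3 * ε) * Real.log X
          have h8 : (c - ε - Real.log m / Real.log X) * Real.log X ≤
              max (1 / 7) (c - ε - Real.log m / Real.log X) * Real.log X :=
            mul_le_mul_of_nonneg_right (le_max_right _ _) hL.le
          rw [h7] at h8
          rw [add_mul]
          have h9 : 3 * ε * Real.log X = 3 * (ε * Real.log X) := by ring
          rw [h9]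
          linarith
    · show k = m * j * p
      rw [hkk]
      ring)
  refine h3.trans ?_
  rw [hT, Finset.sum_sigma]
  have h4 : ∀ k ∈ KR X (1 / 7), ∑ s ∈ k.divisors.sigma (fun d => PS X (u d) (u d + 3 * ε)),
      1 / ((k * s.2 : ℕ) : ℝ) ≤ 128 * (22 * ε) * (1 / (k : ℝ)) := by
    intro k hk
    rw [Finset.sum_sigma]
    have h5 : ∀ d ∈ k.divisors, ∑ p ∈ PS X (u d) (u d + 3 * ε), 1 / ((k * p : ℕ) : ℝ) ≤
        22 * ε * (1 / (k : ℝ)) := by
      intro d _
      have h6 : ∑ p ∈ PS X (u d) (u d + 3 * ε), 1 / ((k * p : ℕ) : ℝ) =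
          (∑ p ∈ PS X (u d) (u d + 3 * ε), 1 / (p : ℝ)) * (1 / (k : ℝ)) := by
        rw [Finset.sum_mul]
        refine Finset.sum_congr rfl fun p _ => ?_
        push_cast
        rw [one_div_mul_one_div, mul_comm (k : ℝ) p]
      rw [h6]
      exact mul_le_mul_of_nonneg_right (hW d) (by positivity)
    refine (Finset.sum_le_sum h5).trans ?_
    rw [Finset.sum_const, nsmul_eq_mul, ← mul_assoc]
    refine mul_le_mul_of_nonneg_right ?_ (by positivity)
    refine mul_le_mul_of_nonneg_right ?_ (by positivity)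
    exact_mod_cast kr_div hX' hk
  refine (Finset.sum_le_sum h4).trans ?_
  rw [← Finset.mul_sum]
  exact mul_le_mul_of_nonneg_left h1 (by positivity)

/-- all numbers and the edges -/
theorem edM : EdM 4000000 := by
  have he : Real.exp 7 ≤ 1100 := by
    have h1 : Real.exp 1 < 2.7182818286 := Real.exp_one_lt_d9
    have h2 : Real.exp 7 = Real.exp 1 ^ 7 := by
      rw [← Real.exp_nat_mul]
      norm_num
    rw [h2]
    calc Real.exp 1 ^ 7 ≤ 2.7182818286 ^ 7 := pow_le_pow_left₀ (Real.exp_pos _).le h1.le 7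
      _ ≤ 1100 := by norm_num
  constructor
  · obtain ⟨X0, h⟩ := kr_sum
    refine ⟨X0, fun X hX => (h X hX).2.trans (he.trans (by norm_num))⟩
  · intro c ε h1 h2 h3 h4
    obtain ⟨X0, h⟩ := ed_sum c ε h1 h2 h3 h4
    refine ⟨X0, fun X hX => (h X hX).trans ?_⟩
    nlinarith

end Pool.MP_dd84fd_nt.MX
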