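import Pool.Agent.Lib.MP_dd84fd_nt.KX.NKb

/-!
# Theorem M, numerics: the sum over one prime (helper88)

`∑ (log p/log X - 1/7) log n/(p log (n/p)) ≤ 0.1907` over `X^(1/7) ≤ p < X^(3/7)`. Antiderivative
`G t = - (6/7) log (1-t) - (1/7) log t` of `(t-1/7)/(t(1-t))`; `G (3/7) - G (1/7) = 0.190597`.
-/

set_option autoImplicit false

namespace Pool.MP_dd84fd_nt.MX

open Finset Pool.MP_dd84fd_nt.IY Pool.MP_dd84fd_nt.KX

/-- the antiderivative -/
noncomputable def GM (t : ℝ) : ℝ := -(6 / 7) * Real.log (1 - t) - 1 / 7 * Real.log t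

theorem GM_step (t δ : ℝ) (h0 : 0 < t) (hδ : 0 ≤ δ) (h1 : t + δ < 1) :
    δ * ((t - 1 / 7) / (t * (1 - t))) ≤ GM (t + δ) - GM t := by
  have a1 : 0 < 1 - t := by linarith
  have a2 : 0 < 1 - (t + δ) := by linarith
  have h2 : Real.log (1 - (t + δ)) - Real.log (1 - t) ≤ -(δ / (1 - t)) := by
    rw [← Real.log_div a2.ne' a1.ne']
    have h3 := Real.log_le_sub_one_of_pos (div_pos a2 a1)
    have h4 : (1 - (t + δ)) / (1 - t) - 1 = -(δ / (1 - t)) := by
      field_simp
      ring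
    linarith
  have h3 : Real.log (t + δ) - Real.log t ≤ δ / t := by
    rw [← Real.log_div (by linarith) h0.ne']
    have h4 := Real.log_le_sub_one_of_pos (div_pos (show 0 < t + δ by linarith) h0)
    have h5 : (t + δ) / t - 1 = δ / t := by
      field_simp
      ring
    linarith
  have h4 : δ * ((t - 1 / 7) / (t * (1 - t))) = 6 / 7 * (δ / (1 - t)) - 1 / 7 * (δ / t) := by
    field_simp
    ring
  rw [h4]
  unfold GM
  linarith

theorem log3_le : Real.log 3 ≤ 109862 / 100000 := by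
  have h1 : Real.log ((531441 : ℝ) / 524288) ≤ 531441 / 524288 - 1 :=
    Real.log_le_sub_one_of_pos (by norm_num)
  have h2 : Real.log ((531441 : ℝ) / 524288) = 12 * Real.log 3 - 19 * Real.log 2 := by
    rw [Real.log_div (by norm_num) (by norm_num)]
    have e1 : (531441 : ℝ) = 3 ^ 12 := by norm_num
    have e2 : (524288 : ℝ) = 2 ^ 19 := by norm_num
    rw [e1, e2, Real.log_pow, Real.log_pow]
    norm_num
  have h3 := Real.log_two_lt_d9
  rw [h2] at h1
  norm_num at h1 h3 ⊢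
  linarith

theorem GM_total : GM (3 / 7) - GM (1 / 7) ≤ 19061 / 100000 := by
  have h1 : Real.log (1 - 3 / 7 : ℝ) = 2 * Real.log 2 - Real.log 7 := by
    rw [show (1 - 3 / 7 : ℝ) = 2 ^ 2 / 7 by norm_num, Real.log_div (by norm_num) (by norm_num),
      Real.log_pow]
    norm_num
  have h2 : Real.log (3 / 7 : ℝ) = Real.log 3 - Real.log 7 :=
    Real.log_div (by norm_num) (by norm_num)
  have h3 : Real.log (1 - 1 / 7 : ℝ) = Real.log 2 + Real.log 3 - Real.log 7 := by
    rw [show (1 - 1 / 7 : ℝ) = 2 * 3 / 7 by norm_num, Real.log_div (by norm_num) (by norm_num),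
      Real.log_mul (by norm_num) (by norm_num)]
  have h4 : Real.log (1 / 7 : ℝ) = - Real.log 7 := by
    rw [one_div, Real.log_inv]
  have h5 := Real.log_two_gt_d9
  have h6 := log3_le
  unfold GM
  rw [h1, h2, h3, h4]
  norm_num at h5 h6 ⊢
  linarith

theorem GM_end (δ : ℝ) (h0 : 0 ≤ δ) (h1 : δ ≤ 1 / 10) : GM (3 / 7 + δ) ≤ GM (3 / 7) + 3 * δ := by
  have a1 : (0 : ℝ) < 1 - 3 / 7 := by norm_num
  have a2 : 0 < 1 - (3 / 7 + δ) := by linarith
  have h2 : Real.log (1 - 3 / 7) - Real.log (1 - (3 / 7 + δ)) ≤ 7 / 2 * δ := by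
    rw [← Real.log_div a1.ne' a2.ne']
    have h3 := Real.log_le_sub_one_of_pos (div_pos a1 a2)
    have h4 : (1 - 3 / 7) / (1 - (3 / 7 + δ)) - 1 ≤ 7 / 2 * δ := by
      rw [sub_le_iff_le_add, div_le_iff₀ a2]
      nlinarith
    linarith
  have h3 : Real.log (3 / 7) ≤ Real.log (3 / 7 + δ) := Real.log_le_log (by norm_num) (by linarith)
  unfold GM
  linarith

/-- **the sum over one prime** -/
theorem E_sumM : ∃ X0 : ℕ, ∀ X : ℕ, X0 ≤ X → ∀ n : ℕ, X5 X < n → n ≤ X →
    ∑ p ∈ PS X (1 / 7) (3 / 7), (Real.log p / Real.log X - 1 / 7) *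
      (Real.log n / (p * Real.log ((n : ℝ) / p))) ≤ 1907 / 10000 := by
  classical
  obtain ⟨N0, hN0⟩ : ∃ N0 : ℕ, N0 = 20000 := ⟨_, rfl⟩
  have hN0r : (N0 : ℝ) = 20000 := by rw [hN0]; norm_num
  obtain ⟨δ, hδ⟩ : ∃ δ : ℝ, δ = 1 / 70000 := ⟨_, rfl⟩
  have hδ0 : 0 < δ := by rw [hδ]; norm_num
  obtain ⟨ε, hε⟩ : ∃ ε : ℝ, ε = 1 / 10000000000 := ⟨_, rfl⟩
  have hε0 : 0 < ε := by rw [hε]; norm_num
  have hNδ : (N0 : ℝ) * δ = 2 / 7 := by rw [hN0r, hδ]; norm_num
  obtain ⟨X1, hX1⟩ := mp ε hε0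
  obtain ⟨X2, hX2⟩ := logn_ge ε hε0
  refine ⟨X1 + X2 + 2, fun X hX n hn1 hn2 => ?_⟩
  obtain ⟨hn3, hn4, hXr, hn5⟩ := hX2 X (by omega) n hn1 hn2
  have hmp := hX1 X (by omega)
  have hX1' : 1 < X := by omega
  have hL : 0 < Real.log X := Real.log_pos hXr
  set L := Real.log (X : ℝ) with hLd
  set u : ℕ → ℝ := fun i => 1 / 7 + i * δ with hu
  set S : ℕ → Finset ℕ := fun i => PS X (u i) (u (i + 1)) with hS
  set W : ℕ → ℝ := fun i => if i < N0 then ((i : ℝ) + 1) * δ / (1 - u (i + 1) - ε) else 0 with hW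
  have hus : ∀ i, u (i + 1) = u i + δ := by
    intro i
    rw [hu]
    simp only
    push_cast
    ring
  have hu0 : ∀ i, 1 / 7 ≤ u i := by
    intro i
    rw [hu]
    simp only
    have : 0 ≤ (i : ℝ) * δ := by positivity
    linarith
  have hu1 : ∀ i, i < N0 → u (i + 1) ≤ 3 / 7 := by
    intro i hi'
    rw [hu]
    simp only
    have h3 : ((i + 1 : ℕ) : ℝ) ≤ N0 := by exact_mod_cast hi'
    have h4 : ((i + 1 : ℕ) : ℝ) * δ ≤ N0 * δ := mul_le_mul_of_nonneg_right h3 hδ0.le
    linarith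
  have hden : ∀ i, i < N0 → 1 / 2 < 1 - u (i + 1) - ε := by
    intro i hi'
    have := hu1 i hi'
    rw [hε]
    linarith
  have hW0 : ∀ i, 0 ≤ W i := by
    intro i
    rw [hW]
    simp only
    split_ifs with h3
    · have := hden i h3
      exact div_nonneg (by positivity) (by linarith)
    · exact le_rfl
  -- the slices cover
  have hcov : ∀ p ∈ PS X (1 / 7) (3 / 7), ∃ i ∈ range N0, p ∈ S i ∧
      (Real.log p / L - 1 / 7) * (Real.log n / (p * Real.log ((n : ℝ) / p))) ≤ W i / (p : ℝ) := by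
    intro p hp'
    obtain ⟨hp, hpX, hpL, hpU⟩ := of_mem_PS hX1' hp'
    rw [← hLd] at hpL hpU
    have hp0 : (0 : ℝ) < p := by exact_mod_cast hp.pos
    have hn0 : (0 : ℝ) < n := by exact_mod_cast hn5
    have hlc : Real.log ((n : ℝ) / p) = Real.log n - Real.log p :=
      Real.log_div hn0.ne' hp0.ne'
    set a := Real.log p / L with ha
    set N := Real.log n / L with hN
    have haL : a * L = Real.log p := div_mul_cancel₀ _ hL.ne'
    have hNL : N * L = Real.log n := div_mul_cancel₀ _ hL.ne'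
    have hN1 : N ≤ 1 := by
      rw [hN, div_le_one hL]
      exact hn4
    have hN2 : 1 - ε ≤ N := by
      rw [hN, le_div_iff₀ hL]
      exact hn3
    have e3 : 1 / 7 ≤ a := by
      rw [ha, le_div_iff₀ hL]
      exact hpL
    have e4 : a < 3 / 7 := by
      rw [ha, div_lt_iff₀ hL]
      exact hpU
    set z : ℝ := (a - 1 / 7) / δ with hz
    have hz0 : 0 ≤ z := div_nonneg (by linarith) hδ0.le
    have hz4 : z < N0 := by
      rw [hz, div_lt_iff₀ hδ0]
      linarith
    set i := ⌊z⌋₊ with hi'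
    have hi4 : i < N0 := by
      have := Nat.floor_le hz0
      have h3 : (i : ℝ) < N0 := lt_of_le_of_lt this hz4
      exact_mod_cast h3
    have hia : u i ≤ a := by
      have h3 : (i : ℝ) ≤ z := Nat.floor_le hz0
      rw [hz, le_div_iff₀ hδ0] at h3
      rw [hu]
      simp only
      linarith
    have hib : a < u (i + 1) := by
      have h3 : z < (i : ℝ) + 1 := Nat.lt_floor_add_one z
      rw [hz, div_lt_iff₀ hδ0] at h3
      rw [hu]
      simp only
      push_cast
      linarith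
    refine ⟨i, Finset.mem_range.mpr hi4, ?_, ?_⟩
    · rw [hS]
      refine mem_PS hX1' hp hpX ?_ ?_
      · change u i * L ≤ Real.log p
        rw [← haL]
        exact mul_le_mul_of_nonneg_right hia hL.le
      · change Real.log p < u (i + 1) * L
        rw [← haL]
        exact mul_lt_mul_of_pos_right hib hL
    · have hW' : W i = ((i : ℝ) + 1) * δ / (1 - u (i + 1) - ε) := by
        rw [hW]
        simp only
        rw [if_pos hi4]
      have hd := hden i hi4
      have hui := hu1 i hi4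
      have hc0 : 0 < N - a := by
        rw [hε] at hN2
        linarith
      have hck : Real.log ((n : ℝ) / p) = (N - a) * L := by
        rw [hlc, sub_mul, hNL, haL]
      have e5 : Real.log n / (p * Real.log ((n : ℝ) / p)) = N / (N - a) / (p : ℝ) := by
        rw [hck, ← hNL]
        field_simp
      rw [e5, hW', ← mul_div_assoc]
      refine div_le_div_of_nonneg_right ?_ (by positivity)
      have e6 : a - 1 / 7 ≤ ((i : ℝ) + 1) * δ := by
        have : u (i + 1) = 1 / 7 + ((i : ℝ) + 1) * δ := by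
          rw [hu]
          simp only
          push_cast
          ring
        linarith
      have hN0 : 0 ≤ N := by
        rw [hε] at hN2
        linarith
      have e7 : N / (N - a) ≤ 1 / (1 - u (i + 1) - ε) := by
        rw [div_le_div_iff₀ hc0 (by linarith)]
        have e8 : N * (1 - u (i + 1) - ε) ≤ N * (1 - a - ε) :=
          mul_le_mul_of_nonneg_left (by linarith) hN0
        nlinarith
      have e9 : 0 ≤ N / (N - a) := div_nonneg hN0 hc0.le
      calc (a - 1 / 7) * (N / (N - a)) ≤ ((i : ℝ) + 1) * δ * (1 / (1 - u (i + 1) - ε)) :=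
            mul_le_mul e6 e7 e9 (by positivity)
        _ = ((i : ℝ) + 1) * δ / (1 - u (i + 1) - ε) := by rw [mul_one_div]
  -- the bound for one slice
  have hsl : ∀ i ∈ range N0, W i * ∑ t ∈ S i, 1 / (t : ℝ) ≤
      10002 / 10000 * (GM (1 / 7 + ((i + 1 : ℕ) + 1 : ℕ) * δ) - GM (1 / 7 + ((i + 1 : ℕ) : ℝ) * δ)) +
        ε := by
    intro i hi'
    have hi4 := Finset.mem_range.mp hi'
    have hW' : W i = ((i : ℝ) + 1) * δ / (1 - u (i + 1) - ε) := by
      rw [hW]
      simp only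
      rw [if_pos hi4]
    have hd := hden i hi4
    have hui := hu1 i hi4
    have hui0 := hu0 i
    have hs := hus i
    have m1 := hmp (u i) (u (i + 1)) (by linarith) (by linarith)
    rw [hs, show u i + δ - u i = δ by ring, max_eq_right hδ0.le] at m1
    have hui00 : 0 < u i := by linarith
    have hi0 : (0 : ℝ) ≤ i := Nat.cast_nonneg i
    have hun : u (i + 1) = 1 / 7 + ((i : ℝ) + 1) * δ := by
      rw [hu]
      simp only
      push_cast
      ring
    have hW1 : W i ≤ 1 := by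
      rw [hW', div_le_one (by linarith)]
      linarith
    have hG := GM_step (u (i + 1)) δ (by linarith) hδ0.le (by
      rw [hδ]
      linarith)
    have hG1 : u (i + 1) + δ = 1 / 7 + (((i + 1 : ℕ) + 1 : ℕ) : ℝ) * δ := by
      rw [hun]
      push_cast
      ring
    have hG2 : u (i + 1) = 1 / 7 + ((i + 1 : ℕ) : ℝ) * δ := by
      rw [hun]
      push_cast
      ring
    rw [hG1] at hG
    rw [← hG2]
    have m2 : W i * ∑ t ∈ S i, 1 / (t : ℝ) ≤ W i * (δ / u i + ε) := by
      refine mul_le_mul_of_nonneg_left ?_ (hW0 i)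
      change ∑ t ∈ PS X (u i) (u (i + 1)), 1 / (t : ℝ) ≤ _
      rw [hs]
      exact m1
    have m3 : W i * (δ / u i) ≤ 10002 / 10000 * (δ * ((u (i + 1) - 1 / 7) /
        (u (i + 1) * (1 - u (i + 1))))) := by
      rw [hW']
      have e1 : u (i + 1) - 1 / 7 = ((i : ℝ) + 1) * δ := by
        rw [hun]
        ring
      rw [e1]
      have e2 : ((i : ℝ) + 1) * δ / (1 - u (i + 1) - ε) * (δ / u i) =
          ((i : ℝ) + 1) * δ * δ * (1 / ((1 - u (i + 1) - ε) * u i)) := by
        field_simp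
      have e3 : 10002 / 10000 * (δ * (((i : ℝ) + 1) * δ / (u (i + 1) * (1 - u (i + 1))))) =
          ((i : ℝ) + 1) * δ * δ * (10002 / 10000 / (u (i + 1) * (1 - u (i + 1)))) := by
        ring
      rw [e2, e3]
      refine mul_le_mul_of_nonneg_left ?_ (by positivity)
      have q1 : 0 < 1 - u (i + 1) - ε := by linarith
      have q2 : 0 < u (i + 1) := by linarith
      have q3 : 0 < 1 - u (i + 1) := by linarith
      rw [div_le_div_iff₀ (mul_pos q1 hui00) (mul_pos q2 q3), one_mul]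
      have e4 : u (i + 1) ≤ u i * (1 + 1 / 10000) := by
        rw [hs]
        rw [hδ]
        nlinarith
      have e5 : 1 - u (i + 1) ≤ (1 - u (i + 1) - ε) * (1 + 1 / 1000000) := by
        rw [hε]
        rw [hε] at hd
        nlinarith
      calc u (i + 1) * (1 - u (i + 1)) ≤
          (u i * (1 + 1 / 10000)) * ((1 - u (i + 1) - ε) * (1 + 1 / 1000000)) :=
            mul_le_mul e4 e5 q3.le (by positivity)
        _ ≤ 10002 / 10000 * ((1 - u (i + 1) - ε) * u i) := by
            have : 0 < (1 - u (i + 1) - ε) * u i := mul_pos q1 hui00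
            nlinarith
    have m4 : W i * ε ≤ ε := by
      have := mul_le_mul_of_nonneg_right hW1 hε0.le
      linarith
    rw [mul_add] at m2
    have m5 := mul_le_mul_of_nonneg_left hG (show (0 : ℝ) ≤ 10002 / 10000 by norm_num)
    linarith
  refine (slice_one (PS X (1 / 7) (3 / 7)) _ N0 S W hW0 hcov).trans ?_
  refine (Finset.sum_le_sum hsl).trans ?_
  rw [Finset.sum_add_distrib, ← Finset.mul_sum,
    Finset.sum_range_sub (fun i : ℕ => GM (1 / 7 + ((i + 1 : ℕ) : ℝ) * δ)) N0, Finset.sum_const,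
    Finset.card_range, nsmul_eq_mul]
  have g1 : (1 : ℝ) / 7 + ((N0 + 1 : ℕ) : ℝ) * δ = 3 / 7 + δ := by
    push_cast
    linarith
  have g2 : (1 : ℝ) / 7 + ((0 + 1 : ℕ) : ℝ) * δ = 1 / 7 + δ := by
    push_cast
    ring
  rw [g1, g2]
  have g3 := GM_end δ hδ0.le (by rw [hδ]; norm_num)
  have g4 := GM_step (1 / 7) δ (by norm_num) hδ0.le (by rw [hδ]; norm_num)
  have g5 := GM_total
  rw [sub_self, zero_div, mul_zero] at g4
  rw [hN0r, hε]
  rw [hδ] at g3 g4 ⊢
  linarith

/-- the sum without the factor -/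
theorem E_oneM : ∃ X0 : ℕ, ∀ X : ℕ, X0 ≤ X → ∀ n : ℕ, X5 X < n → n ≤ X →
    ∑ p ∈ PS X (1 / 7) (3 / 7), Real.log n / (p * Real.log ((n : ℝ) / p)) ≤ 5 := by
  obtain ⟨X1, hX1⟩ := mp (1 / 100) (by norm_num)
  obtain ⟨X2, hX2⟩ := logn_ge (1 / 100) (by norm_num)
  refine ⟨X1 + X2 + 2, fun X hX n hn1 hn2 => ?_⟩
  obtain ⟨hn3, hn4, hXr, hn5⟩ := hX2 X (by omega) n hn1 hn2
  have hmp := hX1 X (by omega) (1 / 7) (3 / 7) (by norm_num) (by norm_num)
  have hX1' : 1 < X := by omega
  have hL : 0 < Real.log X := Real.log_pos hXr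
  have hterm : ∀ p ∈ PS X (1 / 7) (3 / 7), Real.log n / (p * Real.log ((n : ℝ) / p)) ≤
      2 * (1 / (p : ℝ)) := by
    intro p hp'
    obtain ⟨hp, hpX, hpL, hpU⟩ := of_mem_PS hX1' hp'
    have hp0 : (0 : ℝ) < p := by exact_mod_cast hp.pos
    have hn0 : (0 : ℝ) < n := by exact_mod_cast hn5
    have hlc : Real.log ((n : ℝ) / p) = Real.log n - Real.log p :=
      Real.log_div hn0.ne' hp0.ne'
    have h4 : 0 < Real.log n - Real.log p := by nlinarith
    rw [hlc, div_le_iff₀ (mul_pos hp0 h4)]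
    have h5 : 2 * (1 / (p : ℝ)) * (p * (Real.log n - Real.log p)) =
        2 * (Real.log n - Real.log p) := by field_simp
    rw [h5]
    nlinarith
  refine (Finset.sum_le_sum hterm).trans ?_
  rw [← Finset.mul_sum]
  rw [show max 0 ((3 : ℝ) / 7 - 1 / 7) / (1 / 7) = 2 by norm_num] at hmp
  linarith

end Pool.MP_dd84fd_nt.MX
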