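import Pool.Agent.Lib.MP_dd84fd_nt.MX.NDefs
import Pool.Agent.Lib.MP_dd84fd_nt.MX.SvFam
import Pool.Agent.Lib.MP_dd84fd_nt.KX.NKc
import Pool.Agent.Lib.MP_dd84fd_nt.IY.CUs

/-!
# Theorem M, numerics: the facts at one `k`, edges (helper88)
-/

set_option autoImplicit false

namespace Pool.MP_dd84fd_nt.MX

open Finset Pool.MP_67663b_nt.Odd Pool.MP_dd84fd_nt.En Pool.MP_dd84fd_nt.E2 Pool.MP_dd84fd_nt.HX
  Pool.MP_dd84fd_nt.IY Pool.MP_dd84fd_nt.KX Pool.MP_dd84fd_nt.LX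

/-- the facts at one `k` (`x = log X`, `l = log log X`, `b = (th - 3e) x`, `w = lK th τ x`,
`T` = type of `k` with the box `j0` of `n / k`) -/
structure Fm (th e τ ε κ : ℝ) (X n k : ℕ) (x l b w : ℝ) (T : Finset ℕ) (j0 : ℕ) : Prop where
  hx : x = Real.log X
  hX1 : 1 < X
  hl1 : 1 ≤ l
  hκ0 : 0 < κ
  hκ1 : κ ≤ 1 / 100
  hε1 : 0 < ε
  hτx : 100 * l + 100 ≤ τ * x
  hεx : 1000 * (100 * l + 100) ≤ ε * x
  hb : b = bI th e * x
  hw : w = lK th τ * x
  hbx : b = th * x - 3 * (e * x)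
  hwx : w = x / 2 + th * x / 2 - 2 * (τ * x)
  hex : 1000 * (e * x) ≤ τ * x
  hex0 : 0 ≤ e * x
  hth1 : 16 * (τ * x) ≤ th * x - x / 7
  hthe : th * x ≤ x / 7 + ε * x / 1000
  hkX : k ≤ X
  hk0 : 0 < k
  hvn1 : vlog κ (zt X) j0 ≤ Real.log ((n : ℝ) / k)
  hvn2 : Real.log ((n : ℝ) / k) < vlog κ (zt X) j0 + κ
  hnk : Real.log ((n : ℝ) / k) = Real.log n - Real.log k
  hn1 : x - 5 * l ≤ Real.log n
  hn2 : Real.log n ≤ x
  hT : T = insert j0 (ty κ (zt X) k)
  hj0 : j0 ∉ ty κ (zt X) k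
  hmono : ∀ j ∈ ty κ (zt X) k, vlog κ (zt X) j ≤ vlog κ (zt X) j0
  hp1 : ∀ p ∈ k.primeFactors, vlog κ (zt X) (bx κ (zt X) p) ≤ Real.log p
  hp2 : ∀ p ∈ k.primeFactors, Real.log p < vlog κ (zt X) (bx κ (zt X) p) + κ
  hple : ∀ p ∈ k.primeFactors, Real.log p ≤ Real.log ((n : ℝ) / k)
  hsl : x - 6 * l ≤ sg (vlog κ (zt X)) T
  hsu : sg (vlog κ (zt X)) T ≤ x
  hS : Simp κ (zt X) k
  hc : k.primeFactors.card ≤ 10

theorem fm (th e τ : ℝ) (hA : AdmM th e τ) (B' : ℕ) (hB : 1 ≤ B') (ε : ℝ) (hε : 0 < ε)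
    (hthe : th ≤ 1 / 7 + ε / 1000) :
    ∃ X0 : ℕ, ∀ X : ℕ, X0 ≤ X → ∀ n k : ℕ,
    X5 X < n → n ≤ X → 2 ≤ k → Simp (kp B' X) (zt X) k → (zt X : ℝ) ≤ (n : ℝ) / k →
    (∀ j ∈ ty (kp B' X) (zt X) k, j < bx (kp B' X) (zt X) ((n : ℝ) / k)) →
    Fm th e τ ε (kp B' X) X n k (Real.log X) (Real.log (Real.log X)) (bI th e * Real.log X)
      (lK th τ * Real.log X)
      (insert (bx (kp B' X) (zt X) ((n : ℝ) / k)) (ty (kp B' X) (zt X) k))
      (bx (kp B' X) (zt X) ((n : ℝ) / k)) := by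
  obtain ⟨a1, a2, a3, a4, a5, a6⟩ := hA
  have hτ0 : 0 < τ := by linarith
  have hc0 : 0 < min τ (ε / 1000) := lt_min hτ0 (by positivity)
  obtain ⟨X1, hX1⟩ := nhc_big _ hc0 B' hB
  obtain ⟨X2, hX2⟩ := sg_n B' hB
  refine ⟨max X1 (max X2 2), ?_⟩
  intro X hX n k hn hnX hk hS hz hj
  simp only [max_le_iff] at hX
  obtain ⟨b1, b2, b3⟩ := hX
  obtain ⟨g1, g2, g3, g4, g5, g6, g7, g8, g9⟩ := hX1 X b1
  obtain ⟨hcard, ht1, ht2⟩ := hX2 X b2 n k hn hnX (by omega) hS hz hj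
  set x := Real.log (X : ℝ) with hxd
  set l := Real.log x with hld
  set κ := kp B' X with hκd
  set z := zt X with hzd
  have hx0 : 0 < x := by linarith
  have hm1 : min τ (ε / 1000) * x ≤ τ * x :=
    mul_le_mul_of_nonneg_right (min_le_left _ _) hx0.le
  have hm2 : min τ (ε / 1000) * x ≤ ε / 1000 * x :=
    mul_le_mul_of_nonneg_right (min_le_right _ _) hx0.le
  have hz1 : 1 ≤ z := by omega
  have hk0 : (0 : ℝ) < k := by exact_mod_cast (by omega : 0 < k)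
  have hXR : (1 : ℝ) < X := by exact_mod_cast (by omega : 1 < X)
  have hX5 : 0 < X5 X := by
    unfold X5
    rw [← hxd]
    positivity
  have hn0 : (0 : ℝ) < n := hX5.trans hn
  have hkX : k ≤ X := by
    have h1 : (1 : ℝ) ≤ (n : ℝ) / k := by
      have : (1 : ℝ) ≤ z := by exact_mod_cast hz1
      linarith
    rw [le_div_iff₀ hk0, one_mul] at h1
    have h2 : (k : ℝ) ≤ (X : ℝ) := h1.trans (by exact_mod_cast hnX)
    exact_mod_cast h2
  have hlog2 : Real.log 2 < 7 / 10 := by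
    have := Real.log_two_lt_d9
    linarith
  have hvn := vlog_bx g7 hz1 hz
  have hvp : ∀ p ∈ k.primeFactors, vlog κ z (bx κ z p) ≤ Real.log p ∧
      Real.log p < vlog κ z (bx κ z p) + κ := fun p hp => vlog_bx g7 hz1 (by
        exact_mod_cast hS.1.2 p hp)
  refine ⟨rfl, by omega, g3, g7, g8, hε, g5.trans hm1, by linarith [g5.trans hm2],
    rfl, rfl, ?_, ?_, ?_,
    by positivity, ?_, ?_, hkX, by omega, hvn.1, hvn.2,
    Real.log_div hn0.ne' hk0.ne', ?_, ?_, rfl, fun h => lt_irrefl _ (hj _ h), ?_,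
    fun p hp => (hvp p hp).1, fun p hp => (hvp p hp).2, ?_, by linarith, ht2, hS, by omega⟩
  · unfold bI
    ring
  · unfold lK
    ring
  · have := mul_le_mul_of_nonneg_right a4 hx0.le
    linarith
  · have := mul_le_mul_of_nonneg_right a5 hx0.le
    linarith
  · have := mul_le_mul_of_nonneg_right hthe hx0.le
    linarith
  · have h3 : Real.log (X5 X) ≤ Real.log n := Real.log_le_log hX5 hn.le
    have h4 : Real.log (X5 X) = x - 5 * l := by
      unfold X5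
      rw [Real.log_div (by linarith) (by rw [← hxd]; positivity), Real.log_pow, ← hxd]
      norm_num
      rfl
    linarith
  · exact Real.log_le_log hn0 (by exact_mod_cast hnX)
  · intro j hjm
    rw [vlog_eq κ z _ hz1, vlog_eq κ z _ hz1]
    have h10 : (j : ℝ) ≤ (bx κ z ((n : ℝ) / k) : ℕ) := by exact_mod_cast (hj j hjm).le
    have := mul_le_mul_of_nonneg_left h10 g7.le
    linarith
  · intro p hp
    exact Real.log_le_log (by exact_mod_cast (Nat.prime_of_mem_primeFactors hp).pos)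
      (n_le g7 hz1 hS hz hj hp)

/-- the largest element of a set -/
theorem top_of {s : Finset ℕ} {m : ℕ} (h : s.card = m + 1) : ∃ p : ℕ, ∃ s' : Finset ℕ, p ∉ s' ∧
    s = insert p s' ∧ s'.card = m ∧ ∀ q ∈ s', q < p := by
  have hne : s.Nonempty := Finset.card_pos.1 (by omega)
  refine ⟨s.max' hne, s.erase (s.max' hne), Finset.notMem_erase _ _,
    (Finset.insert_erase (s.max'_mem hne)).symm, ?_, ?_⟩
  · rw [Finset.card_erase_of_mem (s.max'_mem hne), h]
    rfl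
  · intro q hq
    exact lt_of_le_of_ne (s.le_max' q (Finset.mem_of_mem_erase hq)) (Finset.ne_of_mem_erase hq)

open Classical in
/-- the error terms -/
noncomputable def Rm (C1 ε : ℝ) (X k : ℕ) : ℝ :=
  C1 * ((if k ∈ KEd X (1 / 7) (1 / 2) ε then 1 else 0) +
    (if k ∈ KEd X (1 / 7) (3 / 7) ε then 1 else 0) +
    (if k ∈ KEd X (1 / 7) (4 / 7) ε then 1 else 0)) + ε * (if k ∈ KR X (1 / 7) then 1 else 0)

namespace Fm

variable {th e τ ε κ : ℝ} {X n k : ℕ} {x l b w : ℝ} {T : Finset ℕ} {j0 : ℕ}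

theorem x0 (F : Fm th e τ ε κ X n k x l b w T j0) : 0 < x := by
  rw [F.hx]
  exact Real.log_pos (by exact_mod_cast F.hX1)

theorem b7 (F : Fm th e τ ε κ X n k x l b w T j0) : x / 7 + 13 * (τ * x) ≤ b := by
  have h1 := F.hth1
  have h2 := F.hbx
  have h3 := F.hex
  have h4 := F.hτx
  have h5 := F.hl1
  linarith

theorem b7' (F : Fm th e τ ε κ X n k x l b w T j0) : b ≤ x / 7 + ε * x / 1000 := by
  have h2 := F.hbx
  have h3 := F.hex0
  have h4 := F.hthe
  linarith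

/-- `w > 4x/7`, not by much -/
theorem w47 (F : Fm th e τ ε κ X n k x l b w T j0) : 4 * x / 7 + 6 * (τ * x) ≤ w ∧
    w ≤ 4 * x / 7 + ε * x / 2000 := by
  have h1 := F.hwx
  have h2 := F.hth1
  have h3 := F.hthe
  have h4 := F.hτx
  have h5 := F.hl1
  constructor <;> linarith

/-- the boxes of the primes -/
theorem ty_prime (_F : Fm th e τ ε κ X n k x l b w T j0) {j : ℕ} (hj : j ∈ ty κ (zt X) k) :
    ∃ p ∈ k.primeFactors, bx κ (zt X) p = j := by
  unfold ty at hj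
  rw [Finset.mem_image] at hj
  exact hj

/-- if all boxes are `≥ b - 1`, then `k ∈ KR` -/
theorem kr (F : Fm th e τ ε κ X n k x l b w T j0)
    (hbox : ∀ j ∈ T, b - 1 ≤ vlog κ (zt X) j) : k ∈ KR X (1 / 7) := by
  classical
  unfold KR
  rw [Finset.mem_filter, Finset.mem_Icc]
  refine ⟨⟨F.hk0, F.hkX⟩, F.hS.2.1, fun p hp => ?_⟩
  have h1 := hbox (bx κ (zt X) p) (by
    rw [F.hT]
    refine Finset.mem_insert_of_mem ?_
    unfold ty
    exact Finset.mem_image_of_mem _ hp)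
  have h2 := F.hp1 p hp
  have h3 := F.b7
  have h4 := F.hτx
  have h5 := F.hl1
  rw [← F.hx]
  linarith

/-- a set of boxes of `k` is a divisor of `k` -/
theorem sub_div (F : Fm th e τ ε κ X n k x l b w T j0) {P : Finset ℕ}
    (hP : P ⊆ ty κ (zt X) k) (hne : P.Nonempty) : ∃ d : ℕ, d ∣ k ∧ 1 < d ∧
      sg (vlog κ (zt X)) P ≤ Real.log d ∧ Real.log d ≤ sg (vlog κ (zt X)) P + 1 := by
  classical
  set Q : Finset ℕ := k.primeFactors.filter (fun p : ℕ => bx κ (zt X) p ∈ P) with hQ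
  have hQs : Q ⊆ k.primeFactors := Finset.filter_subset _ _
  have hinj : Set.InjOn (fun p : ℕ => bx κ (zt X) p) (Q : Set ℕ) :=
    (n_inj F.hS).mono (by exact_mod_cast hQs)
  have himg : Q.image (fun p : ℕ => bx κ (zt X) p) = P := by
    ext j
    rw [Finset.mem_image]
    constructor
    · rintro ⟨p, hp, rfl⟩
      rw [hQ, Finset.mem_filter] at hp
      exact hp.2
    · intro hj
      obtain ⟨p, hp, h⟩ := F.ty_prime (hP hj)
      exact ⟨p, by rw [hQ, Finset.mem_filter]; exact ⟨hp, by rw [h]; exact hj⟩, h⟩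
  have hs : sg (vlog κ (zt X)) P = ∑ p ∈ Q, vlog κ (zt X) (bx κ (zt X) (p : ℝ)) := by
    unfold sg
    rw [← himg, Finset.sum_image hinj]
  have hdvd : ∏ p ∈ Q, p ∣ k := by
    have h1 : ∏ p ∈ k.primeFactors, p = k := Nat.prod_primeFactors_of_squarefree F.hS.2.1
    rw [← h1]
    exact Finset.prod_dvd_prod_of_subset _ _ _ hQs
  have hlog : Real.log ((∏ p ∈ Q, p : ℕ) : ℝ) = ∑ p ∈ Q, Real.log (p : ℝ) := by
    push_cast
    refine Real.log_prod fun p hp => ?_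
    exact_mod_cast (Nat.prime_of_mem_primeFactors (hQs hp)).ne_zero
  have hQne : Q.Nonempty := by
    rw [← himg, Finset.image_nonempty] at hne
    exact hne
  have hQc : (Q.card : ℝ) ≤ 10 := by
    exact_mod_cast (Finset.card_le_card hQs).trans F.hc
  refine ⟨∏ p ∈ Q, p, hdvd, ?_, ?_, ?_⟩
  · obtain ⟨p, hp⟩ := hQne
    have hpp := Nat.prime_of_mem_primeFactors (hQs hp)
    have h1 : p ∣ ∏ p ∈ Q, p := Finset.dvd_prod_of_mem _ hp
    have h2 : 0 < ∏ p ∈ Q, p := Finset.prod_pos fun q hq =>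
      (Nat.prime_of_mem_primeFactors (hQs hq)).pos
    exact lt_of_lt_of_le hpp.one_lt (Nat.le_of_dvd h2 h1)
  · rw [hs, hlog]
    exact Finset.sum_le_sum fun p hp => F.hp1 p (hQs hp)
  · rw [hs, hlog]
    have h1 : ∑ p ∈ Q, Real.log p ≤ ∑ p ∈ Q, (vlog κ (zt X) (bx κ (zt X) p) + κ) :=
      Finset.sum_le_sum fun p hp => (F.hp2 p (hQs hp)).le
    rw [Finset.sum_add_distrib, Finset.sum_const, nsmul_eq_mul] at h1
    have h2 := F.hκ1
    have h3 := F.hκ0
    nlinarith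

/-- edges: a set of boxes near `X^c` -/
theorem edge_of (F : Fm th e τ ε κ X n k x l b w T j0) (hk : k ∈ KR X (1 / 7)) {P : Finset ℕ}
    (hP : P ⊆ T) (hne : P.Nonempty) (hne' : (T \ P).Nonempty) {c : ℝ}
    (hc : |sg (vlog κ (zt X)) P - c * x| ≤ ε * x / 2) :
    k ∈ KEd X (1 / 7) c ε ∨ k ∈ KEd X (1 / 7) (1 - c) ε := by
  classical
  obtain ⟨h1, h2⟩ := abs_le.1 hc
  have g1 := F.hεx
  have g2 := F.hl1
  by_cases h : j0 ∈ P
  · right
    have hQ : T \ P ⊆ ty κ (zt X) k := by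
      intro j hj
      rw [Finset.mem_sdiff, F.hT, Finset.mem_insert] at hj
      rcases hj.1 with h3 | h3
      · rw [h3] at hj
        exact absurd h hj.2
      · exact h3
    obtain ⟨d, d1, d2, d3, d4⟩ := F.sub_div hQ hne'
    have hs : sg (vlog κ (zt X)) (T \ P) = sg (vlog κ (zt X)) T - sg (vlog κ (zt X)) P :=
      sg_compl _ hP
    unfold KEd
    rw [Finset.mem_filter]
    refine ⟨hk, d, d1, d2, ?_⟩
    rw [← F.hx]
    have h5 := F.hsl
    have h6 := F.hsu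
    rw [hs] at d3 d4
    rw [abs_le]
    constructor <;> linarith
  · left
    have hQ : P ⊆ ty κ (zt X) k := by
      intro j hj
      have h3 := hP hj
      rw [F.hT, Finset.mem_insert] at h3
      rcases h3 with h3 | h3
      · rw [h3] at hj
        exact absurd hj h
      · exact h3
    obtain ⟨d, d1, d2, d3, d4⟩ := F.sub_div hQ hne
    unfold KEd
    rw [Finset.mem_filter]
    refine ⟨hk, d, d1, d2, ?_⟩
    rw [← F.hx]
    rw [abs_le]
    constructor <;> linarith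

/-- the error term is nonnegative -/
theorem rm_nonneg (F : Fm th e τ ε κ X n k x l b w T j0) {C1 : ℝ} (hC : 0 ≤ C1) :
    0 ≤ Rm C1 ε X k := by
  classical
  have hε := F.hε1
  unfold Rm
  have f : ∀ S : Finset ℕ, (0 : ℝ) ≤ (if k ∈ S then 1 else 0) := fun S => by
    split_ifs <;> norm_num
  have := f (KEd X (1 / 7) (1 / 2) ε)
  have := f (KEd X (1 / 7) (3 / 7) ε)
  have := f (KEd X (1 / 7) (4 / 7) ε)
  have := f (KR X (1 / 7))
  positivity

/-- without edges at `1/2`, `3/7`, `4/7` all the sums are away from these points -/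
theorem rm_cases (F : Fm th e τ ε κ X n k x l b w T j0) (hk : k ∈ KR X (1 / 7)) {C1 : ℝ}
    (hC : 0 ≤ C1) : C1 + ε ≤ Rm C1 ε X k ∨ (ε ≤ Rm C1 ε X k ∧
      ∀ P ⊆ T, P.Nonempty → (T \ P).Nonempty →
        ε * x / 2 < |sg (vlog κ (zt X)) P - 1 / 2 * x| ∧
        ε * x / 2 < |sg (vlog κ (zt X)) P - 3 / 7 * x| ∧
        ε * x / 2 < |sg (vlog κ (zt X)) P - 4 / 7 * x|) := by
  classical
  have hε := F.hε1
  have f : ∀ S : Finset ℕ, (0 : ℝ) ≤ C1 * (if k ∈ S then 1 else 0) := fun S => by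
    split_ifs <;> simp [hC]
  have f1 := f (KEd X (1 / 7) (1 / 2) ε)
  have f2 := f (KEd X (1 / 7) (3 / 7) ε)
  have f3 := f (KEd X (1 / 7) (4 / 7) ε)
  by_cases h1 : k ∈ KEd X (1 / 7) (1 / 2) ε
  · left
    unfold Rm
    rw [if_pos h1, if_pos hk]
    linarith
  by_cases h2 : k ∈ KEd X (1 / 7) (3 / 7) ε
  · left
    unfold Rm
    rw [if_pos h2, if_pos hk]
    linarith
  by_cases h3 : k ∈ KEd X (1 / 7) (4 / 7) ε
  · left
    unfold Rm
    rw [if_pos h3, if_pos hk]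
    linarith
  right
  refine ⟨?_, fun P hP hne hne' => ⟨?_, ?_, ?_⟩⟩
  · unfold Rm
    rw [if_pos hk]
    linarith
  · by_contra hc
    rcases F.edge_of hk hP hne hne' (not_lt.1 hc) with h | h
    · exact h1 h
    · rw [show (1 : ℝ) - 1 / 2 = 1 / 2 by norm_num] at h
      exact h1 h
  · by_contra hc
    rcases F.edge_of hk hP hne hne' (not_lt.1 hc) with h | h
    · exact h2 h
    · rw [show (1 : ℝ) - 3 / 7 = 4 / 7 by norm_num] at h
      exact h3 h
  · by_contra hc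
    rcases F.edge_of hk hP hne hne' (not_lt.1 hc) with h | h
    · exact h3 h
    · rw [show (1 : ℝ) - 4 / 7 = 3 / 7 by norm_num] at h
      exact h2 h

end Fm

end Pool.MP_dd84fd_nt.MX
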