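import Pool.Agent.Lib.MP_dd84fd_nt.MX.NMb

/-!
# Theorem M, numerics: the values for two, three and four boxes (helper88)
-/

set_option autoImplicit false

namespace Pool.MP_dd84fd_nt.MX

open Finset Pool.MP_67663b_nt.Odd Pool.MP_dd84fd_nt.En Pool.MP_dd84fd_nt.E2 Pool.MP_dd84fd_nt.HX
  Pool.MP_dd84fd_nt.IY Pool.MP_dd84fd_nt.KX Pool.MP_dd84fd_nt.LX

theorem f4_nonneg (a b c d : ℝ) : 0 ≤ f4 a b c d := by
  unfold f4
  split_ifs
  · exact le_rfl
  · exact le_max_left _ _

namespace Fm

variable {th e τ ε κ : ℝ} {X n k : ℕ} {x l b w : ℝ} {T : Finset ℕ} {j0 : ℕ}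

/-- one prime: the two boxes -/
theorem w1 (F : Fm th e τ ε κ X n k x l b w T j0) (hc : k.primeFactors.card = 1) :
    ∃ jp : ℕ, k.Prime ∧ jp ≠ j0 ∧ T = {jp, j0} ∧ vlog κ (zt X) jp ≤ Real.log k ∧
      Real.log k < vlog κ (zt X) jp + κ ∧ vlog κ (zt X) jp ≤ vlog κ (zt X) j0 ∧
      x - 6 * l ≤ vlog κ (zt X) jp + vlog κ (zt X) j0 ∧
      vlog κ (zt X) jp + vlog κ (zt X) j0 ≤ x := by
  obtain ⟨p, hp⟩ := Finset.card_eq_one.1 hc
  have hpm : p ∈ k.primeFactors := by rw [hp]; simp
  have hpp := Nat.prime_of_mem_primeFactors hpm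
  have hprod : ∏ p ∈ k.primeFactors, p = k := Nat.prod_primeFactors_of_squarefree F.hS.2.1
  rw [hp, Finset.prod_singleton] at hprod
  have hT0' : ty κ (zt X) k = {bx κ (zt X) p} := by
    unfold ty
    rw [hp, Finset.image_singleton]
  have hjpT : bx κ (zt X) p ∈ ty κ (zt X) k := by rw [hT0']; simp
  have hne : bx κ (zt X) p ≠ j0 := fun h => F.hj0 (h ▸ hjpT)
  have hTT : T = {bx κ (zt X) p, j0} := by
    rw [F.hT, hT0', Finset.pair_comm]
  have hs : sg (vlog κ (zt X)) T = vlog κ (zt X) (bx κ (zt X) p) + vlog κ (zt X) j0 := by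
    unfold sg
    rw [hTT, Finset.sum_pair hne]
  have h1 := F.hp1 p hpm
  have h2 := F.hp2 p hpm
  have h3 := F.hsl
  have h4 := F.hsu
  rw [hs] at h3 h4
  rw [← hprod]
  exact ⟨_, hpp, hne, by rw [hprod] at *; exact hTT, h1, h2, F.hmono _ hjpT, h3, h4⟩

theorem nr0 {x l ε : ℝ} {P : Finset ℕ} {v : ℕ → ℝ} (h1 : 1000 * (100 * l + 100) ≤ ε * x)
    (h2 : 1 ≤ l) (h : ε * x / 2 < |sg v P - 1 / 2 * x|) : nr x l (sg v P) = 0 := by
  unfold nr
  rw [if_neg]
  intro h3
  rw [show (1 : ℝ) / 2 * x = x / 2 by ring] at h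
  linarith

/-- two boxes -/
theorem c1 (F : Fm th e τ ε κ X n k x l b w T j0) (hc : k.primeFactors.card = 1)
    (hε2 : ε ≤ 1 / 1000) (hβ : 0 < 1 - 3 * bI th e) (B : ℝ)
    (hB : B ≤ ∑ j ∈ T, (vE x b w l (vlog κ (zt X) j) + nr x l (vlog κ (zt X) j))) :
    B ≤ 2 / (1 - 3 * bI th e) * (open Classical in if k ∈ IY.PS X (1 / 7) (3 / 7) then
      Real.log k / Real.log X - 1 / 7 + ε else 0) + Rm 50 ε X k := by
  classical
  obtain ⟨jp, hkp, hne, hTT, h1, h2, h3, h4, h5⟩ := F.w1 hc
  have hx0 := F.x0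
  have hX := F.hX1
  have hb7 := F.b7
  have hb7' := F.b7'
  obtain ⟨hw1, hw2⟩ := F.w47
  have hkX := F.hkX
  have k1 := F.hκ1
  have k2 := F.hκ0
  have k3 := F.hl1
  have k4 := F.hτx
  have k5 := F.hεx
  have hxe := F.hx
  have hb' := F.hb
  have hε0 := F.hε1
  have hεx : ε * x ≤ x / 1000 := by
    have := mul_le_mul_of_nonneg_right hε2 hx0.le
    linarith
  rw [hTT, Finset.sum_pair hne] at hB
  have hRn := F.rm_nonneg (show (0 : ℝ) ≤ 50 by norm_num)
  have hnr : nr x l (vlog κ (zt X) jp) + nr x l (vlog κ (zt X) j0) ≤ Rm 50 ε X k := by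
    by_cases h6 : x / 2 - 26 * l ≤ vlog κ (zt X) jp
    · have hbox : ∀ j ∈ T, b - 1 ≤ vlog κ (zt X) j := by
        intro j hj
        rw [hTT] at hj
        simp only [Finset.mem_insert, Finset.mem_singleton] at hj
        rcases hj with rfl | rfl <;> linarith
      rcases F.rm_cases (F.kr hbox) (show (0 : ℝ) ≤ 50 by norm_num) with h7 | ⟨h7, h8⟩
      · have m1 : nr x l (vlog κ (zt X) jp) ≤ 1 := by
          unfold nr
          split_ifs <;> norm_num
        have m2 : nr x l (vlog κ (zt X) j0) ≤ 1 := by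
          unfold nr
          split_ifs <;> norm_num
        linarith
      · exfalso
        have h9 := (h8 {jp} (by rw [hTT]; simp) (by simp) ⟨j0, by
          rw [hTT, Finset.mem_sdiff]
          simp [hne.symm]⟩).1
        have h10 : sg (vlog κ (zt X)) {jp} = vlog κ (zt X) jp := by
          unfold sg
          simp
        rw [h10] at h9
        have h11 : |vlog κ (zt X) jp - 1 / 2 * x| ≤ 30 * l := by
          rw [abs_le]
          constructor <;> linarith
        linarith
    · have h7 : nr x l (vlog κ (zt X) jp) = 0 := by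
        unfold nr
        rw [if_neg]
        intro h8
        have := (abs_le.1 h8).1
        linarith
      have h9 : nr x l (vlog κ (zt X) j0) = 0 := by
        unfold nr
        rw [if_neg]
        intro h8
        have := (abs_le.1 h8).2
        linarith
      rw [h7, h9]
      linarith
  have hvE0 : vE x b w l (vlog κ (zt X) j0) = 0 := by
    refine vE_zero ?_
    linarith
  have hg : (0 : ℝ) ≤ (if k ∈ IY.PS X (1 / 7) (3 / 7) then
      Real.log k / Real.log X - 1 / 7 + ε else 0) := by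
    split_ifs with h
    · obtain ⟨_, _, h1, _⟩ := of_mem_PS hX h
      have : 1 / 7 ≤ Real.log k / Real.log X := by
        rw [le_div_iff₀ (by rw [← hxe]; exact hx0)]
        exact h1
      linarith
    · exact le_rfl
  have hi4 : 0 ≤ 2 / (1 - 3 * bI th e) := div_nonneg (by norm_num) hβ.le
  have hx3b : x - 3 * b = (1 - 3 * bI th e) * x := by rw [hb']; ring
  have hA2 : vE x b w l (vlog κ (zt X) jp) ≤ 2 / (1 - 3 * bI th e) *
      (if k ∈ IY.PS X (1 / 7) (3 / 7) then Real.log k / Real.log X - 1 / 7 + ε else 0) := by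
    by_cases h6 : vlog κ (zt X) jp ≤ x - w
    · by_cases h7 : 0 < vlog κ (zt X) jp - b + 2 * l + 1
      · have hmem : k ∈ IY.PS X (1 / 7) (3 / 7) := by
          refine mem_PS hX hkp hkX ?_ ?_
          · rw [← hxe]
            linarith
          · rw [← hxe]
            linarith
        rw [if_pos hmem]
        have h8 : vE x b w l (vlog κ (zt X) jp) =
            2 * (vlog κ (zt X) jp - b + 2 * l + 1) / (x - 3 * b) := by
          unfold vE
          rw [if_pos h6, max_eq_right h7.le]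
        rw [h8, hx3b, div_mul_eq_mul_div, div_le_div_iff₀ (by positivity) hβ]
        have h9 : (Real.log k / Real.log X - 1 / 7 + ε) * x = Real.log k - 1 / 7 * x + ε * x := by
          rw [← hxe]
          field_simp
        have h10 : 2 * (Real.log k / Real.log X - 1 / 7 + ε) * ((1 - 3 * bI th e) * x) =
            2 * (Real.log k - 1 / 7 * x + ε * x) * (1 - 3 * bI th e) := by
          rw [← h9]
          ring
        rw [h10]
        refine mul_le_mul_of_nonneg_right ?_ hβ.le
        linarith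
      · have h8 : vE x b w l (vlog κ (zt X) jp) = 0 := by
          unfold vE
          rw [if_pos h6, max_eq_left (by linarith)]
          norm_num
        rw [h8]
        exact mul_nonneg hi4 hg
    · rw [vE_zero (not_le.1 h6)]
      exact mul_nonneg hi4 hg
  linarith

/-- no edge near `x - w` -/
theorem ed0 (F : Fm th e τ ε κ X n k x l b w T j0) {j : ℕ}
    (h : ε * x / 2 < |sg (vlog κ (zt X)) {j} - 3 / 7 * x|) :
    ed x w l (vlog κ (zt X) j) = 0 := by
  obtain ⟨hw1, hw2⟩ := F.w47
  have k3 := F.hl1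
  have k4 := F.hτx
  have k5 := F.hεx
  unfold ed
  rw [if_neg]
  intro h3
  obtain ⟨h4, h5⟩ := abs_le.1 h3
  have h10 : sg (vlog κ (zt X)) {j} = vlog κ (zt X) j := by
    unfold sg
    simp
  rw [h10] at h
  have h6 : |vlog κ (zt X) j - 3 / 7 * x| ≤ ε * x / 2 := by
    rw [abs_le]
    constructor <;> linarith
  linarith

/-- three boxes -/
theorem c2 (F : Fm th e τ ε κ X n k x l b w T j0) (hc : k.primeFactors.card = 2)
    (hε2 : ε ≤ 1 / 1000) (B : ℝ)
    (hB : B = 0 ∨ ((∀ j ∈ T, b - 1 ≤ vlog κ (zt X) j) ∧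
      B ≤ 2 * (6 * l + 3) / (x - 3 * b) + ∑ j ∈ T, (nr x l (vlog κ (zt X) j) +
        2 * ed x w l (vlog κ (zt X) j)))) :
    B ≤ Rm 50 ε X k := by
  classical
  have hx0 := F.x0
  have hb7' := F.b7'
  have k3 := F.hl1
  have k5 := F.hεx
  have hε0 := F.hε1
  have hεx : ε * x ≤ x / 1000 := by
    have := mul_le_mul_of_nonneg_right hε2 hx0.le
    linarith
  have hT3 : T.card = 3 := by
    rw [F.hT, Finset.card_insert_of_notMem F.hj0]
    unfold ty
    rw [Finset.card_image_of_injOn (n_inj F.hS), hc]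
  rcases hB with h | ⟨hbox, hB⟩
  · rw [h]
    exact F.rm_nonneg (by norm_num)
  have g1 : 2 * (6 * l + 3) / (x - 3 * b) ≤ ε := by
    rw [div_le_iff₀ (by linarith)]
    have h2 : ε * (x / 2) ≤ ε * (x - 3 * b) := mul_le_mul_of_nonneg_left (by linarith) hε0.le
    linarith
  rcases F.rm_cases (F.kr hbox) (show (0 : ℝ) ≤ 50 by norm_num) with h7 | ⟨h7, h8⟩
  · have h1 : ∑ j ∈ T, (nr x l (vlog κ (zt X) j) + 2 * ed x w l (vlog κ (zt X) j)) ≤
        ∑ _j ∈ T, (3 : ℝ) := by
      refine Finset.sum_le_sum fun j _ => ?_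
      unfold nr ed
      split_ifs <;> norm_num
    rw [Finset.sum_const, hT3] at h1
    norm_num at h1
    linarith
  · have h1 : ∑ j ∈ T, (nr x l (vlog κ (zt X) j) + 2 * ed x w l (vlog κ (zt X) j)) = 0 := by
      refine Finset.sum_eq_zero fun j hj => ?_
      have h9 := h8 {j} (by simpa using hj) (by simp) (by
        rw [← Finset.card_pos, Finset.card_sdiff_of_subset (by simpa using hj)]
        simp [hT3])
      have h10 : sg (vlog κ (zt X)) {j} = vlog κ (zt X) j := by
        unfold sg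
        simp
      have h11 := nr0 k5 k3 h9.1
      rw [h10] at h11
      rw [h11, F.ed0 h9.2.1]
      norm_num
    rw [h1] at hB
    linarith

/-- a pair with `n / k` -/
theorem bq_h4 (F : Fm th e τ ε κ X n k x l b w T j0) (hε2 : ε ≤ 1 / 1000) {sv s : ℝ}
    (h1 : sv ≤ s) (h2 : s ≤ sv + 1) (h3 : sv ≤ x - 2 * (b - 1))
    (hed : ε * x / 2 < |sv - 4 / 7 * x|) : h4 (s / x) ≤ bq x b w l sv + ε / 10 := by
  have hx0 := F.x0
  have hb7 := F.b7
  have hb7' := F.b7'
  obtain ⟨hw1, hw2⟩ := F.w47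
  have k3 := F.hl1
  have k4 := F.hτx
  have k5 := F.hεx
  have hε0 := F.hε1
  have hεx : ε * x ≤ x / 1000 := by
    have := mul_le_mul_of_nonneg_right hε2 hx0.le
    linarith
  have hx3 : 0 < x - 3 * b := by linarith
  have hbq0 : 0 ≤ bq x b w l sv := by
    unfold bq
    split_ifs
    · exact div_nonneg (by linarith) hx3.le
    · exact le_rfl
  unfold h4
  by_cases c : 4 / 7 < s / x
  · rw [if_pos c]
    have c1 : 4 / 7 * x < s := by
      rw [lt_div_iff₀ hx0] at c
      exact c
    have c2 : 4 / 7 * x + ε * x / 2 < sv := by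
      rcases lt_abs.1 hed with h | h <;> linarith
    have c3 : bq x b w l sv = 2 * (x - b - sv - 4 * l - 2) / (x - 3 * b) := by
      unfold bq
      rw [if_pos (by linarith)]
    rw [c3]
    have c4 : 7 / 2 * ((x - b - sv - 4 * l - 2) / x) ≤
        2 * (x - b - sv - 4 * l - 2) / (x - 3 * b) := by
      have c5 : 7 / 2 * ((x - b - sv - 4 * l - 2) / x) =
          2 * (x - b - sv - 4 * l - 2) / (4 / 7 * x) := by
        field_simp
        ring
      rw [c5]
      exact div_le_div_of_nonneg_left (by linarith) hx3 (by linarith)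
    have c7 : (x - b - sv - 4 * l - 2) / x ≥ 6 / 7 - s / x - ε / 50 := by
      have c8 : 6 / 7 - ε / 50 ≤ (x - b - sv - 4 * l - 2) / x + s / x := by
        rw [← add_div, le_div_iff₀ hx0]
        have c9 : (6 / 7 - ε / 50) * x = 6 / 7 * x - ε * x / 50 := by ring
        rw [c9]
        linarith
      linarith
    linarith
  · rw [if_neg c]
    linarith

/-- the boxes for `k = p q r` -/
theorem w3 (F : Fm th e τ ε κ X n k x l b w T j0) {p q r : ℕ} (hp : p.Prime) (hq : q.Prime)
    (hr : r.Prime) (hqp : q < p) (hrq : r < q) (hk : k = p * q * r) :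
    ∃ jp jq jr : ℕ, jp ≠ jq ∧ jp ≠ jr ∧ jp ≠ j0 ∧ jq ≠ jr ∧ jq ≠ j0 ∧ jr ≠ j0 ∧
      T = {jp, jq, jr, j0} ∧
      vlog κ (zt X) jp ≤ Real.log p ∧ Real.log p < vlog κ (zt X) jp + κ ∧
      vlog κ (zt X) jq ≤ Real.log q ∧ Real.log q < vlog κ (zt X) jq + κ ∧
      vlog κ (zt X) jr ≤ Real.log r ∧ Real.log r < vlog κ (zt X) jr + κ ∧
      vlog κ (zt X) jp + vlog κ (zt X) jq + vlog κ (zt X) jr + vlog κ (zt X) j0 ≤ x := by
  have hpq : p ≠ q := hqp.ne'
  have hqr : q ≠ r := hrq.ne'
  have hpr : p ≠ r := (hrq.trans hqp).ne'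
  have hpf : k.primeFactors = {p, q, r} := by
    rw [hk, Nat.primeFactors_mul (mul_ne_zero hp.ne_zero hq.ne_zero) hr.ne_zero,
      Nat.primeFactors_mul hp.ne_zero hq.ne_zero, hp.primeFactors, hq.primeFactors,
      hr.primeFactors]
    ext j
    simp only [Finset.mem_union, Finset.mem_insert, Finset.mem_singleton]
    tauto
  have hpm : p ∈ k.primeFactors := by rw [hpf]; simp
  have hqm : q ∈ k.primeFactors := by rw [hpf]; simp
  have hrm : r ∈ k.primeFactors := by rw [hpf]; simp
  have hb1 : bx κ (zt X) p ≠ bx κ (zt X) q := fun h => hpq (F.hS.2.2 p hpm q hqm h)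
  have hb2 : bx κ (zt X) p ≠ bx κ (zt X) r := fun h => hpr (F.hS.2.2 p hpm r hrm h)
  have hb3 : bx κ (zt X) q ≠ bx κ (zt X) r := fun h => hqr (F.hS.2.2 q hqm r hrm h)
  have hT0' : ty κ (zt X) k = {bx κ (zt X) p, bx κ (zt X) q, bx κ (zt X) r} := by
    unfold ty
    rw [hpf, Finset.image_insert, Finset.image_insert, Finset.image_singleton]
  have hjpT : bx κ (zt X) p ∈ ty κ (zt X) k := by rw [hT0']; simp
  have hjqT : bx κ (zt X) q ∈ ty κ (zt X) k := by rw [hT0']; simp
  have hjrT : bx κ (zt X) r ∈ ty κ (zt X) k := by rw [hT0']; simp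
  have hne1 : bx κ (zt X) p ≠ j0 := fun h => F.hj0 (h ▸ hjpT)
  have hne2 : bx κ (zt X) q ≠ j0 := fun h => F.hj0 (h ▸ hjqT)
  have hne3 : bx κ (zt X) r ≠ j0 := fun h => F.hj0 (h ▸ hjrT)
  have hTT : T = {bx κ (zt X) p, bx κ (zt X) q, bx κ (zt X) r, j0} := by
    rw [F.hT, hT0']
    ext j
    simp only [Finset.mem_insert, Finset.mem_singleton]
    tauto
  have hs : sg (vlog κ (zt X)) T = vlog κ (zt X) (bx κ (zt X) p) +
      vlog κ (zt X) (bx κ (zt X) q) + vlog κ (zt X) (bx κ (zt X) r) + vlog κ (zt X) j0 := by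
    unfold sg
    rw [hTT, Finset.sum_insert (by simp [hb1, hb2, hne1]), Finset.sum_insert (by simp [hb3, hne2]),
      Finset.sum_pair hne3]
    ring
  have h4 := F.hsu
  rw [hs] at h4
  exact ⟨_, _, _, hb1, hb2, hne1, hb3, hne2, hne3, hTT,
    F.hp1 p hpm, F.hp2 p hpm, F.hp1 q hqm, F.hp2 q hqm, F.hp1 r hrm, F.hp2 r hrm, h4⟩

/-- four boxes -/
theorem c3 (F : Fm th e τ ε κ X n k x l b w T j0) (hc : k.primeFactors.card = 3)
    (hε2 : ε ≤ 1 / 1000) (B : ℝ)
    (hB : B = 0 ∨ ((∀ j ∈ T, b - 1 ≤ vlog κ (zt X) j) ∧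
      x - 6 * l ≤ sg (vlog κ (zt X)) T ∧ sg (vlog κ (zt X)) T ≤ x ∧
      ((∃ d ∈ T, sg (vlog κ (zt X)) T - w ≤ vlog κ (zt X) d ∧
        B ≤ nr x l (vlog κ (zt X) d) + 2 * ed x w l (vlog κ (zt X) d)) ∨
      ((∀ j ∈ T, vlog κ (zt X) j < sg (vlog κ (zt X)) T - w) ∧ B ≤
        6 - 4 * (x - 4 * b) / (x - 3 * b) -
          ∑ P ∈ T.powersetCard 2, bq x b w l (sg (vlog κ (zt X)) P) +
          ∑ P ∈ T.powersetCard 2, nr x l (sg (vlog κ (zt X)) P))))) :
    (∀ p q r : ℕ, p.Prime → q.Prime → r.Prime → q < p → r < q → k = p * q * r →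
      B ≤ f4 (Real.log r / Real.log X) (Real.log q / Real.log X)
        (Real.log p / Real.log X) (Real.log ((n : ℝ) / k) / Real.log X) + Rm 50 ε X k) ∧
    (k ∉ KQ X n (1 / 7) → B ≤ Rm 50 ε X k) := by
  classical
  have hx0 := F.x0
  have hb7 := F.b7
  have hb7' := F.b7'
  obtain ⟨hw1, hw2⟩ := F.w47
  have k1 := F.hκ1
  have k2 := F.hκ0
  have k3 := F.hl1
  have k4 := F.hτx
  have k5 := F.hεx
  have hε0 := F.hε1
  have hεx : ε * x ≤ x / 1000 := by
    have := mul_le_mul_of_nonneg_right hε2 hx0.le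
    linarith
  have hx3 : 0 < x - 3 * b := by linarith
  have hRn := F.rm_nonneg (show (0 : ℝ) ≤ 50 by norm_num)
  have hT4 : T.card = 4 := by
    rw [F.hT, Finset.card_insert_of_notMem F.hj0]
    unfold ty
    rw [Finset.card_image_of_injOn (n_inj F.hS), hc]
  constructor
  · intro p q r hp hq hr hqp hrq hk
    have hf4 := f4_nonneg (Real.log r / Real.log X) (Real.log q / Real.log X)
        (Real.log p / Real.log X) (Real.log ((n : ℝ) / k) / Real.log X)
    rcases hB with h | ⟨hbox, _, hsu, hB⟩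
    · rw [h]
      linarith
    have hR := F.rm_cases (F.kr hbox) (show (0 : ℝ) ≤ 50 by norm_num)
    rcases hB with ⟨d, hd, -, hB⟩ | ⟨hv, hB⟩
    · rcases hR with h7 | ⟨h7, h8⟩
      · have h1 : nr x l (vlog κ (zt X) d) + 2 * ed x w l (vlog κ (zt X) d) ≤ 3 := by
          unfold nr ed
          split_ifs <;> norm_num
        linarith
      · have h9 := h8 {d} (by simpa using hd) (by simp) (by
          rw [← Finset.card_pos, Finset.card_sdiff_of_subset (by simpa using hd)]
          simp [hT4])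
        have h10 : sg (vlog κ (zt X)) {d} = vlog κ (zt X) d := by
          unfold sg
          simp
        have h11 := nr0 k5 k3 h9.1
        rw [h10] at h11
        rw [h11, F.ed0 h9.2.1] at hB
        linarith
    · obtain ⟨jp, jq, jr, e1, e2, e3, e4, e5, e6, hTT, p1, p2, q1, q2, r1, r2, s2⟩ :=
        F.w3 hp hq hr hqp hrq hk
      have bp := hbox jp (by rw [hTT]; simp)
      have bq' := hbox jq (by rw [hTT]; simp)
      have br := hbox jr (by rw [hTT]; simp)
      have b0 := hbox j0 (by rw [hTT]; simp)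
      have v0 := hv j0 (by rw [hTT]; simp)
      have n1 := F.hvn1
      have n2 := F.hvn2
      have hd : ¬ (3 : ℝ) / 7 < Real.log ((n : ℝ) / k) / Real.log X := by
        rw [← F.hx, not_lt, div_le_iff₀ hx0]
        linarith
      have hbq : ∀ s, s ≤ x - 2 * (b - 1) → 0 ≤ bq x b w l s := by
        intro s hs
        unfold bq
        split_ifs
        · exact div_nonneg (by linarith) hx3.le
        · exact le_rfl
      have g1 : 6 - 4 * (x - 4 * b) / (x - 3 * b) ≤ 3 + ε / 50 := by
        have h1 : 4 * (x - 4 * b) / (x - 3 * b) ≥ 3 - ε / 50 := by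
          rw [ge_iff_le, le_div_iff₀ hx3]
          have h2 : (3 - ε / 50) * (x - 3 * b) = 3 * (x - 3 * b) - ε / 50 * (x - 3 * b) := by ring
          rw [h2]
          have h3 : ε / 50 * (x / 2) ≤ ε / 50 * (x - 3 * b) :=
            mul_le_mul_of_nonneg_left (by linarith) (by positivity)
          have h4 : ε / 50 * (x / 2) = ε * x / 100 := by ring
          rw [h4] at h3
          linarith
        linarith
      have sp : ∀ i j : ℕ, i ≠ j → sg (vlog κ (zt X)) {i, j} =
          vlog κ (zt X) i + vlog κ (zt X) j := fun i j hij => by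
        unfold sg
        exact Finset.sum_pair hij
      rw [hTT, psumc4 _ e1 e2 e3 e4 e5 e6, psumc4 _ e1 e2 e3 e4 e5 e6, sp _ _ e1, sp _ _ e2,
        sp _ _ e3, sp _ _ e4, sp _ _ e5, sp _ _ e6] at hB
      have z1 := hbq (vlog κ (zt X) jp + vlog κ (zt X) jq) (by linarith)
      have z2 := hbq (vlog κ (zt X) jp + vlog κ (zt X) jr) (by linarith)
      have z3 := hbq (vlog κ (zt X) jp + vlog κ (zt X) j0) (by linarith)
      have z4 := hbq (vlog κ (zt X) jq + vlog κ (zt X) jr) (by linarith)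
      have z5 := hbq (vlog κ (zt X) jq + vlog κ (zt X) j0) (by linarith)
      have z6 := hbq (vlog κ (zt X) jr + vlog κ (zt X) j0) (by linarith)
      have hnr1 : ∀ s, nr x l s ≤ 1 := fun s => by
        unfold nr
        split_ifs <;> norm_num
      rcases hR with h7 | ⟨h7, h8⟩
      · have y1 := hnr1 (vlog κ (zt X) jp + vlog κ (zt X) jq)
        have y2 := hnr1 (vlog κ (zt X) jp + vlog κ (zt X) jr)
        have y3 := hnr1 (vlog κ (zt X) jp + vlog κ (zt X) j0)
        have y4 := hnr1 (vlog κ (zt X) jq + vlog κ (zt X) jr)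
        have y5 := hnr1 (vlog κ (zt X) jq + vlog κ (zt X) j0)
        have y6 := hnr1 (vlog κ (zt X) jr + vlog κ (zt X) j0)
        linarith
      · have pr : ∀ i j : ℕ, i ∈ T → j ∈ T → i ≠ j →
            ε * x / 2 < |vlog κ (zt X) i + vlog κ (zt X) j - 1 / 2 * x| ∧
            ε * x / 2 < |vlog κ (zt X) i + vlog κ (zt X) j - 3 / 7 * x| ∧
            ε * x / 2 < |vlog κ (zt X) i + vlog κ (zt X) j - 4 / 7 * x| := by
          intro i j hi hj hij
          have hs : ({i, j} : Finset ℕ) ⊆ T := by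
            intro y hy
            simp only [Finset.mem_insert, Finset.mem_singleton] at hy
            rcases hy with rfl | rfl <;> assumption
          have := h8 {i, j} hs (by simp) (by
            rw [← Finset.card_pos, Finset.card_sdiff_of_subset hs, Finset.card_pair hij, hT4]
            norm_num)
          rw [sp i j hij] at this
          exact this
        have hnr0 : ∀ i j : ℕ, i ∈ T → j ∈ T → i ≠ j →
            nr x l (vlog κ (zt X) i + vlog κ (zt X) j) = 0 := by
          intro i j hi hj hij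
          have h9 := (pr i j hi hj hij).1
          unfold nr
          rw [if_neg]
          intro h3
          rw [show (1 : ℝ) / 2 * x = x / 2 by ring] at h9
          linarith
        have mp' : jp ∈ T := by rw [hTT]; simp
        have mq : jq ∈ T := by rw [hTT]; simp
        have mr : jr ∈ T := by rw [hTT]; simp
        have m0 : j0 ∈ T := by rw [hTT]; simp
        rw [hnr0 _ _ mp' mq e1, hnr0 _ _ mp' mr e2, hnr0 _ _ mp' m0 e3, hnr0 _ _ mq mr e4,
          hnr0 _ _ mq m0 e5, hnr0 _ _ mr m0 e6] at hB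
        have w1 := F.bq_h4 hε2 (sv := vlog κ (zt X) jp + vlog κ (zt X) j0)
          (s := Real.log p + Real.log ((n : ℝ) / k)) (by linarith) (by linarith) (by linarith)
          (pr _ _ mp' m0 e3).2.2
        have w2 := F.bq_h4 hε2 (sv := vlog κ (zt X) jq + vlog κ (zt X) j0)
          (s := Real.log q + Real.log ((n : ℝ) / k)) (by linarith) (by linarith) (by linarith)
          (pr _ _ mq m0 e5).2.2
        have w3 := F.bq_h4 hε2 (sv := vlog κ (zt X) jr + vlog κ (zt X) j0)
          (s := Real.log r + Real.log ((n : ℝ) / k)) (by linarith) (by linarith) (by linarith)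
          (pr _ _ mr m0 e6).2.2
        have hf : 3 - (h4 (Real.log r / Real.log X + Real.log ((n : ℝ) / k) / Real.log X) +
            h4 (Real.log q / Real.log X + Real.log ((n : ℝ) / k) / Real.log X) +
            h4 (Real.log p / Real.log X + Real.log ((n : ℝ) / k) / Real.log X)) ≤
            f4 (Real.log r / Real.log X) (Real.log q / Real.log X)
              (Real.log p / Real.log X) (Real.log ((n : ℝ) / k) / Real.log X) := by
          unfold f4
          rw [if_neg hd]
          exact le_max_right _ _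
        rw [← add_div, ← add_div, ← add_div, ← F.hx] at hf
        rw [← F.hx]
        linarith
  · intro hk
    rcases hB with h | ⟨hbox, _⟩
    · rw [h]
      exact hRn
    exfalso
    apply hk
    obtain ⟨p, s1, hp1, hp2, hp3, hp4⟩ := top_of hc
    obtain ⟨q, s2, hq1, hq2, hq3, hq4⟩ := top_of hp3
    obtain ⟨r, hr⟩ := Finset.card_eq_one.1 hq3
    rw [hr] at hq2 hq4 hq1
    rw [hq2] at hp2 hp4 hp1
    have hqp : q < p := hp4 q (by simp)
    have hrq : r < q := hq4 r (by simp)
    have hpq : p ≠ q := hqp.ne'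
    have hqr : q ≠ r := hrq.ne'
    have hpr : p ≠ r := (hrq.trans hqp).ne'
    have hpm : p ∈ k.primeFactors := by rw [hp2]; simp
    have hqm : q ∈ k.primeFactors := by rw [hp2]; simp
    have hrm : r ∈ k.primeFactors := by rw [hp2]; simp
    have hprod : ∏ p ∈ k.primeFactors, p = k := Nat.prod_primeFactors_of_squarefree F.hS.2.1
    rw [hp2, Finset.prod_insert (by simp [hpq, hpr]), Finset.prod_pair hqr] at hprod
    unfold KQ
    rw [Finset.mem_filter, Finset.mem_Icc]
    refine ⟨⟨F.hk0, F.hkX⟩, p, q, r, Nat.prime_of_mem_primeFactors hpm,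
      Nat.prime_of_mem_primeFactors hqm, Nat.prime_of_mem_primeFactors hrm, hqp, hrq,
      by rw [← hprod]; ring, ?_, F.hple p hpm⟩
    have h1 := hbox (bx κ (zt X) r) (by
      rw [F.hT]
      refine Finset.mem_insert_of_mem ?_
      unfold ty
      exact Finset.mem_image_of_mem _ hrm)
    have h2 := F.hp1 r hrm
    rw [← F.hx]
    linarith

end Fm

end Pool.MP_dd84fd_nt.MX
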