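import Pool.Agent.Lib.MP_dd84fd_nt.MX.NMb

/-!
# Theorem M, numerics: the values for five and six boxes (helper63)
-/

set_option autoImplicit false

namespace Pool.MP_dd84fd_nt.MX

open Finset Pool.MP_67663b_nt.Odd Pool.MP_dd84fd_nt.En Pool.MP_dd84fd_nt.E2 Pool.MP_dd84fd_nt.HX
  Pool.MP_dd84fd_nt.IY Pool.MP_dd84fd_nt.KX Pool.MP_dd84fd_nt.LX

/-- the sum over the pairs of an enlarged set -/
theorem psum2_insert (f : Finset ℕ → ℝ) {a : ℕ} {S : Finset ℕ} (ha : a ∉ S) :
    ∑ P ∈ (insert a S).powersetCard 2, f P = ∑ P ∈ S.powersetCard 2, f P + ∑ j ∈ S, f {a, j} := by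
  classical
  rw [Finset.powersetCard_succ_insert ha, Finset.sum_union, Finset.sum_image]
  · congr 1
    rw [Finset.powersetCard_one, Finset.sum_map]
    rfl
  · intro P hP Q hQ hPQ
    rw [Finset.mem_coe, Finset.mem_powersetCard] at hP hQ
    have e1 : (insert a P).erase a = P := Finset.erase_insert fun hc => ha (hP.1 hc)
    have e2 : (insert a Q).erase a = Q := Finset.erase_insert fun hc => ha (hQ.1 hc)
    rw [← e1, ← e2, hPQ]
  · rw [Finset.disjoint_left]
    intro P hP hQ
    rw [Finset.mem_powersetCard] at hP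
    rw [Finset.mem_image] at hQ
    obtain ⟨Q, _, rfl⟩ := hQ
    exact ha (hP.1 (Finset.mem_insert_self a Q))

theorem mem_KR' {X k : ℕ} {θ : ℝ} : k ∈ KR X θ ↔ (1 ≤ k ∧ k ≤ X) ∧ Squarefree k ∧
    ∀ p ∈ k.primeFactors, θ * Real.log X ≤ Real.log p := by
  unfold KR
  rw [Finset.mem_filter, Finset.mem_Icc]

theorem h5_nonneg {s : ℝ} (h : s ≤ 4 / 7) : 0 ≤ h5 s := by
  unfold h5
  split_ifs
  · linarith
  · exact le_rfl

/-- four prime factors -/
theorem four_pf {k : ℕ} (hsq : Squarefree k) (hc : k.primeFactors.card = 4) :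
    ∃ p q r t : ℕ, p.Prime ∧ q.Prime ∧ r.Prime ∧ t.Prime ∧ q < p ∧ r < q ∧ t < r ∧
      k = p * q * r * t ∧ k.primeFactors = {p, q, r, t} := by
  classical
  obtain ⟨p, s1, a1, a2, a3, a4⟩ := top_of hc
  obtain ⟨q, s2, b1, b2, b3, b4⟩ := top_of a3
  obtain ⟨r, s3, c1, c2, c3, c4⟩ := top_of b3
  obtain ⟨t, s4, d1, d2, d3, d4⟩ := top_of c3
  have hs4 : s4 = ∅ := Finset.card_eq_zero.1 d3
  rw [hs4] at d2
  rw [d2] at c2 c4
  rw [c2] at b2 b4
  rw [b2] at a2 a4
  have hpf : k.primeFactors = {p, q, r, t} := a2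
  have hP : ∀ z ∈ k.primeFactors, z.Prime := fun z hz => Nat.prime_of_mem_primeFactors hz
  have hqp := a4 q (by simp)
  have hrq := b4 r (by simp)
  have htr := c4 t (by simp)
  refine ⟨p, q, r, t, hP p (by rw [hpf]; simp), hP q (by rw [hpf]; simp),
    hP r (by rw [hpf]; simp), hP t (by rw [hpf]; simp), hqp, hrq, htr, ?_, hpf⟩
  rw [← Nat.prod_primeFactors_of_squarefree hsq, hpf,
    Finset.prod_insert (by simp only [mem_insert, mem_singleton]; omega),
    Finset.prod_insert (by simp only [mem_insert, mem_singleton]; omega),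
    Finset.prod_insert (by simp only [mem_singleton]; omega), Finset.prod_singleton]
  ring

/-- five prime factors -/
theorem five_pf {k : ℕ} (hsq : Squarefree k) (hc : k.primeFactors.card = 5) :
    ∃ p q r t o : ℕ, p.Prime ∧ q.Prime ∧ r.Prime ∧ t.Prime ∧ o.Prime ∧ q < p ∧ r < q ∧ t < r ∧
      o < t ∧ k = p * q * r * t * o ∧ k.primeFactors = {p, q, r, t, o} := by
  classical
  obtain ⟨p, s1, a1, a2, a3, a4⟩ := top_of hc
  obtain ⟨q, s2, b1, b2, b3, b4⟩ := top_of a3
  obtain ⟨r, s3, c1, c2, c3, c4⟩ := top_of b3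
  obtain ⟨t, s4, d1, d2, d3, d4⟩ := top_of c3
  obtain ⟨o, s5, e1, e2, e3, e4⟩ := top_of d3
  have hs5 : s5 = ∅ := Finset.card_eq_zero.1 e3
  rw [hs5] at e2
  rw [e2] at d2 d4
  rw [d2] at c2 c4
  rw [c2] at b2 b4
  rw [b2] at a2 a4
  have hpf : k.primeFactors = {p, q, r, t, o} := a2
  have hP : ∀ z ∈ k.primeFactors, z.Prime := fun z hz => Nat.prime_of_mem_primeFactors hz
  have hqp := a4 q (by simp)
  have hrq := b4 r (by simp)
  have htr := c4 t (by simp)
  have hot := d4 o (by simp)
  refine ⟨p, q, r, t, o, hP p (by rw [hpf]; simp), hP q (by rw [hpf]; simp),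
    hP r (by rw [hpf]; simp), hP t (by rw [hpf]; simp), hP o (by rw [hpf]; simp), hqp, hrq, htr,
    hot, ?_, hpf⟩
  rw [← Nat.prod_primeFactors_of_squarefree hsq, hpf,
    Finset.prod_insert (by simp only [mem_insert, mem_singleton]; omega),
    Finset.prod_insert (by simp only [mem_insert, mem_singleton]; omega),
    Finset.prod_insert (by simp only [mem_insert, mem_singleton]; omega),
    Finset.prod_insert (by simp only [mem_singleton]; omega), Finset.prod_singleton]
  ring

namespace Fm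

variable {th e τ ε κ : ℝ} {X n k : ℕ} {x l b w : ℝ} {T : Finset ℕ} {j0 : ℕ}

theorem τ0 (F : Fm th e τ ε κ X n k x l b w T j0) : 0 < τ * x := by
  have h1 := F.hτx
  have h2 := F.hl1
  linarith

theorem x3b (F : Fm th e τ ε κ X n k x l b w T j0) (hε2 : ε ≤ 1 / 1000) :
    x / 2 ≤ x - 3 * b ∧ x - 3 * b ≤ 4 * x / 7 := by
  have h1 := F.b7
  have h2 := F.b7'
  have h3 := F.x0
  have h4 : ε * x ≤ 1 / 1000 * x := mul_le_mul_of_nonneg_right hε2 h3.le
  have h5 := F.τ0
  constructor <;> linarith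

/-- the crude bound for one pair -/
theorem cq_one (F : Fm th e τ ε κ X n k x l b w T j0) (hε2 : ε ≤ 1 / 1000) (s : ℝ) :
    cq x b w l s + nr x l s ≤ 2 := by
  have h1 := F.b7
  have h3 := F.x0
  have h4 : ε * x ≤ 1 / 1000 * x := mul_le_mul_of_nonneg_right hε2 h3.le
  have h5 := F.τ0
  have h6 := F.w47
  have h7 := F.hεx
  have h8 := F.hl1
  have h9 := F.x3b hε2
  have n1 : nr x l s ≤ 1 := by
    unfold nr
    split_ifs <;> norm_num
  have n2 : cq x b w l s ≤ 1 := by
    unfold cq
    split_ifs with h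
    · rw [div_le_one (by linarith)]
      linarith
    · norm_num
  linarith

/-- a pair away from the edges -/
theorem cq_le (F : Fm th e τ ε κ X n k x l b w T j0) (hε2 : ε ≤ 1 / 1000) {s L : ℝ}
    (hs1 : s ≤ L) (hs2 : L ≤ s + 1) (hL : L ≤ 4 / 7 * x)
    (h1 : ε * x / 2 < |s - 1 / 2 * x|) (h2 : ε * x / 2 < |s - 3 / 7 * x|) :
    cq x b w l s + nr x l s ≤ h5 (L / x) + ε / 20 := by
  have g1 := F.b7
  have g3 := F.x0
  have g5 := F.τ0
  have g6 := F.w47
  have g7 := F.hεx
  have g8 := F.hl1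
  have g9 := F.x3b hε2
  have gε := F.hε1
  have n1 : nr x l s = 0 := by
    unfold nr
    rw [if_neg]
    intro h
    rw [show s - x / 2 = s - 1 / 2 * x by ring] at h
    linarith
  have hL' : L / x ≤ 4 / 7 := by
    rw [div_le_iff₀ g3]
    exact hL
  rw [n1, add_zero]
  unfold cq
  split_ifs with h
  · have h3 : 3 / 7 * x < s := by
      by_contra hc
      push Not at hc
      rw [abs_of_nonpos (by linarith)] at h2
      linarith
    have h4 : 3 / 7 ≤ L / x := by
      rw [le_div_iff₀ g3]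
      linarith
    unfold h5
    rw [if_pos h4, div_le_iff₀ (by linarith)]
    have h6 : L / x * x = L := div_mul_cancel₀ _ g3.ne'
    -- `2 (x - 3 b - s + 6 l + 3) ≤ (2 - 7/2 L/x + ε/20) (x - 3 b)`
    have h7 : L / x * (x - 3 * b) ≤ 4 / 7 * L := by
      have : L / x * (x - 3 * b) ≤ L / x * (4 * x / 7) :=
        mul_le_mul_of_nonneg_left g9.2 (by linarith)
      calc L / x * (x - 3 * b) ≤ L / x * (4 * x / 7) := this
        _ = 4 / 7 * (L / x * x) := by ring
        _ = 4 / 7 * L := by rw [h6]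
    have h8 : ε / 20 * (x / 2) ≤ ε / 20 * (x - 3 * b) :=
      mul_le_mul_of_nonneg_left g9.1 (by linarith)
    nlinarith
  · have := h5_nonneg hL'
    linarith

/-- the value at five boxes without the pairs -/
theorem v5 (F : Fm th e τ ε κ X n k x l b w T j0) (hε2 : ε ≤ 1 / 1000) :
    6 - 6 * (x - 5 * b) / (x - 3 * b) ≤ 3 + ε / 10 := by
  have g1 := F.b7'
  have g3 := F.x0
  have gε := F.hε1
  have g9 := F.x3b hε2
  have h1 : (3 - ε / 10) * (x - 3 * b) ≤ 6 * (x - 5 * b) := by
    have h4 : ε * x ≤ 1 / 1000 * x := mul_le_mul_of_nonneg_right hε2 g3.le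
    have h8 : ε / 10 * (x / 2) ≤ ε / 10 * (x - 3 * b) :=
      mul_le_mul_of_nonneg_left g9.1 (by linarith)
    nlinarith
  have h2 : 3 - ε / 10 ≤ 6 * (x - 5 * b) / (x - 3 * b) := by
    rw [le_div_iff₀ (by linarith)]
    exact h1
  linarith

/-- the value at six boxes -/
theorem v6 (F : Fm th e τ ε κ X n k x l b w T j0) (hε2 : ε ≤ 1 / 1000) :
    12 * (x - 6 * b + 12 * l + 6) / (x - 3 * b) ≤ 3 + ε := by
  have g1 := F.b7'
  have g2 := F.b7
  have g3 := F.x0
  have gε := F.hε1
  have g9 := F.x3b hε2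
  have g5 := F.τ0
  have g10 := F.hτx
  have g8 := F.hl1
  rw [div_le_iff₀ (by linarith)]
  have h8 : ε * (x / 2) ≤ ε * (x - 3 * b) := mul_le_mul_of_nonneg_left g9.1 (by linarith)
  nlinarith

/-- the logarithms in the boxes -/
theorem box_p (F : Fm th e τ ε κ X n k x l b w T j0) {p : ℕ} (hp : p ∈ k.primeFactors) :
    bx κ (zt X) p ∈ T ∧ bx κ (zt X) p ≠ j0 ∧ vlog κ (zt X) (bx κ (zt X) p) ≤ Real.log p ∧
      Real.log p ≤ vlog κ (zt X) (bx κ (zt X) p) + 1 / 2 := by
  have h0 : bx κ (zt X) p ∈ ty κ (zt X) k := by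
    unfold ty
    exact Finset.mem_image_of_mem _ hp
  refine ⟨?_, ?_, F.hp1 p hp, ?_⟩
  · rw [F.hT]
    exact Finset.mem_insert_of_mem h0
  · intro h
    rw [h] at h0
    exact F.hj0 h0
  · have h1 := F.hp2 p hp
    have h2 := F.hκ1
    linarith

/-- a pair of boxes, with the logarithms -/
theorem pair_le (F : Fm th e τ ε κ X n k x l b w T j0) (hε2 : ε ≤ 1 / 1000) (hT3 : 3 ≤ T.card)
    (hedge : ∀ P ⊆ T, P.Nonempty → (T \ P).Nonempty →
        ε * x / 2 < |sg (vlog κ (zt X)) P - 1 / 2 * x| ∧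
        ε * x / 2 < |sg (vlog κ (zt X)) P - 3 / 7 * x| ∧
        ε * x / 2 < |sg (vlog κ (zt X)) P - 4 / 7 * x|) {i j : ℕ} (hi : i ∈ T) (hj : j ∈ T)
    (hij : i ≠ j) {L1 L2 : ℝ} (hi1 : vlog κ (zt X) i ≤ L1) (hi2 : L1 ≤ vlog κ (zt X) i + 1 / 2)
    (hj1 : vlog κ (zt X) j ≤ L2) (hj2 : L2 ≤ vlog κ (zt X) j + 1 / 2)
    (hL : L1 + L2 ≤ 4 / 7 * x) :
    cq x b w l (sg (vlog κ (zt X)) {i, j}) + nr x l (sg (vlog κ (zt X)) {i, j}) ≤
      h5 (L1 / x + L2 / x) + ε / 20 := by
  have hsub : ({i, j} : Finset ℕ) ⊆ T := by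
    intro z hz
    simp only [mem_insert, mem_singleton] at hz
    rcases hz with rfl | rfl
    · exact hi
    · exact hj
  have hne : (T \ {i, j}).Nonempty := by
    rw [← Finset.card_pos, Finset.card_sdiff_of_subset hsub, Finset.card_pair hij]
    omega
  obtain ⟨h1, h2, -⟩ := hedge {i, j} hsub ⟨i, by simp⟩ hne
  rw [← add_div]
  rw [sg_two _ hij] at h1 h2 ⊢
  exact F.cq_le hε2 (by linarith) (by linarith) hL h1 h2

/-- four primes -/
theorem c4 (F : Fm th e τ ε κ X n k x l b w T j0) (hc : k.primeFactors.card = 4)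
    (hε2 : ε ≤ 1 / 1000) (B : ℝ)
    (hB : B = 0 ∨ ((∀ j ∈ T, b - 1 ≤ vlog κ (zt X) j) ∧ B ≤ 6 - 6 * (x - 5 * b) / (x - 3 * b) +
      ∑ P ∈ T.powersetCard 2, (cq x b w l (sg (vlog κ (zt X)) P) +
        nr x l (sg (vlog κ (zt X)) P)))) :
    (∀ p q r t : ℕ, p.Prime → q.Prime → r.Prime → t.Prime → q < p → r < q → t < r →
      1 / 7 * Real.log X ≤ Real.log t → k = p * q * r * t →
      B ≤ f5 (Real.log t / Real.log X) (Real.log r / Real.log X) (Real.log q / Real.log X)
        (Real.log p / Real.log X) (Real.log ((n : ℝ) / k) / Real.log X) + Rm 50 ε X k) ∧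
    (k ∉ KQ5 X n (1 / 7) → B ≤ Rm 50 ε X k) := by
  classical
  have g3 := F.x0
  have gε := F.hε1
  have hR0 := F.rm_nonneg (C1 := 50) (by norm_num)
  have hsq : Squarefree k := F.hS.2.1
  constructor
  · intro p q r t hp hq hr ht hqp hrq htr ht7 hk
    have hpf : k.primeFactors = {p, q, r, t} := by
      have d1 : p ∣ k := ⟨q * r * t, by rw [hk]; ring⟩
      have d2 : q ∣ k := ⟨p * r * t, by rw [hk]; ring⟩
      have d3 : r ∣ k := ⟨p * q * t, by rw [hk]; ring⟩
      have d4 : t ∣ k := ⟨p * q * r, by rw [hk]; ring⟩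
      have hk0 : k ≠ 0 := by have := F.hk0; omega
      symm
      apply Finset.eq_of_subset_of_card_le
      · intro z hz
        simp only [mem_insert, mem_singleton] at hz
        rcases hz with rfl | rfl | rfl | rfl
        · exact Nat.mem_primeFactors.2 ⟨hp, d1, hk0⟩
        · exact Nat.mem_primeFactors.2 ⟨hq, d2, hk0⟩
        · exact Nat.mem_primeFactors.2 ⟨hr, d3, hk0⟩
        · exact Nat.mem_primeFactors.2 ⟨ht, d4, hk0⟩
      · rw [hc, Finset.card_insert_of_notMem (by simp only [mem_insert, mem_singleton]; omega),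
          Finset.card_insert_of_notMem (by simp only [mem_insert, mem_singleton]; omega),
          Finset.card_pair (by omega)]
    have mp : p ∈ k.primeFactors := by rw [hpf]; simp
    have mq : q ∈ k.primeFactors := by rw [hpf]; simp
    have mr : r ∈ k.primeFactors := by rw [hpf]; simp
    have mt : t ∈ k.primeFactors := by rw [hpf]; simp
    obtain ⟨tp, np, p1, p2⟩ := F.box_p mp
    obtain ⟨tq, nq, q1, q2⟩ := F.box_p mq
    obtain ⟨tr, nr', r1, r2⟩ := F.box_p mr
    obtain ⟨tt, nt, t1, t2⟩ := F.box_p mt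
    have lqp : Real.log q ≤ Real.log p :=
      Real.log_le_log (by exact_mod_cast hq.pos) (by exact_mod_cast hqp.le)
    have lrq : Real.log r ≤ Real.log q :=
      Real.log_le_log (by exact_mod_cast hr.pos) (by exact_mod_cast hrq.le)
    have ltr : Real.log t ≤ Real.log r :=
      Real.log_le_log (by exact_mod_cast ht.pos) (by exact_mod_cast htr.le)
    have lpn := F.hple p mp
    rw [← F.hx] at ht7 ⊢
    have hp0 : (p : ℝ) ≠ 0 := by exact_mod_cast hp.ne_zero
    have hq0 : (q : ℝ) ≠ 0 := by exact_mod_cast hq.ne_zero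
    have hr0 : (r : ℝ) ≠ 0 := by exact_mod_cast hr.ne_zero
    have ht0 : (t : ℝ) ≠ 0 := by exact_mod_cast ht.ne_zero
    have hlk : Real.log k = Real.log p + Real.log q + Real.log r + Real.log t := by
      rw [hk]
      push_cast
      rw [Real.log_mul (by positivity) ht0, Real.log_mul (by positivity) hr0,
        Real.log_mul hp0 hq0]
    have hnk := F.hnk
    have hn2 := F.hn2
    obtain ⟨N, hN⟩ : ∃ N, N = Real.log ((n : ℝ) / k) := ⟨_, rfl⟩
    have hvn1 := F.hvn1
    have hvn2 := F.hvn2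
    have hκ1 := F.hκ1
    rw [← hN] at lpn hnk hvn1 hvn2 ⊢
    have sum5 : Real.log p + Real.log q + Real.log r + Real.log t + N ≤ x := by linarith
    have hsm : ∀ A : ℝ, A ≤ 4 / 7 * x → A / x ≤ 4 / 7 := fun A hA => by
      rw [div_le_iff₀ g3]
      exact hA
    have hf : ∀ A B : ℝ, A + B ≤ 4 / 7 * x → 0 ≤ h5 (A / x + B / x) := fun A B hAB => by
      rw [← add_div]
      exact h5_nonneg (hsm _ hAB)
    have hf5 : 3 ≤ f5 (Real.log t / x) (Real.log r / x) (Real.log q / x) (Real.log p / x)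
        (N / x) := by
      unfold f5
      have k1 := hf (Real.log t) (Real.log r) (by linarith)
      have k2 := hf (Real.log t) (Real.log q) (by linarith)
      have k3 := hf (Real.log t) (Real.log p) (by linarith)
      have k4 := hf (Real.log t) N (by linarith)
      have k5 := hf (Real.log r) (Real.log q) (by linarith)
      have k6 := hf (Real.log r) (Real.log p) (by linarith)
      have k7 := hf (Real.log r) N (by linarith)
      have k8 := hf (Real.log q) (Real.log p) (by linarith)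
      have k9 := hf (Real.log q) N (by linarith)
      have k10 := hf (Real.log p) N (by linarith)
      linarith
    rcases hB with hB | ⟨hbox, hB⟩
    · rw [hB]
      linarith
    have hkr := F.kr hbox
    have v5 := F.v5 hε2
    have hinj := n_inj F.hS
    have hne : ∀ a c : ℕ, a ∈ k.primeFactors → c ∈ k.primeFactors → a ≠ c →
        bx κ (zt X) a ≠ bx κ (zt X) c := fun a c ha hcc hac h => hac (hinj ha hcc h)
    have hTe : T = insert j0 (insert (bx κ (zt X) p) (insert (bx κ (zt X) q)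
        {bx κ (zt X) r, bx κ (zt X) t})) := by
      rw [F.hT]
      unfold ty
      rw [hpf]
      simp only [Finset.image_insert, Finset.image_singleton]
    have e1 := hne p q mp mq (by omega)
    have e2 := hne p r mp mr (by omega)
    have e3 := hne p t mp mt (by omega)
    have e4 := hne q r mq mr (by omega)
    have e5 := hne q t mq mt (by omega)
    have e6 := hne r t mr mt (by omega)
    have hTc : T.card = 5 := by
      rw [hTe, Finset.card_insert_of_notMem (by simp [np.symm, nq.symm, nr'.symm, nt.symm]),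
        Finset.card_insert_of_notMem (by simp [e1, e2, e3]),
        Finset.card_insert_of_notMem (by simp [e4, e5]), Finset.card_pair e6]
    rcases F.rm_cases hkr (C1 := 50) (by norm_num) with h50 | ⟨hR, hedge⟩
    · have hsum : ∑ P ∈ T.powersetCard 2, (cq x b w l (sg (vlog κ (zt X)) P) +
          nr x l (sg (vlog κ (zt X)) P)) ≤ 20 := by
        have := Finset.sum_le_card_nsmul (T.powersetCard 2) (fun P =>
          cq x b w l (sg (vlog κ (zt X)) P) + nr x l (sg (vlog κ (zt X)) P)) 2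
          (fun P _ => F.cq_one hε2 _)
        rw [Finset.card_powersetCard, hTc] at this
        norm_num [Nat.choose] at this
        exact this
      linarith
    · have hj0T : j0 ∈ T := by rw [hTe]; simp
      have k1 := F.pair_le hε2 (by omega) hedge hj0T tp np.symm hvn1 (by linarith) p1 p2
        (by linarith)
      have k2 := F.pair_le hε2 (by omega) hedge hj0T tq nq.symm hvn1 (by linarith) q1 q2
        (by linarith)
      have k3 := F.pair_le hε2 (by omega) hedge hj0T tr nr'.symm hvn1 (by linarith) r1 r2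
        (by linarith)
      have k4 := F.pair_le hε2 (by omega) hedge hj0T tt nt.symm hvn1 (by linarith) t1 t2
        (by linarith)
      have k5 := F.pair_le hε2 (by omega) hedge tp tq e1 p1 p2 q1 q2 (by linarith)
      have k6 := F.pair_le hε2 (by omega) hedge tp tr e2 p1 p2 r1 r2 (by linarith)
      have k7 := F.pair_le hε2 (by omega) hedge tp tt e3 p1 p2 t1 t2 (by linarith)
      have k8 := F.pair_le hε2 (by omega) hedge tq tr e4 q1 q2 r1 r2 (by linarith)
      have k9 := F.pair_le hε2 (by omega) hedge tq tt e5 q1 q2 t1 t2 (by linarith)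
      have k10 := F.pair_le hε2 (by omega) hedge tr tt e6 r1 r2 t1 t2 (by linarith)
      have hsum := hB
      rw [hTe, psum2_insert _ (by simp [np.symm, nq.symm, nr'.symm, nt.symm]),
        psum2_insert _ (by simp [e1, e2, e3]), psum2_insert _ (by simp [e4, e5]),
        psum2_insert _ (by simp [e6]), Finset.powersetCard_eq_empty.2 (by simp),
        Finset.sum_empty, Finset.sum_singleton, Finset.sum_pair e6,
        Finset.sum_insert (by simp [e4, e5]), Finset.sum_pair e6,
        Finset.sum_insert (by simp [e1, e2, e3]), Finset.sum_insert (by simp [e4, e5]),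
        Finset.sum_pair e6] at hsum
      have hcm : ∀ A B : ℝ, h5 (A + B) = h5 (B + A) := fun A B => by rw [add_comm]
      rw [hcm] at k1 k2 k3 k4 k5 k6 k7 k8 k9 k10
      unfold f5
      linarith
  · intro hk5
    rcases hB with hB | ⟨hbox, hB⟩
    · rw [hB]
      exact hR0
    exfalso
    apply hk5
    have hkr := F.kr hbox
    obtain ⟨p, q, r, t, hp, hq, hr, ht, hqp, hrq, htr, hk, hpf⟩ := four_pf hsq hc
    rw [mem_KR'] at hkr
    unfold KQ5
    rw [Finset.mem_filter, Finset.mem_Icc]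
    refine ⟨⟨F.hk0, F.hkX⟩, p, q, r, t, hp, hq, hr, ht, hqp, hrq, htr, hk, ?_, ?_⟩
    · exact hkr.2.2 t (by rw [hpf]; simp)
    · exact F.hple p (by rw [hpf]; simp)

/-- five primes -/
theorem c5 (F : Fm th e τ ε κ X n k x l b w T j0) (hc : k.primeFactors.card = 5)
    (hε2 : ε ≤ 1 / 1000) (B : ℝ)
    (hB : B = 0 ∨ ((∀ j ∈ T, b - 1 ≤ vlog κ (zt X) j) ∧
      B ≤ 12 * (x - 6 * b + 12 * l + 6) / (x - 3 * b) +
        ∑ P ∈ T.powersetCard 3, nr x l (sg (vlog κ (zt X)) P))) :
    B ≤ 3 + Rm 50 ε X k ∧ (k ∉ KQ6 X n (1 / 7) → B ≤ Rm 50 ε X k) := by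
  classical
  have g3 := F.x0
  have gε := F.hε1
  have hR0 := F.rm_nonneg (C1 := 50) (by norm_num)
  have hsq : Squarefree k := F.hS.2.1
  have hTc : T.card = 6 := by
    rw [F.hT, Finset.card_insert_of_notMem F.hj0]
    unfold ty
    rw [Finset.card_image_of_injOn (n_inj F.hS), hc]
  constructor
  · rcases hB with hB | ⟨hbox, hB⟩
    · rw [hB]
      linarith
    have hkr := F.kr hbox
    have v6 := F.v6 hε2
    rcases F.rm_cases hkr (C1 := 50) (by norm_num) with h50 | ⟨hR, hedge⟩
    · have hsum : ∑ P ∈ T.powersetCard 3, nr x l (sg (vlog κ (zt X)) P) ≤ 20 := by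
        have := Finset.sum_le_card_nsmul (T.powersetCard 3) (fun P =>
          nr x l (sg (vlog κ (zt X)) P)) 1
          (fun P _ => by
            show nr x l (sg (vlog κ (zt X)) P) ≤ 1
            unfold nr
            split_ifs <;> norm_num)
        rw [Finset.card_powersetCard, hTc] at this
        norm_num [Nat.choose] at this
        exact this
      linarith
    · have hsum : ∑ P ∈ T.powersetCard 3, nr x l (sg (vlog κ (zt X)) P) = 0 := by
        refine Finset.sum_eq_zero fun P hP => ?_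
        rw [Finset.mem_powersetCard] at hP
        have hne : P.Nonempty := by
          rw [← Finset.card_pos]
          omega
        have hne' : (T \ P).Nonempty := by
          rw [← Finset.card_pos, Finset.card_sdiff_of_subset hP.1]
          omega
        obtain ⟨h1, -, -⟩ := hedge P hP.1 hne hne'
        unfold nr
        rw [if_neg]
        intro h
        rw [show sg (vlog κ (zt X)) P - x / 2 = sg (vlog κ (zt X)) P - 1 / 2 * x by ring] at h
        have g7 := F.hεx
        have g8 := F.hl1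
        linarith
      rw [hsum] at hB
      linarith
  · intro hk5
    rcases hB with hB | ⟨hbox, hB⟩
    · rw [hB]
      exact hR0
    exfalso
    apply hk5
    have hkr := F.kr hbox
    obtain ⟨p, q, r, t, o, hp, hq, hr, ht, ho, hqp, hrq, htr, hot, hk, hpf⟩ := five_pf hsq hc
    rw [mem_KR'] at hkr
    unfold KQ6
    rw [Finset.mem_filter, Finset.mem_Icc]
    refine ⟨⟨F.hk0, F.hkX⟩, p, q, r, t, o, hp, hq, hr, ht, ho, hqp, hrq, htr, hot, hk, ?_, ?_⟩
    · exact hkr.2.2 o (by rw [hpf]; simp)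
    · exact F.hple p (by rw [hpf]; simp)

end Fm

end Pool.MP_dd84fd_nt.MX
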