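import Pool.Agent.Lib.MP_dd84fd_nt.MX.NMa
import Pool.Agent.Lib.MP_dd84fd_nt.MX.NMc
import Pool.Agent.Lib.MP_dd84fd_nt.MX.NMd
import Pool.Agent.Lib.MP_dd84fd_nt.LX.NLf

/-!
# Theorem M, numerics: the density of the majorant (helper88)
-/

set_option autoImplicit false

namespace Pool.MP_dd84fd_nt.MX

open Finset Pool.MP_67663b_nt.Odd Pool.MP_dd84fd_nt.En Pool.MP_dd84fd_nt.E2 Pool.MP_dd84fd_nt.HX
  Pool.MP_dd84fd_nt.IY Pool.MP_dd84fd_nt.KX Pool.MP_dd84fd_nt.LX

open Classical in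
/-- the pointwise bounds for `B = bmM ..` at the type of `k ≥ 2` and `n / k` -/
def PwM (th e ε : ℝ) (X n k : ℕ) (B : ℝ) : Prop :=
  0 ≤ Rm 50 ε X k ∧
  (k.primeFactors.card = 1 → B ≤ 2 / (1 - 3 * bI th e) * (if k ∈ IY.PS X (1 / 7) (3 / 7) then
      Real.log k / Real.log X - 1 / 7 + ε else 0) + Rm 50 ε X k) ∧
  (k.primeFactors.card = 2 → B ≤ Rm 50 ε X k) ∧
  (k.primeFactors.card = 3 →
    (∀ p q r : ℕ, p.Prime → q.Prime → r.Prime → q < p → r < q → k = p * q * r →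
      B ≤ f4 (Real.log r / Real.log X) (Real.log q / Real.log X)
        (Real.log p / Real.log X) (Real.log ((n : ℝ) / k) / Real.log X) + Rm 50 ε X k) ∧
    (k ∉ KQ X n (1 / 7) → B ≤ Rm 50 ε X k)) ∧
  (k.primeFactors.card = 4 →
    (∀ p q r t : ℕ, p.Prime → q.Prime → r.Prime → t.Prime → q < p → r < q → t < r →
      1 / 7 * Real.log X ≤ Real.log t → k = p * q * r * t →
      B ≤ f5 (Real.log t / Real.log X) (Real.log r / Real.log X) (Real.log q / Real.log X)
        (Real.log p / Real.log X) (Real.log ((n : ℝ) / k) / Real.log X) + Rm 50 ε X k) ∧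
    (k ∉ KQ5 X n (1 / 7) → B ≤ Rm 50 ε X k)) ∧
  (k.primeFactors.card = 5 →
    B ≤ 3 + Rm 50 ε X k ∧ (k ∉ KQ6 X n (1 / 7) → B ≤ Rm 50 ε X k)) ∧
  (6 ≤ k.primeFactors.card → B ≤ 0)

theorem nme (th e τ : ℝ) (hA : AdmM th e τ) (B' : ℕ) (hB : 1 ≤ B') (ε : ℝ) (hε : 0 < ε)
    (hε2 : ε ≤ 1 / 1000) (hthe : th ≤ 1 / 7 + ε / 1000) :
    ∃ X0 : ℕ, ∀ X : ℕ, X0 ≤ X → ∀ n k : ℕ,
    X5 X < n → n ≤ X → 2 ≤ k → Simp (kp B' X) (zt X) k → (zt X : ℝ) ≤ (n : ℝ) / k →
    (∀ j ∈ ty (kp B' X) (zt X) k, j < bx (kp B' X) (zt X) ((n : ℝ) / k)) →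
    PwM th e ε X n k (bmM τ (bI th e) (lK th τ) (kp B' X) X
        (insert (bx (kp B' X) (zt X) ((n : ℝ) / k)) (ty (kp B' X) (zt X) k))) := by
  obtain ⟨X1, hF⟩ := fm th e τ hA B' hB ε hε hthe
  obtain ⟨X2, hV⟩ := mval hA B' hB
  obtain ⟨X4, hV4⟩ := mval4 hA B' hB
  obtain ⟨X3, hU⟩ := us_v B' hB
  refine ⟨max X1 (max X2 (max X3 X4)), ?_⟩
  intro X hX n k hn hnX hk hS hz hj
  simp only [max_le_iff] at hX
  have F := hF X hX.1 n k hn hnX hk hS hz hj
  obtain ⟨u1, u2, u3⟩ := hU X hX.2.2.1 n k hn hnX (by omega) hS hz hj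
  obtain ⟨v1, v2, v3, -, v5, v6, v7⟩ := hV X hX.2.1 _ _ _ _ rfl rfl rfl rfl _ rfl _ rfl _ u1 u2
  have v4 := hV4 X hX.2.2.2 _ _ _ _ rfl rfl rfl rfl _ rfl _ rfl _ u1 u2
  obtain ⟨a1, a2, a3, a4, a5, a6⟩ := hA
  have hβ : 0 < 1 - 3 * bI th e := by
    unfold bI
    linarith
  refine ⟨F.rm_nonneg (by norm_num), fun h => F.c1 h hε2 hβ _ (v2 (by omega)),
    fun h => F.c2 h hε2 _ (v3 (by omega)), fun h => F.c3 h hε2 _ (v4 (by omega)),
    fun h => F.c4 h hε2 _ (v5 (by omega)), fun h => F.c5 h hε2 _ (v6 (by omega)),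
    fun h => (v7 (by omega)).le⟩

/-- the value at `k = 1` -/
theorem nm_one (th e τ : ℝ) (hA : AdmM th e τ) (B' : ℕ) (hB : 1 ≤ B') : ∃ X0 : ℕ, ∀ X : ℕ,
    X0 ≤ X → ∀ n : ℕ, X5 X < n → n ≤ X →
    bmM τ (bI th e) (lK th τ) (kp B' X) X
        (insert (bx (kp B' X) (zt X) ((n : ℝ) / (1 : ℕ))) (ty (kp B' X) (zt X) 1)) = 1 := by
  classical
  obtain ⟨X1, hV⟩ := mval hA B' hB
  obtain ⟨X2, hU⟩ := us_v B' hB
  obtain ⟨X3, hX3⟩ := X5_ge
  refine ⟨X1 + X2 + X3 + 2, ?_⟩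
  intro X hX n hn hnX
  obtain ⟨h51, -⟩ := hX3 X (by omega)
  have hsimp : Simp (kp B' X) (zt X) 1 := by
    refine ⟨⟨one_ne_zero, ?_⟩, squarefree_one, ?_⟩
    · intro p hp
      simp at hp
    · intro p hp
      simp at hp
  have hty : ty (kp B' X) (zt X) 1 = ∅ := by
    unfold ty
    simp
  have hnz : (zt X : ℝ) ≤ (n : ℝ) / (1 : ℕ) := by
    rw [Nat.cast_one, div_one]
    linarith
  have hj : ∀ j ∈ ty (kp B' X) (zt X) 1, j < bx (kp B' X) (zt X) ((n : ℝ) / (1 : ℕ)) := by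
    rw [hty]
    intro j hj
    simp at hj
  obtain ⟨u1, u2, u3⟩ := hU X (by omega) n 1 hn hnX le_rfl hsimp hnz hj
  obtain ⟨v1, -⟩ := hV X (by omega) _ _ _ _ rfl rfl rfl rfl _ rfl _ rfl _ u1 u2
  exact v1 (by rw [u3]; simp)

theorem f5_nonneg (a b c d e : ℝ) (ha : 1 / 7 ≤ a) (hab : a ≤ b) (hbc : b ≤ c) (hcd : c ≤ d)
    (hde : d ≤ e) (hs : a + b + c + d + e ≤ 1) : 0 ≤ f5 a b c d e := by
  have h : ∀ s : ℝ, s ≤ 4 / 7 → 0 ≤ h5 s := by
    intro s hs
    unfold h5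
    split_ifs
    · linarith
    · exact le_rfl
  have := h (a + b) (by linarith)
  have := h (a + c) (by linarith)
  have := h (a + d) (by linarith)
  have := h (a + e) (by linarith)
  have := h (b + c) (by linarith)
  have := h (b + d) (by linarith)
  have := h (b + e) (by linarith)
  have := h (c + d) (by linarith)
  have := h (c + e) (by linarith)
  have := h (d + e) (by linarith)
  unfold f5
  linarith

/-- number of prime factors of products of distinct primes -/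
theorem card3 {p q r : ℕ} (hp : p.Prime) (hq : q.Prime) (hr : r.Prime) (hqp : q < p)
    (hrq : r < q) : (p * q * r).primeFactors.card = 3 := by
  have hpf : (p * q * r).primeFactors = {p, q, r} := by
    rw [Nat.primeFactors_mul (mul_ne_zero hp.ne_zero hq.ne_zero) hr.ne_zero,
      Nat.primeFactors_mul hp.ne_zero hq.ne_zero, hp.primeFactors, hq.primeFactors,
      hr.primeFactors]
    ext j
    simp only [Finset.mem_union, Finset.mem_insert, Finset.mem_singleton]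
    tauto
  rw [hpf, Finset.card_insert_of_notMem (by simp; omega), Finset.card_pair hrq.ne']

theorem card4 {p q r t : ℕ} (hp : p.Prime) (hq : q.Prime) (hr : r.Prime) (ht : t.Prime)
    (hqp : q < p) (hrq : r < q) (htr : t < r) : (p * q * r * t).primeFactors.card = 4 := by
  have hpf : (p * q * r * t).primeFactors = {p, q, r, t} := by
    rw [Nat.primeFactors_mul (mul_ne_zero (mul_ne_zero hp.ne_zero hq.ne_zero) hr.ne_zero)
      ht.ne_zero, Nat.primeFactors_mul (mul_ne_zero hp.ne_zero hq.ne_zero) hr.ne_zero,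
      Nat.primeFactors_mul hp.ne_zero hq.ne_zero, hp.primeFactors, hq.primeFactors,
      hr.primeFactors, ht.primeFactors]
    ext j
    simp only [Finset.mem_union, Finset.mem_insert, Finset.mem_singleton]
    tauto
  rw [hpf, Finset.card_insert_of_notMem (by simp; omega), Finset.card_insert_of_notMem
    (by simp; omega), Finset.card_pair htr.ne']

theorem card5 {p q r t o : ℕ} (hp : p.Prime) (hq : q.Prime) (hr : r.Prime) (ht : t.Prime)
    (ho : o.Prime) (hqp : q < p) (hrq : r < q) (htr : t < r) (hot : o < t) :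
    (p * q * r * t * o).primeFactors.card = 5 := by
  have hpf : (p * q * r * t * o).primeFactors = {p, q, r, t, o} := by
    rw [Nat.primeFactors_mul (mul_ne_zero (mul_ne_zero (mul_ne_zero hp.ne_zero hq.ne_zero)
      hr.ne_zero) ht.ne_zero) ho.ne_zero,
      Nat.primeFactors_mul (mul_ne_zero (mul_ne_zero hp.ne_zero hq.ne_zero) hr.ne_zero)
      ht.ne_zero, Nat.primeFactors_mul (mul_ne_zero hp.ne_zero hq.ne_zero) hr.ne_zero,
      Nat.primeFactors_mul hp.ne_zero hq.ne_zero, hp.primeFactors, hq.primeFactors,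
      hr.primeFactors, ht.primeFactors, ho.primeFactors]
    ext j
    simp only [Finset.mem_union, Finset.mem_insert, Finset.mem_singleton]
    tauto
  rw [hpf, Finset.card_insert_of_notMem (by simp; omega), Finset.card_insert_of_notMem
    (by simp; omega), Finset.card_insert_of_notMem (by simp; omega), Finset.card_pair hot.ne']

theorem kq_card {X n k : ℕ} {θ : ℝ} (h : k ∈ KQ X n θ) : k.primeFactors.card = 3 := by
  classical
  unfold KQ at h
  rw [Finset.mem_filter] at h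
  obtain ⟨_, p, q, r, hp, hq, hr, h1, h2, rfl, _⟩ := h
  exact card3 hp hq hr h1 h2

theorem kq5_card {X n k : ℕ} {θ : ℝ} (h : k ∈ KQ5 X n θ) : k.primeFactors.card = 4 := by
  classical
  unfold KQ5 at h
  rw [Finset.mem_filter] at h
  obtain ⟨_, p, q, r, t, hp, hq, hr, ht, h1, h2, h3, rfl, _⟩ := h
  exact card4 hp hq hr ht h1 h2 h3

theorem kq6_card {X n k : ℕ} {θ : ℝ} (h : k ∈ KQ6 X n θ) : k.primeFactors.card = 5 := by
  classical
  unfold KQ6 at h
  rw [Finset.mem_filter] at h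
  obtain ⟨_, p, q, r, t, o, hp, hq, hr, ht, ho, h1, h2, h3, h4, rfl, _⟩ := h
  exact card5 hp hq hr ht ho h1 h2 h3 h4

/-- the density of the majorant, for fixed parameters -/
theorem num_dens (C4 C5 C6 CE : ℝ) (H4 : P4M C4) (H5 : P5M C5) (H6 : P6M C6) (HE : EdM CE)
    (th e τ : ℝ) (hA : AdmM th e τ) (B' : ℕ) (hB : 1 ≤ B') (ε : ℝ) (hε : 0 < ε)
    (hε2 : ε ≤ 1 / 1000) (hthe : th ≤ 1 / 7 + ε / 1000) : ∃ X0 : ℕ, ∀ X : ℕ, X0 ≤ X → ∀ n : ℕ,
    X5 X < n → n ≤ X →
    Real.log n * gty (kp B' X) X (bmM τ (bI th e) (lK th τ) (kp B' X) X) n ≤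
      1 + (2 / (1 - 3 * bI th e) * (1907 / 10000 + 5 * ε) + C4 + C5 + 3 * C6 +
        10 * (50 * (3 * (CE * ε)) + ε * CE)) := by
  classical
  obtain ⟨X1, hl⟩ := log_one ⟨20, 0, 0, fun _ _ => 0⟩ (by norm_num) B'
  obtain ⟨X2, hP4⟩ := H4
  obtain ⟨X3, hP5⟩ := H5
  obtain ⟨X4, hP6⟩ := H6
  obtain ⟨⟨X5', hR⟩, hEd⟩ := HE
  obtain ⟨X6, hE1⟩ := hEd (1 / 2) ε (by norm_num) (by norm_num) hε hε2
  obtain ⟨X7, hE2⟩ := hEd (3 / 7) ε (by norm_num) (by norm_num) hε hε2
  obtain ⟨X8, hE3⟩ := hEd (4 / 7) ε (by norm_num) (by norm_num) hε hε2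
  obtain ⟨X9, hsum⟩ := E_sumM
  obtain ⟨X10, hone⟩ := E_oneM
  obtain ⟨X11, h5⟩ := X5_ge
  obtain ⟨X12, hz6⟩ := zt_log
  obtain ⟨X13, h8⟩ := logn_ge (1 / 10) (by norm_num)
  obtain ⟨X14, hpw⟩ := nme th e τ hA B' hB ε hε hε2 hthe
  obtain ⟨X15, hval1⟩ := nm_one th e τ hA B' hB
  refine ⟨X1 + X2 + X3 + X4 + X5' + X6 + X7 + X8 + X9 + X10 + X11 + X12 + X13 + X14 + X15 + 2,
    fun X hX n hn1 hn2 => ?_⟩
  set κ := kp B' X with hκ
  set z := zt X with hz
  set L := Real.log (X : ℝ) with hL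
  set W := bmM τ (bI th e) (lK th τ) κ X with hW
  obtain ⟨a1, a2, a3, a4, a5, a6⟩ := hA
  have hβ : 0 < 1 - 3 * bI th e := by
    unfold bI
    linarith
  have hi4 : 0 ≤ 2 / (1 - 3 * bI th e) := div_nonneg (by norm_num) hβ.le
  obtain ⟨h51, -⟩ := h5 X (by omega)
  obtain ⟨hz2, -⟩ := hz6 X (by omega)
  have hz2' : (2 : ℝ) ≤ zt X := by exact_mod_cast hz2
  have hnz : (zt X : ℝ) ≤ n := by linarith
  have hn2' : (2 : ℝ) ≤ n := by linarith
  have hlogn : 0 < Real.log (n : ℝ) := Real.log_pos (by linarith)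
  have hlogn' : 0 ≤ Real.log (n : ℝ) := hlogn.le
  have hX1' : 1 < X := by omega
  have hXR : (1 : ℝ) < X := by exact_mod_cast hX1'
  have hL0 : 0 < L := Real.log_pos hXR
  have hn0 : (0 : ℝ) < n := by linarith
  have hnL : Real.log n ≤ L := Real.log_le_log hn0 (by exact_mod_cast hn2)
  have hn9 := (h8 X (by omega) n hn1 hn2).1
  rw [← hL] at hn9
  set K : Finset ℕ := (Icc 2 X).filter (fun k : ℕ => Simp κ z k ∧ (z : ℝ) ≤ (n : ℝ) / k ∧
    ∀ j ∈ ty κ z k, j < bx κ z ((n : ℝ) / k)) with hK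
  set Bv : ℕ → ℝ := fun k => W (insert (bx κ z ((n : ℝ) / k)) (ty κ z k)) with hBv
  set R : ℕ → ℝ := fun k => Rm 50 ε X k with hRd
  have hKP : ∀ k ∈ K, PwM th e ε X n k (Bv k) := by
    intro k hkK
    rw [hK, Finset.mem_filter, Finset.mem_Icc] at hkK
    obtain ⟨⟨hk2', hkX⟩, hk2, hk3, hk4⟩ := hkK
    exact hpw X (by omega) n k hn1 hn2 hk2' hk2 hk3 hk4
  have hqK : ∀ k ∈ K, 0 ≤ qn n k ∧ qn n k ≤ 10 * (1 / (k : ℝ)) := by
    intro k hkK
    rw [hK, Finset.mem_filter, Finset.mem_Icc] at hkK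
    obtain ⟨⟨hk2', hkX⟩, hk2, hk3, hk4⟩ := hkK
    have hk0 : (0 : ℝ) < k := by exact_mod_cast (by omega : 0 < k)
    obtain ⟨-, hlk, -, hr2⟩ := hl X (by omega) n k hn1 hn2 (by omega) hk2 hk3 hk4
    have e : qn n k = Real.log n / Real.log ((n : ℝ) / k) * (1 / (k : ℝ)) := by
      unfold qn
      field_simp
    refine ⟨div_nonneg hlogn' (by positivity), ?_⟩
    rw [e]
    exact mul_le_mul_of_nonneg_right hr2 (by positivity)
  -- the weights for four and five boxes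
  set W4 : ℕ → ℝ := fun k => if k ∈ K then Bv k - R k else 0 with hW4
  have hs4 := hP4 X (by omega) n hn1 hn2 W4 (by
    intro p q r hp hq hr hqp hrq hrL hpn
    rw [hW4]
    simp only
    split_ifs with hm
    · obtain ⟨-, -, -, h3, -⟩ := hKP _ hm
      have := (h3 (card3 hp hq hr hqp hrq)).1 p q r hp hq hr hqp hrq rfl
      rw [hRd]
      simp only
      linarith
    · exact f4_nonneg _ _ _ _)
  have hs5 := hP5 X (by omega) n hn1 hn2 W4 (by
    intro p q r t hp hq hr ht hqp hrq htr htL hpn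
    have hp0 : (0 : ℝ) < p := by exact_mod_cast hp.pos
    have hq0 : (0 : ℝ) < q := by exact_mod_cast hq.pos
    have hr0 : (0 : ℝ) < r := by exact_mod_cast hr.pos
    have ht0 : (0 : ℝ) < t := by exact_mod_cast ht.pos
    rw [hW4]
    simp only
    split_ifs with hm
    · obtain ⟨-, -, -, -, h3, -⟩ := hKP _ hm
      have := (h3 (card4 hp hq hr ht hqp hrq htr)).1 p q r t hp hq hr ht hqp hrq htr htL rfl
      rw [hRd]
      simp only
      linarith
    · rw [← hL]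
      have e1 : Real.log ((n : ℝ) / (p * q * r * t : ℕ)) =
          Real.log n - (Real.log p + Real.log q + Real.log r + Real.log t) := by
        push_cast
        rw [Real.log_div hn0.ne' (by positivity), Real.log_mul (by positivity) ht0.ne',
          Real.log_mul (by positivity) hr0.ne', Real.log_mul hp0.ne' hq0.ne']
      have l1 : Real.log q ≤ Real.log p := Real.log_le_log hq0 (by exact_mod_cast hqp.le)
      have l2 : Real.log r ≤ Real.log q := Real.log_le_log hr0 (by exact_mod_cast hrq.le)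
      have l3 : Real.log t ≤ Real.log r := Real.log_le_log ht0 (by exact_mod_cast htr.le)
      refine f5_nonneg _ _ _ _ _ ?_ (div_le_div_of_nonneg_right l3 hL0.le)
        (div_le_div_of_nonneg_right l2 hL0.le) (div_le_div_of_nonneg_right l1 hL0.le)
        (div_le_div_of_nonneg_right hpn hL0.le) ?_
      · rw [le_div_iff₀ hL0]
        exact htL
      · rw [e1, ← add_div, ← add_div, ← add_div, ← add_div, div_le_one hL0]
        linarith)
  have hs6 := hP6 X (by omega) n hn1 hn2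
  have hs2 := hsum X (by omega) n hn1 hn2
  have hs2' := hone X (by omega) n hn1 hn2
  have t1 := hR X (by omega)
  have t2 := hE1 X (by omega)
  have t3 := hE2 X (by omega)
  have t4 := hE3 X (by omega)
  -- the pointwise bound
  have hterm : ∀ k ∈ K, Real.log n * (vty κ z W ((n : ℝ) / k) k /
      (k * Real.log ((n : ℝ) / k))) ≤
      2 / (1 - 3 * bI th e) * (if k ∈ IY.PS X (1 / 7) (3 / 7) then
          (Real.log k / L - 1 / 7) * qn n k + ε * qn n k else 0) +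
        (if k ∈ KQ X n (1 / 7) then W4 k * qn n k else 0) +
        (if k ∈ KQ5 X n (1 / 7) then W4 k * qn n k else 0) +
        3 * (if k ∈ KQ6 X n (1 / 7) then qn n k else 0) +
        (50 * ((if k ∈ KEd X (1 / 7) (1 / 2) ε then 10 * (1 / (k : ℝ)) else 0) +
          (if k ∈ KEd X (1 / 7) (3 / 7) ε then 10 * (1 / (k : ℝ)) else 0) +
          (if k ∈ KEd X (1 / 7) (4 / 7) ε then 10 * (1 / (k : ℝ)) else 0)) +
          ε * (if k ∈ KR X (1 / 7) then 10 * (1 / (k : ℝ)) else 0)) := by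
    intro k hkK
    obtain ⟨hq0, hq10⟩ := hqK k hkK
    obtain ⟨p0, p1, p2, p3, p4, p5, p6⟩ := hKP k hkK
    have hW4k : W4 k = Bv k - R k := by
      rw [hW4]
      simp only
      rw [if_pos hkK]
    have hkK' := hkK
    rw [hK, Finset.mem_filter, Finset.mem_Icc] at hkK'
    obtain ⟨⟨hk2', hkX⟩, hk2, hk3, hk4⟩ := hkK'
    have hv : vty κ z W ((n : ℝ) / k) k = Bv k := by
      unfold vty
      rw [if_pos ⟨hk2, hk3, hk4⟩]
    have e : Real.log n * (vty κ z W ((n : ℝ) / k) k / (k * Real.log ((n : ℝ) / k))) =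
        Bv k * qn n k := by
      rw [hv]
      unfold qn
      ring
    rw [e]
    have g5 : (if k ∈ IY.PS X (1 / 7) (3 / 7) then Real.log k / Real.log X - 1 / 7 + ε else 0) *
        qn n k = (if k ∈ IY.PS X (1 / 7) (3 / 7) then
          (Real.log k / L - 1 / 7) * qn n k + ε * qn n k else 0) := by
      rw [← hL]
      split_ifs <;> ring
    have gp : (0 : ℝ) ≤ (if k ∈ IY.PS X (1 / 7) (3 / 7) then
        Real.log k / Real.log X - 1 / 7 + ε else 0) := by
      split_ifs with h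
      · obtain ⟨_, _, h1, _⟩ := of_mem_PS hX1' h
        have : 1 / 7 ≤ Real.log k / Real.log X := by
          rw [le_div_iff₀ hL0]
          exact h1
        linarith
      · exact le_rfl
    have gp2 := mul_nonneg hi4 (mul_nonneg gp hq0)
    rw [← g5]
    have f : ∀ (S : Finset ℕ), (if k ∈ S then (1 : ℝ) else 0) * qn n k ≤
        (if k ∈ S then 10 * (1 / (k : ℝ)) else 0) := by
      intro S
      split_ifs
      · linarith
      · linarith
    have hRq : R k * qn n k ≤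
        (50 * ((if k ∈ KEd X (1 / 7) (1 / 2) ε then 10 * (1 / (k : ℝ)) else 0) +
          (if k ∈ KEd X (1 / 7) (3 / 7) ε then 10 * (1 / (k : ℝ)) else 0) +
          (if k ∈ KEd X (1 / 7) (4 / 7) ε then 10 * (1 / (k : ℝ)) else 0)) +
          ε * (if k ∈ KR X (1 / 7) then 10 * (1 / (k : ℝ)) else 0)) := by
      have f1 := f (KEd X (1 / 7) (1 / 2) ε)
      have f2 := f (KEd X (1 / 7) (3 / 7) ε)
      have f3 := f (KEd X (1 / 7) (4 / 7) ε)
      have f4 := mul_le_mul_of_nonneg_left (f (KR X (1 / 7))) hε.le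
      have f5 := mul_le_mul_of_nonneg_left (add_le_add (add_le_add f1 f2) f3)
        (show (0 : ℝ) ≤ 50 by norm_num)
      rw [hRd]
      simp only
      unfold Rm
      linarith
    have hRk : 0 ≤ R k := p0
    have hc6 : (0 : ℝ) ≤ 3 * (if k ∈ KQ6 X n (1 / 7) then qn n k else 0) := by
      split_ifs
      · linarith
      · norm_num
    have hRm : Rm 50 ε X k = R k := rfl
    rw [hRm] at p0 p1 p2 p3 p4 p5
    have hK4 : k.primeFactors.card ≠ 3 → (if k ∈ KQ X n (1 / 7) then W4 k * qn n k else 0) = 0 := by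
      intro h
      rw [if_neg]
      intro h'
      exact h (kq_card h')
    have hK5 : k.primeFactors.card ≠ 4 →
        (if k ∈ KQ5 X n (1 / 7) then W4 k * qn n k else 0) = 0 := by
      intro h
      rw [if_neg]
      intro h'
      exact h (kq5_card h')
    have hpfne : k.primeFactors.Nonempty := by
      rw [Nat.nonempty_primeFactors]
      omega
    have hpf1 : 1 ≤ k.primeFactors.card := Finset.card_pos.2 hpfne
    obtain h | h | h | h | h | h : k.primeFactors.card = 1 ∨ k.primeFactors.card = 2 ∨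
      k.primeFactors.card = 3 ∨ k.primeFactors.card = 4 ∨ k.primeFactors.card = 5 ∨
      6 ≤ k.primeFactors.card := by omega
    · rw [hK4 (by omega), hK5 (by omega)]
      have m1 := mul_le_mul_of_nonneg_right (p1 h) hq0
      rw [add_mul, mul_assoc] at m1
      linarith
    · rw [hK4 (by omega), hK5 (by omega)]
      have m1 := mul_le_mul_of_nonneg_right (p2 h) hq0
      linarith
    · rw [hK5 (by omega)]
      by_cases h' : k ∈ KQ X n (1 / 7)
      · rw [if_pos h', hW4k, sub_mul]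
        linarith
      · rw [if_neg h']
        have m1 := mul_le_mul_of_nonneg_right ((p3 h).2 h') hq0
        linarith
    · rw [hK4 (by omega)]
      by_cases h' : k ∈ KQ5 X n (1 / 7)
      · rw [if_pos h', hW4k, sub_mul]
        linarith
      · rw [if_neg h']
        have m1 := mul_le_mul_of_nonneg_right ((p4 h).2 h') hq0
        linarith
    · rw [hK4 (by omega), hK5 (by omega)]
      by_cases h' : k ∈ KQ6 X n (1 / 7)
      · rw [if_pos h']
        have m1 := mul_le_mul_of_nonneg_right (p5 h).1 hq0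
        rw [add_mul] at m1
        linarith
      · rw [if_neg h']
        have m1 := mul_le_mul_of_nonneg_right ((p5 h).2 h') hq0
        linarith
    · rw [hK4 (by omega), hK5 (by omega)]
      have m1 := mul_le_mul_of_nonneg_right (p6 h) hq0
      have m2 := mul_nonneg hRk hq0
      linarith
  -- terms outside `K` vanish
  have hzero : ∀ k ∈ Icc 2 X, k ∉ K → Real.log n * (vty κ z W ((n : ℝ) / k) k /
      (k * Real.log ((n : ℝ) / k))) = 0 := by
    intro k hk hkK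
    have hv : vty κ z W ((n : ℝ) / k) k = 0 := by
      unfold vty
      rw [if_neg]
      intro hcon
      apply hkK
      rw [hK, Finset.mem_filter]
      exact ⟨hk, hcon⟩
    rw [hv, zero_div, mul_zero]
  have hsplit : Icc 1 X = insert 1 (Icc 2 X) := by
    ext k
    simp only [Finset.mem_Icc, Finset.mem_insert]
    omega
  have h1n : (1 : ℕ) ∉ Icc 2 X := by
    simp
  have hg2 : gty κ X W n =
      vty κ z W ((n : ℝ) / (1 : ℕ)) 1 / ((1 : ℕ) * Real.log ((n : ℝ) / (1 : ℕ))) +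
      ∑ k ∈ Icc 2 X, vty κ z W ((n : ℝ) / k) k / (k * Real.log ((n : ℝ) / k)) := by
    unfold gty
    rw [if_pos ⟨hn1, hn2⟩, hsplit, Finset.sum_insert h1n]
  have hsimp : Simp κ z 1 := by
    refine ⟨⟨one_ne_zero, ?_⟩, squarefree_one, ?_⟩
    · intro p hp
      simp at hp
    · intro p hp
      simp at hp
  have hty : ty κ z 1 = ∅ := by
    unfold ty
    simp
  have hone1 : Real.log n * (vty κ z W ((n : ℝ) / (1 : ℕ)) 1 /
      ((1 : ℕ) * Real.log ((n : ℝ) / (1 : ℕ)))) = 1 := by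
    have e1 : vty κ z W ((n : ℝ) / (1 : ℕ)) 1 =
        W (insert (bx κ z ((n : ℝ) / (1 : ℕ))) (ty κ z 1)) := by
      unfold vty
      rw [if_pos ⟨hsimp, by rw [Nat.cast_one, div_one]; exact hnz, by
        rw [hty]
        intro j hj
        simp at hj⟩]
    have hv1 : W (insert (bx κ z ((n : ℝ) / (1 : ℕ))) (ty κ z 1)) = 1 :=
      hval1 X (by omega) n hn1 hn2
    rw [e1, hv1, Nat.cast_one, div_one, one_mul]
    field_simp
  rw [hg2, mul_add, hone1, Finset.mul_sum]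
  refine add_le_add le_rfl ?_
  have hKsub : K ⊆ Icc 2 X := Finset.filter_subset _ _
  rw [← Finset.sum_subset hKsub hzero]
  refine (Finset.sum_le_sum hterm).trans ?_
  simp only [Finset.sum_add_distrib, ← Finset.mul_sum]
  have hqPS : ∀ k ∈ IY.PS X (1 / 7) (3 / 7), 0 ≤ qn n k := by
    intro k hk
    obtain ⟨hp, _, _, hk3⟩ := of_mem_PS hX1' hk
    have hk0 : (0 : ℝ) < k := by exact_mod_cast hp.pos
    refine div_nonneg hlogn' (mul_nonneg hk0.le ?_)
    rw [← hL] at hk3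
    rw [Real.log_div hn0.ne' hk0.ne']
    nlinarith
  have hqK6 : ∀ k ∈ KQ6 X n (1 / 7), 0 ≤ qn n k := by
    intro k hk
    unfold KQ6 at hk
    rw [Finset.mem_filter] at hk
    obtain ⟨_, p, _, _, _, _, _, _, _, _, _, _, _, _, _, _, _, h10⟩ := hk
    have h11 : 0 ≤ Real.log (p : ℝ) := Real.log_natCast_nonneg p
    exact div_nonneg hlogn' (mul_nonneg (Nat.cast_nonneg k) (h11.trans h10))
  have hind : ∀ (S : Finset ℕ) (f : ℕ → ℝ), (∀ k ∈ S, 0 ≤ f k) →
      ∑ k ∈ K, (if k ∈ S then f k else 0) ≤ ∑ k ∈ S, f k := by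
    intro S f hf
    rw [← Finset.sum_filter]
    exact Finset.sum_le_sum_of_subset_of_nonneg (fun k hk => (Finset.mem_filter.mp hk).2)
      fun k hk _ => hf k hk
  have hindW : ∀ (S : Finset ℕ), ∑ k ∈ K, (if k ∈ S then W4 k * qn n k else 0) =
      ∑ k ∈ S, W4 k * qn n k := by
    intro S
    rw [← Finset.sum_filter]
    refine Finset.sum_subset (fun k hk => (Finset.mem_filter.mp hk).2) fun k hk hk' => ?_
    have : k ∉ K := fun h => hk' (Finset.mem_filter.mpr ⟨h, hk⟩)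
    rw [hW4]
    simp only
    rw [if_neg this, zero_mul]
  have h1k : ∀ (S : Finset ℕ), ∀ k ∈ S, (0 : ℝ) ≤ 10 * (1 / (k : ℝ)) := fun S k _ =>
    mul_nonneg (by norm_num) (div_nonneg zero_le_one (Nat.cast_nonneg k))
  have u3 : ∑ k ∈ K, (if k ∈ IY.PS X (1 / 7) (3 / 7) then (Real.log k / L - 1 / 7) * qn n k +
      ε * qn n k else 0) ≤ 1907 / 10000 + 5 * ε := by
    refine (hind _ (fun k => (Real.log k / L - 1 / 7) * qn n k + ε * qn n k) ?_).trans ?_
    · intro k hk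
      obtain ⟨_, _, h12, _⟩ := of_mem_PS hX1' hk
      have h13 : 1 / 7 ≤ Real.log k / L := by
        rw [le_div_iff₀ hL0]
        exact h12
      have h14 := hqPS k hk
      have h15 : 0 ≤ (Real.log k / L - 1 / 7) * qn n k := mul_nonneg (by linarith) h14
      have h16 : 0 ≤ ε * qn n k := mul_nonneg hε.le h14
      exact add_nonneg h15 h16
    · rw [Finset.sum_add_distrib, ← Finset.mul_sum]
      have h17 : ε * ∑ k ∈ IY.PS X (1 / 7) (3 / 7), qn n k ≤ ε * 5 :=
        mul_le_mul_of_nonneg_left hs2' hε.le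
      have h18 : ∑ k ∈ IY.PS X (1 / 7) (3 / 7), (Real.log k / L - 1 / 7) * qn n k ≤
        1907 / 10000 := hs2
      linarith
  have u4 : ∑ k ∈ K, (if k ∈ KQ X n (1 / 7) then W4 k * qn n k else 0) ≤ C4 := by
    rw [hindW]
    exact hs4
  have u5 : ∑ k ∈ K, (if k ∈ KQ5 X n (1 / 7) then W4 k * qn n k else 0) ≤ C5 := by
    rw [hindW]
    exact hs5
  have u6 : ∑ k ∈ K, (if k ∈ KQ6 X n (1 / 7) then qn n k else 0) ≤ C6 :=
    (hind _ _ hqK6).trans hs6
  have w1 := (hind (KEd X (1 / 7) (1 / 2) ε) _ (h1k _))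
  have w2 := (hind (KEd X (1 / 7) (3 / 7) ε) _ (h1k _))
  have w3 := (hind (KEd X (1 / 7) (4 / 7) ε) _ (h1k _))
  have w4 := (hind (KR X (1 / 7)) _ (h1k _))
  rw [← Finset.mul_sum] at w1 w2 w3 w4
  have v3 := mul_le_mul_of_nonneg_left u3 hi4
  have v4 := mul_le_mul_of_nonneg_left w4 hε.le
  have v5 := mul_le_mul_of_nonneg_left t1 (show 0 ≤ 10 * ε by positivity)
  linarith

/-- the number at `th → 1/7` -/
theorem num_gen (C4 C5 C6 CE b : ℝ) (H4 : P4M C4) (H5 : P5M C5) (H6 : P6M C6) (HE : EdM CE)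
    (hb : 1 + (7 / 2 * (1907 / 10000) + C4 + C5 + 3 * C6) < b) : ∃ d0 : ℝ, 0 < d0 ∧
    ∀ th : ℝ, 1 / 7 < th → th < 1 / 7 + d0 → ∃ τ0 : ℝ, 0 < τ0 ∧ ∀ e τ : ℝ, AdmM th e τ → τ ≤ τ0 →
      ∀ B' : ℕ, 1 ≤ B' → ∃ X0 : ℕ, ∀ X : ℕ, X0 ≤ X → ∀ n : ℕ, X5 X < n → n ≤ X →
        Real.log n * gty (kp B' X) X (bmM τ (bI th e) (lK th τ) (kp B' X) X) n ≤ b := by
  have hCE : 0 ≤ CE := by
    obtain ⟨⟨X0, h⟩, -⟩ := HE
    refine le_trans (Finset.sum_nonneg fun k _ => ?_) (h X0 le_rfl)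
    exact div_nonneg zero_le_one (Nat.cast_nonneg k)
  obtain ⟨g, hg⟩ : ∃ g : ℝ, g = b - (1 + (7 / 2 * (1907 / 10000) + C4 + C5 + 3 * C6)) := ⟨_, rfl⟩
  have hg0 : 0 < g := by rw [hg]; linarith
  obtain ⟨ε, hε⟩ : ∃ ε : ℝ, ε = min (1 / 1000) (g / (100 + 2000 * CE)) := ⟨_, rfl⟩
  have hden : 0 < 100 + 2000 * CE := by positivity
  have hε0 : 0 < ε := by
    rw [hε]
    exact lt_min (by norm_num) (div_pos hg0 hden)
  have hε1 : ε ≤ 1 / 1000 := by rw [hε]; exact min_le_left _ _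
  have hε2 : ε * (100 + 2000 * CE) ≤ g := by
    have : ε ≤ g / (100 + 2000 * CE) := by rw [hε]; exact min_le_right _ _
    rwa [le_div_iff₀ hden] at this
  refine ⟨ε / 1000, by positivity, fun th h1 h2 => ⟨1, one_pos, fun e τ hA _ B' hB => ?_⟩⟩
  obtain ⟨X0, h⟩ := num_dens C4 C5 C6 CE H4 H5 H6 HE th e τ hA B' hB ε hε0 hε1 h2.le
  refine ⟨X0, fun X hX n hn1 hn2 => (h X hX n hn1 hn2).trans ?_⟩
  obtain ⟨a1, a2, a3, a4, a5, a6⟩ := hA
  have hβ : 4 / 7 * (1 - ε) ≤ 1 - 3 * bI th e := by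
    unfold bI
    linarith
  have hc3 : 2 / (1 - 3 * bI th e) ≤ 7 / 2 * (1 + 2 * ε) := by
    rw [div_le_iff₀ (by nlinarith)]
    have h3 : 7 / 2 * (1 + 2 * ε) * (4 / 7 * (1 - ε)) ≤ 7 / 2 * (1 + 2 * ε) * (1 - 3 * bI th e) :=
      mul_le_mul_of_nonneg_left hβ (by positivity)
    nlinarith
  have h5 : 2 / (1 - 3 * bI th e) * (1907 / 10000 + 5 * ε) ≤
      7 / 2 * (1 + 2 * ε) * (1907 / 10000 + 5 * ε) :=
    mul_le_mul_of_nonneg_right hc3 (by positivity)
  nlinarith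

end Pool.MP_dd84fd_nt.MX
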