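import Pool.Agent.Lib.MP_dd84fd_nt.MX.NMe
import Pool.Agent.Lib.MP_dd84fd_nt.MX.NEd
import Pool.Agent.Lib.MP_dd84fd_nt.MX.MFin

/-!
# Theorem M, numerics: `Num1` from the sums over four, five and six boxes (helper88)
-/

set_option autoImplicit false

namespace Pool.MP_dd84fd_nt.MX

theorem num1_of (C4 C5 C6 b : ℝ) (H4 : P4M C4) (H5 : P5M C5) (H6 : P6M C6)
    (hb : 1 + (7 / 2 * (1907 / 10000) + C4 + C5 + 3 * C6) < b) : Num1 b := by
  obtain ⟨d0, h0, h⟩ := num_gen C4 C5 C6 4000000 b H4 H5 H6 edM hb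
  exact ⟨d0, h0, h⟩

end Pool.MP_dd84fd_nt.MX
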