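import Pool.Agent.Lib.MP_dd84fd_nt.MX.SvVal

/-!
# Theorem M: Lemma CL for the majorant `B` (helper63)
-/

set_option autoImplicit false

namespace Pool.MP_dd84fd_nt.MX

open Finset Pool.MP_dd84fd_nt.HX Pool.MP_dd84fd_nt.IY Pool.MP_dd84fd_nt.KX Pool.MP_dd84fd_nt.LX

variable {v : ℕ → ℝ} {κ x a b w l : ℝ} {T : Finset ℕ}

/-- the weight of a pair -/
noncomputable def prM (v : ℕ → ℝ) (x b w l : ℝ) (p q : ℕ) : ℝ :=
  if v p + v q ≤ w then 2 - ph x l (v p + v q) - (vE x b w l (v p) + vE x b w l (v q)) else 0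

theorem lamM_pr {p q : ℕ} (h : p ≠ q) : lamM v x b w l {p, q} = prM v x b w l p q := by
  unfold lamM prM uS
  rw [Finset.card_pair h, sg_two v h, Finset.sum_pair h]
  by_cases c : v p + v q ≤ w
  · rw [if_pos c, if_pos ⟨by norm_num, c⟩, if_pos (by decide)]
  · rw [if_neg c, if_neg (fun h => c h.2)]

theorem lamM_tr0 {p q r : ℕ} (h1 : p ≠ q) (h2 : p ≠ r) (h3 : q ≠ r)
    (h : w < v p + v q + v r) : lamM v x b w l {p, q, r} = 0 := by
  apply lamM_w
  rw [sg_three v h1 h2 h3]
  exact h

theorem lamM_tr1 {p q r : ℕ} (h1 : p ≠ q) (h2 : p ≠ r) (h3 : q ≠ r)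
    (h : v p + v q + v r ≤ w) : lamM v x b w l {p, q, r} =
      vE x b w l (v p) + vE x b w l (v q) + vE x b w l (v r) - ph x l (v p + v q + v r) := by
  rw [lamM_3 (card3 h1 h2 h3) (by rw [sg_three v h1 h2 h3]; exact h), sg_three v h1 h2 h3]
  unfold uS
  rw [Finset.sum_insert (by simp [h1, h2]), Finset.sum_pair h3]
  ring

/-! ### One box -/

theorem TyM.b1 (h : TyM v κ x a b w l T) (hc : T.card = 1) :
    ∑ S ∈ T.powerset, lamM v x b w l S = 1 := by
  obtain ⟨p, rfl⟩ := Finset.card_eq_one.1 hc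
  have h1 := h.lo
  rw [sg_one] at h1
  obtain ⟨g1, g2, g3, g4, g5, g6, g7, g8, g9, g10, g11, g12⟩ := h.par
  rw [psum1, lamM_0 v b (by linarith) (by linarith), lamM_1 v (by linarith) (by linarith),
    vE_zero (by linarith), ph_zero (by linarith)]
  norm_num

/-! ### Two boxes -/

theorem TyM.b2 (h : TyM v κ x a b w l T) (hc : T.card = 2) :
    0 ≤ ∑ S ∈ T.powerset, lamM v x b w l S ∧
      ∑ S ∈ T.powerset, lamM v x b w l S ≤ ∑ j ∈ T, (vE x b w l (v j) + nr x l (v j)) := by
  obtain ⟨p, q, hpq, hT⟩ := Finset.card_eq_two.1 hc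
  have h1 := h.lo
  have h2 := h.up
  rw [hT, sg_two v hpq] at h1 h2
  obtain ⟨g1, g2, g3, g4, g5, g6, g7, g8, g9, g10, g11, g12⟩ := h.par
  have n2 := nr_nonneg x l (v q)
  have u1 := vE_nonneg w l (v p) (show 3 * b ≤ x by linarith)
  have u2 := vE_nonneg w l (v q) (show 3 * b ≤ x by linarith)
  have hp := ph_compl h1 h2
  rw [hT, Finset.sum_pair hpq, psum2 _ hpq, lamM_0 v b (by linarith) (by linarith),
    lamM_1 v (by linarith) (by linarith), lamM_1 v (by linarith) (by linarith), lamM_pr hpq]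
  unfold prM
  rw [if_neg (by linarith)]
  constructor <;> linarith [hp.1, hp.2]

/-! ### Three boxes -/

theorem TyM.b3 (h : TyM v κ x a b w l T) (hc : T.card = 3) :
    0 ≤ ∑ S ∈ T.powerset, lamM v x b w l S ∧
      ∑ S ∈ T.powerset, lamM v x b w l S ≤ 2 * (6 * l + 3) / (x - 3 * b) +
        ∑ j ∈ T, (nr x l (v j) + 2 * ed x w l (v j)) := by
  obtain ⟨p, q, r, h1, h2, h3, hT, a1, a2⟩ := tri_max (v := v) hc
  have l1 := h.lo
  have l2 := h.up
  rw [hT, sg_three v h1 h2 h3] at l1 l2
  have b1 := h.box (j := p) (by rw [hT]; simp)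
  have b2 := h.box (j := q) (by rw [hT]; simp)
  have b3 := h.box (j := r) (by rw [hT]; simp)
  obtain ⟨g1, g2, g3, g4, g5, g6, g7, g8, g9, g10, g11, g12⟩ := h.par
  have w1 : w < v p + v r := by
    by_contra hc
    push Not at hc
    linarith
  have w2 : w < v q + v r := by
    by_contra hc
    push Not at hc
    linarith
  have hx3 : 0 < x - 3 * b := by linarith
  have s3 : ∀ f : ℕ → ℝ, ∑ j ∈ T, f j = f p + f q + f r := by
    intro f
    rw [hT, Finset.sum_insert (by simp [h1, h2]), Finset.sum_pair h3]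
    ring
  have n1 := nr_nonneg x l (v p)
  have n2 := nr_nonneg x l (v q)
  have n3 := nr_nonneg x l (v r)
  have m1 := ed_nonneg x w l (v p)
  have m2 := ed_nonneg x w l (v q)
  have m3 := ed_nonneg x w l (v r)
  have u3 := vE_nonneg w l (v r) (show 3 * b ≤ x by linarith)
  have hq0 : 0 ≤ 2 * (6 * l + 3) / (x - 3 * b) := by positivity
  have c1 : ph x l (v p) = 1 := ph_one (by linarith)
  have c2 : ph x l (v q) = 1 := ph_one (by linarith)
  have e1 : ∑ S ∈ T.powerset, lamM v x b w l S =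
      1 + (vE x b w l (v p) - 1) + (vE x b w l (v q) - 1) + (vE x b w l (v r) - ph x l (v r)) +
      prM v x b w l p q := by
    rw [hT, psum3 _ h1 h2 h3, lamM_0 v b (by linarith) (by linarith),
      lamM_1 v (by linarith) (by linarith), lamM_1 v (by linarith) (by linarith),
      lamM_1 v (by linarith) (by linarith), lamM_pr h1, lamM_pr h2, lamM_pr h3,
      lamM_tr0 h1 h2 h3 (by linarith), c1, c2]
    unfold prM
    rw [if_neg (not_le.2 w1), if_neg (not_le.2 w2)]
    ring
  rw [e1, s3]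
  unfold prM
  by_cases c3 : v p + v q ≤ w
  · rw [if_pos c3]
    have hp := ph_compl (l := l) (x := x) (s := v r) (t := v p + v q) (by linarith) (by linarith)
    have hu : vE x b w l (v r) ≤ 2 * ed x w l (v r) := by
      by_cases c6 : v r ≤ x - w
      · have hu := vE_le (x := x) (b := b) (w := w) (l := l) (u := v r) (by linarith) g12
        rw [ed_one (u := v r) (by linarith) (by linarith)]
        linarith
      · rw [vE_zero (not_le.1 c6)]
        linarith
    constructor <;> linarith [hp.1, hp.2]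
  · rw [if_neg c3]
    have c4 : ph x l (v r) = 1 := ph_one (by linarith)
    rw [c4]
    have e2 : vE x b w l (v p) + vE x b w l (v q) + vE x b w l (v r) =
        2 * (v p + v q + v r - 3 * b + 6 * l + 3) / (x - 3 * b) := by
      rw [vE_eq (by linarith) (by linarith), vE_eq (by linarith) (by linarith),
        vE_eq (by linarith) (by linarith)]
      field_simp
      ring
    have e3 : (2 : ℝ) ≤ 2 * (v p + v q + v r - 3 * b + 6 * l + 3) / (x - 3 * b) := by
      rw [le_div_iff₀ hx3]
      linarith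
    have e4 : 2 * (v p + v q + v r - 3 * b + 6 * l + 3) / (x - 3 * b) ≤
        2 + 2 * (6 * l + 3) / (x - 3 * b) := by
      rw [div_le_iff₀ hx3, add_mul, div_mul_cancel₀ _ hx3.ne']
      linarith
    constructor <;> linarith

/-! ### Four boxes -/

/-- the loss of a pair with sum `> w` -/
noncomputable def bg (w s u : ℝ) : ℝ := if w < s then 2 - u else 0

theorem psumc4 (f : Finset ℕ → ℝ) {p q r s : ℕ} (h1 : p ≠ q) (h2 : p ≠ r) (h3 : p ≠ s)
    (h4 : q ≠ r) (h5 : q ≠ s) (h6 : r ≠ s) :
    ∑ S ∈ ({p, q, r, s} : Finset ℕ).powersetCard 2, f S =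
      f {p, q} + f {p, r} + f {p, s} + f {q, r} + f {q, s} + f {r, s} := by
  have h7 : ({p, q, r, s} : Finset ℕ).card = 4 := by
    rw [Finset.card_insert_of_notMem (by simp [h1, h2, h3]), card3 h4 h5 h6]
  have e := psum4 (fun S => if S.card = 2 then f S else 0) h1 h2 h3 h4 h5 h6
  simp only [Finset.card_pair h1, Finset.card_pair h2, Finset.card_pair h3, Finset.card_pair h4,
    Finset.card_pair h5, Finset.card_pair h6, card3 h1 h2 h4, card3 h1 h3 h5, card3 h2 h3 h6,
    card3 h4 h5 h6, h7, Finset.card_empty, Finset.card_singleton] at e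
  rw [Finset.powersetCard_eq_filter, Finset.sum_filter, e]
  norm_num

/-- small pairs -/
theorem pair_small {i j : ℕ} (p : ParM κ x a b w l) (bi : b - 1 < v i) (bj : b - 1 < v j)
    (hs : v i + v j ≤ x - w) : vE x b w l (v i) + vE x b w l (v j) ≤ 1 := by
  obtain ⟨g1, g2, g3, g4, g5, g6, g7, g8, g9, g10, g11, g12⟩ := p
  rw [vE_eq (by linarith) (by linarith), vE_eq (by linarith) (by linarith), ← add_div,
    div_le_one (by linarith)]
  linarith

/-- two complementary pairs -/
theorem couple {i j k m : ℕ} (p : ParM κ x a b w l) (bi : b - 1 < v i) (bj : b - 1 < v j)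
    (bk : b - 1 < v k) (bm : b - 1 < v m) (h1 : x - 6 * l ≤ v i + v j + (v k + v m))
    (h2 : v i + v j + (v k + v m) ≤ x) :
    prM v x b w l i j + prM v x b w l k m ≤
      3 - (vE x b w l (v i) + vE x b w l (v j)) - (vE x b w l (v k) + vE x b w l (v m)) -
      bg w (v i + v j) (vE x b w l (v i) + vE x b w l (v j)) -
      bg w (v k + v m) (vE x b w l (v k) + vE x b w l (v m)) + nr x l (v i + v j) ∧
    (3 - (vE x b w l (v i) + vE x b w l (v j)) - (vE x b w l (v k) + vE x b w l (v m)) ≤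
      prM v x b w l i j + prM v x b w l k m ∨
    (v i + v j < v i + v j + (v k + v m) - w ∧
      prM v x b w l i j + prM v x b w l k m = 1 - (vE x b w l (v i) + vE x b w l (v j)) ∧
      vE x b w l (v i) + vE x b w l (v j) ≤ 1) ∨
    (v k + v m < v i + v j + (v k + v m) - w ∧
      prM v x b w l i j + prM v x b w l k m = 1 - (vE x b w l (v k) + vE x b w l (v m)) ∧
      vE x b w l (v k) + vE x b w l (v m) ≤ 1)) := by
  have hp := ph_compl h1 h2
  have n1 := nr_nonneg x l (v i + v j)
  obtain ⟨g1, g2, g3, g4, g5, g6, g7, g8, g9, g10, g11, g12⟩ := id p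
  unfold bg prM
  by_cases c1 : v i + v j ≤ w
  · by_cases c2 : v k + v m ≤ w
    · rw [if_pos c1, if_pos c2, if_neg (not_lt.2 c1), if_neg (not_lt.2 c2)]
      refine ⟨by linarith [hp.1, hp.2], Or.inl (by linarith [hp.1, hp.2])⟩
    · push Not at c2
      rw [if_pos c1, if_neg (not_le.2 c2), ph_one (by linarith), if_neg (not_lt.2 c1), if_pos c2]
      refine ⟨by linarith, Or.inr (Or.inl ⟨by linarith, by ring, pair_small p bi bj
        (by linarith)⟩)⟩
  · push Not at c1
    have c2 : v k + v m ≤ w := by linarith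
    rw [if_neg (not_le.2 c1), if_pos c2, ph_one (by linarith), if_pos c1, if_neg (not_lt.2 c2)]
    refine ⟨by linarith, Or.inr (Or.inr ⟨by linarith, by ring, pair_small p bk bm
      (by linarith)⟩)⟩

/-- three small pairs in a triangle -/
theorem tri_small {i j k m : ℕ} (p : ParM κ x a b w l) (bi : b - 1 < v i) (bj : b - 1 < v j)
    (bk : b - 1 < v k) (bm : b - 1 < v m) (hm : v m ≤ x - w)
    (hlo : x - 6 * l ≤ v i + v j + v k + v m) (hup : v i + v j + v k + v m ≤ x)
    (h1 : v i + v j < v i + v j + v k + v m - w) (h2 : v i + v k < v i + v j + v k + v m - w)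
    (h3 : v j + v k < v i + v j + v k + v m - w) :
    vE x b w l (v i) + vE x b w l (v j) + vE x b w l (v k) ≤ vE x b w l (v m) := by
  obtain ⟨g1, g2, g3, g4, g5, g6, g7, g8, g9, g10, g11, g12⟩ := p
  rw [vE_eq (by linarith) (by linarith), vE_eq (by linarith) (by linarith),
    vE_eq (by linarith) (by linarith), vE_eq hm (by linarith), ← add_div, ← add_div,
    div_le_div_iff_of_pos_right (by linarith)]
  linarith

/-- three small pairs with a common box are impossible -/
theorem star_small {i j k m : ℕ} (p : ParM κ x a b w l) (bi : b - 1 < v i)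
    (hup : v i + v j + v k + v m ≤ x)
    (h1 : v i + v j < v i + v j + v k + v m - w) (h2 : v i + v k < v i + v j + v k + v m - w)
    (h3 : v i + v m < v i + v j + v k + v m - w) : False := by
  obtain ⟨g1, g2, g3, g4, g5, g6, g7, g8, g9, g10, g11, g12⟩ := p
  linarith

/-- four boxes, no allowed triple -/
theorem TyM.b4a (h : TyM v κ x a b w l T) (hc : T.card = 4) (hv : ∀ j ∈ T, v j < sg v T - w) :
    0 ≤ ∑ S ∈ T.powerset, lamM v x b w l S ∧ ∑ S ∈ T.powerset, lamM v x b w l S ≤
      6 - 2 * uS v x b w l T - ∑ P ∈ T.powersetCard 2, bg w (sg v P) (uS v x b w l P) +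
      ∑ P ∈ T.powersetCard 2, nr x l (sg v P) := by
  obtain ⟨p, q, r, s, h1, h2, h3, h4, h5, h6, hT⟩ := four_eq hc
  have l1 := h.lo
  have l2 := h.up
  have e0 : sg v T = v p + v q + v r + v s := by rw [hT, sg_four v h1 h2 h3 h4 h5 h6]
  have b1 := h.box (j := p) (by rw [hT]; simp)
  have b2 := h.box (j := q) (by rw [hT]; simp)
  have b3 := h.box (j := r) (by rw [hT]; simp)
  have b4 := h.box (j := s) (by rw [hT]; simp)
  have v1 := hv p (by rw [hT]; simp)
  have v2 := hv q (by rw [hT]; simp)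
  have v3 := hv r (by rw [hT]; simp)
  have v4 := hv s (by rw [hT]; simp)
  rw [e0] at l1 l2 v1 v2 v3 v4
  have hP := h.par
  obtain ⟨g1, g2, g3, g4, g5, g6, g7, g8, g9, g10, g11, g12⟩ := h.par
  have hx3 : 0 < x - 3 * b := by linarith
  have eU : uS v x b w l T = vE x b w l (v p) + vE x b w l (v q) + vE x b w l (v r) +
      vE x b w l (v s) := by
    unfold uS
    rw [hT, Finset.sum_insert (by simp [h1, h2, h3]), Finset.sum_insert (by simp [h4, h5]),
      Finset.sum_insert (by simp [h6]), Finset.sum_singleton]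
    ring
  have eP : ∀ {i j : ℕ}, i ≠ j → uS v x b w l {i, j} = vE x b w l (v i) + vE x b w l (v j) := by
    intro i j hij
    exact Finset.sum_pair hij
  have hU2 : vE x b w l (v p) + vE x b w l (v q) + vE x b w l (v r) + vE x b w l (v s) ≤ 2 := by
    rw [vE_eq (by linarith) (by linarith), vE_eq (by linarith) (by linarith),
      vE_eq (by linarith) (by linarith), vE_eq (by linarith) (by linarith), ← add_div, ← add_div,
      ← add_div, div_le_iff₀ hx3]
    linarith
  have hb3 : 3 * b ≤ x := by linarith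
  have u1 := vE_nonneg w l (v p) hb3
  have u2 := vE_nonneg w l (v q) hb3
  have u3 := vE_nonneg w l (v r) hb3
  have u4 := vE_nonneg w l (v s) hb3
  have m1 := nr_nonneg x l (v r + v s)
  have m2 := nr_nonneg x l (v q + v s)
  have m3 := nr_nonneg x l (v q + v r)
  obtain ⟨a1, k1⟩ := couple (i := p) (j := q) (k := r) (m := s) hP b1 b2 b3 b4 (by linarith)
    (by linarith)
  obtain ⟨a2, k2⟩ := couple (i := p) (j := r) (k := q) (m := s) hP b1 b3 b2 b4 (by linarith)
    (by linarith)
  obtain ⟨a3, k3⟩ := couple (i := p) (j := s) (k := q) (m := r) hP b1 b4 b2 b3 (by linarith)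
    (by linarith)
  have h7 : ({p, q, r, s} : Finset ℕ).card = 4 := by
    rw [Finset.card_insert_of_notMem (by simp [h1, h2, h3]), card3 h4 h5 h6]
  rw [eU, hT, psumc4 _ h1 h2 h3 h4 h5 h6, psumc4 _ h1 h2 h3 h4 h5 h6, psum4 _ h1 h2 h3 h4 h5 h6,
    eP h1, eP h2, eP h3, eP h4, eP h5, eP h6, sg_two v h1, sg_two v h2, sg_two v h3, sg_two v h4,
    sg_two v h5, sg_two v h6,
    lamM_0 v b (by linarith) (by linarith), lamM_1 v (by linarith) (by linarith),
    lamM_1 v (by linarith) (by linarith), lamM_1 v (by linarith) (by linarith),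
    lamM_1 v (by linarith) (by linarith), lamM_pr h1, lamM_pr h2, lamM_pr h3, lamM_pr h4,
    lamM_pr h5, lamM_pr h6, lamM_tr0 h1 h2 h4 (by linarith), lamM_tr0 h1 h3 h5 (by linarith),
    lamM_tr0 h2 h3 h6 (by linarith), lamM_tr0 h4 h5 h6 (by linarith), lamM_big h7.ge,
    ph_one (s := v p) (by linarith), ph_one (s := v q) (by linarith),
    ph_one (s := v r) (by linarith), ph_one (s := v s) (by linarith)]
  refine ⟨?_, by linarith⟩
  rcases k1 with k1 | ⟨c1, k1, d1⟩ | ⟨c1, k1, d1⟩ <;>
  rcases k2 with k2 | ⟨c2, k2, d2⟩ | ⟨c2, k2, d2⟩ <;>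
  rcases k3 with k3 | ⟨c3, k3, d3⟩ | ⟨c3, k3, d3⟩ <;> try linarith
  · have := tri_small (i := p) (j := q) (k := r) (m := s) hP b1 b2 b3 b4 (by linarith)
      (by linarith) (by linarith) (by linarith) (by linarith) (by linarith)
    linarith
  · have := tri_small (i := p) (j := q) (k := s) (m := r) hP b1 b2 b4 b3 (by linarith)
      (by linarith) (by linarith) (by linarith) (by linarith) (by linarith)
    linarith
  · have := tri_small (i := p) (j := r) (k := s) (m := q) hP b1 b3 b4 b2 (by linarith)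
      (by linarith) (by linarith) (by linarith) (by linarith) (by linarith)
    linarith
  · have := tri_small (i := q) (j := r) (k := s) (m := p) hP b2 b3 b4 b1 (by linarith)
      (by linarith) (by linarith) (by linarith) (by linarith) (by linarith)
    linarith

/-- four boxes, one triple is allowed -/
theorem TyM.b4b (h : TyM v κ x a b w l T) (hc : T.card = 4) {d : ℕ} (hd : d ∈ T)
    (hv : sg v T - w ≤ v d) :
    0 ≤ ∑ S ∈ T.powerset, lamM v x b w l S ∧ ∑ S ∈ T.powerset, lamM v x b w l S ≤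
      nr x l (v d) + 2 * ed x w l (v d) := by
  obtain ⟨T', hd', hT, hc'⟩ : ∃ T' : Finset ℕ, d ∉ T' ∧ T = insert d T' ∧ T'.card = 3 :=
    ⟨T.erase d, Finset.notMem_erase d T, (Finset.insert_erase hd).symm, by
      rw [Finset.card_erase_of_mem hd, hc]⟩
  obtain ⟨q, r, s, h4, h5, h6, hT'⟩ := Finset.card_eq_three.1 hc'
  rw [hT'] at hT hd'
  simp only [mem_insert, mem_singleton, not_or] at hd'
  obtain ⟨h1, h2, h3⟩ := hd'
  have l1 := h.lo
  have l2 := h.up
  have e0 : sg v T = v d + v q + v r + v s := by rw [hT, sg_four v h1 h2 h3 h4 h5 h6]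
  have b1 := h.box (j := d) (by rw [hT]; simp)
  have b2 := h.box (j := q) (by rw [hT]; simp)
  have b3 := h.box (j := r) (by rw [hT]; simp)
  have b4 := h.box (j := s) (by rw [hT]; simp)
  rw [e0] at l1 l2 hv
  have hP := h.par
  obtain ⟨g1, g2, g3, g4, g5, g6, g7, g8, g9, g10, g11, g12⟩ := h.par
  have hb3 : 3 * b ≤ x := by linarith
  have u1 := vE_nonneg w l (v d) hb3
  have hu : vE x b w l (v d) ≤ 2 * ed x w l (v d) := by
    by_cases c6 : v d ≤ x - w
    · have hu := vE_le (x := x) (b := b) (w := w) (l := l) (u := v d) (by linarith) g12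
      rw [ed_one (u := v d) (by linarith) (by linarith)]
      linarith
    · rw [vE_zero (not_le.1 c6)]
      have := ed_nonneg x w l (v d)
      linarith
  have hp := ph_compl (l := l) (x := x) (s := v d) (t := v q + v r + v s) (by linarith)
    (by linarith)
  have h7 : ({d, q, r, s} : Finset ℕ).card = 4 := by
    rw [Finset.card_insert_of_notMem (by simp [h1, h2, h3]), card3 h4 h5 h6]
  rw [hT, psum4 _ h1 h2 h3 h4 h5 h6,
    lamM_0 v b (by linarith) (by linarith), lamM_1 v (by linarith) (by linarith),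
    lamM_1 v (by linarith) (by linarith), lamM_1 v (by linarith) (by linarith),
    lamM_1 v (by linarith) (by linarith), lamM_pr h1, lamM_pr h2, lamM_pr h3, lamM_pr h4,
    lamM_pr h5, lamM_pr h6, lamM_tr0 h1 h2 h4 (by linarith), lamM_tr0 h1 h3 h5 (by linarith),
    lamM_tr0 h2 h3 h6 (by linarith), lamM_tr1 h4 h5 h6 (by linarith), lamM_big h7.ge,
    ph_one (s := v q) (by linarith), ph_one (s := v r) (by linarith),
    ph_one (s := v s) (by linarith)]
  unfold prM
  rw [if_neg (show ¬ v d + v q ≤ w by linarith), if_neg (show ¬ v d + v r ≤ w by linarith),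
    if_neg (show ¬ v d + v s ≤ w by linarith), if_pos (show v q + v r ≤ w by linarith),
    if_pos (show v q + v s ≤ w by linarith), if_pos (show v r + v s ≤ w by linarith),
    ph_one (s := v q + v r) (by linarith), ph_one (s := v q + v s) (by linarith),
    ph_one (s := v r + v s) (by linarith)]
  constructor <;> linarith [hp.1, hp.2]

theorem TyM.b4 (h : TyM v κ x a b w l T) (hc : T.card = 4) :
    0 ≤ ∑ S ∈ T.powerset, lamM v x b w l S ∧ ∑ S ∈ T.powerset, lamM v x b w l S ≤
      max 0 (6 - 2 * uS v x b w l T - ∑ P ∈ T.powersetCard 2, bg w (sg v P) (uS v x b w l P)) +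
      ∑ P ∈ T.powersetCard 2, nr x l (sg v P) + ∑ j ∈ T, (nr x l (v j) + 2 * ed x w l (v j)) := by
  have m1 : 0 ≤ ∑ P ∈ T.powersetCard 2, nr x l (sg v P) :=
    Finset.sum_nonneg fun _ _ => nr_nonneg _ _ _
  have m3 : ∀ j ∈ T, 0 ≤ nr x l (v j) + 2 * ed x w l (v j) := by
    intro j _
    have := nr_nonneg x l (v j)
    have := ed_nonneg x w l (v j)
    linarith
  by_cases hv : ∀ j ∈ T, v j < sg v T - w
  · obtain ⟨k1, k2⟩ := h.b4a hc hv
    refine ⟨k1, k2.trans ?_⟩
    have m2 : 0 ≤ ∑ j ∈ T, (nr x l (v j) + 2 * ed x w l (v j)) := Finset.sum_nonneg m3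
    have := le_max_right 0 (6 - 2 * uS v x b w l T -
      ∑ P ∈ T.powersetCard 2, bg w (sg v P) (uS v x b w l P))
    linarith
  · push Not at hv
    obtain ⟨d, hd, hv⟩ := hv
    obtain ⟨k1, k2⟩ := h.b4b hc hd hv
    refine ⟨k1, k2.trans ?_⟩
    have m2 := Finset.single_le_sum m3 hd
    have := le_max_left 0 (6 - 2 * uS v x b w l T -
      ∑ P ∈ T.powersetCard 2, bg w (sg v P) (uS v x b w l P))
    linarith

end Pool.MP_dd84fd_nt.MX
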