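import Pool.Agent.Lib.MP_dd84fd_nt.MX.SvCl

/-!
# Theorem M: five and six boxes; Lemma CL (helper63)
-/

set_option autoImplicit false

namespace Pool.MP_dd84fd_nt.MX

open Finset Pool.MP_dd84fd_nt.HX Pool.MP_dd84fd_nt.IY Pool.MP_dd84fd_nt.KX Pool.MP_dd84fd_nt.LX

variable {v : ℕ → ℝ} {κ x a b w l : ℝ} {T : Finset ℕ}

/-- a set whose complement has at least `4` boxes has sum `< sg T - w` -/
theorem TyM.lt4 (h : TyM v κ x a b w l T) {S : Finset ℕ} (hS : S ⊆ T)
    (h4 : 4 ≤ (T \ S).card) : sg v S < sg v T - w := by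
  have h1 := sg_compl' v hS
  have h2 := h.sub_lo (Finset.sdiff_subset (s := T) (t := S))
  obtain ⟨g1, g2, g3, g4, g5, g6, g7, g8, g9, g10, g11, g12⟩ := h.par
  have h3 : (4 : ℝ) ≤ ((T \ S).card : ℝ) := by exact_mod_cast h4
  have h5 : 0 < b - 1 := by linarith
  nlinarith

/-- a set whose complement has at least `3` boxes has sum `≤ w` -/
theorem TyM.le3 (h : TyM v κ x a b w l T) {S : Finset ℕ} (hS : S ⊆ T)
    (h4 : 3 ≤ (T \ S).card) : sg v S ≤ w := by
  have h1 := sg_compl' v hS
  have h2 := h.sub_lo (Finset.sdiff_subset (s := T) (t := S))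
  have h6 := h.up
  obtain ⟨g1, g2, g3, g4, g5, g6, g7, g8, g9, g10, g11, g12⟩ := h.par
  have h3 : (3 : ℝ) ≤ ((T \ S).card : ℝ) := by exact_mod_cast h4
  have h5 : 0 < b - 1 := by linarith
  nlinarith

/-- at least five boxes: all boxes are small -/
theorem TyM.lt5 (h : TyM v κ x a b w l T) (hc : 5 ≤ T.card) : ∀ j ∈ T, v j ≤ x - w := by
  intro j hj
  have h1 := h.lt4 (S := {j}) (by simpa using hj) (by
    rw [Finset.card_sdiff_of_subset (by simpa using hj), Finset.card_singleton]
    omega)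
  rw [sg_one] at h1
  linarith [h.up]

theorem TyM.sum_ph (h : TyM v κ x a b w l T) (hc : 5 ≤ T.card) :
    ∑ j ∈ T, ph x l (v j) = T.card := by
  have h1 : ∀ j ∈ T, ph x l (v j) = 1 := by
    intro j hj
    have h2 := h.lt5 hc j hj
    obtain ⟨g1, g2, g3, g4, g5, g6, g7, g8, g9, g10, g11, g12⟩ := h.par
    exact ph_one (by linarith)
  rw [Finset.sum_congr rfl h1, Finset.sum_const, nsmul_eq_mul, mul_one]

theorem sum_uS2 : ∑ P ∈ T.powersetCard 2, uS v x b w l P =
    ((T.card : ℝ) - 1) * uS v x b w l T := sum_pairs (fun j => vE x b w l (v j)) T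

theorem sum_uS3 : ∑ P ∈ T.powersetCard 3, uS v x b w l P =
    ((T.card : ℝ) - 1) * ((T.card : ℝ) - 2) / 2 * uS v x b w l T :=
  sum_triples (fun j => vE x b w l (v j)) T

theorem TyM.U_eq (h : TyM v κ x a b w l T) (hw : ∀ j ∈ T, v j ≤ x - w) :
    uS v x b w l T = 2 * (sg v T - T.card * (b - 2 * l - 1)) / (x - 3 * b) :=
  uS_eq h (Finset.Subset.refl T) hw

/-! ### Five boxes -/

theorem TyM.b5 (h : TyM v κ x a b w l T) (hc : T.card = 5) :
    0 ≤ ∑ S ∈ T.powerset, lamM v x b w l S ∧ ∑ S ∈ T.powerset, lamM v x b w l S ≤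
      6 - 3 * uS v x b w l T + ∑ P ∈ T.powersetCard 2,
        ((if sg v T - w ≤ sg v P then uS v x b w l (T \ P) else 0) + nr x l (sg v P)) := by
  classical
  have hpar := h.par
  obtain ⟨g1, g2, g3, g4, g5, g6, g7, g8, g9, g10, g11, g12⟩ := h.par
  have hlo := h.lo
  have hup := h.up
  have hx3 : 0 < x - 3 * b := by linarith
  have hcR : (T.card : ℝ) = 5 := by exact_mod_cast hc
  have hU2 : uS v x b w l T ≤ 2 := by
    rw [h.U_eq (h.lt5 (by omega)), div_le_iff₀ hx3, hcR]
    linarith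
  have key : ∀ P ∈ T.powersetCard 2, 1 - uS v x b w l P ≤
      lamM v x b w l P + lamM v x b w l (T \ P) ∧
      lamM v x b w l P + lamM v x b w l (T \ P) ≤ (1 - uS v x b w l P) +
        ((if sg v T - w ≤ sg v P then uS v x b w l (T \ P) else 0) + nr x l (sg v P)) := by
    intro P hP
    rw [Finset.mem_powersetCard] at hP
    obtain ⟨hP1, hP2⟩ := hP
    have c3 : (T \ P).card = 3 := by
      rw [Finset.card_sdiff_of_subset hP1]
      omega
    have e1 := sg_compl' v hP1
    have n1 := nr_nonneg x l (sg v P)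
    have hn := uS_nonneg v (x := x) (b := b) w l (by linarith) (T \ P)
    have hp := ph_compl (l := l) (x := x) (s := sg v P) (t := sg v (T \ P)) (by linarith)
      (by linarith)
    rw [lamM_2 hP2 (h.le3 hP1 (by omega))]
    by_cases c : sg v T - w ≤ sg v P
    · rw [if_pos c, lamM_3 c3 (by linarith)]
      constructor <;> linarith [hp.1, hp.2]
    · rw [if_neg c, lamM_w (by linarith), ph_one (by linarith)]
      constructor <;> linarith
  have e2 : ∑ P ∈ T.powersetCard 2, (1 - uS v x b w l P) = 10 - 4 * uS v x b w l T := by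
    rw [Finset.sum_sub_distrib, sum_uS2, Finset.sum_const, Finset.card_powersetCard, hc, nsmul_eq_mul]
    norm_num [Nat.choose]
  rw [sum_by_card h, sum_sdiff_card (i := 3) (k := 2) (by omega), h.sum_ph (by omega), hcR,
    add_assoc, ← Finset.sum_add_distrib]
  have k1 := Finset.sum_le_sum fun P hP => (key P hP).1
  have k2 := Finset.sum_le_sum fun P hP => (key P hP).2
  rw [e2] at k1
  rw [Finset.sum_add_distrib (f := fun P => 1 - uS v x b w l P), e2] at k2
  constructor <;> linarith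

/-! ### Six boxes -/

theorem TyM.b6 (h : TyM v κ x a b w l T) (hc : T.card = 6) :
    0 ≤ ∑ S ∈ T.powerset, lamM v x b w l S ∧ ∑ S ∈ T.powerset, lamM v x b w l S ≤
      6 * uS v x b w l T + ∑ P ∈ T.powersetCard 3, nr x l (sg v P) := by
  classical
  have hpar := h.par
  obtain ⟨g1, g2, g3, g4, g5, g6, g7, g8, g9, g10, g11, g12⟩ := h.par
  have hlo := h.lo
  have hup := h.up
  have hx3 : 0 < x - 3 * b := by linarith
  have hcR : (T.card : ℝ) = 6 := by exact_mod_cast hc
  have hU0 := uS_nonneg v (x := x) (b := b) w l (by linarith) T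
  have e2 : ∑ P ∈ T.powersetCard 2, lamM v x b w l P = 15 - 5 * uS v x b w l T := by
    have h1 : ∀ P ∈ T.powersetCard 2, lamM v x b w l P = 1 - uS v x b w l P := by
      intro P hP
      rw [Finset.mem_powersetCard] at hP
      have c4 : (T \ P).card = 4 := by
        rw [Finset.card_sdiff_of_subset hP.1]
        omega
      have := h.lt4 hP.1 c4.ge
      rw [lamM_2 hP.2 (by linarith), ph_one (by linarith)]
      ring
    rw [Finset.sum_congr rfl h1, Finset.sum_sub_distrib, sum_uS2, Finset.sum_const,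
      Finset.card_powersetCard, hc, nsmul_eq_mul]
    norm_num [Nat.choose]
  have e3 : ∑ P ∈ T.powersetCard 3, lamM v x b w l P = 10 * uS v x b w l T -
      ∑ P ∈ T.powersetCard 3, ph x l (sg v P) := by
    have h1 : ∀ P ∈ T.powersetCard 3, lamM v x b w l P = uS v x b w l P - ph x l (sg v P) := by
      intro P hP
      rw [Finset.mem_powersetCard] at hP
      have c4 : (T \ P).card = 3 := by
        rw [Finset.card_sdiff_of_subset hP.1]
        omega
      exact lamM_3 hP.2 (h.le3 hP.1 c4.ge)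
    rw [Finset.sum_congr rfl h1, Finset.sum_sub_distrib, sum_uS3, hcR]
    norm_num
  have e4 : ∑ P ∈ T.powersetCard 3, ph x l (sg v P) =
      ∑ P ∈ T.powersetCard 3, ph x l (sg v (T \ P)) :=
    sum_sdiff_card (i := 3) (k := 3) (by omega) (fun P => ph x l (sg v P))
  have key : ∀ P ∈ T.powersetCard 3, ph x l (sg v P) + ph x l (sg v (T \ P)) ≤ 1 ∧
      1 ≤ ph x l (sg v P) + ph x l (sg v (T \ P)) + nr x l (sg v P) := by
    intro P hP
    rw [Finset.mem_powersetCard] at hP
    have e1 := sg_compl' v hP.1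
    exact ph_compl (by linarith) (by linarith)
  have e5 : ∑ _P ∈ T.powersetCard 3, (1 : ℝ) = 20 := by
    rw [Finset.sum_const, Finset.card_powersetCard, hc, nsmul_eq_mul]
    norm_num [Nat.choose]
  have k1 := Finset.sum_le_sum fun P hP => (key P hP).1
  have k2 := Finset.sum_le_sum fun P hP => (key P hP).2
  rw [e5, Finset.sum_add_distrib, ← e4] at k1
  rw [e5, Finset.sum_add_distrib, Finset.sum_add_distrib, ← e4] at k2
  have n1 : 0 ≤ ∑ P ∈ T.powersetCard 3, nr x l (sg v P) :=
    Finset.sum_nonneg fun _ _ => nr_nonneg _ _ _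
  rw [sum_by_card h, e2, e3, h.sum_ph (by omega), hcR]
  constructor <;> linarith

/-- Lemma CL -/
theorem TyM.cl (h : TyM v κ x a b w l T) :
    (T.card = 1 → ∑ S ∈ T.powerset, lamM v x b w l S = 1) ∧
    (2 ≤ T.card → 0 ≤ ∑ S ∈ T.powerset, lamM v x b w l S) := by
  refine ⟨h.b1, fun hc2 => ?_⟩
  have hc6 := h.card_le
  have hc : T.card = 2 ∨ T.card = 3 ∨ T.card = 4 ∨ T.card = 5 ∨ T.card = 6 := by omega
  rcases hc with hc | hc | hc | hc | hc
  · exact (h.b2 hc).1
  · exact (h.b3 hc).1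
  · exact (h.b4 hc).1
  · exact (h.b5 hc).1
  · exact (h.b6 hc).1

end Pool.MP_dd84fd_nt.MX
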