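import Pool.Agent.Lib.MP_dd84fd_nt.MX.SvDefs
import Pool.Agent.Lib.MP_dd84fd_nt.LX.SvCl

/-!
# Theorem M: values of the majorant on the types (helper63)
-/

set_option autoImplicit false

namespace Pool.MP_dd84fd_nt.MX

open Finset Pool.MP_dd84fd_nt.HX Pool.MP_dd84fd_nt.IY Pool.MP_dd84fd_nt.KX Pool.MP_dd84fd_nt.LX

/-- hypotheses on the parameters -/
structure ParM (κ x a b w l : ℝ) : Prop where
  hl : 1 ≤ l
  hκ : 11 * κ ≤ 1
  ha : 0 < a
  h7b : x + 60 * l + 60 ≤ 7 * b
  h3b : 3 * b + 60 * l + 60 ≤ x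
  hw : 2 * w + 12 * l + 2 ≤ x + b
  hwx : w + 30 * l + 30 ≤ x
  hxw : x / 2 + 30 * l + 30 ≤ w
  h3bw : x + 30 * l + 30 ≤ 3 * b + w
  h4b : w + 30 * l + 30 ≤ 4 * b
  h3w2b : 2 * x + 30 * l + 30 ≤ 3 * w + 2 * b
  h2b : 2 * b + 2 * l + 1 ≤ w

/-- hypotheses on a type -/
structure TyM (v : ℕ → ℝ) (κ x a b w l : ℝ) (T : Finset ℕ) : Prop where
  par : ParM κ x a b w l
  lo : x - 6 * l ≤ sg v T
  up : sg v T ≤ x
  ha : ∀ j ∈ T, a < v j
  hg : ¬ gdT v κ a b T

variable {v : ℕ → ℝ} {κ x a b w l : ℝ} {T : Finset ℕ}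

theorem TyM.box (h : TyM v κ x a b w l T) {j : ℕ} (hj : j ∈ T) : b - 1 < v j := by
  by_contra hc
  push Not at hc
  apply h.hg
  refine ⟨{j}, by simpa using hj, ?_, ?_⟩
  · rw [sg_one]
    exact h.ha j hj
  · rw [sg_one]
    linarith [h.par.hκ]

theorem ParM.pos (h : ParM κ x a b w l) : 0 < x ∧ 30 * l + 30 ≤ b := by
  obtain ⟨g1, g2, g3, g4, g5, g6, g7, g8, g9, g10, g11, g12⟩ := h
  constructor <;> linarith

theorem TyM.sub_lo (h : TyM v κ x a b w l T) {S : Finset ℕ} (hS : S ⊆ T) :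
    (S.card : ℝ) * (b - 1) ≤ sg v S := by
  have h1 : ∑ j ∈ S, (b - 1) ≤ sg v S := Finset.sum_le_sum fun j hj => (h.box (hS hj)).le
  rw [Finset.sum_const, nsmul_eq_mul] at h1
  exact h1

theorem TyM.card_le (h : TyM v κ x a b w l T) : T.card ≤ 6 := by
  by_contra hc
  have hc' : 7 ≤ T.card := by omega
  have h1 := (h.sub_lo (Finset.Subset.refl T)).trans h.up
  have h2 : (7 : ℝ) ≤ T.card := by exact_mod_cast hc'
  have h3 := h.par.h7b
  have h5 := h.par.hl
  have h6 := h.par.pos.2
  nlinarith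

theorem TyM.card_pos (h : TyM v κ x a b w l T) : 1 ≤ T.card := by
  by_contra hc
  have hc' : T = ∅ := Finset.card_eq_zero.1 (by omega)
  have h1 := h.lo
  rw [hc'] at h1
  simp only [sg, Finset.sum_empty] at h1
  have h3 := h.par.hxw
  have h4 := h.par.hwx
  have h5 := h.par.hl
  linarith

theorem sg_compl' (v : ℕ → ℝ) {S T : Finset ℕ} (hS : S ⊆ T) : sg v S + sg v (T \ S) = sg v T := by
  rw [sg_compl v hS]
  ring

theorem uS_compl (v : ℕ → ℝ) (x b w l : ℝ) {S T : Finset ℕ} (hS : S ⊆ T) :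
    uS v x b w l S + uS v x b w l (T \ S) = uS v x b w l T := by
  unfold uS
  rw [add_comm]
  exact Finset.sum_sdiff hS

theorem uS_nonneg (v : ℕ → ℝ) {x b : ℝ} (w l : ℝ) (h : 3 * b ≤ x) (S : Finset ℕ) :
    0 ≤ uS v x b w l S := Finset.sum_nonneg fun _ _ => vE_nonneg _ _ _ h

/-- `uS` if all boxes are small -/
theorem uS_eq (h : TyM v κ x a b w l T) {S : Finset ℕ} (hS : S ⊆ T) (hw : ∀ j ∈ S, v j ≤ x - w) :
    uS v x b w l S = 2 * (sg v S - S.card * (b - 2 * l - 1)) / (x - 3 * b) := by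
  have hl := h.par.hl
  have h1 : ∀ j ∈ S, vE x b w l (v j) = 2 * (v j - (b - 2 * l - 1)) / (x - 3 * b) := by
    intro j hj
    have hb := h.box (hS hj)
    rw [vE_eq (hw j hj) (by linarith)]
    congr 1
    ring
  unfold uS sg
  rw [Finset.sum_congr rfl h1, ← Finset.sum_div, ← Finset.mul_sum, Finset.sum_sub_distrib,
    Finset.sum_const, nsmul_eq_mul]

theorem ph_nonneg (x l s : ℝ) : 0 ≤ ph x l s := by
  unfold ph
  split_ifs <;> norm_num

theorem ph_le (x l s : ℝ) : ph x l s ≤ 1 := by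
  unfold ph
  split_ifs <;> norm_num

theorem ph_one {x l s : ℝ} (h : s < x / 2 - 3 * l) : ph x l s = 1 := if_pos h

theorem ph_zero {x l s : ℝ} (h : x / 2 - 3 * l ≤ s) : ph x l s = 0 := if_neg (not_lt.2 h)

/-- complementary sums: `ph + ph ≤ 1`, with equality unless both are near `x/2` -/
theorem ph_compl {x l s t : ℝ} (h1 : x - 6 * l ≤ s + t) (h2 : s + t ≤ x) :
    ph x l s + ph x l t ≤ 1 ∧ 1 ≤ ph x l s + ph x l t + nr x l s := by
  by_cases c1 : s < x / 2 - 3 * l
  · have c2 : x / 2 - 3 * l ≤ t := by linarith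
    rw [ph_one c1, ph_zero c2]
    have := nr_nonneg x l s
    constructor <;> linarith
  · push Not at c1
    by_cases c2 : t < x / 2 - 3 * l
    · rw [ph_zero c1, ph_one c2]
      have := nr_nonneg x l s
      constructor <;> linarith
    · push Not at c2
      rw [ph_zero c1, ph_zero c2]
      have h3 : nr x l s = 1 := by
        have hl : 0 ≤ l := by linarith
        exact nr_one (by linarith) (by linarith)
      rw [h3]
      constructor <;> norm_num

/-! ### Counting over the pairs -/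

theorem sum_pairs (u : ℕ → ℝ) (S : Finset ℕ) : ∑ P ∈ S.powersetCard 2, ∑ j ∈ P, u j =
    ((S.card : ℝ) - 1) * ∑ j ∈ S, u j := by
  classical
  induction S using Finset.induction_on with
  | empty =>
    rw [Finset.powersetCard_eq_empty.2 (by simp)]
    simp
  | insert p S hp ih =>
    have h1 : ∑ P ∈ S.powersetCard 1, ∑ j ∈ P, u j = ∑ j ∈ S, u j := by
      rw [Finset.powersetCard_one, Finset.sum_map]
      simp
    rw [Finset.powersetCard_succ_insert hp, Finset.sum_union, Finset.sum_image, ih,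
      Finset.sum_insert hp, Finset.card_insert_of_notMem hp]
    · have h2 : ∑ P ∈ S.powersetCard 1, ∑ j ∈ insert p P, u j =
          (S.card : ℝ) * u p + ∑ j ∈ S, u j := by
        rw [← h1]
        have h3 : ∀ P ∈ S.powersetCard 1, ∑ j ∈ insert p P, u j = u p + ∑ j ∈ P, u j := by
          intro P hP
          rw [Finset.mem_powersetCard] at hP
          exact Finset.sum_insert fun hc => hp (hP.1 hc)
        rw [Finset.sum_congr rfl h3, Finset.sum_add_distrib, Finset.sum_const,
          Finset.card_powersetCard, Nat.choose_one_right, nsmul_eq_mul]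
      rw [h2]
      push_cast
      ring
    · intro P hP Q hQ hPQ
      rw [Finset.mem_coe, Finset.mem_powersetCard] at hP hQ
      have e1 : (insert p P).erase p = P := Finset.erase_insert fun hc => hp (hP.1 hc)
      have e2 : (insert p Q).erase p = Q := Finset.erase_insert fun hc => hp (hQ.1 hc)
      rw [← e1, ← e2, hPQ]
    · rw [Finset.disjoint_left]
      intro P hP hQ
      rw [Finset.mem_powersetCard] at hP
      rw [Finset.mem_image] at hQ
      obtain ⟨Q, _, rfl⟩ := hQ
      exact hp (hP.1 (Finset.mem_insert_self p Q))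

theorem sum_triples (u : ℕ → ℝ) (S : Finset ℕ) : ∑ P ∈ S.powersetCard 3, ∑ j ∈ P, u j =
    ((S.card : ℝ) - 1) * ((S.card : ℝ) - 2) / 2 * ∑ j ∈ S, u j := by
  classical
  induction S using Finset.induction_on with
  | empty =>
    rw [Finset.powersetCard_eq_empty.2 (by simp)]
    simp
  | insert p S hp ih =>
    rw [Finset.powersetCard_succ_insert hp, Finset.sum_union, Finset.sum_image, ih,
      Finset.sum_insert hp, Finset.card_insert_of_notMem hp]
    · have h2 : ∑ P ∈ S.powersetCard 2, ∑ j ∈ insert p P, u j =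
          (S.card : ℝ) * ((S.card : ℝ) - 1) / 2 * u p + ((S.card : ℝ) - 1) * ∑ j ∈ S, u j := by
        rw [← sum_pairs]
        have h3 : ∀ P ∈ S.powersetCard 2, ∑ j ∈ insert p P, u j = u p + ∑ j ∈ P, u j := by
          intro P hP
          rw [Finset.mem_powersetCard] at hP
          exact Finset.sum_insert fun hc => hp (hP.1 hc)
        rw [Finset.sum_congr rfl h3, Finset.sum_add_distrib, Finset.sum_const,
          Finset.card_powersetCard, nsmul_eq_mul, Nat.cast_choose_two]
      rw [h2]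
      push_cast
      ring
    · intro P hP Q hQ hPQ
      rw [Finset.mem_coe, Finset.mem_powersetCard] at hP hQ
      have e1 : (insert p P).erase p = P := Finset.erase_insert fun hc => hp (hP.1 hc)
      have e2 : (insert p Q).erase p = Q := Finset.erase_insert fun hc => hp (hQ.1 hc)
      rw [← e1, ← e2, hPQ]
    · rw [Finset.disjoint_left]
      intro P hP hQ
      rw [Finset.mem_powersetCard] at hP
      rw [Finset.mem_image] at hQ
      obtain ⟨Q, _, rfl⟩ := hQ
      exact hp (hP.1 (Finset.mem_insert_self p Q))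

/-- complements in `T` -/
theorem sum_sdiff_card {T : Finset ℕ} {i k : ℕ} (hik : i + k = T.card) (f : Finset ℕ → ℝ) :
    ∑ P ∈ T.powersetCard i, f P = ∑ P ∈ T.powersetCard k, f (T \ P) := by
  classical
  refine Finset.sum_nbij' (fun P => T \ P) (fun P => T \ P) ?_ ?_ ?_ ?_ ?_
  · intro P hP
    rw [Finset.mem_powersetCard] at hP ⊢
    refine ⟨Finset.sdiff_subset, ?_⟩
    rw [Finset.card_sdiff_of_subset hP.1, hP.2]
    omega
  · intro P hP
    rw [Finset.mem_powersetCard] at hP ⊢
    refine ⟨Finset.sdiff_subset, ?_⟩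
    rw [Finset.card_sdiff_of_subset hP.1, hP.2]
    omega
  · intro P hP
    rw [Finset.mem_powersetCard] at hP
    exact Finset.sdiff_sdiff_eq_self hP.1
  · intro P hP
    rw [Finset.mem_powersetCard] at hP
    exact Finset.sdiff_sdiff_eq_self hP.1
  · intro P hP
    rw [Finset.mem_powersetCard] at hP
    rw [Finset.sdiff_sdiff_eq_self hP.1]

/-! ### The weights by cardinality -/

theorem lamM_0 (v : ℕ → ℝ) {x : ℝ} (b : ℝ) {w l : ℝ} (h : 3 * l < x / 2) (hw : 0 ≤ w) :
    lamM v x b w l ∅ = 1 := by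
  unfold lamM uS
  have h0 : sg v (∅ : Finset ℕ) = 0 := by simp [sg]
  rw [h0, ph_one (by linarith), if_pos ⟨by simp, hw⟩]
  simp
  norm_num

theorem lamM_1 (v : ℕ → ℝ) {x b w l : ℝ} (h : x / 2 + 3 * l < w) (h' : 0 ≤ l) (p : ℕ) :
    lamM v x b w l {p} = vE x b w l (v p) - ph x l (v p) := by
  unfold lamM uS
  rw [sg_one]
  simp only [Finset.card_singleton, Finset.sum_singleton]
  by_cases hc : v p ≤ w
  · rw [if_pos ⟨by norm_num, hc⟩, if_neg (by decide)]
  · rw [if_neg (fun h => hc h.2), vE_zero (by linarith), ph_zero (by linarith)]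
    norm_num

theorem lamM_2 {v : ℕ → ℝ} {x b w l : ℝ} {S : Finset ℕ} (h : S.card = 2) (hw : sg v S ≤ w) :
    lamM v x b w l S = 2 - ph x l (sg v S) - uS v x b w l S := by
  unfold lamM
  rw [if_pos ⟨by omega, hw⟩, if_pos (by rw [h]; decide)]

theorem lamM_3 {v : ℕ → ℝ} {x b w l : ℝ} {S : Finset ℕ} (h : S.card = 3) (hw : sg v S ≤ w) :
    lamM v x b w l S = uS v x b w l S - ph x l (sg v S) := by
  unfold lamM
  rw [if_pos ⟨by omega, hw⟩, if_neg (by rw [h]; decide)]

theorem lamM_w {v : ℕ → ℝ} {x b w l : ℝ} {S : Finset ℕ} (hw : w < sg v S) :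
    lamM v x b w l S = 0 := by
  unfold lamM
  rw [if_neg]
  rintro ⟨_, h⟩
  linarith

theorem lamM_big {v : ℕ → ℝ} {x b w l : ℝ} {S : Finset ℕ} (h : 4 ≤ S.card) :
    lamM v x b w l S = 0 := by
  unfold lamM
  rw [if_neg]
  rintro ⟨h1, _⟩
  omega

/-- the sum over the subsets, by cardinality -/
theorem sum_by_card (h : TyM v κ x a b w l T) :
    ∑ S ∈ T.powerset, lamM v x b w l S = 1 + (uS v x b w l T - ∑ j ∈ T, ph x l (v j)) +
      ∑ S ∈ T.powersetCard 2, lamM v x b w l S + ∑ S ∈ T.powersetCard 3, lamM v x b w l S := by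
  classical
  obtain ⟨g1, g2, g3, g4, g5, g6, g7, g8, g9, g10, g11, g12⟩ := h.par
  have hb : ∀ k, 4 ≤ k → ∑ S ∈ T.powersetCard k, lamM v x b w l S = 0 := by
    intro k hk
    refine Finset.sum_eq_zero fun S hS => ?_
    rw [Finset.mem_powersetCard] at hS
    exact lamM_big (by omega)
  have h0 : ∑ S ∈ T.powersetCard 0, lamM v x b w l S = 1 := by
    rw [Finset.powersetCard_zero, Finset.sum_singleton]
    exact lamM_0 v b (by linarith) (by linarith)
  have h1 : ∑ S ∈ T.powersetCard 1, lamM v x b w l S =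
      uS v x b w l T - ∑ j ∈ T, ph x l (v j) := by
    rw [Finset.powersetCard_one, Finset.sum_map]
    unfold uS
    rw [← Finset.sum_sub_distrib]
    refine Finset.sum_congr rfl fun j _ => ?_
    exact lamM_1 v (by linarith) (by linarith) j
  have h2 : ∀ k, T.card < k → ∑ S ∈ T.powersetCard k, lamM v x b w l S = 0 := by
    intro k hk
    rw [Finset.powersetCard_eq_empty.2 hk, Finset.sum_empty]
  have h3 : ∀ n, ∑ k ∈ range (n + 4), ∑ S ∈ T.powersetCard k, lamM v x b w l S =
      1 + (uS v x b w l T - ∑ j ∈ T, ph x l (v j)) +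
      ∑ S ∈ T.powersetCard 2, lamM v x b w l S + ∑ S ∈ T.powersetCard 3, lamM v x b w l S := by
    intro n
    induction n with
    | zero =>
      rw [Finset.sum_range_succ, Finset.sum_range_succ, Finset.sum_range_succ,
        Finset.sum_range_succ, Finset.sum_range_zero, h0, h1]
      ring
    | succ n ih =>
      rw [show n + 1 + 4 = n + 4 + 1 by ring, Finset.sum_range_succ, ih, hb (n + 4) (by omega)]
      ring
  rw [Finset.sum_powerset]
  rw [← h3 T.card]
  have h4 : ∑ k ∈ range (T.card + 4), ∑ S ∈ T.powersetCard k, lamM v x b w l S =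
      ∑ k ∈ range (T.card + 1), ∑ S ∈ T.powersetCard k, lamM v x b w l S := by
    rw [Finset.sum_range_succ, Finset.sum_range_succ, Finset.sum_range_succ,
      h2 (T.card + 3) (by omega), h2 (T.card + 2) (by omega), h2 (T.card + 1) (by omega)]
    ring
  rw [h4]

end Pool.MP_dd84fd_nt.MX
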