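import Pool.Agent.Lib.MP_dd84fd_nt.IY.NCe
import Pool.Agent.Lib.MP_dd84fd_nt.IY.NHp

/-!
# Theorem M, numerics: cell trees with multiplicities (helper98)

`nodeM w f N s h M` = sum over the multisets of `s` cells in `[h, h + N)` of `∏ w_c^m / m!` times the leaf
value. It bounds the sum over the squarefree numbers with `s` primes in these cells (`tree_k`).
-/

set_option autoImplicit false

namespace Pool.MP_dd84fd_nt.MX

open Finset Pool.MP_67663b_nt.Odd Pool.MP_dd84fd_nt.En Pool.MP_dd84fd_nt.E2 Pool.MP_dd84fd_nt.HX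
  Pool.MP_dd84fd_nt.IY

/-- parameters with `G` cells -/
def PG (G : ℕ) : Prm := ⟨G, 0, 0, fun _ _ => 0⟩

/-! ### elementary symmetric sums -/

private theorem pow_two_terms (W x : ℝ) (hW : 0 ≤ W) (hx : 0 ≤ x) (m : ℕ) :
    W ^ (m + 1) + (m + 1) * x * W ^ m ≤ (W + x) ^ (m + 1) := by
  induction m with
  | zero => simp
  | succ m ih =>
    have h1 : (W + x) ^ (m + 1 + 1) = (W + x) * (W + x) ^ (m + 1) := by ring
    rw [h1]
    refine le_trans ?_ (mul_le_mul_of_nonneg_left ih (by positivity))
    have h2 : 0 ≤ x * ((m + 1) * x * W ^ m) := by positivity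
    push_cast
    have e : (W + x) * (W ^ (m + 1) + (m + 1) * x * W ^ m) =
      W ^ (m + 1 + 1) + (m + 1 + 1) * x * W ^ (m + 1) + x * ((m + 1) * x * W ^ m) := by ring
    rw [e]
    linarith

theorem esym_le (a : ℕ → ℝ) (ha : ∀ i, 0 ≤ a i) (S : Finset ℕ) : ∀ m : ℕ,
    ∑ T ∈ S.powersetCard m, ∏ i ∈ T, a i ≤ (∑ i ∈ S, a i) ^ m / (m.factorial : ℝ) := by
  classical
  induction S using Finset.induction_on with
  | empty =>
    intro m
    rcases Nat.eq_zero_or_pos m with rfl | hm
    · simp
    · rw [powersetCard_eq_empty.2 (by simpa using hm)]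
      simp only [Finset.sum_empty]
      positivity
  | insert x S hx ih =>
    intro m
    rcases m with _ | m
    · simp
    · rw [powersetCard_succ_insert hx, sum_union, sum_image]
      · rw [sum_insert hx]
        have h1 := ih (m + 1)
        have h2 := ih m
        have h3 : ∑ T ∈ S.powersetCard m, ∏ i ∈ insert x T, a i =
            a x * ∑ T ∈ S.powersetCard m, ∏ i ∈ T, a i := by
          rw [mul_sum]
          refine sum_congr rfl fun T hT => ?_
          rw [prod_insert]
          exact fun h => hx ((mem_powersetCard.1 hT).1 h)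
        rw [h3]
        set W := ∑ i ∈ S, a i with hW
        have hW0 : 0 ≤ W := sum_nonneg fun i _ => ha i
        have h4 := pow_two_terms W (a x) hW0 (ha x) m
        have hf : ((m + 1).factorial : ℝ) = (m + 1) * (m.factorial : ℝ) := by
          rw [Nat.factorial_succ]
          push_cast
          ring
        have hf0 : (0 : ℝ) < (m.factorial : ℝ) := by exact_mod_cast m.factorial_pos
        have h5 : W ^ (m + 1) / ((m + 1).factorial : ℝ) + a x * (W ^ m / (m.factorial : ℝ)) ≤
            (a x + W) ^ (m + 1) / ((m + 1).factorial : ℝ) := by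
          rw [hf]
          have e : W ^ (m + 1) / (((m : ℝ) + 1) * (m.factorial : ℝ)) +
              a x * (W ^ m / (m.factorial : ℝ)) =
              (W ^ (m + 1) + (m + 1) * a x * W ^ m) / (((m : ℝ) + 1) * (m.factorial : ℝ)) := by
            field_simp
          rw [e, add_comm (a x) W]
          gcongr
        refine le_trans (add_le_add h1 (mul_le_mul_of_nonneg_left h2 (ha x))) h5
      · intro T hT T' hT' h
        have hT1 : x ∉ T := fun h => hx ((mem_powersetCard.1 (by simpa using hT)).1 h)
        have hT2 : x ∉ T' := fun h => hx ((mem_powersetCard.1 (by simpa using hT')).1 h)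
        have h' : insert x T = insert x T' := h
        rw [← erase_insert hT1, ← erase_insert hT2, h']
      · rw [disjoint_left]
        intro T hT hT'
        rw [mem_image] at hT'
        obtain ⟨U, hU, rfl⟩ := hT'
        exact hx ((mem_powersetCard.1 hT).1 (mem_insert_self x U))

/-! ### splitting of the subsets of a disjoint union -/

theorem pcard_split {A B : Finset ℕ} (h : Disjoint A B) (s : ℕ) (F : Finset ℕ → ℝ) :
    ∑ T ∈ (A ∪ B).powersetCard s, F T =
      ∑ m ∈ range (s + 1), ∑ U ∈ A.powersetCard m, ∑ V ∈ B.powersetCard (s - m), F (U ∪ V) := by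
  classical
  have e1 : ∀ m ∈ range (s + 1), ∑ U ∈ A.powersetCard m, ∑ V ∈ B.powersetCard (s - m), F (U ∪ V) =
      ∑ x ∈ A.powersetCard m ×ˢ B.powersetCard (s - m), F (x.1 ∪ x.2) := fun m _ => by
    rw [sum_product]
  rw [sum_congr rfl e1, sum_sigma']
  refine sum_bij' (fun T _ => (⟨(T ∩ A).card, (T ∩ A, T ∩ B)⟩ : (_ : ℕ) × (Finset ℕ × Finset ℕ)))
    (fun x _ => x.2.1 ∪ x.2.2) ?_ ?_ ?_ ?_ ?_
  · intro T hT
    rw [mem_powersetCard] at hT
    obtain ⟨h1, h2⟩ := hT
    have h3 : (T ∩ A) ∪ (T ∩ B) = T := by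
      rw [← inter_union_distrib_left]
      exact inter_eq_left.2 h1
    have h4 : Disjoint (T ∩ A) (T ∩ B) :=
      Disjoint.mono inter_subset_right inter_subset_right h
    have h5 : (T ∩ A).card + (T ∩ B).card = s := by
      rw [← card_union_of_disjoint h4, h3, h2]
    rw [mem_sigma, mem_range, mem_product, mem_powersetCard, mem_powersetCard]
    refine ⟨?_, ⟨inter_subset_right, rfl⟩, inter_subset_right, ?_⟩
    · show (T ∩ A).card < s + 1
      omega
    · show (T ∩ B).card = s - (T ∩ A).card
      omega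
  · rintro ⟨m, U, V⟩ hx
    rw [mem_sigma, mem_range, mem_product, mem_powersetCard, mem_powersetCard] at hx
    obtain ⟨h1, ⟨h2, h3⟩, h4, h5⟩ := hx
    simp only at h1 h2 h3 h4 h5
    rw [mem_powersetCard]
    refine ⟨union_subset_union h2 h4, ?_⟩
    show (U ∪ V).card = s
    rw [card_union_of_disjoint (Disjoint.mono h2 h4 h), h3, h5]
    omega
  · intro T hT
    rw [mem_powersetCard] at hT
    show (T ∩ A) ∪ (T ∩ B) = T
    rw [← inter_union_distrib_left]
    exact inter_eq_left.2 hT.1
  · rintro ⟨m, U, V⟩ hx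
    rw [mem_sigma, mem_range, mem_product, mem_powersetCard, mem_powersetCard] at hx
    obtain ⟨h1, ⟨h2, h3⟩, h4, h5⟩ := hx
    simp only at h1 h2 h3 h4 h5
    have e1 : (U ∪ V) ∩ A = U := by
      rw [union_inter_distrib_right, inter_eq_left.2 h2,
        disjoint_iff_inter_eq_empty.1 (Disjoint.mono_left h4 h.symm), union_empty]
    have e2 : (U ∪ V) ∩ B = V := by
      rw [union_inter_distrib_right, inter_eq_left.2 h4,
        disjoint_iff_inter_eq_empty.1 (Disjoint.mono_left h2 h), empty_union]
    simp only [e1, e2, h3]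
  · intro T hT
    rw [mem_powersetCard] at hT
    show F T = F ((T ∩ A) ∪ (T ∩ B))
    rw [← inter_union_distrib_left, inter_eq_left.2 hT.1]

/-! ### the tree -/

/-- the tree: `w` = weights of the cells, `f` = leaf values, `N` = number of cells, `s` = number of
primes, `h` = first cell, `M` = cells chosen before -/
noncomputable def nodeM (w : ℕ → ℝ) (f : Multiset ℕ → ℝ) : ℕ → ℕ → ℕ → Multiset ℕ → ℝ
  | 0, s, _, M => if s = 0 then f M else 0
  | N + 1, s, h, M => ∑ m ∈ range (s + 1), w h ^ m / (m.factorial : ℝ) *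
      nodeM w f N (s - m) (h + 1) (Multiset.replicate m h + M)

theorem nodeM_nonneg (w : ℕ → ℝ) (hw : ∀ c, 0 ≤ w c) (f : Multiset ℕ → ℝ) (hf : ∀ M, 0 ≤ f M) :
    ∀ (N s h : ℕ) (M : Multiset ℕ), 0 ≤ nodeM w f N s h M
  | 0, s, _, M => by
    unfold nodeM
    split_ifs
    · exact hf M
    · exact le_rfl
  | N + 1, s, h, M => by
    unfold nodeM
    refine sum_nonneg fun m _ => mul_nonneg ?_ (nodeM_nonneg w hw f hf N _ _ _)
    have := hw h
    positivity

theorem nodeM_sum (cl : ℕ → ℕ) (a : ℕ → ℝ) (ha : ∀ i, 0 ≤ a i) (w : ℕ → ℝ) (hw0 : ∀ c, 0 ≤ w c)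
    (f : Multiset ℕ → ℝ) (hf : ∀ M, 0 ≤ f M) : ∀ (N s h : ℕ) (M : Multiset ℕ) (P : Finset ℕ),
    (∀ c, h ≤ c → c < h + N → ∑ p ∈ P.filter (fun p => cl p = c), a p ≤ w c) →
    (∀ p ∈ P, h ≤ cl p ∧ cl p < h + N) →
    ∑ T ∈ P.powersetCard s, (∏ p ∈ T, a p) * f (T.val.map cl + M) ≤ nodeM w f N s h M := by
  classical
  intro N
  induction N with
  | zero =>
    intro s h M P _ hP
    have hP0 : P = ∅ := by
      rw [eq_empty_iff_forall_notMem]
      intro p hp
      have := hP p hp
      omega
    rw [hP0]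
    unfold nodeM
    rcases Nat.eq_zero_or_pos s with rfl | hs
    · simp
    · rw [powersetCard_eq_empty.2 (by simpa using hs), sum_empty]
      split_ifs
      · exact hf M
      · exact le_rfl
  | succ N ih =>
    intro s h M P hw hP
    set A := P.filter (fun p => cl p = h) with hA
    set B := P.filter (fun p => ¬ cl p = h) with hB
    have hAB : A ∪ B = P := filter_union_filter_not_eq _ _
    have hd : Disjoint A B := disjoint_filter_filter_not _ _ _
    rw [← hAB, pcard_split hd]
    unfold nodeM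
    refine sum_le_sum fun m _ => ?_
    have hBi : ∀ c, h + 1 ≤ c → c < h + 1 + N → ∑ p ∈ B.filter (fun p => cl p = c), a p ≤ w c := by
      intro c h1 h2
      refine le_trans ?_ (hw c (by omega) (by omega))
      refine sum_le_sum_of_subset_of_nonneg ?_ fun i _ _ => ha i
      exact filter_subset_filter _ (filter_subset _ _)
    have hBm : ∀ p ∈ B, h + 1 ≤ cl p ∧ cl p < h + 1 + N := by
      intro p hp
      rw [hB, mem_filter] at hp
      have := hP p hp.1
      omega
    have hin : ∀ U ∈ A.powersetCard m, ∑ V ∈ B.powersetCard (s - m),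
        (∏ p ∈ U ∪ V, a p) * f ((U ∪ V).val.map cl + M) ≤
        (∏ p ∈ U, a p) * nodeM w f N (s - m) (h + 1) (Multiset.replicate m h + M) := by
      intro U hU
      rw [mem_powersetCard] at hU
      have e : ∀ V ∈ B.powersetCard (s - m), (∏ p ∈ U ∪ V, a p) * f ((U ∪ V).val.map cl + M) =
          (∏ p ∈ U, a p) * ((∏ p ∈ V, a p) *
            f (V.val.map cl + (Multiset.replicate m h + M))) := by
        intro V hV
        rw [mem_powersetCard] at hV
        have hUV : Disjoint U V := Disjoint.mono hU.1 hV.1 hd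
        have h1 : (U ∪ V).val.map cl = U.val.map cl + V.val.map cl := by
          rw [← Finset.disjUnion_eq_union U V hUV, Finset.disjUnion_val, Multiset.map_add]
        have h2 : U.val.map cl = Multiset.replicate m h := by
          rw [Multiset.eq_replicate]
          refine ⟨?_, ?_⟩
          · rw [Multiset.card_map]
            exact hU.2
          · intro b hb
            rw [Multiset.mem_map] at hb
            obtain ⟨p, hp, rfl⟩ := hb
            have h3 : p ∈ A := hU.1 (by simpa using hp)
            rw [hA, mem_filter] at h3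
            exact h3.2
        rw [prod_union hUV, h1, h2, add_comm (Multiset.replicate m h) (V.val.map cl), add_assoc]
        ring
      rw [sum_congr rfl e, ← mul_sum]
      exact mul_le_mul_of_nonneg_left (ih (s - m) (h + 1) _ B hBi hBm)
        (prod_nonneg fun i _ => ha i)
    refine (sum_le_sum hin).trans ?_
    rw [← sum_mul]
    refine mul_le_mul_of_nonneg_right ?_ (nodeM_nonneg w hw0 f hf _ _ _ _)
    refine (esym_le a ha A m).trans ?_
    have h5 : ∑ i ∈ A, a i ≤ w h := hw h le_rfl (by omega)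
    have h6 : 0 ≤ ∑ i ∈ A, a i := sum_nonneg fun i _ => ha i
    gcongr

/-- the sum over squarefree numbers -/
theorem tree_k (G s h0 N : ℕ) (hG : 20 ≤ G) (h1 : G ≤ 20 * h0) (h2 : h0 + N ≤ G) (ε : ℝ)
    (hε : 0 < ε) : ∃ X0 : ℕ, ∀ X : ℕ, X0 ≤ X → ∀ f : Multiset ℕ → ℝ, (∀ M, 0 ≤ f M) →
    ∀ K : Finset ℕ, (∀ k ∈ K, k ∈ Icc 1 X ∧ Squarefree k ∧ k.primeFactors.card = s ∧
      ∀ p ∈ k.primeFactors, h0 ≤ cel (PG G) X p ∧ cel (PG G) X p < h0 + N) →
    ∑ k ∈ K, f (k.primeFactors.val.map (cel (PG G) X)) / k ≤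
      nodeM (fun c => muc c + ε) f N s h0 0 := by
  classical
  obtain ⟨X1, hX1⟩ := cell_sum (PG G) hG ε hε
  refine ⟨X1, fun X hX f hf K hK => ?_⟩
  set P := (Icc 1 X).filter (fun p : ℕ => p.Prime ∧ h0 ≤ cel (PG G) X p ∧
    cel (PG G) X p < h0 + N) with hP
  have hmu : ∀ c, 0 ≤ muc c + ε := by
    intro c
    have : 0 ≤ muc c := by unfold muc; positivity
    linarith
  have key := nodeM_sum (cel (PG G) X) (fun p => 1 / (p : ℝ)) (fun p => by positivity)
    (fun c => muc c + ε) hmu f hf N s h0 0 P (by
      intro c hc1 hc2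
      refine le_trans ?_ (hX1 X hX c (by show G ≤ _; omega) (by show c < G; omega))
      refine sum_le_sum_of_subset_of_nonneg ?_ fun i _ _ => by positivity
      intro p hp
      rw [mem_filter, hP, mem_filter] at hp
      rw [mem_filter]
      exact ⟨hp.1.1, hp.1.2.1, hp.2⟩) (by
      intro p hp
      rw [hP, mem_filter] at hp
      exact hp.2.2)
  refine le_trans ?_ key
  have hinj : Set.InjOn (fun k : ℕ => k.primeFactors) (K : Set ℕ) := by
    intro k hk k' hk' h
    have a1 := (hK k (by simpa using hk)).2.1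
    have a2 := (hK k' (by simpa using hk')).2.1
    have h' : k.primeFactors = k'.primeFactors := h
    rw [← Nat.prod_primeFactors_of_squarefree a1, ← Nat.prod_primeFactors_of_squarefree a2, h']
  have e : ∑ k ∈ K, f (k.primeFactors.val.map (cel (PG G) X)) / (k : ℝ) =
      ∑ T ∈ K.image (fun k : ℕ => k.primeFactors), (∏ p ∈ T, 1 / (p : ℝ)) *
        f (T.val.map (cel (PG G) X) + 0) := by
    rw [sum_image hinj]
    refine sum_congr rfl fun k hk => ?_
    have a1 := (hK k hk).2.1
    have a2 : (k : ℝ) = ∏ p ∈ k.primeFactors, (p : ℝ) := by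
      conv_lhs => rw [← Nat.prod_primeFactors_of_squarefree a1]
      push_cast
      rfl
    rw [add_zero, prod_div_distrib, prod_const_one, ← a2]
    ring
  rw [e]
  refine sum_le_sum_of_subset_of_nonneg ?_ fun T _ _ =>
    mul_nonneg (prod_nonneg fun i _ => by positivity) (hf _)
  intro T hT
  rw [mem_image] at hT
  obtain ⟨k, hk, rfl⟩ := hT
  obtain ⟨a1, a2, a3, a4⟩ := hK k hk
  rw [mem_powersetCard]
  refine ⟨?_, a3⟩
  intro p hp
  rw [hP, mem_filter]
  have hpp := Nat.prime_of_mem_primeFactors hp
  have hle : p ≤ k := Nat.le_of_mem_primeFactors hp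
  rw [mem_Icc] at a1 ⊢
  exact ⟨⟨hpp.pos, hle.trans a1.2⟩, hpp, a4 p hp⟩

/-! ### nested loops -/

/-- nested loops; the last chosen cell is `h`, the first value of each loop has half weight -/
noncomputable def lpA (w : ℕ → ℝ) (f : Multiset ℕ → ℝ) (H : ℕ) : ℕ → ℕ → Multiset ℕ → ℝ
  | 0, _, M => f M
  | s + 1, h, M => w h / 2 * lpA w f H s h ({h} + M) +
      ∑ c ∈ Ico (h + 1) H, w c * lpA w f H s c ({c} + M)

theorem nodeM_zero (w : ℕ → ℝ) (f : Multiset ℕ → ℝ) : ∀ (N h : ℕ) (M : Multiset ℕ),
    nodeM w f N 0 h M = f M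
  | 0, _, M => by
    unfold nodeM
    simp
  | N + 1, h, M => by
    unfold nodeM
    rw [zero_add, sum_range_one, nodeM_zero w f N]
    simp

private theorem fact_two (m : ℕ) : (2 : ℝ) ^ m ≤ ((m + 1).factorial : ℝ) := by
  induction m with
  | zero => simp
  | succ m ih =>
    rw [Nat.factorial_succ, pow_succ]
    push_cast at ih ⊢
    have : (0 : ℝ) ≤ m := Nat.cast_nonneg m
    nlinarith [pow_pos (show (0 : ℝ) < 2 by norm_num) m]

theorem node_lp (w : ℕ → ℝ) (hw : ∀ c, 0 ≤ w c) (f : Multiset ℕ → ℝ) (hf : ∀ M, 0 ≤ f M) (H : ℕ) :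
    ∀ s : ℕ, (∀ (N h : ℕ) (M : Multiset ℕ), h + N + 1 = H →
      ∑ m ∈ range (s + 1), (w h / 2) ^ m *
        nodeM w f N (s - m) (h + 1) (Multiset.replicate m h + M) ≤ lpA w f H s h M) ∧
    (∀ (N h : ℕ) (M : Multiset ℕ), h + N = H →
      nodeM w f N (s + 1) h M ≤ ∑ c ∈ Ico h H, w c * lpA w f H s c ({c} + M)) := by
  -- the second statement from the first
  have key : ∀ s : ℕ, (∀ (N h : ℕ) (M : Multiset ℕ), h + N + 1 = H →
      ∑ m ∈ range (s + 1), (w h / 2) ^ m *
        nodeM w f N (s - m) (h + 1) (Multiset.replicate m h + M) ≤ lpA w f H s h M) →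
    (∀ (N h : ℕ) (M : Multiset ℕ), h + N = H →
      nodeM w f N (s + 1) h M ≤ ∑ c ∈ Ico h H, w c * lpA w f H s c ({c} + M)) := by
    intro s h1 N
    induction N with
    | zero =>
      intro h M hh
      unfold nodeM
      have : Ico h H = ∅ := by
        rw [← hh, add_zero, Ico_self]
      rw [this, sum_empty]
      simp
    | succ N ih =>
      intro h M hh
      have hh' : h < H := by omega
      rw [sum_eq_sum_Ico_succ_bot hh']
      unfold nodeM
      rw [sum_range_succ']
      have a1 := ih (h + 1) M (by omega)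
      have a2 := h1 N h ({h} + M) (by omega)
      have a3 : ∑ m ∈ range (s + 1), w h ^ (m + 1) / ((m + 1).factorial : ℝ) *
          nodeM w f N (s + 1 - (m + 1)) (h + 1) (Multiset.replicate (m + 1) h + M) ≤
          w h * ∑ m ∈ range (s + 1), (w h / 2) ^ m *
            nodeM w f N (s - m) (h + 1) (Multiset.replicate m h + ({h} + M)) := by
        rw [mul_sum]
        refine sum_le_sum fun m _ => ?_
        have e1 : s + 1 - (m + 1) = s - m := by omega
        have e2 : Multiset.replicate (m + 1) h + M = Multiset.replicate m h + ({h} + M) := by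
          rw [Multiset.replicate_succ, ← Multiset.singleton_add, ← add_assoc,
            add_comm {h} (Multiset.replicate m h)]
        rw [e1, e2]
        have h3 := nodeM_nonneg w hw f hf N (s - m) (h + 1) (Multiset.replicate m h + ({h} + M))
        have h4 : w h ^ (m + 1) / ((m + 1).factorial : ℝ) ≤ w h * (w h / 2) ^ m := by
          have h5 := fact_two m
          have h6 : (0 : ℝ) < 2 ^ m := by positivity
          have h7 : 0 ≤ w h ^ (m + 1) := pow_nonneg (hw h) _
          calc w h ^ (m + 1) / ((m + 1).factorial : ℝ) ≤ w h ^ (m + 1) / 2 ^ m :=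
                div_le_div_of_nonneg_left h7 h6 h5
            _ = w h * (w h / 2) ^ m := by
                rw [div_pow, pow_succ]
                ring
        calc _ ≤ w h * (w h / 2) ^ m *
              nodeM w f N (s - m) (h + 1) (Multiset.replicate m h + ({h} + M)) :=
              mul_le_mul_of_nonneg_right h4 h3
          _ = _ := by ring
      have a4 : w h ^ 0 / ((0 : ℕ).factorial : ℝ) *
          nodeM w f N (s + 1 - 0) (h + 1) (Multiset.replicate 0 h + M) =
          nodeM w f N (s + 1) (h + 1) M := by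
        simp
      rw [a4]
      have a5 := mul_le_mul_of_nonneg_left a2 (hw h)
      linarith
  intro s
  induction s with
  | zero =>
    have h0 : ∀ (N h : ℕ) (M : Multiset ℕ), h + N + 1 = H →
        ∑ m ∈ range (0 + 1), (w h / 2) ^ m *
          nodeM w f N (0 - m) (h + 1) (Multiset.replicate m h + M) ≤ lpA w f H 0 h M := by
      intro N h M _
      rw [zero_add, sum_range_one, Nat.sub_zero, nodeM_zero]
      unfold lpA
      simp
    exact ⟨h0, key 0 h0⟩
  | succ s ih =>
    have h1 : ∀ (N h : ℕ) (M : Multiset ℕ), h + N + 1 = H →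
        ∑ m ∈ range (s + 1 + 1), (w h / 2) ^ m *
          nodeM w f N (s + 1 - m) (h + 1) (Multiset.replicate m h + M) ≤
          lpA w f H (s + 1) h M := by
      intro N h M hh
      rw [sum_range_succ']
      unfold lpA
      have a1 := ih.1 N h ({h} + M) hh
      have a2 := ih.2 N (h + 1) M (by omega)
      have a3 : ∑ m ∈ range (s + 1), (w h / 2) ^ (m + 1) *
          nodeM w f N (s + 1 - (m + 1)) (h + 1) (Multiset.replicate (m + 1) h + M) =
          w h / 2 * ∑ m ∈ range (s + 1), (w h / 2) ^ m *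
            nodeM w f N (s - m) (h + 1) (Multiset.replicate m h + ({h} + M)) := by
        rw [mul_sum]
        refine sum_congr rfl fun m _ => ?_
        have e1 : s + 1 - (m + 1) = s - m := by omega
        have e2 : Multiset.replicate (m + 1) h + M = Multiset.replicate m h + ({h} + M) := by
          rw [Multiset.replicate_succ, ← Multiset.singleton_add, ← add_assoc,
            add_comm {h} (Multiset.replicate m h)]
        rw [e1, e2]
        ring
      have a4 : (w h / 2) ^ 0 * nodeM w f N (s + 1 - 0) (h + 1) (Multiset.replicate 0 h + M) =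
          nodeM w f N (s + 1) (h + 1) M := by
        simp
      rw [a3, a4]
      have a5 : 0 ≤ w h / 2 := by
        have := hw h
        linarith
      have a6 := mul_le_mul_of_nonneg_left a1 a5
      linarith
    exact ⟨h1, key (s + 1) h1⟩

end Pool.MP_dd84fd_nt.MX
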