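import Pool.Agent.Lib.MP_dd84fd_nt.MX.TmA

/-!
# Theorem M, numerics: the value of a cell tree in integer arithmetic (helper98)

Scale `10^9`, rounded up. `leaf h t l`: `l` = list of cells, largest first, `h` its head, `t` its sum.
-/

set_option autoImplicit false

namespace Pool.MP_dd84fd_nt.MX

open Finset Pool.MP_67663b_nt.Odd Pool.MP_dd84fd_nt.En Pool.MP_dd84fd_nt.E2 Pool.MP_dd84fd_nt.HX
  Pool.MP_dd84fd_nt.IY

/-- upper bound for `10^9 (muc c + 10^(-9))` -/
def mu9 (c : ℕ) : ℕ := (10 ^ 9 * (2 * c + 1)) / (2 * c * (c + 1)) + 2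

/-- `g h + ... + g (h + n - 1)` -/
def sm (g : ℕ → ℕ) : ℕ → ℕ → ℕ
  | _, 0 => 0
  | h, n + 1 => g h + sm g (h + 1) n

/-- one loop -/
def stp (G H s : ℕ) (E : ℕ → ℕ → List ℕ → ℕ) (h t : ℕ) (l : List ℕ) : ℕ :=
  mu9 h * E h (t + h) (h :: l) / (2 * 10 ^ 9) + 1 +
    sm (fun c => mu9 c * E c (t + c) (c :: l) / 10 ^ 9 + 1) (h + 1)
      (min (H - 1) ((G - t) / (s + 2)) - h)

/-- nested loops -/
def evA (leaf : ℕ → ℕ → List ℕ → ℕ) (G H : ℕ) : ℕ → ℕ → ℕ → List ℕ → ℕ
  | 0 => leaf
  | s + 1 => stp G H s (evA leaf G H s)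

/-- the loop at the root -/
def rootV (E : ℕ → ℕ → List ℕ → ℕ) (h n : ℕ) : ℕ :=
  sm (fun c => mu9 c * E c c [c] / 10 ^ 9 + 1) h n

theorem sm_eq (g : ℕ → ℕ) : ∀ n h : ℕ, sm g h n = ∑ c ∈ Ico h (h + n), g c
  | 0, h => by simp [sm]
  | n + 1, h => by
    rw [sm, sm_eq g n (h + 1), sum_eq_sum_Ico_succ_bot (show h < h + (n + 1) by omega),
      show h + (n + 1) = h + 1 + n by omega]

theorem rootV_add (E : ℕ → ℕ → List ℕ → ℕ) (h n m : ℕ) :
    rootV E h (n + m) = rootV E h n + rootV E (h + n) m := by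
  unfold rootV
  rw [sm_eq, sm_eq, sm_eq, ← add_assoc, sum_Ico_consecutive _ (by omega) (by omega)]

theorem root_comb {E : ℕ → ℕ → List ℕ → ℕ} {h n m u v : ℕ} (h1 : rootV E h n ≤ u)
    (h2 : rootV E (h + n) m ≤ v) : rootV E h (n + m) ≤ u + v := by
  rw [rootV_add]
  exact Nat.add_le_add h1 h2

private theorem div_up (a b : ℕ) : (a : ℝ) / b ≤ ((a / b : ℕ) : ℝ) + 1 := by
  rw [← Nat.floor_div_eq_div (K := ℝ)]
  exact (Nat.lt_floor_add_one _).le

private theorem mu9_le (c : ℕ) : (muc c + 1 / 10 ^ 9) * 10 ^ 9 ≤ mu9 c := by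
  have h := div_up (10 ^ 9 * (2 * c + 1)) (2 * c * (c + 1))
  unfold muc mu9
  push_cast at h ⊢
  have e : (2 * (c : ℝ) + 1) / (2 * c * (c + 1)) * 10 ^ 9 =
      10 ^ 9 * (2 * (c : ℝ) + 1) / (2 * c * (c + 1)) := by ring
  rw [add_mul, e]
  linarith

/-- the conditions on a list of cells -/
def OkL (h0 H : ℕ) (l : List ℕ) : Prop := l.Pairwise (fun a b => b ≤ a) ∧ ∀ c ∈ l, h0 ≤ c ∧ c < H

private theorem okL_cons {h0 H : ℕ} {l : List ℕ} (hl : OkL h0 H l) (hne : l ≠ []) {c : ℕ}
    (hc : l.headD 0 ≤ c) (hH : c < H) : OkL h0 H (c :: l) := by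
  obtain ⟨a, l', rfl⟩ : ∃ a l', l = a :: l' := by
    cases l with
    | nil => exact absurd rfl hne
    | cons a l' => exact ⟨a, l', rfl⟩
  obtain ⟨h1, h2⟩ := hl
  have hac : a ≤ c := hc
  refine ⟨List.pairwise_cons.2 ⟨?_, h1⟩, ?_⟩
  · intro b hb
    rw [List.pairwise_cons] at h1
    rcases List.mem_cons.1 hb with rfl | hb
    · exact hac
    · exact (h1.1 b hb).trans hac
  · intro b hb
    rcases List.mem_cons.1 hb with rfl | hb
    · exact ⟨(h2 a List.mem_cons_self).1.trans hac, hH⟩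
    · exact h2 b hb

private theorem coe_cons' (c : ℕ) (l : List ℕ) : ({c} : Multiset ℕ) + (l : Multiset ℕ) =
    ((c :: l : List ℕ) : Multiset ℕ) := by
  rw [Multiset.singleton_add, Multiset.cons_coe]

section
variable {G h0 H S : ℕ} {w : ℕ → ℝ} {f : Multiset ℕ → ℝ} {leaf : ℕ → ℕ → List ℕ → ℕ}

theorem lp_zero (hf2 : ∀ l : List ℕ, l.length = S → OkL h0 H l → G < l.sum + l.headD 0 →
    f (l : Multiset ℕ) = 0) : ∀ (s h : ℕ) (l : List ℕ), l ≠ [] → l.headD 0 = h → OkL h0 H l →
    l.length + s = S → G < l.sum + (s + 1) * h → lpA w f H s h (l : Multiset ℕ) = 0 := by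
  intro s
  induction s with
  | zero =>
    intro h l hne hh hl hS hG
    unfold lpA
    refine hf2 l (by omega) hl ?_
    rw [hh]
    omega
  | succ s ih =>
    intro h l hne hh hl hS hG
    have hHh : h < H := by
      cases l with
      | nil => exact absurd rfl hne
      | cons a l' =>
        rw [← hh]
        exact (hl.2 a List.mem_cons_self).2
    unfold lpA
    have e1 : lpA w f H s h ({h} + (l : Multiset ℕ)) = 0 := by
      rw [coe_cons']
      refine ih h (h :: l) (by simp) rfl (okL_cons hl hne hh.le hHh) ?_ ?_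
      · rw [List.length_cons]
        omega
      · rw [List.sum_cons]
        have : (s + 1 + 1) * h = (s + 1) * h + h := by ring
        omega
    rw [e1, mul_zero, zero_add]
    refine sum_eq_zero fun c hc => ?_
    rw [mem_Ico] at hc
    have e2 : lpA w f H s c ({c} + (l : Multiset ℕ)) = 0 := by
      rw [coe_cons']
      refine ih c (c :: l) (by simp) rfl (okL_cons hl hne (by omega) hc.2) ?_ ?_
      · rw [List.length_cons]
        omega
      · rw [List.sum_cons]
        have h3 : (s + 1 + 1) * h = (s + 1) * h + h := by ring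
        have h4 : (s + 1) * h ≤ (s + 1) * c := Nat.mul_le_mul_left _ (by omega)
        omega
    rw [e2, mul_zero]

theorem lpA_nonneg (hw : ∀ c, 0 ≤ w c) (hf : ∀ M, 0 ≤ f M) : ∀ (s h : ℕ) (M : Multiset ℕ),
    0 ≤ lpA w f H s h M
  | 0, _, M => hf M
  | s + 1, h, M => by
    unfold lpA
    refine add_nonneg (mul_nonneg ?_ (lpA_nonneg hw hf s _ _))
      (sum_nonneg fun c _ => mul_nonneg (hw c) (lpA_nonneg hw hf s _ _))
    have := hw h
    linarith

theorem lp_ev (hw : ∀ c, w c = muc c + 1 / 10 ^ 9) (hf : ∀ M, 0 ≤ f M)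
    (hf1 : ∀ l : List ℕ, l.length = S → OkL h0 H l →
      f (l : Multiset ℕ) * 10 ^ 9 ≤ leaf (l.headD 0) l.sum l)
    (hf2 : ∀ l : List ℕ, l.length = S → OkL h0 H l → G < l.sum + l.headD 0 →
      f (l : Multiset ℕ) = 0) : ∀ (s h : ℕ) (l : List ℕ), l ≠ [] → l.headD 0 = h → OkL h0 H l →
    l.length + s = S →
      lpA w f H s h (l : Multiset ℕ) * 10 ^ 9 ≤ evA leaf G H s h l.sum l := by
  have hw0 : ∀ c, 0 ≤ w c := by
    intro c
    rw [hw]
    unfold muc
    positivity
  intro s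
  induction s with
  | zero =>
    intro h l hne hh hl hS
    unfold lpA evA
    rw [← hh]
    exact hf1 l (by omega) hl
  | succ s ih =>
    intro h l hne hh hl hS
    have hHh : h < H := by
      cases l with
      | nil => exact absurd rfl hne
      | cons a l' =>
        rw [← hh]
        exact (hl.2 a List.mem_cons_self).2
    unfold lpA evA stp
    rw [add_mul, Nat.cast_add, sm_eq, Nat.cast_sum]
    have term : ∀ c : ℕ, h ≤ c → c < H → (w c * lpA w f H s c ({c} + (l : Multiset ℕ))) * 10 ^ 9 ≤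
        ((mu9 c * evA leaf G H s c (l.sum + c) (c :: l) : ℕ) : ℝ) / 10 ^ 9 := by
      intro c h1 h2
      have h3 := ih c (c :: l) (by simp) rfl (okL_cons hl hne (by omega) h2) (by
        rw [List.length_cons]
        omega)
      rw [List.sum_cons, add_comm c l.sum] at h3
      rw [coe_cons']
      have h4 := mu9_le c
      rw [← hw c] at h4
      rw [le_div_iff₀ (by positivity)]
      push_cast
      have h5 : w c * lpA w f H s c ((c :: l : List ℕ) : Multiset ℕ) * 10 ^ 9 * 10 ^ 9 =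
          (w c * 10 ^ 9) * (lpA w f H s c ((c :: l : List ℕ) : Multiset ℕ) * 10 ^ 9) := by ring
      rw [h5]
      exact mul_le_mul h4 h3 (mul_nonneg (lpA_nonneg hw0 hf _ _ _) (by positivity))
        (Nat.cast_nonneg _)
    refine add_le_add ?_ ?_
    · have h1 := term h le_rfl hHh
      have h2 := div_up (mu9 h * evA leaf G H s h (l.sum + h) (h :: l)) (2 * 10 ^ 9)
      push_cast at h1 h2 ⊢
      refine le_trans ?_ h2
      have e : w h / 2 * lpA w f H s h ({h} + (l : Multiset ℕ)) * 1000000000 =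
          (w h * lpA w f H s h ({h} + (l : Multiset ℕ)) * 1000000000) / 2 := by ring
      have e2 : ((mu9 h : ℝ) * (evA leaf G H s h (l.sum + h) (h :: l) : ℕ)) / (2 * 1000000000) =
          ((mu9 h : ℝ) * (evA leaf G H s h (l.sum + h) (h :: l) : ℕ) / 1000000000) / 2 := by ring
      have h1' : w h * lpA w f H s h ({h} + (l : Multiset ℕ)) * 1000000000 ≤
          (mu9 h : ℝ) * (evA leaf G H s h (l.sum + h) (h :: l) : ℕ) / 1000000000 := by
        have : (10 : ℝ) ^ 9 = 1000000000 := by norm_num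
        rw [this] at h1
        exact h1
      have : (10 : ℝ) ^ 9 = 1000000000 := by norm_num
      rw [this]
      linarith
    · rw [sum_mul]
      set n := min (H - 1) ((G - l.sum) / (s + 2)) - h with hn
      have hsub : ∑ c ∈ Ico (h + 1) H, w c * lpA w f H s c ({c} + (l : Multiset ℕ)) * 10 ^ 9 ≤
          ∑ c ∈ Ico (h + 1) (h + 1 + n), w c * lpA w f H s c ({c} + (l : Multiset ℕ)) * 10 ^ 9 := by
        rw [← sum_filter_of_ne (s := Ico (h + 1) H) (p := fun c => c < h + 1 + n)]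
        · refine sum_le_sum_of_subset_of_nonneg ?_ fun c _ _ => ?_
          · intro c hc
            rw [mem_filter, mem_Ico] at hc
            rw [mem_Ico]
            omega
          · exact mul_nonneg (mul_nonneg (hw0 c) (lpA_nonneg hw0 hf _ _ _)) (by positivity)
        · intro c hc hne'
          by_contra hcon
          apply hne'
          rw [mem_Ico] at hc
          have h1 : (G - l.sum) / (s + 2) < c := by omega
          have h2 : G - l.sum < c * (s + 2) := (Nat.div_lt_iff_lt_mul (by omega)).1 h1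
          have h3 : lpA w f H s c ({c} + (l : Multiset ℕ)) = 0 := by
            rw [coe_cons']
            refine lp_zero hf2 s c (c :: l) (by simp) rfl
              (okL_cons hl hne (by omega) hc.2) (by rw [List.length_cons]; omega) ?_
            rw [List.sum_cons]
            have : c * (s + 2) = c + (s + 1) * c := by ring
            omega
          rw [h3, mul_zero, zero_mul]
      refine hsub.trans (sum_le_sum fun c hc => ?_)
      rw [mem_Ico] at hc
      have hcH : c < H := by omega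
      refine (term c (by omega) hcH).trans ?_
      have h2 := div_up (mu9 c * evA leaf G H s c (l.sum + c) (c :: l)) (10 ^ 9)
      have e9 : (10 : ℝ) ^ 9 = 1000000000 := by norm_num
      rw [e9]
      push_cast at h2 ⊢
      exact h2

end

private theorem sort_desc (l : List ℕ) (hl : l.Pairwise (fun a b => b ≤ a)) :
    (l : Multiset ℕ).sort (fun a b => b ≤ a) = l := by
  refine List.Perm.eq_of_pairwise' (r := fun a b => b ≤ a) ?_ hl ?_
  · exact Multiset.pairwise_sort _ _
  · rw [← Multiset.coe_eq_coe, Multiset.sort_eq]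

/-- the sum over squarefree numbers, from the value of the loops -/
theorem tree_val (G h0 H S v : ℕ) (hG : 20 ≤ G) (h1 : G ≤ 20 * h0) (h2 : h0 ≤ H) (h3 : H ≤ G)
    (leaf : ℕ → ℕ → List ℕ → ℕ)
    (hz : ∀ l : List ℕ, G < l.sum + l.headD 0 → leaf (l.headD 0) l.sum l = 0)
    (hv : rootV (evA leaf G H S) h0 (min H (G / (S + 2) + 1) - h0) ≤ v) :
    ∃ X0 : ℕ, ∀ X : ℕ, X0 ≤ X → ∀ K : Finset ℕ, (∀ k ∈ K, k ∈ Icc 1 X ∧ Squarefree k ∧
      k.primeFactors.card = S + 1 ∧
      ∀ p ∈ k.primeFactors, h0 ≤ cel (PG G) X p ∧ cel (PG G) X p < H) →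
    ∀ φ : ℕ → ℝ, (∀ k ∈ K, φ k ≤ (leaf ((cL (PG G) X k).reverse.headD 0)
      (cL (PG G) X k).reverse.sum (cL (PG G) X k).reverse : ℕ) / 10 ^ 9) →
    ∑ k ∈ K, φ k / k ≤ v / 10 ^ 9 := by
  classical
  obtain ⟨X1, hX1⟩ := tree_k G (S + 1) h0 (H - h0) hG h1 (by omega) (1 / 10 ^ 9) (by norm_num)
  refine ⟨max X1 2, fun X hX K hK φ hφ => ?_⟩
  have hX2 : 2 ≤ X := (le_max_right _ _).trans hX
  set lf : List ℕ → ℕ := fun l => leaf (l.headD 0) l.sum l with hlf
  set f : Multiset ℕ → ℝ := fun M => (lf (M.sort (fun a b => b ≤ a)) : ℝ) / 10 ^ 9 with hf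
  have hf0 : ∀ M, 0 ≤ f M := fun M => by
    rw [hf]
    positivity
  have hK' : ∀ k ∈ K, k ∈ Icc 1 X ∧ Squarefree k ∧ k.primeFactors.card = S + 1 ∧
      ∀ p ∈ k.primeFactors, h0 ≤ cel (PG G) X p ∧ cel (PG G) X p < h0 + (H - h0) := by
    intro k hk
    obtain ⟨a1, a2, a3, a4⟩ := hK k hk
    exact ⟨a1, a2, a3, fun p hp => ⟨(a4 p hp).1, by have := (a4 p hp).2; omega⟩⟩
  have key := hX1 X ((le_max_left _ _).trans hX) f hf0 K hK'
  -- the terms
  have hterm : ∀ k ∈ K, φ k / (k : ℝ) ≤ f (k.primeFactors.val.map (cel (PG G) X)) / k := by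
    intro k hk
    have hsq := (hK k hk).2.1
    have h0k : k ≠ 0 := hsq.ne_zero
    refine div_le_div_of_nonneg_right ?_ (Nat.cast_nonneg _)
    refine (hφ k hk).trans (le_of_eq ?_)
    have e : (k.primeFactors.val.map (cel (PG G) X)).sort (fun a b => b ≤ a) =
        (cL (PG G) X k).reverse := by
      have e1 : k.primeFactors.val.map (cel (PG G) X) =
          (((cL (PG G) X k).reverse : List ℕ) : Multiset ℕ) := by
        have hnd : k.primeFactorsList.Nodup := (Nat.squarefree_iff_nodup_primeFactorsList h0k).1 hsq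
        have e2 : k.primeFactors.val = (k.primeFactorsList : Multiset ℕ) := by
          rw [Nat.primeFactors, List.toFinset_val, hnd.dedup]
        rw [e2]
        unfold cL
        rw [Multiset.map_coe, Multiset.coe_eq_coe]
        exact (List.reverse_perm _).symm
      rw [e1]
      apply sort_desc
      rw [List.pairwise_reverse]
      unfold cL
      rw [List.pairwise_map]
      refine List.Pairwise.imp_of_mem ?_ (Nat.primeFactorsList_sorted k).pairwise
      intro p q hp hq hpq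
      have hL : 0 < Real.log X := Real.log_pos (by exact_mod_cast hX2)
      have hp1 : (0 : ℝ) < p := by exact_mod_cast (Nat.prime_of_mem_primeFactorsList hp).pos
      have h5 : Real.log p ≤ Real.log q := Real.log_le_log hp1 (by exact_mod_cast hpq)
      unfold cel
      apply Nat.floor_le_floor
      gcongr
    show _ = (lf ((k.primeFactors.val.map (cel (PG G) X)).sort (fun a b => b ≤ a)) : ℝ) / 10 ^ 9
    rw [e]
  refine (sum_le_sum hterm).trans (key.trans ?_)
  have hw0 : ∀ c, 0 ≤ muc c + (1 : ℝ) / 10 ^ 9 := by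
    intro c
    unfold muc
    positivity
  have hN := (node_lp (fun c => muc c + (1 : ℝ) / 10 ^ 9) hw0 f hf0 H S).2 (H - h0) h0 0 (by omega)
  refine hN.trans ?_
  have hf1 : ∀ l : List ℕ, l.length = S + 1 → OkL h0 H l →
      f (l : Multiset ℕ) * 10 ^ 9 ≤ leaf (l.headD 0) l.sum l := by
    intro l _ hl
    show (lf ((l : Multiset ℕ).sort (fun a b => b ≤ a)) : ℝ) / 10 ^ 9 * 10 ^ 9 ≤ _
    rw [sort_desc l hl.1, div_mul_cancel₀ _ (by positivity)]
  have hf2 : ∀ l : List ℕ, l.length = S + 1 → OkL h0 H l → G < l.sum + l.headD 0 →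
      f (l : Multiset ℕ) = 0 := by
    intro l _ hl hlt
    show (lf ((l : Multiset ℕ).sort (fun a b => b ≤ a)) : ℝ) / 10 ^ 9 = 0
    rw [sort_desc l hl.1]
    have : lf l = 0 := hz l hlt
    rw [this, Nat.cast_zero, zero_div]
  have hone : ∀ c, h0 ≤ c → c < H → OkL h0 H [c] := by
    intro c h1 h2
    refine ⟨List.pairwise_singleton _ _, ?_⟩
    intro b hb
    rw [List.mem_singleton] at hb
    rw [hb]
    exact ⟨h1, h2⟩
  have hzero : ∀ c, h0 ≤ c → c < H → G < (S + 2) * c →
      lpA (fun c => muc c + (1 : ℝ) / 10 ^ 9) f H S c ({c} + 0) = 0 := by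
    intro c h1 h2 h3
    have e : ({c} : Multiset ℕ) + 0 = (([c] : List ℕ) : Multiset ℕ) := by
      rw [add_zero, Multiset.coe_singleton]
    rw [e]
    refine lp_zero hf2 S c [c] (by simp) rfl (hone c h1 h2) (by simp [add_comm]) ?_
    rw [List.sum_singleton]
    have : (S + 2) * c = c + (S + 1) * c := by ring
    omega
  set n := min H (G / (S + 2) + 1) - h0 with hn
  have hsub : ∑ c ∈ Ico h0 H, (muc c + (1 : ℝ) / 10 ^ 9) *
      lpA (fun c => muc c + (1 : ℝ) / 10 ^ 9) f H S c ({c} + 0) ≤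
      ∑ c ∈ Ico h0 (h0 + n), (muc c + (1 : ℝ) / 10 ^ 9) *
        lpA (fun c => muc c + (1 : ℝ) / 10 ^ 9) f H S c ({c} + 0) := by
    rw [← sum_filter_of_ne (s := Ico h0 H) (p := fun c => c < h0 + n)]
    · refine sum_le_sum_of_subset_of_nonneg ?_ fun c _ _ => ?_
      · intro c hc
        rw [mem_filter, mem_Ico] at hc
        rw [mem_Ico]
        omega
      · exact mul_nonneg (hw0 c) (lpA_nonneg hw0 hf0 _ _ _)
    · intro c hc hne'
      by_contra hcon
      apply hne'
      rw [mem_Ico] at hc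
      have h4 : G / (S + 2) < c := by omega
      have h5 : G < c * (S + 2) := (Nat.div_lt_iff_lt_mul (by omega)).1 h4
      rw [hzero c hc.1 hc.2 (by rw [mul_comm]; exact h5), mul_zero]
  refine hsub.trans ?_
  rw [le_div_iff₀ (by positivity)]
  have hv' : ((rootV (evA leaf G H S) h0 n : ℕ) : ℝ) ≤ v := by exact_mod_cast hv
  refine le_trans ?_ hv'
  unfold rootV
  rw [sm_eq, Nat.cast_sum, sum_mul]
  refine sum_le_sum fun c hc => ?_
  rw [mem_Ico] at hc
  have hcH : c < H := by omega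
  have h4 := lp_ev (G := G) (leaf := leaf) (w := fun c => muc c + (1 : ℝ) / 10 ^ 9) (S := S + 1)
    (fun c => rfl) hf0 hf1 hf2 S c [c] (by simp) rfl (hone c hc.1 hcH) (by simp [add_comm])
  have e : ({c} : Multiset ℕ) + 0 = (([c] : List ℕ) : Multiset ℕ) := by
    rw [add_zero, Multiset.coe_singleton]
  rw [e]
  rw [List.sum_singleton] at h4
  have h5 := div_up (mu9 c * evA leaf G H S c c [c]) (10 ^ 9)
  have h6 := mu9_le c
  have h8 : 0 ≤ lpA (fun c => muc c + (1 : ℝ) / 10 ^ 9) f H S c (([c] : List ℕ) : Multiset ℕ) :=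
    lpA_nonneg hw0 hf0 _ _ _
  obtain ⟨q, hq⟩ : ∃ q, q = lpA (fun c => muc c + (1 : ℝ) / 10 ^ 9) f H S c
    (([c] : List ℕ) : Multiset ℕ) := ⟨_, rfl⟩
  rw [← hq] at h4 h8 ⊢
  rw [Nat.cast_add, Nat.cast_one]
  refine le_trans ?_ h5
  rw [Nat.cast_mul, Nat.cast_pow, Nat.cast_ofNat, le_div_iff₀ (by positivity)]
  have h7 : (muc c + (1 : ℝ) / 10 ^ 9) * q * 10 ^ 9 * 10 ^ 9 =
      ((muc c + (1 : ℝ) / 10 ^ 9) * 10 ^ 9) * (q * 10 ^ 9) := by
    ring
  rw [h7]
  exact mul_le_mul h6 h4 (mul_nonneg h8 (by positivity)) (Nat.cast_nonneg _)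

end Pool.MP_dd84fd_nt.MX
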