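import Pool.Agent.Lib.MP_dd84fd_nt.MX.TmL
import Pool.Agent.Lib.MP_dd84fd_nt.MX.NDefs
import Pool.Agent.Lib.MP_dd84fd_nt.IY.NLg

/-!
# Theorem M, numerics: `P4M`, `P5M`, `P6M` from the values of the cell trees (helper98)
-/

set_option autoImplicit false

namespace Pool.MP_dd84fd_nt.MX

open Finset Pool.MP_67663b_nt.Odd Pool.MP_dd84fd_nt.En Pool.MP_dd84fd_nt.E2 Pool.MP_dd84fd_nt.HX
  Pool.MP_dd84fd_nt.IY Pool.MP_dd84fd_nt.KX Pool.MP_dd84fd_nt.LX

/-! ### common lemmas -/

/-- prime factors of a product of primes -/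
theorem pfl_of {l : List ℕ} (hs : l.Pairwise (fun a b => a ≤ b)) (hp : ∀ p ∈ l, p.Prime) :
    l.prod.primeFactorsList = l := by
  refine List.Perm.eq_of_pairwise' (r := fun a b => a ≤ b) ?_ hs ?_
  · exact (Nat.primeFactorsList_sorted _).pairwise
  · exact (Nat.primeFactorsList_unique rfl hp).symm

theorem sqf_of {l : List ℕ} (hs : l.Pairwise (fun a b => a < b)) (hp : ∀ p ∈ l, p.Prime) :
    Squarefree l.prod := by
  have h0 : l.prod ≠ 0 := by
    intro h
    rw [List.prod_eq_zero_iff] at h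
    exact (hp 0 h).ne_zero rfl
  rw [Nat.squarefree_iff_nodup_primeFactorsList h0, pfl_of (hs.imp fun h => h.le) hp]
  exact hs.imp fun h => h.ne

theorem card_of {l : List ℕ} (hs : l.Pairwise (fun a b => a < b)) (hp : ∀ p ∈ l, p.Prime) :
    l.prod.primeFactors.card = l.length ∧ (∀ p, p ∈ l.prod.primeFactors ↔ p ∈ l) := by
  have h1 := pfl_of (hs.imp fun h => h.le) hp
  constructor
  · rw [Nat.primeFactors, h1]
    exact List.toFinset_card_of_nodup (hs.imp fun h => h.ne)
  · intro p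
    rw [Nat.primeFactors, h1, List.mem_toFinset]

theorem logn_near (η : ℝ) (hη : 0 < η) : ∃ X0 : ℕ, ∀ X : ℕ, X0 ≤ X → 1 ≤ Real.log X ∧
    ∀ n : ℕ, X5 X < n → n ≤ X → (1 - η) * Real.log X ≤ Real.log n ∧ Real.log n ≤ Real.log X := by
  obtain ⟨X1, hX1⟩ := MP_log_large ((10 / η) ^ 2 + 1)
  refine ⟨max X1 1, fun X hX => ?_⟩
  have hL := hX1 X ((le_max_left _ _).trans hX)
  have hX0 : 1 ≤ X := (le_max_right _ _).trans hX
  set L := Real.log (X : ℝ) with hLd
  have hL1 : 1 ≤ L := by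
    have : 0 ≤ (10 / η) ^ 2 := by positivity
    linarith
  have hL0 : 0 < L := by linarith
  refine ⟨hL1, fun n hn hnX => ?_⟩
  have hXR : (0 : ℝ) < X := by exact_mod_cast hX0
  have hL5 : 0 < L ^ 5 := by positivity
  have hX5 : 0 < X5 X := by
    unfold X5
    rw [← hLd]
    positivity
  have hn0 : (0 : ℝ) < n := hX5.trans hn
  have hlogn1 : L - 5 * Real.log L ≤ Real.log n := by
    have h1 := Real.log_le_log hX5 hn.le
    unfold X5 at h1
    rw [← hLd, Real.log_div hXR.ne' hL5.ne', Real.log_pow, ← hLd] at h1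
    push_cast at h1
    exact h1
  refine ⟨?_, Real.log_le_log hn0 (by exact_mod_cast hnX)⟩
  have h5 : Real.log L ≤ 2 * Real.sqrt L := by
    have h6 : Real.log L = 2 * Real.log (Real.sqrt L) := by
      rw [Real.log_sqrt hL0.le]
      ring
    have h7 : Real.log (Real.sqrt L) ≤ Real.sqrt L - 1 :=
      Real.log_le_sub_one_of_pos (Real.sqrt_pos.2 hL0)
    rw [h6]
    linarith
  have h8 : 10 / η ≤ Real.sqrt L := by
    rw [Real.le_sqrt (by positivity) hL0.le]
    linarith
  have h10 : 0 ≤ Real.sqrt L := Real.sqrt_nonneg _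
  have h9 : Real.sqrt L * Real.sqrt L = L := Real.mul_self_sqrt hL0.le
  have h11 : 10 ≤ η * Real.sqrt L := by
    rw [div_le_iff₀ hη] at h8
    linarith
  have h12 : 10 * Real.sqrt L ≤ η * L := by
    calc 10 * Real.sqrt L ≤ (η * Real.sqrt L) * Real.sqrt L :=
          mul_le_mul_of_nonneg_right h11 h10
      _ = η * (Real.sqrt L * Real.sqrt L) := by ring
      _ = η * L := by rw [h9]
  nlinarith

/-- exponents and cells -/
theorem cel_exp {G X p : ℕ} (hL : 0 < Real.log X) :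
    (cel (PG G) X p : ℝ) ≤ G * (Real.log p / Real.log X) ∧
      (G : ℝ) * (Real.log p / Real.log X) < (cel (PG G) X p : ℝ) + 1 := by
  have h0 : 0 ≤ Real.log (p : ℝ) := Real.log_natCast_nonneg p
  have h1 : 0 ≤ (G : ℝ) * (Real.log p / Real.log X) := by positivity
  exact ⟨Nat.floor_le h1, Nat.lt_floor_add_one _⟩

private theorem div_up (a b : ℕ) : (a : ℝ) / b ≤ ((a / b : ℕ) : ℝ) + 1 := by
  rw [← Nat.floor_div_eq_div (K := ℝ)]
  exact (Nat.lt_floor_add_one _).le

/-- the quotient `log n / log (n / k)`: `ν = log n / log X`, `y = log (n / k) / log X`,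
`m = max (head) (G - t - s)` -/
theorem quot_bd {G m : ℕ} {ν y η : ℝ} (hη : 0 < η) (hy : 1 / 7 ≤ y) (hm : 0 < m)
    (h : ν * m ≤ G * y + G * η) : ν / y ≤ (1 + 7 * η) * (G / m) := by
  have hy0 : 0 < y := by linarith
  have hm0 : (0 : ℝ) < m := by exact_mod_cast hm
  rw [div_le_iff₀ hy0]
  have e : (1 + 7 * η) * (G / m : ℝ) * y = (G * y + G * (7 * y) * η) / m := by
    field_simp
  rw [e, le_div_iff₀ hm0]
  have h1 : (G : ℝ) * η ≤ G * (7 * y) * η := by
    have hG : (0 : ℝ) ≤ G := Nat.cast_nonneg G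
    have : (G : ℝ) * 1 ≤ G * (7 * y) := mul_le_mul_of_nonneg_left (by linarith) hG
    nlinarith
  linarith

/-! ### four boxes -/

private theorem ga4_le {G A b c : ℕ} (hG : 0 < G) (hA : 7 * A = 3 * G) {β γ ν x : ℝ}
    (hb : (b : ℝ) ≤ G * β) (hb' : (G : ℝ) * β < b + 1) (hc : (c : ℝ) ≤ G * γ)
    (hc' : (G : ℝ) * γ < c + 1) (hβ : 1 / 7 ≤ β) (hγ : 1 / 7 ≤ γ) (hν : ν ≤ 1)
    (hν' : (G : ℝ) * (1 - ν) < 1) (hx : x = ν - β - γ) :
    1 - h4 x ≤ (ga4 G A (b + c) : ℝ) / 10 ^ 6 := by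
  have hG0 : (0 : ℝ) < G := by exact_mod_cast hG
  have hAR : 7 * (A : ℝ) = 3 * G := by exact_mod_cast hA
  unfold ga4
  split_ifs with h
  · have h1 : b + c + 3 ≤ A := by omega
    have h1' : (b : ℝ) + c + 3 ≤ A := by exact_mod_cast h1
    have h2 := div_up (3500000 * (A - (b + c))) G
    rw [Nat.cast_mul, Nat.cast_sub (by omega)] at h2
    have hx4 : 4 / 7 < x := by
      have h3 : (G : ℝ) * (4 / 7) < G * x := by
        rw [hx]
        have : (G : ℝ) * (ν - β - γ) = G - G * (1 - ν) - G * β - G * γ := by ring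
        rw [this]
        linarith
      exact lt_of_mul_lt_mul_left h3 hG0.le
    unfold h4
    rw [if_pos hx4]
    push_cast at h2 ⊢
    rw [le_div_iff₀ (by positivity)]
    have h5 : (1 - (3 - 7 / 2 * x)) * 10 ^ 6 ≤ 3500000 * ((A : ℝ) - (b + c)) / G := by
      rw [le_div_iff₀ hG0, hx]
      have e : (1 - (3 - 7 / 2 * (ν - β - γ))) * 10 ^ 6 * (G : ℝ) =
          500000 * (7 * (G * ν) - 7 * (G * β) - 7 * (G * γ) - 4 * G) := by ring
      rw [e]
      have : (G : ℝ) * ν ≤ G := by nlinarith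
      linarith
    linarith
  · have h1 : 0 ≤ h4 x := by
      unfold h4
      split_ifs
      · rw [hx]
        linarith
      · exact le_rfl
    push_cast
    norm_num
    exact h1

private theorem leaf4_bd {G A B : ℕ} (hG : 0 < G) (hA : 7 * A = 3 * G) (hB : 7 * B = 4 * G)
    {a b c : ℕ} {α β γ δ ν η : ℝ} (ha : (a : ℝ) ≤ G * α) (ha' : (G : ℝ) * α < a + 1)
    (hb : (b : ℝ) ≤ G * β) (hb' : (G : ℝ) * β < b + 1) (hc : (c : ℝ) ≤ G * γ)
    (hc' : (G : ℝ) * γ < c + 1) (hα : 1 / 7 ≤ α) (hβ : 1 / 7 ≤ β) (hγ : 1 / 7 ≤ γ) (hγδ : γ ≤ δ)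
    (hν : ν ≤ 1) (hη : 0 < η) (hν0 : 0 ≤ ν) (hν' : 1 - η ≤ ν) (hGη : (G : ℝ) * η < 1)
    (hδ : δ = ν - (α + β + γ)) (hδ3 : δ ≤ 3 / 7) (hc1 : 1 ≤ c) :
    f4 α β γ δ * (ν / δ) ≤ (1 + 7 * η) * ((leaf4 G A B c (a + b + c) [c, b, a] : ℕ) / 10 ^ 9) := by
  have hG0 : (0 : ℝ) < G := by exact_mod_cast hG
  have hAR : 7 * (A : ℝ) = 3 * G := by exact_mod_cast hA
  have hBR : 7 * (B : ℝ) = 4 * G := by exact_mod_cast hB
  have hGν : (G : ℝ) * (1 - ν) < 1 := by nlinarith
  have hδ0 : 0 < δ := by linarith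
  -- the conditions
  have hcond1 : ¬ G < a + b + c + c := by
    intro h
    have h1 : (G : ℝ) < a + b + c + c := by exact_mod_cast h
    have h2 : (G : ℝ) * γ ≤ G * δ := mul_le_mul_of_nonneg_left hγδ hG0.le
    have h3 : (G : ℝ) * δ = G * ν - (G * α + G * β + G * γ) := by
      rw [hδ]
      ring
    have h4 : (G : ℝ) * ν ≤ G := by nlinarith
    linarith
  have hcond2 : ¬ a + b + c + 4 ≤ B := by
    intro h
    have h1 : (a : ℝ) + b + c + 4 ≤ B := by exact_mod_cast h
    have h2 : (G : ℝ) * δ ≤ G * (3 / 7) := mul_le_mul_of_nonneg_left hδ3 hG0.le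
    have h3 : (G : ℝ) * δ = G - G * (1 - ν) - (G * α + G * β + G * γ) := by
      rw [hδ]
      ring
    linarith
  have e0 : leaf4 G A B c (a + b + c) [c, b, a] = (if G < a + b + c + c then 0 else
      if a + b + c + 4 ≤ B then 0 else
      (ga4 G A (a + b) + ga4 G A (a + c) + ga4 G A (b + c)) * 1000 * G /
        (max c (G - (a + b + c) - 3)) + 1) := rfl
  rw [e0, if_neg hcond1, if_neg hcond2]
  set m := max c (G - (a + b + c) - 3) with hm
  have hm1 : 0 < m := lt_of_lt_of_le hc1 (le_max_left _ _)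
  have hm0 : (0 : ℝ) < m := by exact_mod_cast hm1
  set g := ga4 G A (a + b) + ga4 G A (a + c) + ga4 G A (b + c) with hg
  -- the function
  have hf : f4 α β γ δ ≤ (g : ℝ) / 10 ^ 6 := by
    have g1 := ga4_le hG hA hb hb' hc hc' hβ hγ hν hGν (x := α + δ) (by rw [hδ]; ring)
    have g2 := ga4_le hG hA ha ha' hc hc' hα hγ hν hGν (x := β + δ) (by rw [hδ]; ring)
    have g3 := ga4_le hG hA ha ha' hb hb' hα hβ hν hGν (x := γ + δ) (by rw [hδ]; ring)
    unfold f4
    rw [if_neg (not_lt.2 hδ3)]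
    refine max_le (by positivity) ?_
    have e : (g : ℝ) / 10 ^ 6 = (ga4 G A (a + b) : ℝ) / 10 ^ 6 + (ga4 G A (a + c) : ℝ) / 10 ^ 6 +
        (ga4 G A (b + c) : ℝ) / 10 ^ 6 := by
      rw [hg]
      push_cast
      ring
    rw [e]
    linarith
  have hf0 : 0 ≤ f4 α β γ δ := by
    unfold f4
    split_ifs
    · exact le_rfl
    · exact le_max_left _ _
  -- the quotient
  have hq : ν / δ ≤ (1 + 7 * η) * (G / m : ℝ) := by
    refine quot_bd hη (by linarith) hm1 ?_
    have hGη0 : 0 < (G : ℝ) * η := by positivity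
    rcases le_total c (G - (a + b + c) - 3) with h | h
    · have hmm : m = G - (a + b + c) - 3 := by rw [hm]; exact max_eq_right h
      have h3 : a + b + c + 3 ≤ G := by omega
      have h4 : (m : ℝ) = G - (a + b + c) - 3 := by
        rw [hmm, Nat.sub_sub, Nat.cast_sub h3]
        push_cast
        ring
      have h5 : ν * m ≤ m := by nlinarith
      have h6 : (G : ℝ) * δ = G - G * (1 - ν) - (G * α + G * β + G * γ) := by
        rw [hδ]
        ring
      have h7 : (G : ℝ) * (1 - ν) ≤ G * η := mul_le_mul_of_nonneg_left (by linarith) hG0.le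
      linarith
    · have hmm : m = c := by rw [hm]; exact max_eq_left h
      rw [hmm]
      have h5 : ν * c ≤ c := by
        have : (0 : ℝ) ≤ c := Nat.cast_nonneg c
        nlinarith
      have h6 : (G : ℝ) * γ ≤ G * δ := mul_le_mul_of_nonneg_left hγδ hG0.le
      linarith
  have hν0' : 0 ≤ ν / δ := div_nonneg hν0 hδ0.le
  have h1 : f4 α β γ δ * (ν / δ) ≤ (g : ℝ) / 10 ^ 6 * ((1 + 7 * η) * (G / m : ℝ)) :=
    mul_le_mul hf hq hν0' (by positivity)
  refine h1.trans ?_
  have h2 := div_up (g * 1000 * G) m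
  push_cast at h2 ⊢
  have e : (g : ℝ) / 10 ^ 6 * ((1 + 7 * η) * (G / m : ℝ)) =
      (1 + 7 * η) * ((g : ℝ) * 1000 * G / m / 10 ^ 9) := by
    field_simp
    ring
  rw [e]
  refine mul_le_mul_of_nonneg_left ?_ (by positivity)
  exact div_le_div_of_nonneg_right h2 (by positivity)

theorem leaf4_zero (G A B : ℕ) (l : List ℕ) (h : G < l.sum + l.headD 0) :
    leaf4 G A B (l.headD 0) l.sum l = 0 := by
  unfold leaf4
  split
  · rename_i c b a
    have : (c :: b :: a :: ([] : List ℕ)).headD 0 = c := rfl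
    rw [this] at h
    rw [if_pos h]
  · rfl

open Classical in
theorem p4_of (G A B h0 v : ℕ) (hG : 20 ≤ G) (hA : 7 * A = 3 * G) (hB : 7 * B = 4 * G)
    (hh : 7 * h0 = G)
    (hv : rootV (evA (leaf4 G A B) G (A + 1) 2) h0 (min (A + 1) (G / 4 + 1) - h0) ≤ v) :
    P4M (v / 10 ^ 9 * (1 + 1 / 10 ^ 6)) := by
  obtain ⟨X1, hX1⟩ := tree_val G h0 (A + 1) 2 v hG (by omega) (by omega) (by omega)
    (leaf4 G A B) (leaf4_zero G A B) hv
  have hG0 : (0 : ℝ) < G := by
    have : 0 < G := by omega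
    exact_mod_cast this
  have hGR : (20 : ℝ) ≤ G := by exact_mod_cast hG
  obtain ⟨η, hη⟩ : ∃ η : ℝ, η = min (1 / (2 * (G : ℝ))) (1 / (7 * 10 ^ 6) : ℝ) :=
    ⟨_, rfl⟩
  have hη0 : 0 < η := by
    rw [hη, lt_min_iff]
    exact ⟨by positivity, by norm_num⟩
  have hη1 : (G : ℝ) * η < 1 := by
    have h1 : η ≤ 1 / (2 * G) := by rw [hη]; exact min_le_left _ _
    have h2 : (G : ℝ) * η ≤ G * (1 / (2 * G)) := mul_le_mul_of_nonneg_left h1 hG0.le
    have h3 : (G : ℝ) * (1 / (2 * G)) = 1 / 2 := by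
      field_simp
    linarith
  have hη2 : 7 * η ≤ 1 / 10 ^ 6 := by
    have h1 : η ≤ 1 / (7 * 10 ^ 6) := by rw [hη]; exact min_le_right _ _
    norm_num at h1 ⊢
    linarith
  obtain ⟨X2, hX2⟩ := logn_near η hη0
  refine ⟨max (max X1 X2) 2, fun X hX n hn hnX W hW => ?_⟩
  obtain ⟨hL1, hlog⟩ := hX2 X (by omega)
  obtain ⟨hn1, hn2⟩ := hlog n hn hnX
  set L := Real.log (X : ℝ) with hL
  have hL0 : 0 < L := by linarith
  have hn0 : (0 : ℝ) < n := by
    have h1 : 0 < X5 X := by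
      unfold X5
      have h2 : (0 : ℝ) < X := by
        have : 0 < X := by omega
        exact_mod_cast this
      positivity
    exact h1.trans hn
  set ν := Real.log n / L with hν
  have hν1 : ν ≤ 1 := (div_le_one hL0).2 hn2
  have hν2 : 1 - η ≤ ν := by
    rw [hν, le_div_iff₀ hL0]
    exact hn1
  -- the main terms
  set K := (KQ X n (1 / 7)).filter (fun k : ℕ => Real.log ((n : ℝ) / k) / L ≤ 3 / 7) with hK
  have hdata : ∀ k ∈ KQ X n (1 / 7), ∃ p q r : ℕ, p.Prime ∧ q.Prime ∧ r.Prime ∧ q < p ∧ r < q ∧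
      k = p * q * r ∧ k ∈ Icc 1 X ∧ 1 / 7 ≤ Real.log r / L ∧ 1 / 7 ≤ Real.log q / L ∧
      1 / 7 ≤ Real.log p / L ∧ Real.log p / L ≤ Real.log ((n : ℝ) / k) / L ∧
      Real.log ((n : ℝ) / k) / L = ν - (Real.log r / L + Real.log q / L + Real.log p / L) ∧
      W k ≤ f4 (Real.log r / L) (Real.log q / L) (Real.log p / L)
        (Real.log ((n : ℝ) / k) / L) ∧ k.primeFactorsList = [r, q, p] ∧ Squarefree k ∧
      k.primeFactors.card = 3 ∧ (∀ t ∈ k.primeFactors, t = r ∨ t = q ∨ t = p) := by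
    intro k hk
    unfold KQ at hk
    rw [mem_filter] at hk
    obtain ⟨hkX, p, q, r, hp, hq, hr, h1, h2, hkk, h3, h4⟩ := hk
    have hr0 : (0 : ℝ) < r := by exact_mod_cast hr.pos
    have hq0 : (0 : ℝ) < q := by exact_mod_cast hq.pos
    have hp0 : (0 : ℝ) < p := by exact_mod_cast hp.pos
    have hrq : Real.log r ≤ Real.log q := Real.log_le_log hr0 (by exact_mod_cast h2.le)
    have hqp : Real.log q ≤ Real.log p := Real.log_le_log hq0 (by exact_mod_cast h1.le)
    have hWk := hW p q r hp hq hr h1 h2 h3 (by rw [← hkk]; exact h4)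
    rw [← hkk] at hWk
    have hprod : k = [r, q, p].prod := by
      rw [hkk]
      simp only [List.prod_cons, List.prod_nil, mul_one]
      ring
    have hs : [r, q, p].Pairwise (fun a b => a < b) := by
      simp only [List.pairwise_cons, List.mem_cons, List.not_mem_nil, or_false,
        forall_eq_or_imp, forall_eq, List.Pairwise.nil, and_true]
      refine ⟨⟨h2, h2.trans h1⟩, h1, ?_⟩
      simp
    have hpr : ∀ t ∈ [r, q, p], t.Prime := by
      intro t ht
      simp only [List.mem_cons, List.not_mem_nil, or_false] at ht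
      rcases ht with rfl | rfl | rfl
      · exact hr
      · exact hq
      · exact hp
    have hklog : Real.log ((n : ℝ) / k) = Real.log n - (Real.log r + Real.log q + Real.log p) := by
      have hk0 : (k : ℝ) = p * q * r := by
        rw [hkk]
        push_cast
        ring
      rw [hk0, Real.log_div hn0.ne' (by positivity), Real.log_mul (by positivity) hr0.ne',
        Real.log_mul hp0.ne' hq0.ne']
      ring
    obtain ⟨c1, c2⟩ := card_of hs hpr
    refine ⟨p, q, r, hp, hq, hr, h1, h2, hkk, hkX, ?_, ?_, ?_, ?_, ?_, hWk, ?_, ?_, ?_, ?_⟩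
    · rw [le_div_iff₀ hL0]
      exact h3
    · rw [le_div_iff₀ hL0]
      linarith
    · rw [le_div_iff₀ hL0]
      linarith
    · exact div_le_div_of_nonneg_right h4 hL0.le
    · rw [hklog, hν]
      ring
    · rw [hprod]
      exact pfl_of (hs.imp fun h => h.le) hpr
    · rw [hprod]
      exact sqf_of hs hpr
    · rw [hprod, c1]
      rfl
    · intro t ht
      rw [hprod] at ht
      have := (c2 t).1 ht
      simpa using this
  have hKh : ∀ k ∈ K, k ∈ Icc 1 X ∧ Squarefree k ∧ k.primeFactors.card = 2 + 1 ∧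
      ∀ p ∈ k.primeFactors, h0 ≤ cel (PG G) X p ∧ cel (PG G) X p < A + 1 := by
    intro k hk
    rw [hK, mem_filter] at hk
    obtain ⟨p, q, r, hp, hq, hr, h1, h2, hkk, hkX, a1, a2, a3, a4, a5, a6, a7, a8, a9, a10⟩ :=
      hdata k hk.1
    refine ⟨hkX, a8, a9, fun t ht => ?_⟩
    have hr0 : (0 : ℝ) < r := by exact_mod_cast hr.pos
    have hq0 : (0 : ℝ) < q := by exact_mod_cast hq.pos
    have hrq : Real.log r / L ≤ Real.log q / L :=
      div_le_div_of_nonneg_right (Real.log_le_log hr0 (by exact_mod_cast h2.le)) hL0.le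
    have hqp : Real.log q / L ≤ Real.log p / L :=
      div_le_div_of_nonneg_right (Real.log_le_log hq0 (by exact_mod_cast h1.le)) hL0.le
    have hlo : 1 / 7 ≤ Real.log t / L ∧ Real.log t / L ≤ 3 / 7 := by
      rcases a10 t ht with rfl | rfl | rfl
      · exact ⟨a1, by linarith [hk.2]⟩
      · exact ⟨a2, by linarith [hk.2]⟩
      · exact ⟨a3, by linarith [hk.2]⟩
    obtain ⟨b1, b2⟩ := cel_exp (G := G) (p := t) hL0
    rw [← hL] at b1 b2
    have hhR : 7 * (h0 : ℝ) = G := by exact_mod_cast hh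
    have hAR : 7 * (A : ℝ) = 3 * G := by exact_mod_cast hA
    have c1 : (G : ℝ) * (1 / 7) ≤ G * (Real.log t / L) := mul_le_mul_of_nonneg_left hlo.1 hG0.le
    have c2 : (G : ℝ) * (Real.log t / L) ≤ G * (3 / 7) := mul_le_mul_of_nonneg_left hlo.2 hG0.le
    constructor
    · have : (h0 : ℝ) < (cel (PG G) X t : ℝ) + 1 := by linarith
      have : h0 < cel (PG G) X t + 1 := by exact_mod_cast this
      omega
    · have : (cel (PG G) X t : ℝ) < (A : ℝ) + 1 := by linarith
      exact_mod_cast this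
  have key := hX1 X (by omega) K hKh
    (fun k => W k * (Real.log n / Real.log ((n : ℝ) / k)) / (1 + 7 * η)) (by
    intro k hk
    have hk' := hk
    rw [hK, mem_filter] at hk
    obtain ⟨p, q, r, hp, hq, hr, h1, h2, hkk, hkX, a1, a2, a3, a4, a5, a6, a7, a8, a9, a10⟩ :=
      hdata k hk.1
    obtain ⟨ha, ha'⟩ := cel_exp (G := G) (p := r) hL0
    obtain ⟨hb, hb'⟩ := cel_exp (G := G) (p := q) hL0
    obtain ⟨hc, hc'⟩ := cel_exp (G := G) (p := p) hL0
    rw [← hL] at ha ha' hb hb' hc hc'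
    have hlist : (cL (PG G) X k).reverse = [cel (PG G) X p, cel (PG G) X q, cel (PG G) X r] := by
      unfold cL
      rw [a7]
      simp
    rw [hlist]
    have hsum : [cel (PG G) X p, cel (PG G) X q, cel (PG G) X r].sum =
        cel (PG G) X r + cel (PG G) X q + cel (PG G) X p := by
      simp only [List.sum_cons, List.sum_nil]
      ring
    rw [hsum]
    have hc1 : 1 ≤ cel (PG G) X p := by
      have := (hKh k hk').2.2.2 p (by
        rw [Nat.primeFactors, a7]
        simp)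
      omega
    have hb4 := leaf4_bd (G := G) (A := A) (B := B) (by omega) hA hB ha ha' hb hb' hc hc' a1 a2 a3
      a4 hν1 hη0 (by linarith [hη1, mul_le_mul_of_nonneg_right hGR hη0.le]) hν2 hη1 a5 hk.2 hc1
    have hδ0 : 0 < Real.log ((n : ℝ) / k) / L := by linarith
    have e1 : ν / (Real.log ((n : ℝ) / k) / L) = Real.log n / Real.log ((n : ℝ) / k) := by
      rw [hν]
      field_simp
    rw [e1] at hb4
    have hq0 : 0 ≤ Real.log n / Real.log ((n : ℝ) / k) := by
      rw [← e1]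
      refine div_nonneg ?_ hδ0.le
      linarith [hη1, mul_le_mul_of_nonneg_right hGR hη0.le]
    rw [div_le_iff₀ (by positivity)]
    have h3 := mul_le_mul_of_nonneg_right a6 hq0
    refine h3.trans (hb4.trans (le_of_eq ?_))
    show _ = ((leaf4 G A B (cel (PG G) X p) _ _ : ℕ) : ℝ) / 10 ^ 9 * (1 + 7 * η)
    ring)
  -- the other terms
  have hsum : ∑ k ∈ KQ X n (1 / 7), W k * (Real.log n / (k * Real.log ((n : ℝ) / k))) ≤
      ∑ k ∈ K, W k * (Real.log n / (k * Real.log ((n : ℝ) / k))) := by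
    rw [← sum_filter_add_sum_filter_not (KQ X n (1 / 7))
      (fun k : ℕ => Real.log ((n : ℝ) / k) / L ≤ 3 / 7), ← hK]
    have h1 : ∑ k ∈ (KQ X n (1 / 7)).filter (fun k : ℕ => ¬ Real.log ((n : ℝ) / k) / L ≤ 3 / 7),
        W k * (Real.log n / (k * Real.log ((n : ℝ) / k))) ≤ 0 := by
      refine sum_nonpos fun k hk => ?_
      rw [mem_filter, not_le] at hk
      obtain ⟨p, q, r, hp, hq, hr, h1, h2, hkk, hkX, a1, a2, a3, a4, a5, a6, a7, a8, a9, a10⟩ :=
        hdata k hk.1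
      have hf0 : f4 (Real.log r / L) (Real.log q / L) (Real.log p / L)
          (Real.log ((n : ℝ) / k) / L) = 0 := by
        unfold f4
        rw [if_pos hk.2]
      rw [hf0] at a6
      have hlk : 0 < Real.log ((n : ℝ) / k) := by
        have : 0 < Real.log ((n : ℝ) / k) / L := by linarith
        exact (div_pos_iff_of_pos_right hL0).1 this
      have hln : 0 ≤ Real.log n := by
        have h6 : 0 ≤ 1 - η := by linarith [hη1, mul_le_mul_of_nonneg_right hGR hη0.le]
        have h7 : 0 ≤ (1 - η) * L := mul_nonneg h6 hL0.le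
        linarith
      exact mul_nonpos_of_nonpos_of_nonneg a6 (by positivity)
    linarith
  refine hsum.trans ?_
  have e : ∑ k ∈ K, W k * (Real.log n / (k * Real.log ((n : ℝ) / k))) =
      (∑ k ∈ K, (W k * (Real.log n / Real.log ((n : ℝ) / k)) / (1 + 7 * η)) / k) *
        (1 + 7 * η) := by
    rw [sum_mul]
    refine sum_congr rfl fun k _ => ?_
    have : (1 + 7 * η) ≠ 0 := by positivity
    field_simp
  rw [e]
  have h5 : 0 ≤ (v : ℝ) / 10 ^ 9 := by positivity
  calc _ ≤ (v : ℝ) / 10 ^ 9 * (1 + 7 * η) := mul_le_mul_of_nonneg_right key (by positivity)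
    _ ≤ _ := mul_le_mul_of_nonneg_left (by linarith) h5

end Pool.MP_dd84fd_nt.MX
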