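import Pool.Agent.Lib.MP_dd84fd_nt.MX.TmC

/-!
# Theorem M, numerics: `P5M` from the value of the cell tree (helper98)
-/

set_option autoImplicit false

namespace Pool.MP_dd84fd_nt.MX

open Finset Pool.MP_67663b_nt.Odd Pool.MP_dd84fd_nt.En Pool.MP_dd84fd_nt.E2 Pool.MP_dd84fd_nt.HX
  Pool.MP_dd84fd_nt.IY Pool.MP_dd84fd_nt.KX Pool.MP_dd84fd_nt.LX

private theorem div_up (a b : ℕ) : (a : ℝ) / b ≤ ((a / b : ℕ) : ℝ) + 1 := by
  rw [← Nat.floor_div_eq_div (K := ℝ)]
  exact (Nat.lt_floor_add_one _).le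

private theorem div_dn (a b : ℕ) : ((a / b : ℕ) : ℝ) ≤ (a : ℝ) / b := Nat.cast_div_le

private theorem sub_le' (a b : ℕ) : (a : ℝ) - b ≤ ((a - b : ℕ) : ℝ) := by
  rcases le_total b a with h | h
  · rw [Nat.cast_sub h]
  · rw [Nat.sub_eq_zero_of_le h, Nat.cast_zero]
    have : (a : ℝ) ≤ b := by exact_mod_cast h
    linarith

private theorem h5_half (σ : ℝ) : h5 σ ≤ 1 / 2 := by
  unfold h5
  split_ifs with h
  · linarith
  · norm_num

private theorem hp5_le {G A s : ℕ} (hG : 0 < G) (hA : 7 * A = 3 * G) {σ : ℝ}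
    (h1 : (s : ℝ) ≤ G * σ) (h2 : (G : ℝ) * σ < s + 2) : h5 σ ≤ (hp5 G A s : ℝ) / 10 ^ 6 := by
  have hG0 : (0 : ℝ) < G := by exact_mod_cast hG
  have hAR : 7 * (A : ℝ) = 3 * G := by exact_mod_cast hA
  rw [le_div_iff₀ (by positivity)]
  unfold hp5
  split_ifs with h
  · have h3 : (s : ℝ) + 2 ≤ A := by exact_mod_cast h
    have h4 : σ < 3 / 7 := by
      have : (G : ℝ) * σ < G * (3 / 7) := by linarith
      exact lt_of_mul_lt_mul_left this hG0.le
    unfold h5
    rw [if_neg (not_le.2 h4)]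
    simp
  · rw [Nat.cast_min]
    refine le_min ?_ ?_
    · have := h5_half σ
      push_cast
      linarith
    · refine le_trans ?_ (sub_le' _ _)
      have h3 := div_dn (3500000 * s) G
      have h4 : h5 σ * 10 ^ 6 ≤ 2000000 - (3500000 * s : ℝ) / G ∨ h5 σ = 0 := by
        by_cases h5' : 3 / 7 ≤ σ
        · left
          unfold h5
          rw [if_pos h5']
          have : (3500000 * s : ℝ) / G ≤ 3500000 * σ := by
            rw [div_le_iff₀ hG0]
            linarith
          linarith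
        · right
          unfold h5
          rw [if_neg h5']
      rcases h4 with h4 | h4
      · push_cast at h3 ⊢
        linarith
      · rw [h4, zero_mul]
        by_cases h6 : 3 / 7 ≤ σ
        · -- `h5 σ = 2 - 7/2 σ = 0`
          unfold h5 at h4
          rw [if_pos h6] at h4
          have h7 : (3500000 * s : ℝ) / G ≤ 3500000 * σ := by
            rw [div_le_iff₀ hG0]
            linarith
          push_cast at h3 ⊢
          linarith
        · have h7 : (3500000 * s : ℝ) / G ≤ 3500000 * σ := by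
            rw [div_le_iff₀ hG0]
            linarith
          push_cast at h3 ⊢
          linarith

private theorem hq5_le {G B s : ℕ} (hG : 0 < G) (hB : 7 * B = 4 * G) {σ S3 ν η : ℝ}
    (h1 : (s : ℝ) ≤ G * S3) (h2 : (G : ℝ) * S3 < s + 3) (hν : ν ≤ 1) (hν' : 1 - η ≤ ν)
    (hη : 0 < η) (hσ : σ = ν - S3) : h5 σ ≤ (hq5 G B s : ℝ) / 10 ^ 6 + 7 / 2 * η := by
  have hG0 : (0 : ℝ) < G := by exact_mod_cast hG
  have hBR : 7 * (B : ℝ) = 4 * G := by exact_mod_cast hB
  unfold hq5
  split_ifs with h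
  · have h3 : (B : ℝ) < s := by exact_mod_cast h
    have h4 : σ < 3 / 7 := by
      have : (G : ℝ) * σ < G * (3 / 7) := by
        have e : (G : ℝ) * σ = G * ν - G * S3 := by rw [hσ]; ring
        have : (G : ℝ) * ν ≤ G := by nlinarith
        linarith
      exact lt_of_mul_lt_mul_left this hG0.le
    unfold h5
    rw [if_neg (not_le.2 h4), Nat.cast_zero, zero_div]
    linarith
  · by_cases h5' : 3 / 7 ≤ σ
    · have key : (h5 σ - 7 / 2 * η) * 10 ^ 6 ≤
          ((min 500000 (3500000 * (s + 3) / G + 1 - 1500000) : ℕ) : ℝ) := by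
        rw [Nat.cast_min]
        refine le_min ?_ ?_
        · have := h5_half σ
          push_cast
          linarith
        · refine le_trans ?_ (sub_le' _ _)
          have h3 := div_up (3500000 * (s + 3)) G
          unfold h5
          rw [if_pos h5']
          have h7 : 3500000 * S3 ≤ (3500000 * (s + 3) : ℝ) / G := by
            rw [le_div_iff₀ hG0]
            linarith
          push_cast at h3 ⊢
          rw [hσ]
          linarith
      have h8 : h5 σ - 7 / 2 * η ≤
          ((min 500000 (3500000 * (s + 3) / G + 1 - 1500000) : ℕ) : ℝ) / 10 ^ 6 := by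
        rw [le_div_iff₀ (by positivity)]
        exact key
      linarith
    · have h6 : h5 σ = 0 := by
        unfold h5
        rw [if_neg h5']
      rw [h6]
      exact add_nonneg (div_nonneg (Nat.cast_nonneg _) (by norm_num)) (by linarith)

private theorem leaf5_bd {G A B : ℕ} (hG : 0 < G) (hA : 7 * A = 3 * G) (hB : 7 * B = 4 * G)
    {a b c d : ℕ} {α β γ δ ε ν η : ℝ} (ha : (a : ℝ) ≤ G * α) (ha' : (G : ℝ) * α < a + 1)
    (hb : (b : ℝ) ≤ G * β) (hb' : (G : ℝ) * β < b + 1) (hc : (c : ℝ) ≤ G * γ)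
    (hc' : (G : ℝ) * γ < c + 1) (hd : (d : ℝ) ≤ G * δ) (hd' : (G : ℝ) * δ < d + 1)
    (hδ7 : 1 / 7 ≤ δ) (hδε : δ ≤ ε) (hν : ν ≤ 1) (hη : 0 < η) (hη7 : η ≤ 1 / 100)
    (hν' : 1 - η ≤ ν) (hε : ε = ν - (α + β + γ + δ)) (hd1 : 1 ≤ d) :
    f5 α β γ δ ε * (ν / ε) ≤
      (1 + 13 * η) * ((leaf5 G A B d (a + b + c + d) [d, c, b, a] : ℕ) / 10 ^ 9) := by
  have hG0 : (0 : ℝ) < G := by exact_mod_cast hG
  have hε0 : 0 < ε := by linarith
  have hν0 : 0 ≤ ν := by linarith
  -- the conditions
  have hcond1 : ¬ G < a + b + c + d + d := by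
    intro h
    have h1 : (G : ℝ) < a + b + c + d + d := by exact_mod_cast h
    have h2 : (G : ℝ) * δ ≤ G * ε := mul_le_mul_of_nonneg_left hδε hG0.le
    have h3 : (G : ℝ) * ε = G * ν - (G * α + G * β + G * γ + G * δ) := by
      rw [hε]
      ring
    have h4 : (G : ℝ) * ν ≤ G := by nlinarith
    linarith
  have e0 : leaf5 G A B d (a + b + c + d) [d, c, b, a] = (if G < a + b + c + d + d then 0 else
      (3000000 + (hp5 G A (a + b) + hp5 G A (a + c) + hp5 G A (a + d) + hp5 G A (b + c) +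
        hp5 G A (b + d) + hp5 G A (c + d)) +
        (hq5 G B (a + b + c + d - a) + hq5 G B (a + b + c + d - b) + hq5 G B (a + b + c + d - c) +
          hq5 G B (a + b + c + d - d))) * 1000 * G /
        (max d (G - (a + b + c + d) - 4)) + 1) := rfl
  have t1 : a + b + c + d - a = b + c + d := by omega
  have t2 : a + b + c + d - b = a + c + d := by omega
  have t3 : a + b + c + d - c = a + b + d := by omega
  have t4 : a + b + c + d - d = a + b + c := by omega
  rw [e0, if_neg hcond1, t1, t2, t3, t4]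
  set m := max d (G - (a + b + c + d) - 4) with hm
  have hm1 : 0 < m := lt_of_lt_of_le hd1 (le_max_left _ _)
  have hm0 : (0 : ℝ) < m := by exact_mod_cast hm1
  obtain ⟨g, hg⟩ : ∃ g : ℕ, g = 3000000 + (hp5 G A (a + b) + hp5 G A (a + c) + hp5 G A (a + d) +
        hp5 G A (b + c) + hp5 G A (b + d) + hp5 G A (c + d)) +
        (hq5 G B (b + c + d) + hq5 G B (a + c + d) + hq5 G B (a + b + d) +
          hq5 G B (a + b + c)) := ⟨_, rfl⟩
  rw [← hg]
  have hg3 : (3000000 : ℝ) ≤ g := by
    have : 3000000 ≤ g := by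
      rw [hg, add_assoc]
      exact Nat.le_add_right _ _
    exact_mod_cast this
  -- the function
  have hf : f5 α β γ δ ε ≤ (g : ℝ) / 10 ^ 6 * (1 + 5 * η) := by
    have p1 := hp5_le hG hA (s := a + b) (σ := α + β) (by push_cast; linarith) (by push_cast; linarith)
    have p2 := hp5_le hG hA (s := a + c) (σ := α + γ) (by push_cast; linarith) (by push_cast; linarith)
    have p3 := hp5_le hG hA (s := a + d) (σ := α + δ) (by push_cast; linarith) (by push_cast; linarith)
    have p4 := hp5_le hG hA (s := b + c) (σ := β + γ) (by push_cast; linarith) (by push_cast; linarith)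
    have p5 := hp5_le hG hA (s := b + d) (σ := β + δ) (by push_cast; linarith) (by push_cast; linarith)
    have p6 := hp5_le hG hA (s := c + d) (σ := γ + δ) (by push_cast; linarith) (by push_cast; linarith)
    have q1 := hq5_le hG hB (s := b + c + d) (σ := α + ε) (S3 := β + γ + δ)
      (by push_cast; linarith) (by push_cast; linarith) hν hν' hη (by rw [hε]; ring)
    have q2 := hq5_le hG hB (s := a + c + d) (σ := β + ε) (S3 := α + γ + δ)
      (by push_cast; linarith) (by push_cast; linarith) hν hν' hη (by rw [hε]; ring)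
    have q3 := hq5_le hG hB (s := a + b + d) (σ := γ + ε) (S3 := α + β + δ)
      (by push_cast; linarith) (by push_cast; linarith) hν hν' hη (by rw [hε]; ring)
    have q4 := hq5_le hG hB (s := a + b + c) (σ := δ + ε) (S3 := α + β + γ)
      (by push_cast; linarith) (by push_cast; linarith) hν hν' hη (by rw [hε]; ring)
    have e : (g : ℝ) / 10 ^ 6 = 3 + ((hp5 G A (a + b) : ℝ) / 10 ^ 6 + (hp5 G A (a + c) : ℝ) / 10 ^ 6 +
        (hp5 G A (a + d) : ℝ) / 10 ^ 6 + (hp5 G A (b + c) : ℝ) / 10 ^ 6 +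
        (hp5 G A (b + d) : ℝ) / 10 ^ 6 + (hp5 G A (c + d) : ℝ) / 10 ^ 6) +
        ((hq5 G B (b + c + d) : ℝ) / 10 ^ 6 + (hq5 G B (a + c + d) : ℝ) / 10 ^ 6 +
        (hq5 G B (a + b + d) : ℝ) / 10 ^ 6 + (hq5 G B (a + b + c) : ℝ) / 10 ^ 6) := by
      rw [hg]
      push_cast
      ring
    have h3 : (3 : ℝ) ≤ g / 10 ^ 6 := by
      rw [le_div_iff₀ (by positivity)]
      linarith
    have h4 : (g : ℝ) / 10 ^ 6 + 14 * η ≤ (g : ℝ) / 10 ^ 6 * (1 + 5 * η) := by nlinarith
    refine le_trans ?_ h4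
    unfold f5
    rw [e]
    linarith
  -- the quotient
  have hq : ν / ε ≤ (1 + 7 * η) * (G / m : ℝ) := by
    refine quot_bd hη (by linarith) hm1 ?_
    have hGη0 : 0 < (G : ℝ) * η := by positivity
    rcases le_total d (G - (a + b + c + d) - 4) with h | h
    · have hmm : m = G - (a + b + c + d) - 4 := by rw [hm]; exact max_eq_right h
      have h3 : a + b + c + d + 4 ≤ G := by omega
      have h4 : (m : ℝ) = G - (a + b + c + d) - 4 := by
        rw [hmm, Nat.sub_sub, Nat.cast_sub h3]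
        push_cast
        ring
      have h5 : ν * m ≤ m := by nlinarith
      have h6 : (G : ℝ) * ε = G - G * (1 - ν) - (G * α + G * β + G * γ + G * δ) := by
        rw [hε]
        ring
      have h7 : (G : ℝ) * (1 - ν) ≤ G * η := mul_le_mul_of_nonneg_left (by linarith) hG0.le
      linarith
    · have hmm : m = d := by rw [hm]; exact max_eq_left h
      rw [hmm]
      have h5 : ν * d ≤ d := by
        have : (0 : ℝ) ≤ d := Nat.cast_nonneg d
        nlinarith
      have h6 : (G : ℝ) * δ ≤ G * ε := mul_le_mul_of_nonneg_left hδε hG0.le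
      linarith
  have hν0' : 0 ≤ ν / ε := div_nonneg hν0 hε0.le
  have h1 : f5 α β γ δ ε * (ν / ε) ≤
      (g : ℝ) / 10 ^ 6 * (1 + 5 * η) * ((1 + 7 * η) * (G / m : ℝ)) :=
    mul_le_mul hf hq hν0' (by positivity)
  refine h1.trans ?_
  have h2 := div_up (g * 1000 * G) m
  push_cast at h2 ⊢
  have e : (g : ℝ) / 10 ^ 6 * (1 + 5 * η) * ((1 + 7 * η) * (G / m : ℝ)) =
      ((1 + 5 * η) * (1 + 7 * η)) * ((g : ℝ) * 1000 * G / m / 10 ^ 9) := by
    field_simp
    ring
  rw [e]
  have h3 : (1 + 5 * η) * (1 + 7 * η) ≤ 1 + 13 * η := by nlinarith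
  exact mul_le_mul h3 (div_le_div_of_nonneg_right h2 (by positivity)) (by positivity)
    (by positivity)

theorem leaf5_zero (G A B : ℕ) (l : List ℕ) (h : G < l.sum + l.headD 0) :
    leaf5 G A B (l.headD 0) l.sum l = 0 := by
  unfold leaf5
  split
  · rename_i d c b a
    have : (d :: c :: b :: a :: ([] : List ℕ)).headD 0 = d := rfl
    rw [this] at h
    rw [if_pos h]
  · rfl

open Classical in
theorem p5_of (G A B h0 v : ℕ) (hG : 20 ≤ G) (hA : 7 * A = 3 * G) (hB : 7 * B = 4 * G)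
    (hh : 7 * h0 = G)
    (hv : rootV (evA (leaf5 G A B) G (A + 1) 3) h0 (min (A + 1) (G / 5 + 1) - h0) ≤ v) :
    P5M (v / 10 ^ 9 * (1 + 1 / 10 ^ 6)) := by
  obtain ⟨X1, hX1⟩ := tree_val G h0 (A + 1) 3 v hG (by omega) (by omega) (by omega)
    (leaf5 G A B) (leaf5_zero G A B) hv
  have hG0 : (0 : ℝ) < G := by
    have : 0 < G := by omega
    exact_mod_cast this
  have hGR : (20 : ℝ) ≤ G := by exact_mod_cast hG
  obtain ⟨η, hη⟩ : ∃ η : ℝ, η = 1 / (13 * 10 ^ 6) := ⟨_, rfl⟩
  have hη0 : 0 < η := by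
    rw [hη]
    norm_num
  have hη7 : η ≤ 1 / 100 := by
    rw [hη]
    norm_num
  have hη2 : 13 * η = 1 / 10 ^ 6 := by
    rw [hη]
    norm_num
  obtain ⟨X2, hX2⟩ := logn_near η hη0
  refine ⟨max (max X1 X2) 2, fun X hX n hn hnX W hW => ?_⟩
  obtain ⟨hL1, hlog⟩ := hX2 X (by omega)
  obtain ⟨hn1, hn2⟩ := hlog n hn hnX
  set L := Real.log (X : ℝ) with hL
  have hL0 : 0 < L := by linarith
  have hn0 : (0 : ℝ) < n := by
    have h1 : 0 < X5 X := by
      unfold X5
      have h2 : (0 : ℝ) < X := by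
        have : 0 < X := by omega
        exact_mod_cast this
      positivity
    exact h1.trans hn
  set ν := Real.log n / L with hν
  have hν1 : ν ≤ 1 := (div_le_one hL0).2 hn2
  have hν2 : 1 - η ≤ ν := by
    rw [hν, le_div_iff₀ hL0]
    exact hn1
  have hdata : ∀ k ∈ KQ5 X n (1 / 7), ∃ p q r t : ℕ, p.Prime ∧ q.Prime ∧ r.Prime ∧ t.Prime ∧
      q < p ∧ r < q ∧ t < r ∧
      k ∈ Icc 1 X ∧ 1 / 7 ≤ Real.log t / L ∧ 1 / 7 ≤ Real.log r / L ∧ 1 / 7 ≤ Real.log q / L ∧
      1 / 7 ≤ Real.log p / L ∧ Real.log p / L ≤ Real.log ((n : ℝ) / k) / L ∧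
      Real.log ((n : ℝ) / k) / L =
        ν - (Real.log t / L + Real.log r / L + Real.log q / L + Real.log p / L) ∧
      W k ≤ f5 (Real.log t / L) (Real.log r / L) (Real.log q / L) (Real.log p / L)
        (Real.log ((n : ℝ) / k) / L) ∧ k.primeFactorsList = [t, r, q, p] ∧ Squarefree k ∧
      k.primeFactors.card = 4 ∧ (∀ u ∈ k.primeFactors, u = t ∨ u = r ∨ u = q ∨ u = p) := by
    intro k hk
    unfold KQ5 at hk
    rw [mem_filter] at hk
    obtain ⟨hkX, p, q, r, t, hp, hq, hr, ht, h1, h2, h2', hkk, h3, h4⟩ := hk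
    have ht0 : (0 : ℝ) < t := by exact_mod_cast ht.pos
    have hr0 : (0 : ℝ) < r := by exact_mod_cast hr.pos
    have hq0 : (0 : ℝ) < q := by exact_mod_cast hq.pos
    have hp0 : (0 : ℝ) < p := by exact_mod_cast hp.pos
    have htr : Real.log t ≤ Real.log r := Real.log_le_log ht0 (by exact_mod_cast h2'.le)
    have hrq : Real.log r ≤ Real.log q := Real.log_le_log hr0 (by exact_mod_cast h2.le)
    have hqp : Real.log q ≤ Real.log p := Real.log_le_log hq0 (by exact_mod_cast h1.le)
    have hWk := hW p q r t hp hq hr ht h1 h2 h2' h3 (by rw [← hkk]; exact h4)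
    rw [← hkk] at hWk
    have hprod : k = [t, r, q, p].prod := by
      rw [hkk]
      simp only [List.prod_cons, List.prod_nil, mul_one]
      ring
    have hs : [t, r, q, p].Pairwise (fun a b => a < b) := by
      simp only [List.pairwise_cons, List.mem_cons, List.not_mem_nil, or_false,
        forall_eq_or_imp, forall_eq, List.Pairwise.nil, and_true]
      refine ⟨⟨h2', h2'.trans h2, (h2'.trans h2).trans h1⟩, ⟨h2, h2.trans h1⟩, h1, ?_⟩
      simp
    have hpr : ∀ u ∈ [t, r, q, p], u.Prime := by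
      intro u hu
      simp only [List.mem_cons, List.not_mem_nil, or_false] at hu
      rcases hu with rfl | rfl | rfl | rfl
      · exact ht
      · exact hr
      · exact hq
      · exact hp
    have hklog : Real.log ((n : ℝ) / k) =
        Real.log n - (Real.log t + Real.log r + Real.log q + Real.log p) := by
      have hk0 : (k : ℝ) = p * q * r * t := by
        rw [hkk]
        push_cast
        ring
      rw [hk0, Real.log_div hn0.ne' (by positivity), Real.log_mul (by positivity) ht0.ne',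
        Real.log_mul (by positivity) hr0.ne', Real.log_mul hp0.ne' hq0.ne']
      ring
    obtain ⟨c1, c2⟩ := card_of hs hpr
    refine ⟨p, q, r, t, hp, hq, hr, ht, h1, h2, h2', hkX, ?_, ?_, ?_, ?_, ?_, ?_, hWk, ?_, ?_, ?_, ?_⟩
    · rw [le_div_iff₀ hL0]
      exact h3
    · rw [le_div_iff₀ hL0]
      linarith
    · rw [le_div_iff₀ hL0]
      linarith
    · rw [le_div_iff₀ hL0]
      linarith
    · exact div_le_div_of_nonneg_right h4 hL0.le
    · rw [hklog, hν]
      ring
    · rw [hprod]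
      exact pfl_of (hs.imp fun h => h.le) hpr
    · rw [hprod]
      exact sqf_of hs hpr
    · rw [hprod, c1]
      rfl
    · intro u hu
      rw [hprod] at hu
      have := (c2 u).1 hu
      simpa using this
  have hKh : ∀ k ∈ KQ5 X n (1 / 7), k ∈ Icc 1 X ∧ Squarefree k ∧ k.primeFactors.card = 3 + 1 ∧
      ∀ p ∈ k.primeFactors, h0 ≤ cel (PG G) X p ∧ cel (PG G) X p < A + 1 := by
    intro k hk
    obtain ⟨p, q, r, t, hp, hq, hr, ht, h1, h2, h2', hkX, a0, a1, a2, a3, a4, a5, a6, a7, a8, a9,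
      a10⟩ := hdata k hk
    refine ⟨hkX, a8, a9, fun u hu => ?_⟩
    have hlo : 1 / 7 ≤ Real.log u / L ∧ Real.log u / L ≤ 3 / 7 := by
      rcases a10 u hu with rfl | rfl | rfl | rfl
      · exact ⟨a0, by linarith⟩
      · exact ⟨a1, by linarith⟩
      · exact ⟨a2, by linarith⟩
      · exact ⟨a3, by linarith⟩
    obtain ⟨b1, b2⟩ := cel_exp (G := G) (p := u) hL0
    rw [← hL] at b1 b2
    have hhR : 7 * (h0 : ℝ) = G := by exact_mod_cast hh
    have hAR : 7 * (A : ℝ) = 3 * G := by exact_mod_cast hA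
    have c1 : (G : ℝ) * (1 / 7) ≤ G * (Real.log u / L) := mul_le_mul_of_nonneg_left hlo.1 hG0.le
    have c2 : (G : ℝ) * (Real.log u / L) ≤ G * (3 / 7) := mul_le_mul_of_nonneg_left hlo.2 hG0.le
    constructor
    · have : (h0 : ℝ) < (cel (PG G) X u : ℝ) + 1 := by linarith
      have : h0 < cel (PG G) X u + 1 := by exact_mod_cast this
      omega
    · have : (cel (PG G) X u : ℝ) < (A : ℝ) + 1 := by linarith
      exact_mod_cast this
  have key := hX1 X (by omega) (KQ5 X n (1 / 7)) hKh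
    (fun k => W k * (Real.log n / Real.log ((n : ℝ) / k)) / (1 + 13 * η)) (by
    intro k hk
    obtain ⟨p, q, r, t, hp, hq, hr, ht, h1, h2, h2', hkX, a0, a1, a2, a3, a4, a5, a6, a7, a8, a9,
      a10⟩ := hdata k hk
    obtain ⟨ha, ha'⟩ := cel_exp (G := G) (p := t) hL0
    obtain ⟨hb, hb'⟩ := cel_exp (G := G) (p := r) hL0
    obtain ⟨hc, hc'⟩ := cel_exp (G := G) (p := q) hL0
    obtain ⟨hd, hd'⟩ := cel_exp (G := G) (p := p) hL0
    rw [← hL] at ha ha' hb hb' hc hc' hd hd'
    have hlist : (cL (PG G) X k).reverse =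
        [cel (PG G) X p, cel (PG G) X q, cel (PG G) X r, cel (PG G) X t] := by
      unfold cL
      rw [a7]
      simp
    rw [hlist]
    have hsum : [cel (PG G) X p, cel (PG G) X q, cel (PG G) X r, cel (PG G) X t].sum =
        cel (PG G) X t + cel (PG G) X r + cel (PG G) X q + cel (PG G) X p := by
      simp only [List.sum_cons, List.sum_nil]
      ring
    rw [hsum]
    have hd1 : 1 ≤ cel (PG G) X p := by
      have := (hKh k hk).2.2.2 p (by
        rw [Nat.primeFactors, a7]
        simp)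
      omega
    have hb5 := leaf5_bd (G := G) (A := A) (B := B) (by omega) hA hB ha ha' hb hb' hc hc' hd hd'
      a3 a4 hν1 hη0 hη7 hν2 a5 hd1
    have hδ0 : 0 < Real.log ((n : ℝ) / k) / L := by linarith
    have e1 : ν / (Real.log ((n : ℝ) / k) / L) = Real.log n / Real.log ((n : ℝ) / k) := by
      rw [hν]
      field_simp
    rw [e1] at hb5
    have hq0 : 0 ≤ Real.log n / Real.log ((n : ℝ) / k) := by
      rw [← e1]
      refine div_nonneg ?_ hδ0.le
      linarith
    rw [div_le_iff₀ (by positivity)]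
    have h3 := mul_le_mul_of_nonneg_right a6 hq0
    refine h3.trans (hb5.trans (le_of_eq ?_))
    show _ = ((leaf5 G A B (cel (PG G) X p) _ _ : ℕ) : ℝ) / 10 ^ 9 * (1 + 13 * η)
    ring)
  have e : ∑ k ∈ KQ5 X n (1 / 7), W k * (Real.log n / (k * Real.log ((n : ℝ) / k))) =
      (∑ k ∈ KQ5 X n (1 / 7),
        (W k * (Real.log n / Real.log ((n : ℝ) / k)) / (1 + 13 * η)) / k) * (1 + 13 * η) := by
    rw [sum_mul]
    refine sum_congr rfl fun k _ => ?_
    have : (1 + 13 * η) ≠ 0 := by positivity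
    field_simp
  rw [e]
  have h5 : 0 ≤ (v : ℝ) / 10 ^ 9 := by positivity
  calc _ ≤ (v : ℝ) / 10 ^ 9 * (1 + 13 * η) := mul_le_mul_of_nonneg_right key (by positivity)
    _ ≤ _ := mul_le_mul_of_nonneg_left (by linarith) h5

end Pool.MP_dd84fd_nt.MX
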