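import Pool.Agent.Lib.MP_dd84fd_nt.MX.TmB

/-!
# Theorem M, numerics: the leaf functions (helper98)
-/

set_option autoImplicit false

namespace Pool.MP_dd84fd_nt.MX

/-- a pair of small boxes; `A = 3 G / 7` -/
def ga4 (G A s : ℕ) : ℕ := if s + 2 < A then 3500000 * (A - s) / G + 1 else 1000000

/-- four boxes: `10^9 f4 * log n / log (n / k)` -/
def leaf4 (G A B : ℕ) (_h t : ℕ) : List ℕ → ℕ
  | [c, b, a] => if G < t + c then 0 else if t + 4 ≤ B then 0 else
      (ga4 G A (a + b) + ga4 G A (a + c) + ga4 G A (b + c)) * 1000 * G / (max c (G - t - 3)) + 1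
  | _ => 0

/-- a pair of small boxes -/
def hp5 (G A s : ℕ) : ℕ := if s + 2 ≤ A then 0 else min 500000 (2000000 - 3500000 * s / G)

/-- a pair which contains the largest box, `s` = sum of the three other cells -/
def hq5 (G B s : ℕ) : ℕ := if B < s then 0 else min 500000 (3500000 * (s + 3) / G + 1 - 1500000)

/-- five boxes: `10^9 f5 * log n / log (n / k)` -/
def leaf5 (G A B : ℕ) (_h t : ℕ) : List ℕ → ℕ
  | [d, c, b, a] => if G < t + d then 0 else
      (3000000 + (hp5 G A (a + b) + hp5 G A (a + c) + hp5 G A (a + d) + hp5 G A (b + c) +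
        hp5 G A (b + d) + hp5 G A (c + d)) +
        (hq5 G B (t - a) + hq5 G B (t - b) + hq5 G B (t - c) + hq5 G B (t - d))) * 1000 * G /
        (max d (G - t - 4)) + 1
  | _ => 0

/-- six boxes: `10^9 log n / log (n / k)` -/
def leaf6 (G : ℕ) (_h t : ℕ) : List ℕ → ℕ
  | [e, _, _, _, _] => if G < t + e then 0 else 10 ^ 9 * G / (max e (G - t - 5)) + 1
  | _ => 0

end Pool.MP_dd84fd_nt.MX
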